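import Mathlib

/-!
# Duhamel's formula in Banach algebras, general form
-/

namespace Pool.Agent.H993.TR

open Filter Topology NormedSpace MeasureTheory

section

variable {𝔸 : Type*} [NormedRing 𝔸] [NormedAlgebra ℝ 𝔸] [CompleteSpace 𝔸]

theorem duhamel_gen (L : 𝔸 →L[ℝ] ℝ) (G C : 𝔸) (t b : ℝ) :
    L (exp (b • (G + t • C))) - L (exp (b • G)) =
      t * ∫ u in (0:ℝ)..b, L (exp ((b - u) • G) * C * exp (u • (G + t • C))) := by
  let : NormedAlgebra ℚ 𝔸 := NormedAlgebra.restrictScalars ℚ ℝ 𝔸
  have h0 : Continuous (exp : 𝔸 → 𝔸) := NormedSpace.exp_continuous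
  have hd : ∀ u : ℝ, HasDerivAt (fun u : ℝ => L (exp ((b - u) • G) * exp (u • (G + t • C))))
      (t * L (exp ((b - u) • G) * C * exp (u • (G + t • C)))) u := by
    intro u
    have h1 : HasDerivAt (fun u : ℝ => exp ((b - u) • G)) ((-1 : ℝ) • (exp ((b - u) • G) * G)) u := by
      have ha := hasDerivAt_exp_smul_const (𝕂 := ℝ) G (b - u)
      have hb : HasDerivAt (fun u : ℝ => b - u) (-1) u := by
        simpa using (hasDerivAt_id u).const_sub b
      exact ha.scomp u hb
    have h2 : HasDerivAt (fun u : ℝ => exp (u • (G + t • C)))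
        ((G + t • C) * exp (u • (G + t • C))) u :=
      hasDerivAt_exp_smul_const' (𝕂 := ℝ) (G + t • C) u
    have h3 := h1.mul h2
    have h4 := L.hasFDerivAt.comp_hasDerivAt u h3
    have e3 : ((-1 : ℝ) • (exp ((b - u) • G) * G) * exp (u • (G + t • C)) +
        exp ((b - u) • G) * ((G + t • C) * exp (u • (G + t • C)))) =
        t • (exp ((b - u) • G) * C * exp (u • (G + t • C))) := by
      simp only [add_mul, mul_add, neg_mul, mul_neg, smul_mul_assoc, mul_smul_comm, mul_assoc,
        neg_smul, one_smul]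
      abel
    rw [e3, map_smul, smul_eq_mul] at h4
    exact h4
  have hcont : Continuous fun u : ℝ => t * L (exp ((b - u) • G) * C * exp (u • (G + t • C))) := by
    have h1 : Continuous fun u : ℝ => exp ((b - u) • G) := h0.comp (by fun_prop)
    have h2 : Continuous fun u : ℝ => exp (u • (G + t • C)) := h0.comp (by fun_prop)
    exact continuous_const.mul (L.continuous.comp ((h1.mul continuous_const).mul h2))
  have := intervalIntegral.integral_eq_sub_of_hasDerivAt (a := (0:ℝ)) (b := b)
    (fun u _ => hd u) (hcont.intervalIntegrable 0 b)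
  rw [intervalIntegral.integral_const_mul] at this
  rw [this]
  simp

end

end Pool.Agent.H993.TR
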