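import Mathlib

/-!
# A limit formula for the exponential in Banach algebras and for matrices
-/

namespace Pool.Agent.H993.TR

open Filter Topology NormedSpace

section Lim

variable {𝔸 : Type*} [NormedRing 𝔸] [NormedAlgebra ℝ 𝔸] [CompleteSpace 𝔸]

omit [CompleteSpace 𝔸] [NormedAlgebra ℝ 𝔸] in
lemma norm_pow_sub_pow_le (x y : 𝔸) (m : ℝ) (hm : 0 ≤ m) (hx : ‖x‖ ≤ m) (hy : ‖y‖ ≤ m) (k : ℕ) :
    ‖x ^ (k + 1) - y ^ (k + 1)‖ ≤ (k + 1) * m ^ k * ‖x - y‖ := by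
  induction k with
  | zero => simp
  | succ k ih =>
    have h1 : x ^ (k + 1 + 1) - y ^ (k + 1 + 1)
        = x ^ (k + 1) * (x - y) + (x ^ (k + 1) - y ^ (k + 1)) * y := by
      rw [pow_succ x (k + 1), pow_succ y (k + 1)]
      noncomm_ring
    rw [h1]
    have h2 : ‖x ^ (k + 1)‖ ≤ m ^ (k + 1) :=
      (norm_pow_le' x (Nat.succ_pos k)).trans (pow_le_pow_left₀ (norm_nonneg _) hx _)
    calc ‖x ^ (k + 1) * (x - y) + (x ^ (k + 1) - y ^ (k + 1)) * y‖
        ≤ ‖x ^ (k + 1)‖ * ‖x - y‖ + ‖x ^ (k + 1) - y ^ (k + 1)‖ * ‖y‖ :=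
          (norm_add_le _ _).trans (add_le_add (norm_mul_le _ _) (norm_mul_le _ _))
      _ ≤ m ^ (k + 1) * ‖x - y‖ + ((k + 1) * m ^ k * ‖x - y‖) * m := by
          gcongr
      _ = ((k + 1 : ℕ) + 1) * m ^ (k + 1) * ‖x - y‖ := by push_cast; ring

/-- If `k (x_k - 1) → M` then `x_k ^ k → exp M`. -/
theorem tendsto_pow_exp [NormOneClass 𝔸] {x : ℕ → 𝔸} {M : 𝔸}
    (h : Tendsto (fun k : ℕ => (k : ℝ) • (x k - 1)) atTop (𝓝 M)) :
    Tendsto (fun k => x k ^ k) atTop (𝓝 (exp M)) := by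
  letI : NormedAlgebra ℚ 𝔸 := NormedAlgebra.restrictScalars ℚ ℝ 𝔸
  set y : ℕ → 𝔸 := fun k => exp ((k : ℝ)⁻¹ • M) with hy
  have hyk : ∀ k : ℕ, 0 < k → y k ^ k = exp M := by
    intro k hk
    have hk' : (k : ℝ) ≠ 0 := by positivity
    rw [hy]
    simp only
    rw [← NormedSpace.exp_nsmul, ← Nat.cast_smul_eq_nsmul ℝ, smul_smul, mul_inv_cancel₀ hk', one_smul]
  have hylim : Tendsto (fun k : ℕ => (k : ℝ) • (y k - 1)) atTop (𝓝 M) := by
    have h1 : HasDerivAt (fun t : ℝ => exp (t • M)) M 0 := by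
      have := hasDerivAt_exp_smul_const (𝕂 := ℝ) M 0
      simpa using this
    have h2 := h1.tendsto_slope_zero_right
    have h3 : Tendsto (fun k : ℕ => ((k : ℝ))⁻¹) atTop (𝓝[>] 0) := by
      refine tendsto_nhdsWithin_iff.2 ⟨tendsto_inv_atTop_nhds_zero_nat, ?_⟩
      filter_upwards [eventually_gt_atTop 0] with k hk
      have : (0:ℝ) < k := by exact_mod_cast hk
      exact Set.mem_Ioi.2 (inv_pos.2 this)
    have h4 := h2.comp h3
    refine h4.congr fun k => ?_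
    simp only [Function.comp, inv_inv, zero_add, zero_smul, NormedSpace.exp_zero, hy]
  have hdiff : Tendsto (fun k : ℕ => (k : ℝ) * ‖x k - y k‖) atTop (𝓝 0) := by
    have h1 := (h.sub hylim).norm
    rw [sub_self, norm_zero] at h1
    refine h1.congr fun k => ?_
    rw [← smul_sub, sub_sub_sub_cancel_right, norm_smul, Real.norm_of_nonneg (Nat.cast_nonneg k)]
  -- uniform bound
  obtain ⟨C, hC⟩ : ∃ C : ℝ, ∀ k : ℕ, ‖(k : ℝ) • (x k - 1)‖ ≤ C ∧ ‖(k : ℝ) • (y k - 1)‖ ≤ C := by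
    obtain ⟨C1, h1⟩ := h.norm.bddAbove_range
    obtain ⟨C2, h2⟩ := hylim.norm.bddAbove_range
    exact ⟨max C1 C2, fun k => ⟨(h1 ⟨k, rfl⟩).trans (le_max_left _ _),
      (h2 ⟨k, rfl⟩).trans (le_max_right _ _)⟩⟩
  have hC0 : 0 ≤ C := (norm_nonneg _).trans (hC 0).1
  have hb : ∀ (z : ℕ → 𝔸), (∀ k : ℕ, ‖(k : ℝ) • (z k - 1)‖ ≤ C) → ∀ k : ℕ, 0 < k →
      ‖z k‖ ≤ 1 + C / k := by
    intro z hz k hk
    have hk' : (0:ℝ) < k := by exact_mod_cast hk
    have h1 := hz k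
    rw [norm_smul, Real.norm_of_nonneg hk'.le] at h1
    have h2 : ‖z k - 1‖ ≤ C / k := by rw [le_div_iff₀ hk']; linarith
    calc ‖z k‖ = ‖1 + (z k - 1)‖ := by congr 1; abel
      _ ≤ ‖(1 : 𝔸)‖ + ‖z k - 1‖ := norm_add_le _ _
      _ ≤ 1 + C / k := by rw [norm_one]; linarith
  have hexp : ∀ k : ℕ, 0 < k → (1 + C / k) ^ k ≤ Real.exp C := by
    intro k hk
    have hk' : (0:ℝ) < k := by exact_mod_cast hk
    have h1 : 1 + C / k ≤ Real.exp (C / k) := by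
      have := Real.add_one_le_exp (C / k); linarith
    calc (1 + C / k) ^ k ≤ (Real.exp (C / k)) ^ k := pow_le_pow_left₀ (by positivity) h1 k
      _ = Real.exp C := by rw [← Real.exp_nat_mul]; congr 1; field_simp
  have hkey : ∀ᶠ k : ℕ in atTop, ‖x k ^ k - exp M‖ ≤ Real.exp C * ((k : ℝ) * ‖x k - y k‖) := by
    filter_upwards [eventually_gt_atTop 0] with k hk
    have hk' : (0:ℝ) < k := by exact_mod_cast hk
    rw [← hyk k hk]
    obtain ⟨j, rfl⟩ : ∃ j, k = j + 1 := ⟨k - 1, by omega⟩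
    have h1 := norm_pow_sub_pow_le (x (j+1)) (y (j+1)) (1 + C / (j+1 : ℕ)) (by positivity)
      (hb x (fun k => (hC k).1) _ hk) (hb y (fun k => (hC k).2) _ hk) j
    refine h1.trans ?_
    have h2 : (1 + C / (j+1 : ℕ)) ^ j ≤ Real.exp C := by
      refine le_trans ?_ (hexp (j+1) hk)
      exact pow_le_pow_right₀ (by have : 0 ≤ C / ((j+1 : ℕ) : ℝ) := by positivity
                                  linarith) (Nat.le_succ j)
    calc ((j:ℝ) + 1) * (1 + C / (j+1 : ℕ)) ^ j * ‖x (j+1) - y (j+1)‖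
        ≤ ((j:ℝ) + 1) * Real.exp C * ‖x (j+1) - y (j+1)‖ := by gcongr
      _ = Real.exp C * (((j+1 : ℕ) : ℝ) * ‖x (j+1) - y (j+1)‖) := by push_cast; ring
  rw [tendsto_iff_norm_sub_tendsto_zero]
  refine squeeze_zero' (Eventually.of_forall fun k => norm_nonneg _) hkey ?_
  simpa using hdiff.const_mul (Real.exp C)

end Lim

section Mat

variable {n : Type*} [Fintype n] [DecidableEq n]

/-- The matrix version of `tendsto_pow_exp`. -/
theorem mat_tendsto_pow_exp (x : ℕ → Matrix n n ℝ) (M : Matrix n n ℝ)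
    (h : Tendsto (fun k : ℕ => (k : ℝ) • (x k - 1)) atTop (𝓝 M)) :
    Tendsto (fun k => x k ^ k) atTop (𝓝 (exp M)) := by
  rcases isEmpty_or_nonempty n with hn | hn
  · have : ∀ k, x k ^ k = exp M := fun k => Subsingleton.elim _ _
    simp only [this]
    exact tendsto_const_nhds
  · letI := Matrix.linftyOpNormedRing (n := n) (α := ℝ)
    letI := Matrix.linftyOpNormedAlgebra (n := n) (α := ℝ) (R := ℝ)
    exact tendsto_pow_exp h

end Mat

end Pool.Agent.H993.TR
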