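import Mathlib
import Pool.Agent.H993.TR.Lim

/-!
# A cone of families of matrices on a tensor square, closed under products and exponentials
-/

namespace Pool.Agent.H993.TR

open Filter Topology NormedSpace Matrix
open scoped MatrixOrder ComplexOrder Kronecker

variable {S α : Type} [Fintype S] [DecidableEq S] [Fintype α] [DecidableEq α]

/-- The matrix whose positivity defines the cone. -/
def gram (M : S → S → Matrix (α × α) (α × α) ℝ) : Matrix (S × α × α) (S × α × α) ℝ :=
  fun u v => M u.1 v.1 (u.2.1, v.2.1) (u.2.2, v.2.2)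

/-- The families of the form `M s t = ∑ i, X i s ⊗ X i t`. -/
def Cone (M : S → S → Matrix (α × α) (α × α) ℝ) : Prop := (gram M).PosSemidef

theorem cone_of_sum {ι : Type} [Fintype ι] (X : ι → S → Matrix α α ℝ) :
    Cone (fun s t => ∑ i, X i s ⊗ₖ X i t) := by
  set Y : Matrix ι (S × α × α) ℝ := Matrix.of fun i u => X i u.1 u.2.1 u.2.2 with hY
  have : gram (fun s t => ∑ i, X i s ⊗ₖ X i t) = Yᴴ * Y := by
    ext u v
    simp [gram, Matrix.sum_apply, Matrix.mul_apply, Matrix.kroneckerMap_apply,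
      Matrix.conjTranspose_apply, hY]
  unfold Cone
  rw [this]
  exact posSemidef_conjTranspose_mul_self _

theorem Cone.exists_sum {M : S → S → Matrix (α × α) (α × α) ℝ} (h : Cone M) :
    ∃ X : (S × α × α) → S → Matrix α α ℝ, ∀ s t, M s t = ∑ i, X i s ⊗ₖ X i t := by
  obtain ⟨B, hB⟩ := CStarAlgebra.nonneg_iff_eq_star_mul_self.mp h.nonneg
  refine ⟨fun i s => Matrix.of fun a c => B i (s, a, c), fun s t => ?_⟩
  ext ⟨a, b⟩ ⟨c, d⟩
  have h1 : M s t (a, b) (c, d) = gram M (s, a, c) (t, b, d) := rfl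
  rw [h1, hB, Matrix.sum_apply, Matrix.mul_apply]
  refine Finset.sum_congr rfl fun i _ => ?_
  simp [Matrix.kroneckerMap_apply, Matrix.star_apply]

theorem Cone.mul {M N : S → S → Matrix (α × α) (α × α) ℝ} (hM : Cone M) (hN : Cone N) :
    Cone (fun s t => M s t * N s t) := by
  obtain ⟨X, hX⟩ := hM.exists_sum
  obtain ⟨Y, hY⟩ := hN.exists_sum
  have h : (fun s t => M s t * N s t) = fun s t =>
      ∑ p : (S × α × α) × (S × α × α), (X p.1 s * Y p.2 s) ⊗ₖ (X p.1 t * Y p.2 t) := by
    funext s t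
    rw [hX, hY, Finset.sum_mul_sum, Fintype.sum_prod_type (f := fun p => (X p.1 s * Y p.2 s) ⊗ₖ
      (X p.1 t * Y p.2 t))]
    simp only [Matrix.mul_kronecker_mul]
  rw [h]
  exact cone_of_sum (fun p : (S × α × α) × (S × α × α) => fun s => X p.1 s * Y p.2 s)

theorem Cone.add {M N : S → S → Matrix (α × α) (α × α) ℝ} (hM : Cone M) (hN : Cone N) :
    Cone (fun s t => M s t + N s t) := by
  have : gram (fun s t => M s t + N s t) = gram M + gram N := rfl
  unfold Cone
  rw [this]
  exact Matrix.PosSemidef.add hM hN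

theorem Cone.smul {M : S → S → Matrix (α × α) (α × α) ℝ} (hM : Cone M) {c : ℝ} (hc : 0 ≤ c) :
    Cone (fun s t => c • M s t) := by
  have : gram (fun s t => c • M s t) = c • gram M := rfl
  unfold Cone
  rw [this]
  exact Matrix.PosSemidef.smul hM hc

theorem cone_zero : Cone (fun _ _ => 0 : S → S → Matrix (α × α) (α × α) ℝ) :=
  Matrix.PosSemidef.zero

theorem cone_kron (X : S → Matrix α α ℝ) : Cone (fun s t => X s ⊗ₖ X t) := by
  have := cone_of_sum (fun _ : Unit => X)
  simpa using this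

theorem cone_one : Cone (fun _ _ => 1 : S → S → Matrix (α × α) (α × α) ℝ) := by
  have := cone_kron (S := S) (fun _ => (1 : Matrix α α ℝ))
  simpa using this

theorem Cone.pow {M : S → S → Matrix (α × α) (α × α) ℝ} (hM : Cone M) (k : ℕ) :
    Cone (fun s t => M s t ^ k) := by
  induction k with
  | zero => simpa using cone_one
  | succ k ih =>
    have := ih.mul hM
    simpa only [pow_succ] using this

theorem Cone.sum {ι : Type} (T : Finset ι) {M : ι → S → S → Matrix (α × α) (α × α) ℝ}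
    (hM : ∀ i ∈ T, Cone (M i)) : Cone (fun s t => ∑ i ∈ T, M i s t) := by
  classical
  induction T using Finset.induction_on with
  | empty => simpa using cone_zero
  | insert a T ha ih =>
    have h1 := (hM a (Finset.mem_insert_self a T)).add
      (ih fun i hi => hM i (Finset.mem_insert_of_mem hi))
    simpa only [Finset.sum_insert ha] using h1

theorem cone_closed {M : ℕ → S → S → Matrix (α × α) (α × α) ℝ}
    {N : S → S → Matrix (α × α) (α × α) ℝ} (hM : ∀ k, Cone (M k))
    (h : ∀ s t, Tendsto (fun k => M k s t) atTop (𝓝 (N s t))) : Cone N := by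
  have hent : ∀ u v, Tendsto (fun k => gram (M k) u v) atTop (𝓝 (gram N u v)) := by
    intro u v
    have h1 := h u.1 v.1
    have h2 := (tendsto_pi_nhds.1 h1) (u.2.1, v.2.1)
    exact (tendsto_pi_nhds.1 h2) (u.2.2, v.2.2)
  unfold Cone
  rw [posSemidef_iff_dotProduct_mulVec]
  constructor
  · ext u v
    rw [Matrix.conjTranspose_apply]
    have h1 : ∀ k, star (gram (M k) v u) = gram (M k) u v := fun k => (hM k).isHermitian.apply u v
    have h2 : Tendsto (fun k => star (gram (M k) v u)) atTop (𝓝 (star (gram N v u))) := by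
      simpa using hent v u
    simp only [h1] at h2
    exact tendsto_nhds_unique h2 (hent u v)
  · intro x
    have h1 : ∀ k, 0 ≤ star x ⬝ᵥ (gram (M k) *ᵥ x) := fun k => (hM k).dotProduct_mulVec_nonneg x
    refine ge_of_tendsto' (x := atTop) (f := fun k => star x ⬝ᵥ (gram (M k) *ᵥ x)) ?_ h1
    simp only [dotProduct, mulVec]
    refine tendsto_finsetSum _ fun u _ => Tendsto.const_mul _ ?_
    exact tendsto_finsetSum _ fun v _ => (hent u v).mul_const _

/-- The exponential of an operator of this form is in the cone. -/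
theorem cone_exp (A : S → Matrix α α ℝ) {B : S → S → Matrix (α × α) (α × α) ℝ} (hB : Cone B) :
    Cone (fun s t => exp (A s ⊗ₖ (1 : Matrix α α ℝ) + (1 : Matrix α α ℝ) ⊗ₖ A t + B s t)) := by
  set x : ℕ → S → S → Matrix (α × α) (α × α) ℝ := fun k s t =>
    (1 + (k : ℝ)⁻¹ • A s) ⊗ₖ (1 + (k : ℝ)⁻¹ • A t) + (k : ℝ)⁻¹ • B s t with hx
  have hc : ∀ k, Cone (x k) := fun k =>
    (cone_kron fun s => 1 + (k : ℝ)⁻¹ • A s).add (hB.smul (by positivity))
  refine cone_closed (fun k => (hc k).pow k) fun s t => ?_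
  refine mat_tendsto_pow_exp _ _ ?_
  have h1 : ∀ᶠ k : ℕ in atTop, (A s ⊗ₖ (1 : Matrix α α ℝ) + (1 : Matrix α α ℝ) ⊗ₖ A t + B s t)
      + (k : ℝ)⁻¹ • (A s ⊗ₖ A t) = (k : ℝ) • (x k s t - 1) := by
    filter_upwards [eventually_gt_atTop 0] with k hk
    have hk' : (k : ℝ) ≠ 0 := by positivity
    rw [hx]
    simp only [Matrix.kronecker_add, Matrix.add_kronecker, Matrix.smul_kronecker,
      Matrix.kronecker_smul, Matrix.one_kronecker_one, smul_add, smul_sub, smul_smul]
    rw [mul_inv_cancel₀ hk']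
    ext i j
    simp only [Matrix.add_apply, Matrix.sub_apply, Matrix.smul_apply, smul_eq_mul]
    field_simp
    ring
  refine Tendsto.congr' h1 ?_
  have h2 : Tendsto (fun k : ℕ => ((k : ℝ)⁻¹) • (A s ⊗ₖ A t)) atTop (𝓝 ((0:ℝ) • (A s ⊗ₖ A t))) :=
    tendsto_inv_atTop_nhds_zero_nat.smul_const _
  rw [zero_smul] at h2
  simpa using h2.const_add (A s ⊗ₖ (1 : Matrix α α ℝ) + (1 : Matrix α α ℝ) ⊗ₖ A t + B s t)

theorem Cone.trace_nonneg {M : S → S → Matrix (α × α) (α × α) ℝ} (hM : Cone M) (s : S) :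
    0 ≤ (M s s).trace := by
  obtain ⟨X, hX⟩ := hM.exists_sum
  rw [hX, Matrix.trace_sum]
  refine Finset.sum_nonneg fun i _ => ?_
  rw [Matrix.trace_kronecker]
  exact mul_self_nonneg _

/-- Cauchy-Schwarz for traces. -/
theorem Cone.trace_sq_le {M : S → S → Matrix (α × α) (α × α) ℝ} (hM : Cone M) (s t : S) :
    (M s t).trace ^ 2 ≤ (M s s).trace * (M t t).trace := by
  obtain ⟨X, hX⟩ := hM.exists_sum
  simp only [hX, Matrix.trace_sum, Matrix.trace_kronecker]
  have := Finset.sum_mul_sq_le_sq_mul_sq Finset.univ (fun i => (X i s).trace)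
    (fun i => (X i t).trace)
  simpa only [pow_two] using this

end Pool.Agent.H993.TR
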