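import Mathlib
import Pool.Agent.H993.TR.Cone

/-!
# Reflection positivity: the basic inequality on a tensor square
-/

namespace Pool.Agent.H993.TR

open Filter Topology NormedSpace Matrix
open scoped Kronecker

section

variable {n : Type} [Fintype n] [DecidableEq n]

theorem exp_add_smul_one (X : Matrix n n ℝ) (s : ℝ) :
    exp (X + s • (1 : Matrix n n ℝ)) = Real.exp s • exp X := by
  have h1 : Commute X (s • (1 : Matrix n n ℝ)) := (Commute.one_right X).smul_right s
  rw [Matrix.exp_add_of_commute _ _ h1]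
  have h2 : exp (s • (1 : Matrix n n ℝ)) = Real.exp s • (1 : Matrix n n ℝ) := by
    have : s • (1 : Matrix n n ℝ) = Matrix.diagonal (fun _ => s) := by
      rw [← Matrix.diagonal_one, ← Matrix.diagonal_smul]
      congr 1; ext; simp
    rw [this, Matrix.exp_diagonal]
    ext i j
    by_cases h : i = j
    · subst h; simp [Real.exp_eq_exp_ℝ]
    · simp [h]
  rw [h2]
  simp

end

variable {A α : Type} [Fintype A] [DecidableEq A] [Fintype α] [DecidableEq α]

/-- The two layer operator. -/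
noncomputable def TT (M0 : Matrix α α ℝ) (C R : A → Matrix α α ℝ) (κ : A → ℝ) (k0 k1 : A → ℝ) :
    Matrix (α × α) (α × α) ℝ :=
  (M0 + ∑ a, k0 a • C a) ⊗ₖ (1 : Matrix α α ℝ) + (1 : Matrix α α ℝ) ⊗ₖ (M0 + ∑ a, k1 a • C a)
    + ∑ a, κ a • (C a ⊗ₖ C a + R a ⊗ₖ R a)

theorem rps (M0 : Matrix α α ℝ) (C R : A → Matrix α α ℝ) (κ η : A → ℝ) (hκ : ∀ a, 0 ≤ κ a)
    (k0 k1 : A → ℝ) :
    (exp (TT M0 C R κ k0 k1)).trace ^ 2 ≤ Real.exp (∑ a, κ a * η a ^ 2) *
      ((exp (TT M0 C R κ (fun a => k0 a - κ a * η a) (fun a => k0 a - κ a * η a))).trace *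
       (exp (TT M0 C R κ (fun a => k1 a + κ a * η a) (fun a => k1 a + κ a * η a))).trace) := by
  classical
  set ε : Bool → ℝ := fun s => if s then -1 else 1 with hε
  set AA : Bool → Matrix α α ℝ := fun s =>
    M0 + ∑ a, ((if s then k1 a else k0 a) - ε s * (κ a * η a / 2)) • C a with hAA
  set X : A → Bool → Matrix α α ℝ := fun a s => C a - (ε s * (η a / 2)) • 1 with hX
  set BB : Bool → Bool → Matrix (α × α) (α × α) ℝ := fun s t =>
    ∑ a, κ a • (X a s ⊗ₖ X a t + R a ⊗ₖ R a) with hBB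
  have hcone : Cone BB := by
    rw [hBB]
    refine Cone.sum Finset.univ (M := fun a s t => κ a • (X a s ⊗ₖ X a t + R a ⊗ₖ R a))
      fun a _ => ?_
    exact ((cone_kron (X a)).add (cone_kron (S := Bool) (fun _ => R a))).smul (hκ a)
  have hE := cone_exp AA hcone
  set Q : ℝ := ∑ a, κ a * η a ^ 2 with hQ
  -- the general identity
  have hid : ∀ (s t : Bool) (u v : A → ℝ),
      (∀ a, u a = (if s then k1 a else k0 a) - ε s * (κ a * η a / 2) - κ a * (ε t * (η a / 2))) →
      (∀ a, v a = (if t then k1 a else k0 a) - ε t * (κ a * η a / 2) - κ a * (ε s * (η a / 2))) →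
      AA s ⊗ₖ (1 : Matrix α α ℝ) + (1 : Matrix α α ℝ) ⊗ₖ AA t + BB s t =
        TT M0 C R κ u v + (ε s * ε t * (Q / 4)) • (1 : Matrix (α × α) (α × α) ℝ) := by
    intro s t u v hu hv
    ext ⟨i, j⟩ ⟨i', j'⟩
    simp only [hAA, hBB, hX, TT, Matrix.add_apply, Matrix.kroneckerMap_apply, Matrix.sum_apply,
      Matrix.smul_apply, Matrix.sub_apply, smul_eq_mul, hu, hv]
    rw [add_mul, add_mul, mul_add, mul_add, hQ]
    have h1 : (1 : Matrix (α × α) (α × α) ℝ) (i, j) (i', j') =
        (1 : Matrix α α ℝ) i i' * (1 : Matrix α α ℝ) j j' := by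
      rw [← Matrix.one_kronecker_one, Matrix.kroneckerMap_apply]
    rw [h1]
    simp only [Finset.sum_mul, Finset.mul_sum, Finset.sum_div]
    rw [← sub_eq_zero]
    have e1 : ∀ (a b c d e f g h k : ℝ), a + b + (c + d) + e - (a + f + (c + g) + h + k) =
      (b + d + e - f - g - h - k) := by intros; ring
    rw [e1, ← Finset.sum_add_distrib, ← Finset.sum_add_distrib, ← Finset.sum_sub_distrib,
      ← Finset.sum_sub_distrib, ← Finset.sum_sub_distrib, ← Finset.sum_sub_distrib]
    refine Finset.sum_eq_zero fun a _ => ?_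
    ring
  have hft := hid false true k0 k1 (by intro a; simp [hε]; ring) (by intro a; simp [hε]; ring)
  have hff := hid false false (fun a => k0 a - κ a * η a) (fun a => k0 a - κ a * η a)
    (by intro a; simp [hε]; ring) (by intro a; simp [hε]; ring)
  have htt := hid true true (fun a => k1 a + κ a * η a) (fun a => k1 a + κ a * η a)
    (by intro a; simp [hε]; ring) (by intro a; simp [hε]; ring)
  have h1 := hE.trace_sq_le false true
  rw [hft, hff, htt, exp_add_smul_one, exp_add_smul_one, exp_add_smul_one, Matrix.trace_smul,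
    Matrix.trace_smul, Matrix.trace_smul] at h1
  simp only [smul_eq_mul] at h1
  have e1 : ε false * ε true * (Q / 4) = -(Q / 4) := by simp [hε]
  have e2 : ε false * ε false * (Q / 4) = Q / 4 := by simp [hε]
  have e3 : ε true * ε true * (Q / 4) = Q / 4 := by simp [hε]
  rw [e1, e2, e3] at h1
  set T1 := (exp (TT M0 C R κ k0 k1)).trace
  set T2 := (exp (TT M0 C R κ (fun a => k0 a - κ a * η a) (fun a => k0 a - κ a * η a))).trace
  set T3 := (exp (TT M0 C R κ (fun a => k1 a + κ a * η a) (fun a => k1 a + κ a * η a))).trace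
  have hQ4 : Real.exp Q = Real.exp (Q/4) ^ 4 := by rw [← Real.exp_nat_mul]; congr 1; push_cast; ring
  have hm : Real.exp (-(Q/4)) * Real.exp (Q/4) = 1 := by rw [← Real.exp_add]; simp
  have hp : 0 < Real.exp (Q/4) := Real.exp_pos _
  have h2 : T1 ^ 2 = Real.exp (Q/4) ^ 2 * (Real.exp (-(Q/4)) * T1) ^ 2 := by
    have : (Real.exp (-(Q/4)) * Real.exp (Q/4)) ^ 2 = 1 := by rw [hm]; ring
    calc T1 ^ 2 = (Real.exp (-(Q/4)) * Real.exp (Q/4)) ^ 2 * T1 ^ 2 := by rw [this, one_mul]
      _ = _ := by ring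
  rw [h2, hQ4]
  calc Real.exp (Q/4) ^ 2 * (Real.exp (-(Q/4)) * T1) ^ 2
      ≤ Real.exp (Q/4) ^ 2 * (Real.exp (Q/4) * T2 * (Real.exp (Q/4) * T3)) := by gcongr
    _ = Real.exp (Q/4) ^ 4 * (T2 * T3) := by ring

end Pool.Agent.H993.TR
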