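import Mathlib
import Pool.Agent.H993.TR.RPS

/-!
# Entries of matrix exponentials
-/

namespace Pool.Agent.H993.TR

open Filter Topology NormedSpace Matrix

section

variable {n m : Type} [Fintype n] [DecidableEq n] [Fintype m] [DecidableEq m]

theorem mat_exp_hasSum (X : Matrix n n ℝ) :
    HasSum (fun k : ℕ => ((k.factorial : ℝ)⁻¹) • X ^ k) (exp X) := by
  let := Matrix.linftyOpNormedRing (n := n) (α := ℝ)
  let := Matrix.linftyOpNormedAlgebra (n := n) (α := ℝ) (R := ℝ)
  exact NormedSpace.exp_series_hasSum_exp' (𝕂 := ℝ) X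

theorem mat_exp_entry (X : Matrix n n ℝ) (i j : n) :
    HasSum (fun k : ℕ => ((k.factorial : ℝ)⁻¹) * (X ^ k) i j) (exp X i j) := by
  have h := mat_exp_hasSum X
  have h1 := (Pi.hasSum.1 h i)
  have h2 := (Pi.hasSum.1 h1 j)
  simpa using h2

theorem exp_submatrix_equiv (e : m ≃ n) (X : Matrix n n ℝ) :
    exp (X.submatrix e e) = (exp X).submatrix e e := by
  have hpow : ∀ k : ℕ, (X.submatrix e e) ^ k = (X ^ k).submatrix e e := by
    intro k
    induction k with
    | zero => simp
    | succ k ih => rw [pow_succ, ih, Matrix.submatrix_mul_equiv, pow_succ]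
  ext i j
  have h1 := mat_exp_entry (X.submatrix e e) i j
  have h2 := mat_exp_entry X (e i) (e j)
  simp only [hpow, Matrix.submatrix_apply] at h1
  exact h1.unique h2

theorem trace_exp_submatrix_equiv (e : m ≃ n) (X : Matrix n n ℝ) :
    (exp (X.submatrix e e)).trace = (exp X).trace := by
  rw [exp_submatrix_equiv]
  simp only [Matrix.trace, Matrix.diag_apply, Matrix.submatrix_apply]
  exact e.sum_comp (fun i => exp X i i)

theorem pow_nonneg_entry {X : Matrix n n ℝ} (hX : ∀ i j, 0 ≤ X i j) (k : ℕ) (i j : n) :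
    0 ≤ (X ^ k) i j := by
  induction k generalizing i j with
  | zero => rw [pow_zero, Matrix.one_apply]; split_ifs <;> norm_num
  | succ k ih =>
    rw [pow_succ, Matrix.mul_apply]
    exact Finset.sum_nonneg fun l _ => mul_nonneg (ih i l) (hX l j)

theorem exp_nonneg_entry {X : Matrix n n ℝ} (hX : ∀ i j, 0 ≤ X i j) (i j : n) :
    0 ≤ exp X i j := by
  refine (mat_exp_entry X i j).nonneg fun k => ?_
  exact mul_nonneg (by positivity) (pow_nonneg_entry hX k i j)

/-- Exponentials of matrices with nonnegative off-diagonal entries are nonnegative. -/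
theorem exp_nonneg_of_offdiag {X : Matrix n n ℝ} (hX : ∀ i j, i ≠ j → 0 ≤ X i j) (i j : n) :
    0 ≤ exp X i j := by
  obtain ⟨s, hs⟩ : ∃ s : ℝ, ∀ i, 0 ≤ X i i + s := by
    obtain ⟨s, hs⟩ := (Set.finite_range (fun i => - X i i)).bddAbove
    exact ⟨s, fun i => by have := hs ⟨i, rfl⟩; simp only at this; linarith⟩
  have h1 : ∀ i j, 0 ≤ (X + s • (1 : Matrix n n ℝ)) i j := by
    intro i j
    by_cases h : i = j
    · subst h; simpa using hs i
    · simpa [h] using hX i j h
  have h2 := exp_nonneg_entry h1 i j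
  rw [exp_add_smul_one] at h2
  simp only [Matrix.smul_apply, smul_eq_mul] at h2
  exact nonneg_of_mul_nonneg_right h2 (Real.exp_pos s)

end

end Pool.Agent.H993.TR
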