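import Mathlib
import Pool.Agent.H993.TR.MatExp

/-!
# Reflection positivity for a reflection of the sites
-/

namespace Pool.Agent.H993.TR

open Filter Topology NormedSpace Matrix
open scoped Kronecker

variable {V B : Type} [Fintype V] [DecidableEq V] [Fintype B] [DecidableEq B]

/-- Product operator. -/
def pr (X : V → Matrix B B ℝ) : Matrix (V → B) (V → B) ℝ := fun n m => ∏ x, X x (n x) (m x)

/-- The operator `X` at the site `x`. -/
def st (x : V) (X : Matrix B B ℝ) : Matrix (V → B) (V → B) ℝ :=
  pr (Function.update (fun _ => 1) x X)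

theorem pr_one : pr (fun _ : V => (1 : Matrix B B ℝ)) = 1 := by
  ext n m
  unfold pr
  by_cases h : n = m
  · subst h; simp
  · rw [Matrix.one_apply_ne h]
    obtain ⟨x, hx⟩ := Function.ne_iff.1 h
    exact Finset.prod_eq_zero (Finset.mem_univ x) (Matrix.one_apply_ne hx)

theorem pr_mul (X Y : V → Matrix B B ℝ) : pr X * pr Y = pr (fun x => X x * Y x) := by
  ext n m
  rw [Matrix.mul_apply]
  unfold pr
  simp only [Matrix.mul_apply]
  rw [Finset.prod_univ_sum, Fintype.piFinset_univ]
  refine Finset.sum_congr rfl fun k _ => ?_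
  rw [Finset.prod_mul_distrib]

/-- The generator `-β H` of a system with site operators `P`, `c` (even) and `r` (odd). -/
noncomputable def gen (P c r : Matrix B B ℝ) (w : V → V → ℝ) (k : V → ℝ) :
    Matrix (V → B) (V → B) ℝ :=
  ∑ x, st x P + ∑ x, k x • st x c
    + (1 / 2 : ℝ) • ∑ x, ∑ y, w x y • (st x c * st y c - st x r * st y r)

section Half

variable (R : V → V) (σ : V → Bool) (hR : ∀ x, R (R x) = x) (hσ : ∀ x, σ (R x) = !σ x)

/-- Half of the lattice. -/
abbrev Half (σ : V → Bool) : Type := {x : V // σ x = false}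

/-- The other half. -/
def halfEquiv : Half σ ≃ {x : V // ¬ σ x = false} where
  toFun a := ⟨R a.1, by rw [hσ, a.2]; simp⟩
  invFun b := ⟨R b.1, by rw [hσ]; have := b.2; revert this; cases σ b.1 <;> simp⟩
  left_inv a := Subtype.ext (hR a.1)
  right_inv b := Subtype.ext (hR b.1)

include hR hσ in
theorem prod_half (f : V → ℝ) : ∏ x, f x = (∏ a : Half σ, f a.1) * ∏ a : Half σ, f (R a.1) := by
  rw [← Fintype.prod_subtype_mul_prod_subtype (fun x => σ x = false) f]
  congr 1
  exact ((halfEquiv R σ hR hσ).prod_comp (fun b => f b.1)).symm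

include hR hσ in
theorem sum_half {M : Type} [AddCommMonoid M] (f : V → M) :
    ∑ x, f x = (∑ a : Half σ, f a.1) + ∑ a : Half σ, f (R a.1) := by
  rw [← Fintype.sum_subtype_add_sum_subtype (fun x => σ x = false) f]
  congr 1
  exact ((halfEquiv R σ hR hσ).sum_comp (fun b => f b.1)).symm

variable (fl : B ≃ B) (hfl : ∀ b, fl (fl b) = b)

/-- Configurations of the lattice and of two copies of the half. -/
def confEquiv : (V → B) ≃ (Half σ → B) × (Half σ → B) where
  toFun n := (fun a => n a.1, fun a => fl (n (R a.1)))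
  invFun p := fun x => if h : σ x = false then p.1 ⟨x, h⟩ else
    fl (p.2 ⟨R x, by rw [hσ]; revert h; cases σ x <;> simp⟩)
  left_inv n := by
    funext x
    by_cases h : σ x = false
    · simp [h]
    · simp [h, hR, hfl]
  right_inv p := by
    ext a
    · simp [a.2]
    · have h1 : ¬ σ (R a.1) = false := by rw [hσ, a.2]; simp
      have h2 : σ (R (R a.1)) = false := by rw [hR]; exact a.2
      have h3 : (⟨R (R a.1), h2⟩ : Half σ) = a := Subtype.ext (hR a.1)
      show fl (if h : σ (R a.1) = false then p.1 ⟨R a.1, h⟩ else fl (p.2 ⟨R (R a.1), _⟩)) = _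
      rw [dif_neg h1, hfl, h3]

theorem pr_conf (X : V → Matrix B B ℝ) :
    (pr X).submatrix (confEquiv R σ hR hσ fl hfl).symm (confEquiv R σ hR hσ fl hfl).symm =
      pr (fun a : Half σ => X a.1) ⊗ₖ pr (fun a : Half σ => (X (R a.1)).submatrix fl fl) := by
  ext p q
  rw [Matrix.submatrix_apply, Matrix.kroneckerMap_apply]
  unfold pr
  rw [prod_half R σ hR hσ]
  have h0 : ∀ (p : (Half σ → B) × (Half σ → B)) (a : Half σ),
      (confEquiv R σ hR hσ fl hfl).symm p a.1 = p.1 a := by
    intro p a
    show (if h : σ a.1 = false then p.1 ⟨a.1, h⟩ else _) = _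
    rw [dif_pos a.2]
  have h1 : ∀ (p : (Half σ → B) × (Half σ → B)) (a : Half σ),
      (confEquiv R σ hR hσ fl hfl).symm p (R a.1) = fl (p.2 a) := by
    intro p a
    have h1 : ¬ σ (R a.1) = false := by rw [hσ, a.2]; simp
    have h2 : σ (R (R a.1)) = false := by rw [hR]; exact a.2
    have h3 : (⟨R (R a.1), h2⟩ : Half σ) = a := Subtype.ext (hR a.1)
    show (if h : σ (R a.1) = false then p.1 ⟨R a.1, h⟩ else fl (p.2 ⟨R (R a.1), _⟩)) = _
    rw [dif_neg h1, h3]
  congr 1
  · exact Finset.prod_congr rfl fun a _ => by rw [h0, h0]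
  · refine Finset.prod_congr rfl fun a _ => ?_
    rw [h1, h1]
    rfl

theorem st_conf_left (a : Half σ) (X : Matrix B B ℝ) :
    (st a.1 X).submatrix (confEquiv R σ hR hσ fl hfl).symm (confEquiv R σ hR hσ fl hfl).symm =
      st a X ⊗ₖ 1 := by
  unfold st
  rw [pr_conf, ← pr_one (V := Half σ) (B := B)]
  congr 1
  · congr 1
    funext b
    by_cases h : b = a
    · subst h; simp
    · have h' : b.1 ≠ a.1 := fun h' => h (Subtype.ext h')
      rw [Function.update_of_ne h, Function.update_of_ne h']
  · congr 1
    funext b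
    have h' : R b.1 ≠ a.1 := by
      intro h'
      have := hσ b.1
      rw [h', a.2, b.2] at this
      simp at this
    rw [Function.update_of_ne h']
    simp

theorem st_conf_right (a : Half σ) (X : Matrix B B ℝ) :
    (st (R a.1) X).submatrix (confEquiv R σ hR hσ fl hfl).symm
      (confEquiv R σ hR hσ fl hfl).symm = 1 ⊗ₖ st a (X.submatrix fl fl) := by
  unfold st
  rw [pr_conf, ← pr_one (V := Half σ) (B := B)]
  congr 1
  · congr 1
    funext b
    have h' : b.1 ≠ R a.1 := by
      intro h'
      have := hσ a.1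
      rw [← h', a.2, b.2] at this
      simp at this
    rw [Function.update_of_ne h']
  · congr 1
    funext b
    by_cases h : b = a
    · subst h; simp
    · have h' : R b.1 ≠ R a.1 := by
        intro h'
        apply h
        apply Subtype.ext
        rw [← hR b.1, h', hR]
      rw [Function.update_of_ne h, Function.update_of_ne h']
      simp

end Half

theorem st_one (x : V) : st x (1 : Matrix B B ℝ) = 1 := by
  unfold st
  rw [← pr_one (V := V) (B := B)]
  congr 1
  funext y
  by_cases h : y = x
  · subst h; simp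
  · rw [Function.update_of_ne h]

theorem st_smul (x : V) (a : ℝ) (X : Matrix B B ℝ) : st x (a • X) = a • st x X := by
  ext n m
  unfold st pr
  rw [Matrix.smul_apply, smul_eq_mul]
  rw [← Finset.mul_prod_erase _ _ (Finset.mem_univ x), ← Finset.mul_prod_erase _ _ (Finset.mem_univ x)]
  simp only [Function.update_self, Matrix.smul_apply, smul_eq_mul]
  rw [mul_assoc]
  congr 2
  refine Finset.prod_congr rfl fun y hy => ?_
  rw [Function.update_of_ne (Finset.ne_of_mem_erase hy), Function.update_of_ne (Finset.ne_of_mem_erase hy)]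

theorem st_neg (x : V) (X : Matrix B B ℝ) : st x (-X) = - st x X := by
  have := st_smul x (-1) X
  simpa using this

end Pool.Agent.H993.TR
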