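import Mathlib
import Pool.Agent.H993.TR.Refl

/-!
# Reflection positivity on a lattice with a reflection
-/

namespace Pool.Agent.H993.TR

open Filter Topology NormedSpace Matrix
open scoped Kronecker

variable {V B : Type} [Fintype V] [DecidableEq V] [Fintype B] [DecidableEq B]

section kron

variable {α ι : Type} [Fintype α] [DecidableEq α]

theorem sum_kron (T : Finset ι) (X : ι → Matrix α α ℝ) (Y : Matrix α α ℝ) :
    (∑ i ∈ T, X i) ⊗ₖ Y = ∑ i ∈ T, X i ⊗ₖ Y := by
  ext a b
  simp only [Matrix.kroneckerMap_apply, Matrix.sum_apply, Finset.sum_mul]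

theorem kron_sum (T : Finset ι) (X : ι → Matrix α α ℝ) (Y : Matrix α α ℝ) :
    Y ⊗ₖ (∑ i ∈ T, X i) = ∑ i ∈ T, Y ⊗ₖ X i := by
  ext a b
  simp only [Matrix.kroneckerMap_apply, Matrix.sum_apply, Finset.mul_sum]

end kron

section

variable (R : V → V) (σ : V → Bool) (hR : ∀ x, R (R x) = x) (hσ : ∀ x, σ (R x) = !σ x)
  (fl : B ≃ B) (hfl : ∀ b, fl (fl b) = b)

/-- Transport to two copies of the half. -/
noncomputable def tr : Matrix (V → B) (V → B) ℝ ≃ₐ[ℝ]
    Matrix ((Half σ → B) × (Half σ → B)) ((Half σ → B) × (Half σ → B)) ℝ :=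
  Matrix.reindexAlgEquiv ℝ ℝ (confEquiv R σ hR hσ fl hfl)

theorem tr_left (a : Half σ) (X : Matrix B B ℝ) :
    tr R σ hR hσ fl hfl (st a.1 X) = st a X ⊗ₖ 1 := st_conf_left R σ hR hσ fl hfl a X

theorem tr_right (a : Half σ) (X : Matrix B B ℝ) :
    tr R σ hR hσ fl hfl (st (R a.1) X) = 1 ⊗ₖ st a (X.submatrix fl fl) :=
  st_conf_right R σ hR hσ fl hfl a X

theorem trace_exp_tr (M : Matrix (V → B) (V → B) ℝ) :
    (exp (tr R σ hR hσ fl hfl M)).trace = (exp M).trace :=
  trace_exp_submatrix_equiv (confEquiv R σ hR hσ fl hfl).symm M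

theorem tr_gen (P c r : Matrix B B ℝ) (hP : P.submatrix fl fl = P) (hc : c.submatrix fl fl = c)
    (hr : r.submatrix fl fl = -r) (w : V → V → ℝ) (k : V → ℝ)
    (hw : ∀ x y, w (R x) (R y) = w x y) (hws : ∀ x y, w x y = w y x)
    (hw0 : ∀ x y, σ x ≠ σ y → y ≠ R x → w x y = 0) :
    tr R σ hR hσ fl hfl (gen P c r w k) =
      TT (∑ a : Half σ, st a P + (1 / 2 : ℝ) • ∑ a : Half σ, ∑ b : Half σ,
          w a.1 b.1 • (st a c * st b c - st a r * st b r))
        (fun a : Half σ => st a c) (fun a : Half σ => st a r) (fun a => w a.1 (R a.1))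
        (fun a => k a.1) (fun a => k (R a.1)) := by
  have hcross : ∀ (a : Half σ) (F : Half σ → Matrix ((Half σ → B) × (Half σ → B))
      ((Half σ → B) × (Half σ → B)) ℝ), ∑ b : Half σ, w a.1 (R b.1) • F b
        = w a.1 (R a.1) • F a := by
    intro a F
    refine Finset.sum_eq_single a (fun b _ hb => ?_) (fun h => absurd (Finset.mem_univ a) h)
    rw [hw0 a.1 (R b.1), zero_smul]
    · rw [hσ, a.2, b.2]; simp
    · intro h
      apply hb
      apply Subtype.ext
      rw [← hR b.1, h, hR]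
  have hcross' : ∀ (a : Half σ) (F : Half σ → Matrix ((Half σ → B) × (Half σ → B))
      ((Half σ → B) × (Half σ → B)) ℝ), ∑ b : Half σ, w (R a.1) b.1 • F b
        = w a.1 (R a.1) • F a := by
    intro a F
    have h1 := hcross a F
    rw [← h1]
    refine Finset.sum_congr rfl fun b _ => ?_
    rw [← hw (R a.1) b.1, hR]
  have h2 : tr R σ hR hσ fl hfl (gen P c r w k) =
      (∑ a : Half σ, st a P ⊗ₖ (1 : Matrix (Half σ → B) (Half σ → B) ℝ)
        + ∑ a : Half σ, (1 : Matrix (Half σ → B) (Half σ → B) ℝ) ⊗ₖ st a P)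
      + (∑ a : Half σ, k a.1 • (st a c ⊗ₖ (1 : Matrix (Half σ → B) (Half σ → B) ℝ))
        + ∑ a : Half σ, k (R a.1) • ((1 : Matrix (Half σ → B) (Half σ → B) ℝ) ⊗ₖ st a c))
      + (1 / 2 : ℝ) • (∑ a : Half σ, (∑ b : Half σ, w a.1 b.1 •
            (((st a c * st b c - st a r * st b r)) ⊗ₖ (1 : Matrix (Half σ → B) (Half σ → B) ℝ))
            + w a.1 (R a.1) • (st a c ⊗ₖ st a c + st a r ⊗ₖ st a r))
          + ∑ a : Half σ, (w a.1 (R a.1) • (st a c ⊗ₖ st a c + st a r ⊗ₖ st a r)
            + ∑ b : Half σ, w a.1 b.1 •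
            ((1 : Matrix (Half σ → B) (Half σ → B) ℝ) ⊗ₖ (st a c * st b c - st a r * st b r)))) := by
    unfold gen
    rw [map_add, map_add, map_smul, map_sum, map_sum, map_sum]
    simp only [map_smul, map_sum, map_sub, map_mul]
    rw [sum_half R σ hR hσ (fun x => tr R σ hR hσ fl hfl (st x P)),
      sum_half R σ hR hσ (fun x => k x • tr R σ hR hσ fl hfl (st x c)),
      sum_half R σ hR hσ (fun x => ∑ y, w x y • (tr R σ hR hσ fl hfl (st x c) *
        tr R σ hR hσ fl hfl (st y c) - tr R σ hR hσ fl hfl (st x r) *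
        tr R σ hR hσ fl hfl (st y r)))]
    have hin : ∀ x : V, ∑ y, w x y • (tr R σ hR hσ fl hfl (st x c) *
        tr R σ hR hσ fl hfl (st y c) - tr R σ hR hσ fl hfl (st x r) *
        tr R σ hR hσ fl hfl (st y r)) =
        (∑ b : Half σ, w x b.1 • (tr R σ hR hσ fl hfl (st x c) *
          tr R σ hR hσ fl hfl (st b.1 c) - tr R σ hR hσ fl hfl (st x r) *
          tr R σ hR hσ fl hfl (st b.1 r))) +
        ∑ b : Half σ, w x (R b.1) • (tr R σ hR hσ fl hfl (st x c) *
          tr R σ hR hσ fl hfl (st (R b.1) c) - tr R σ hR hσ fl hfl (st x r) *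
          tr R σ hR hσ fl hfl (st (R b.1) r)) := fun x => sum_half R σ hR hσ _
    have hL : ∀ a : Half σ, ∑ y, w a.1 y • (tr R σ hR hσ fl hfl (st a.1 c) *
        tr R σ hR hσ fl hfl (st y c) - tr R σ hR hσ fl hfl (st a.1 r) *
        tr R σ hR hσ fl hfl (st y r)) =
        ∑ b : Half σ, w a.1 b.1 •
            (((st a c * st b c - st a r * st b r)) ⊗ₖ (1 : Matrix (Half σ → B) (Half σ → B) ℝ))
            + w a.1 (R a.1) • (st a c ⊗ₖ st a c + st a r ⊗ₖ st a r) := by
      intro a
      rw [hin, hcross]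
      simp only [tr_left, tr_right, hc, hr, ← Matrix.mul_kronecker_mul, Matrix.mul_one,
        Matrix.one_mul, st_neg]
      congr 1
      · refine Finset.sum_congr rfl fun b _ => ?_
        congr 1
        ext i j
        simp only [Matrix.sub_apply, Matrix.kroneckerMap_apply]
        ring
      · congr 1
        ext i j
        simp only [Matrix.sub_apply, Matrix.add_apply, Matrix.kroneckerMap_apply, Matrix.neg_apply]
        ring
    have hRt : ∀ a : Half σ, ∑ y, w (R a.1) y • (tr R σ hR hσ fl hfl (st (R a.1) c) *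
        tr R σ hR hσ fl hfl (st y c) - tr R σ hR hσ fl hfl (st (R a.1) r) *
        tr R σ hR hσ fl hfl (st y r)) =
        w a.1 (R a.1) • (st a c ⊗ₖ st a c + st a r ⊗ₖ st a r) +
        ∑ b : Half σ, w a.1 b.1 •
            ((1 : Matrix (Half σ → B) (Half σ → B) ℝ) ⊗ₖ (st a c * st b c - st a r * st b r)) := by
      intro a
      rw [hin, hcross']
      simp only [tr_left, tr_right, hc, hr, ← Matrix.mul_kronecker_mul, Matrix.mul_one,
        Matrix.one_mul, st_neg, hw]
      congr 1
      · congr 1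
        ext i j
        simp only [Matrix.sub_apply, Matrix.add_apply, Matrix.kroneckerMap_apply, Matrix.neg_apply]
        ring
      · refine Finset.sum_congr rfl fun b _ => ?_
        congr 1
        ext i j
        simp only [Matrix.sub_apply, Matrix.kroneckerMap_apply, Matrix.mul_neg, Matrix.neg_mul,
          neg_neg]
        ring
    simp only [hL, hRt]
    simp only [tr_left, tr_right, hP, hc]
  rw [h2]
  unfold TT
  simp only [Matrix.add_kronecker, Matrix.kronecker_add, sum_kron, kron_sum, Matrix.smul_kronecker,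
    Matrix.kronecker_smul, Finset.sum_add_distrib, smul_add]
  module

/-- The partition function. -/
noncomputable def Zf (P c r : Matrix B B ℝ) (w : V → V → ℝ) (k : V → ℝ) : ℝ :=
  (exp (gen P c r w k)).trace

include hR hσ hfl in
/-- Reflection positivity for a reflection `R` of the sites. -/
theorem rpv (P c r : Matrix B B ℝ) (hP : P.submatrix fl fl = P) (hc : c.submatrix fl fl = c)
    (hr : r.submatrix fl fl = -r) (w : V → V → ℝ) (k η : V → ℝ)
    (hw : ∀ x y, w (R x) (R y) = w x y) (hws : ∀ x y, w x y = w y x)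
    (hw0 : ∀ x y, σ x ≠ σ y → y ≠ R x → w x y = 0) (hwp : ∀ x, 0 ≤ w x (R x)) :
    Zf P c r w k ^ 2 ≤ Real.exp (∑ x, if σ x = false then w x (R x) * η x ^ 2 else 0) *
      (Zf P c r w (fun x => if σ x = false then k x - w x (R x) * η x
          else k (R x) - w x (R x) * η (R x)) *
       Zf P c r w (fun x => if σ x = false then k (R x) + w x (R x) * η x
          else k x + w x (R x) * η (R x))) := by
  have key : ∀ k : V → ℝ, Zf P c r w k = (exp (TT (∑ a : Half σ, st a P + (1 / 2 : ℝ) •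
      ∑ a : Half σ, ∑ b : Half σ, w a.1 b.1 • (st a c * st b c - st a r * st b r))
        (fun a : Half σ => st a c) (fun a : Half σ => st a r) (fun a => w a.1 (R a.1))
        (fun a => k a.1) (fun a => k (R a.1)))).trace := by
    intro k
    rw [← tr_gen R σ hR hσ fl hfl P c r hP hc hr w k hw hws hw0, trace_exp_tr]
    rfl
  have hsum : (∑ x, if σ x = false then w x (R x) * η x ^ 2 else 0) =
      ∑ a : Half σ, w a.1 (R a.1) * η a.1 ^ 2 := by
    rw [sum_half R σ hR hσ]
    have h1 : ∑ a : Half σ, (if σ (R a.1) = false then w (R a.1) (R (R a.1)) * η (R a.1) ^ 2 else 0)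
        = 0 := by
      refine Finset.sum_eq_zero fun a _ => ?_
      rw [if_neg]
      rw [hσ, a.2]; simp
    rw [h1, add_zero]
    exact Finset.sum_congr rfl fun a _ => if_pos a.2
  rw [key k, key, key, hsum]
  have h := rps (∑ a : Half σ, st a P + (1 / 2 : ℝ) •
      ∑ a : Half σ, ∑ b : Half σ, w a.1 b.1 • (st a c * st b c - st a r * st b r))
        (fun a : Half σ => st a c) (fun a : Half σ => st a r) (fun a => w a.1 (R a.1))
        (fun a => η a.1) (fun a => hwp a.1) (fun a => k a.1) (fun a => k (R a.1))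
  have hRn : ∀ a : Half σ, ¬ σ (R a.1) = false := fun a => by rw [hσ, a.2]; simp
  have e1 : (fun a : Half σ => (if σ a.1 = false then k a.1 - w a.1 (R a.1) * η a.1
      else k (R a.1) - w a.1 (R a.1) * η (R a.1))) =
      fun a : Half σ => k a.1 - w a.1 (R a.1) * η a.1 := by
    funext a; rw [if_pos a.2]
  have e2 : (fun a : Half σ => (if σ (R a.1) = false then k (R a.1) - w (R a.1) (R (R a.1)) * η (R a.1)
      else k (R (R a.1)) - w (R a.1) (R (R a.1)) * η (R (R a.1)))) =
      fun a : Half σ => k a.1 - w a.1 (R a.1) * η a.1 := by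
    funext a; rw [if_neg (hRn a), hR, hws (R a.1) a.1]
  have e3 : (fun a : Half σ => (if σ a.1 = false then k (R a.1) + w a.1 (R a.1) * η a.1
      else k a.1 + w a.1 (R a.1) * η (R a.1))) =
      fun a : Half σ => k (R a.1) + w a.1 (R a.1) * η a.1 := by
    funext a; rw [if_pos a.2]
  have e4 : (fun a : Half σ => (if σ (R a.1) = false then k (R (R a.1)) +
      w (R a.1) (R (R a.1)) * η (R a.1)
      else k (R a.1) + w (R a.1) (R (R a.1)) * η (R (R a.1)))) =
      fun a : Half σ => k (R a.1) + w a.1 (R a.1) * η a.1 := by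
    funext a; rw [if_neg (hRn a), hR, hws (R a.1) a.1]
  rw [e1, e2, e3, e4]
  exact h

end

end Pool.Agent.H993.TR
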