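import Mathlib
import Pool.Agent.H993.TR.RPV

/-!
# Gaussian domination on a lattice with many reflections
-/

namespace Pool.Agent.H993.TR

open Filter Topology NormedSpace Matrix
open scoped Kronecker

variable {V B : Type} [Fintype V] [DecidableEq V] [Fintype B] [DecidableEq B]

/-- `R` is a reflection of the lattice `V` with couplings `w`, and `σ` gives its two halves. -/
structure IsRefl (w : V → V → ℝ) (R : V → V) (σ : V → Bool) : Prop where
  inv : ∀ x, R (R x) = x
  side : ∀ x, σ (R x) = !σ x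
  symm : ∀ x y, w (R x) (R y) = w x y
  cross : ∀ x y, σ x ≠ σ y → y ≠ R x → w x y = 0

/-- The site field of a bond field. -/
def kf (w : V → V → ℝ) (h : V → V → ℝ) (x : V) : ℝ := ∑ y, w x y * h x y

/-- The bond field which agrees with `h` on the half `s` and is reflected to the other half. -/
def rfh (R : V → V) (σ : V → Bool) (s : Bool) (h : V → V → ℝ) (x y : V) : ℝ :=
  if σ x = s ∧ σ y = s then h x y else if σ x ≠ s ∧ σ y ≠ s then h (R x) (R y) else 0

/-- The partition function in a bond field. -/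
noncomputable def ZZ (P c r : Matrix B B ℝ) (w : V → V → ℝ) (h : V → V → ℝ) : ℝ :=
  Real.exp (-(∑ x, ∑ y, w x y * h x y ^ 2) / 4) * Zf P c r w (kf w h)

section one

variable {w : V → V → ℝ} {R : V → V} {σ : V → Bool} (hr : IsRefl w R σ)

include hr in
theorem cross_sum (hws : ∀ x y, w x y = w y x) (a : Half σ) (F : Half σ → ℝ) :
    (∑ b : Half σ, w a.1 (R b.1) * F b = w a.1 (R a.1) * F a) ∧
    (∑ b : Half σ, w (R a.1) b.1 * F b = w a.1 (R a.1) * F a) := by
  have h1 : ∀ b : Half σ, b ≠ a → w a.1 (R b.1) = 0 := by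
    intro b hb
    apply hr.cross
    · rw [hr.side, a.2, b.2]; simp
    · intro h
      apply hb
      apply Subtype.ext
      rw [← hr.inv b.1, h, hr.inv]
  have h2 : ∀ b : Half σ, w (R a.1) b.1 = w a.1 (R b.1) := by
    intro b
    rw [← hr.symm (R a.1) b.1, hr.inv]
  constructor
  · refine Finset.sum_eq_single a (fun b _ hb => ?_) (fun h => absurd (Finset.mem_univ a) h)
    rw [h1 b hb, zero_mul]
  · rw [← h2 a]
    refine Finset.sum_eq_single a (fun b _ hb => ?_) (fun h => absurd (Finset.mem_univ a) h)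
    rw [h2 b, h1 b hb, zero_mul]

include hr in
/-- One reflection. -/
theorem refl_step (fl : B ≃ B) (hfl : ∀ b, fl (fl b) = b)
    (P c r : Matrix B B ℝ) (hP : P.submatrix fl fl = P) (hc : c.submatrix fl fl = c)
    (hrr : r.submatrix fl fl = -r) (hws : ∀ x y, w x y = w y x) (hwp : ∀ x y, 0 ≤ w x y)
    (h : V → V → ℝ) (hh : ∀ x y, h y x = - h x y) :
    ZZ P c r w h ^ 2 ≤ ZZ P c r w (rfh R σ false h) * ZZ P c r w (rfh R σ true h) := by
  have hRn : ∀ a : Half σ, σ (R a.1) = true := fun a => by rw [hr.side, a.2]; simp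
  have key := rpv R σ hr.inv hr.side fl hfl P c r hP hc hrr w (kf w h) (fun x => h x (R x))
    hr.symm hws hr.cross (fun x => hwp _ _)
  -- the fields
  have hkf : ∀ x, kf w h x = (∑ b : Half σ, w x b.1 * h x b.1) +
      ∑ b : Half σ, w x (R b.1) * h x (R b.1) := fun x => sum_half R σ hr.inv hr.side _
  have hkA : ∀ a : Half σ, kf w h a.1 = (∑ b : Half σ, w a.1 b.1 * h a.1 b.1) +
      w a.1 (R a.1) * h a.1 (R a.1) := by
    intro a
    rw [hkf, (cross_sum hr hws a (fun b => h a.1 (R b.1))).1]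
  have hkB : ∀ a : Half σ, kf w h (R a.1) = w a.1 (R a.1) * h (R a.1) a.1 +
      ∑ b : Half σ, w a.1 b.1 * h (R a.1) (R b.1) := by
    intro a
    rw [hkf, (cross_sum hr hws a (fun b => h (R a.1) b.1)).2]
    congr 1
    exact Finset.sum_congr rfl fun b _ => by rw [hr.symm]
  have hrf : ∀ (s : Bool) (a b : Half σ), rfh R σ s h a.1 b.1 =
      (if s then h (R a.1) (R b.1) else h a.1 b.1) ∧
      rfh R σ s h (R a.1) (R b.1) = (if s then h (R a.1) (R b.1) else h a.1 b.1) ∧
      rfh R σ s h a.1 (R b.1) = 0 ∧ rfh R σ s h (R a.1) b.1 = 0 := by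
    intro s a b
    unfold rfh
    simp only [a.2, b.2, hRn, hr.inv]
    cases s <;> simp
  have hkrf : ∀ (s : Bool) (a : Half σ), kf w (rfh R σ s h) a.1 =
      (∑ b : Half σ, w a.1 b.1 * (if s then h (R a.1) (R b.1) else h a.1 b.1)) ∧
      kf w (rfh R σ s h) (R a.1) =
      (∑ b : Half σ, w a.1 b.1 * (if s then h (R a.1) (R b.1) else h a.1 b.1)) := by
    intro s a
    constructor
    · unfold kf
      rw [sum_half R σ hr.inv hr.side]
      simp only [(hrf s a _).1, (hrf s a _).2.2.1, mul_zero, Finset.sum_const_zero, add_zero]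
    · unfold kf
      rw [sum_half R σ hr.inv hr.side]
      simp only [(hrf s a _).2.1, (hrf s a _).2.2.2, mul_zero, Finset.sum_const_zero, zero_add,
        hr.symm]
  have hfun : ∀ (f g : V → ℝ), (∀ a : Half σ, f a.1 = g a.1 ∧ f (R a.1) = g (R a.1)) → f = g := by
    intro f g hfg
    funext x
    by_cases hx : σ x = false
    · exact (hfg ⟨x, hx⟩).1
    · have h1 : σ (R x) = false := by
        rw [hr.side]; revert hx; cases σ x <;> simp
      have h2 := (hfg ⟨R x, h1⟩).2
      simp only [hr.inv] at h2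
      exact h2
  have hL : (fun x => if σ x = false then kf w h x - w x (R x) * h x (R x)
          else kf w h (R x) - w x (R x) * h (R x) (R (R x))) = kf w (rfh R σ false h) := by
    refine hfun _ _ fun a => ?_
    simp only [a.2, hRn, if_true, hr.inv, (hkrf false a).1, (hkrf false a).2]
    have e1 : w (R a.1) a.1 = w a.1 (R a.1) := hws _ _
    constructor
    · rw [hkA]; simp
    · simp only [Bool.true_eq_false, if_false]
      rw [hkA, e1]; simp
  have hRr : (fun x => if σ x = false then kf w h (R x) + w x (R x) * h x (R x)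
          else kf w h x + w x (R x) * h (R x) (R (R x))) = kf w (rfh R σ true h) := by
    refine hfun _ _ fun a => ?_
    simp only [a.2, hRn, if_true, hr.inv, (hkrf true a).1, (hkrf true a).2]
    have e1 : w (R a.1) a.1 = w a.1 (R a.1) := hws _ _
    constructor
    · rw [hkB, hh a.1 (R a.1)]; ring
    · simp only [Bool.true_eq_false, if_false]
      rw [hkB, e1, hh a.1 (R a.1)]; ring
  rw [hL, hRr] at key
  -- the constants
  set X : ℝ := ∑ a : Half σ, w a.1 (R a.1) * h a.1 (R a.1) ^ 2 with hX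
  set FF : ℝ := ∑ a : Half σ, ∑ b : Half σ, w a.1 b.1 * h a.1 b.1 ^ 2 with hFF
  set TT : ℝ := ∑ a : Half σ, ∑ b : Half σ, w a.1 b.1 * h (R a.1) (R b.1) ^ 2 with hTT
  have hdouble : ∀ g : V → V → ℝ, ∑ x, ∑ y, w x y * g x y =
      (∑ a : Half σ, ∑ b : Half σ, w a.1 b.1 * g a.1 b.1) +
      (∑ a : Half σ, w a.1 (R a.1) * g a.1 (R a.1)) +
      (∑ a : Half σ, w a.1 (R a.1) * g (R a.1) a.1) +
      ∑ a : Half σ, ∑ b : Half σ, w a.1 b.1 * g (R a.1) (R b.1) := by
    intro g
    rw [sum_half R σ hr.inv hr.side]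
    have e1 : ∀ a : Half σ, ∑ y, w a.1 y * g a.1 y = (∑ b : Half σ, w a.1 b.1 * g a.1 b.1) +
        w a.1 (R a.1) * g a.1 (R a.1) := by
      intro a
      rw [sum_half R σ hr.inv hr.side, (cross_sum hr hws a (fun b => g a.1 (R b.1))).1]
    have e2 : ∀ a : Half σ, ∑ y, w (R a.1) y * g (R a.1) y = w a.1 (R a.1) * g (R a.1) a.1 +
        ∑ b : Half σ, w a.1 b.1 * g (R a.1) (R b.1) := by
      intro a
      rw [sum_half R σ hr.inv hr.side, (cross_sum hr hws a (fun b => g (R a.1) b.1)).2]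
      congr 1
      exact Finset.sum_congr rfl fun b _ => by rw [hr.symm]
    simp only [e1, e2, Finset.sum_add_distrib]
    ring
  have hS : ∑ x, ∑ y, w x y * h x y ^ 2 = FF + TT + 2 * X := by
    rw [hdouble (fun x y => h x y ^ 2)]
    have : ∀ a : Half σ, h (R a.1) a.1 ^ 2 = h a.1 (R a.1) ^ 2 := fun a => by
      rw [hh a.1 (R a.1)]; ring
    simp only [this]
    rw [hX, hFF, hTT]
    ring
  have hSf : ∑ x, ∑ y, w x y * rfh R σ false h x y ^ 2 = 2 * FF := by
    rw [hdouble (fun x y => rfh R σ false h x y ^ 2)]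
    simp only [(hrf false _ _).1, (hrf false _ _).2.1, (hrf false _ _).2.2.1,
      (hrf false _ _).2.2.2]
    simp [hFF]
    ring
  have hSt : ∑ x, ∑ y, w x y * rfh R σ true h x y ^ 2 = 2 * TT := by
    rw [hdouble (fun x y => rfh R σ true h x y ^ 2)]
    simp only [(hrf true _ _).1, (hrf true _ _).2.1, (hrf true _ _).2.2.1,
      (hrf true _ _).2.2.2]
    simp [hTT]
    ring
  have hXs : (∑ x, if σ x = false then w x (R x) * h x (R x) ^ 2 else 0) = X := by
    rw [sum_half R σ hr.inv hr.side]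
    have h1 : ∑ a : Half σ, (if σ (R a.1) = false then w (R a.1) (R (R a.1)) *
        h (R a.1) (R (R a.1)) ^ 2 else 0) = 0 := by
      refine Finset.sum_eq_zero fun a _ => ?_
      rw [if_neg]
      rw [hRn]; simp
    rw [h1, add_zero, hX]
    exact Finset.sum_congr rfl fun a _ => if_pos a.2
  rw [hXs] at key
  unfold ZZ
  rw [hS, hSf, hSt]
  set Z0 := Zf P c r w (kf w h)
  set Z1 := Zf P c r w (kf w (rfh R σ false h))
  set Z2 := Zf P c r w (kf w (rfh R σ true h))
  calc (Real.exp (-(FF + TT + 2 * X) / 4) * Z0) ^ 2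
      = Real.exp (-(FF + TT + 2 * X) / 4) ^ 2 * Z0 ^ 2 := by ring
    _ ≤ Real.exp (-(FF + TT + 2 * X) / 4) ^ 2 * (Real.exp X * (Z1 * Z2)) := by gcongr
    _ = (Real.exp (-(FF + TT + 2 * X) / 4) ^ 2 * Real.exp X) * (Z1 * Z2) := by ring
    _ = (Real.exp (-(2 * FF) / 4) * Real.exp (-(2 * TT) / 4)) * (Z1 * Z2) := by
        congr 1
        rw [← Real.exp_nat_mul, ← Real.exp_add, ← Real.exp_add]
        congr 1
        push_cast
        ring
    _ = Real.exp (-(2 * FF) / 4) * Z1 * (Real.exp (-(2 * TT) / 4) * Z2) := by ring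

/-- The number of nonzero bonds. -/
noncomputable def zc (w h : V → V → ℝ) : ℕ :=
  ((Finset.univ : Finset (V × V)).filter fun p => h p.1 p.2 ≠ 0 ∧ w p.1 p.2 ≠ 0).card

/-- The nonzero bonds in one half. -/
noncomputable def zs (w : V → V → ℝ) (σ : V → Bool) (s : Bool) (h : V → V → ℝ) : Finset (V × V) :=
  (Finset.univ : Finset (V × V)).filter fun p => (h p.1 p.2 ≠ 0 ∧ w p.1 p.2 ≠ 0) ∧
    σ p.1 = s ∧ σ p.2 = s

include hr in
theorem zc_rfh_le (s : Bool) (h : V → V → ℝ) : zc w (rfh R σ s h) ≤ 2 * (zs w σ s h).card := by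
  classical
  set T := (Finset.univ : Finset (V × V)).filter
    fun p => rfh R σ s h p.1 p.2 ≠ 0 ∧ w p.1 p.2 ≠ 0 with hT
  have h1 : T ⊆ zs w σ s h ∪ (zs w σ s h).image (fun p => (R p.1, R p.2)) := by
    intro p hp
    rw [hT, Finset.mem_filter] at hp
    obtain ⟨-, hp1, hp2⟩ := hp
    rw [Finset.mem_union]
    unfold rfh at hp1
    split_ifs at hp1 with c1 c2
    · left
      unfold zs
      rw [Finset.mem_filter]
      exact ⟨Finset.mem_univ _, ⟨hp1, hp2⟩, c1⟩
    · right
      rw [Finset.mem_image]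
      refine ⟨(R p.1, R p.2), ?_, by simp [hr.inv]⟩
      unfold zs
      rw [Finset.mem_filter]
      refine ⟨Finset.mem_univ _, ⟨hp1, by rw [hr.symm]; exact hp2⟩, ?_, ?_⟩
      · simp only [hr.side]
        revert c2; cases σ p.1 <;> cases s <;> simp
      · simp only [hr.side]
        revert c2; cases σ p.2 <;> cases s <;> simp
    · exact absurd rfl hp1
  have h2 : zc w (rfh R σ s h) = T.card := rfl
  rw [h2]
  refine (Finset.card_le_card h1).trans ((Finset.card_union_le _ _).trans ?_)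
  have := Finset.card_image_le (s := zs w σ s h) (f := fun p => (R p.1, R p.2))
  omega

include hr in
theorem zc_lt (h : V → V → ℝ) (x0 : V) (hx : h x0 (R x0) ≠ 0) (hwx : w x0 (R x0) ≠ 0) :
    zc w (rfh R σ false h) + zc w (rfh R σ true h) < 2 * zc w h := by
  classical
  have h1 := zc_rfh_le hr false h
  have h2 := zc_rfh_le hr true h
  have hdis : Disjoint (zs w σ false h) (zs w σ true h) := by
    rw [Finset.disjoint_left]
    intro p hp hq
    unfold zs at hp hq
    rw [Finset.mem_filter] at hp hq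
    have := hp.2.2.1.symm.trans hq.2.2.1
    exact absurd this (by decide)
  have hsub : insert (x0, R x0) (zs w σ false h ∪ zs w σ true h) ⊆
      (Finset.univ : Finset (V × V)).filter fun p => h p.1 p.2 ≠ 0 ∧ w p.1 p.2 ≠ 0 := by
    intro p hp
    rw [Finset.mem_insert, Finset.mem_union] at hp
    rw [Finset.mem_filter]
    refine ⟨Finset.mem_univ _, ?_⟩
    rcases hp with hp | hp | hp
    · rw [hp]
      exact ⟨hx, hwx⟩
    · unfold zs at hp
      rw [Finset.mem_filter] at hp
      exact hp.2.1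
    · unfold zs at hp
      rw [Finset.mem_filter] at hp
      exact hp.2.1
  have hnot : (x0, R x0) ∉ zs w σ false h ∪ zs w σ true h := by
    intro hp
    rw [Finset.mem_union] at hp
    rcases hp with hp | hp
    · unfold zs at hp
      rw [Finset.mem_filter] at hp
      have := hp.2.2
      simp only [hr.side] at this
      rw [this.1] at this
      simp at this
    · unfold zs at hp
      rw [Finset.mem_filter] at hp
      have := hp.2.2
      simp only [hr.side] at this
      rw [this.1] at this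
      simp at this
  have h3 := Finset.card_le_card hsub
  rw [Finset.card_insert_of_notMem hnot, Finset.card_union_of_disjoint hdis] at h3
  have h4 : zc w h = ((Finset.univ : Finset (V × V)).filter
    fun p => h p.1 p.2 ≠ 0 ∧ w p.1 p.2 ≠ 0).card := rfl
  omega

end one

theorem st_transpose (x : V) (X : Matrix B B ℝ) : (st x X)ᵀ = st x Xᵀ := by
  ext n m
  unfold st pr
  rw [Matrix.transpose_apply]
  refine Finset.prod_congr rfl fun y _ => ?_
  by_cases h : y = x
  · subst h; simp
  · rw [Function.update_of_ne h, Function.update_of_ne h]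
    rw [Matrix.one_apply, Matrix.one_apply]
    simp [eq_comm]

theorem st_comm (x y : V) (hxy : x ≠ y) (X Y : Matrix B B ℝ) :
    st x X * st y Y = st y Y * st x X := by
  unfold st
  rw [pr_mul, pr_mul]
  congr 1
  funext z
  by_cases hx : z = x
  · subst hx
    rw [Function.update_self, Function.update_of_ne hxy]
    simp
  · rw [Function.update_of_ne hx]
    simp

theorem gen_symm {P c r : Matrix B B ℝ} (hP : Pᵀ = P) (hc : cᵀ = c) (hr : rᵀ = -r)
    (w : V → V → ℝ) (k : V → ℝ) : (gen P c r w k)ᵀ = gen P c r w k := by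
  have h1 : ∀ x y : V, (st x c * st y c - st x r * st y r)ᵀ = st x c * st y c - st x r * st y r := by
    intro x y
    rw [Matrix.transpose_sub, Matrix.transpose_mul, Matrix.transpose_mul]
    simp only [st_transpose, hc, hr, st_neg, Matrix.neg_mul, Matrix.mul_neg, neg_neg]
    by_cases h : x = y
    · subst h; rfl
    · rw [st_comm x y h c c, st_comm x y h r r]
  unfold gen
  simp only [Matrix.transpose_add, Matrix.transpose_sum, Matrix.transpose_smul, st_transpose, hP,
    hc, h1]

theorem trace_exp_nonneg {n : Type} [Fintype n] [DecidableEq n] (X : Matrix n n ℝ) (hX : Xᵀ = X) :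
    0 ≤ (exp X).trace := by
  have h1 : exp X = exp ((1/2 : ℝ) • X) * exp ((1/2 : ℝ) • X) := by
    rw [← Matrix.exp_add_of_commute _ _ (Commute.refl _)]
    congr 1
    rw [← add_smul]
    norm_num
  have h2 : (exp ((1/2 : ℝ) • X))ᵀ = exp ((1/2 : ℝ) • X) := by
    rw [← Matrix.exp_transpose, Matrix.transpose_smul, hX]
  have h3 : exp X = exp ((1/2 : ℝ) • X) * (exp ((1/2 : ℝ) • X))ᵀ := by rw [h2]; exact h1
  rw [h3]
  simp only [Matrix.trace, Matrix.diag_apply, Matrix.mul_apply, Matrix.transpose_apply]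
  exact Finset.sum_nonneg fun i _ => Finset.sum_nonneg fun j _ => mul_self_nonneg _

/-- Gaussian domination. -/
theorem gd0 (fl : B ≃ B) (hfl : ∀ b, fl (fl b) = b)
    (P c r : Matrix B B ℝ) (hP : P.submatrix fl fl = P) (hc : c.submatrix fl fl = c)
    (hrr : r.submatrix fl fl = -r) (hPt : Pᵀ = P) (hct : cᵀ = c) (hrt : rᵀ = -r)
    (w : V → V → ℝ) (hws : ∀ x y, w x y = w y x)
    (hwp : ∀ x y, 0 ≤ w x y) (hw : ∀ x y, w x y ≠ 0 → ∃ R σ, IsRefl w R σ ∧ R x = y)
    (h : V → V → ℝ) (hh : ∀ x y, h y x = - h x y) :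
    ZZ P c r w h ≤ Zf P c r w 0 := by
  classical
  have hZf : ∀ k, 0 ≤ Zf P c r w k := fun k =>
    trace_exp_nonneg _ (gen_symm hPt hct hrt w k)
  have hZZ : ∀ h, 0 ≤ ZZ P c r w h := fun h => mul_nonneg (Real.exp_pos _).le (hZf _)
  set T : Set ℝ := {0} ∪ Set.range (fun p : V × V => h p.1 p.2) with hT
  have hTfin : T.Finite := (Set.finite_singleton 0).union (Set.finite_range _)
  have hT0 : (0 : ℝ) ∈ T := Or.inl rfl
  set FT : Set (V → V → ℝ) := {h' | (∀ x, h' x ∈ {v | ∀ i, v i ∈ T})} ∩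
    {h' | ∀ x y, h' y x = - h' x y} with hFT
  have hFTfin : FT.Finite :=
    (Set.Finite.pi' fun _ => Set.Finite.pi' fun _ => hTfin).subset Set.inter_subset_left
  have hhFT : h ∈ FT := ⟨fun x i => Or.inr ⟨(x, i), rfl⟩, hh⟩
  have hrf : ∀ (R : V → V) (σ : V → Bool) (s : Bool), ∀ h' ∈ FT, rfh R σ s h' ∈ FT := by
    intro R σ s h' hh'
    constructor
    · intro x j
      unfold rfh
      split_ifs
      · exact hh'.1 x j
      · exact hh'.1 _ _
      · exact hT0
    · intro x y
      have := hh'.2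
      unfold rfh
      by_cases c1 : σ x = s <;> by_cases c2 : σ y = s <;> simp [c1, c2, this x y, this (R x) (R y)]
  obtain ⟨h1, h1m, h1max⟩ := Set.exists_max_image FT (ZZ P c r w) hFTfin ⟨h, hhFT⟩
  have hSfin : {h' ∈ FT | ZZ P c r w h1 ≤ ZZ P c r w h'}.Finite := hFTfin.subset fun _ hx => hx.1
  obtain ⟨h2, h2m, h2min⟩ := Set.exists_min_image {h' ∈ FT | ZZ P c r w h1 ≤ ZZ P c r w h'}
    (zc w) hSfin ⟨h1, h1m, le_refl _⟩
  rcases (hZZ h1).eq_or_lt with h0 | h0
  · calc ZZ P c r w h ≤ ZZ P c r w h1 := h1max h hhFT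
      _ = 0 := h0.symm
      _ ≤ Zf P c r w 0 := hZf 0
  have hzero : ∀ x y, h2 x y ≠ 0 → w x y = 0 := by
    by_contra hne
    push Not at hne
    obtain ⟨x0, y0, hx0, hw0⟩ := hne
    obtain ⟨R, σ, hR, hRx⟩ := hw x0 y0 hw0
    subst hRx
    have hlt := zc_lt hR h2 x0 hx0 hw0
    have ht := hrf R σ true h2 h2m.1
    have hf := hrf R σ false h2 h2m.1
    have e1 := h1max _ ht
    have e2 := h1max _ hf
    have e3 := refl_step hR fl hfl P c r hP hc hrr hws hwp h2 h2m.1.2
    have e4 := h2m.2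
    have e4' : ZZ P c r w h1 ^ 2 ≤ ZZ P c r w h2 ^ 2 := pow_le_pow_left₀ h0.le e4 2
    have e5 : ZZ P c r w h1 ≤ ZZ P c r w (rfh R σ true h2) := by
      by_contra hlt'
      push Not at hlt'
      have : ZZ P c r w (rfh R σ false h2) * ZZ P c r w (rfh R σ true h2) <
          ZZ P c r w h1 ^ 2 := by
        calc ZZ P c r w (rfh R σ false h2) * ZZ P c r w (rfh R σ true h2)
            ≤ ZZ P c r w h1 * ZZ P c r w (rfh R σ true h2) :=
              mul_le_mul_of_nonneg_right e2 (hZZ _)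
          _ < ZZ P c r w h1 * ZZ P c r w h1 := mul_lt_mul_of_pos_left hlt' h0
          _ = ZZ P c r w h1 ^ 2 := by ring
      linarith
    have e6 : ZZ P c r w h1 ≤ ZZ P c r w (rfh R σ false h2) := by
      by_contra hlt'
      push Not at hlt'
      have : ZZ P c r w (rfh R σ false h2) * ZZ P c r w (rfh R σ true h2) <
          ZZ P c r w h1 ^ 2 := by
        calc ZZ P c r w (rfh R σ false h2) * ZZ P c r w (rfh R σ true h2)
            ≤ ZZ P c r w (rfh R σ false h2) * ZZ P c r w h1 :=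
              mul_le_mul_of_nonneg_left e1 (hZZ _)
          _ < ZZ P c r w h1 * ZZ P c r w h1 := mul_lt_mul_of_pos_right hlt' h0
          _ = ZZ P c r w h1 ^ 2 := by ring
      linarith
    have e7 := h2min _ ⟨ht, e5⟩
    have e8 := h2min _ ⟨hf, e6⟩
    omega
  have e1 : ZZ P c r w h2 = Zf P c r w 0 := by
    unfold ZZ
    have a1 : (∑ x, ∑ y, w x y * h2 x y ^ 2) = 0 := by
      refine Finset.sum_eq_zero fun x _ => Finset.sum_eq_zero fun y _ => ?_
      by_cases hxy : h2 x y = 0
      · rw [hxy]; ring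
      · rw [hzero x y hxy]; ring
    have a2 : kf w h2 = 0 := by
      funext x
      unfold kf
      refine Finset.sum_eq_zero fun y _ => ?_
      by_cases hxy : h2 x y = 0
      · rw [hxy]; ring
      · rw [hzero x y hxy]; ring
    rw [a1, a2]
    simp
  calc ZZ P c r w h ≤ ZZ P c r w h1 := h1max h hhFT
    _ ≤ ZZ P c r w h2 := h2m.2
    _ = Zf P c r w 0 := e1

/-- Gaussian domination for gradients. -/
theorem gd_grad (fl : B ≃ B) (hfl : ∀ b, fl (fl b) = b)
    (P c r : Matrix B B ℝ) (hP : P.submatrix fl fl = P) (hc : c.submatrix fl fl = c)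
    (hrr : r.submatrix fl fl = -r) (hPt : Pᵀ = P) (hct : cᵀ = c) (hrt : rᵀ = -r)
    (w : V → V → ℝ) (hws : ∀ x y, w x y = w y x)
    (hwp : ∀ x y, 0 ≤ w x y) (hw : ∀ x y, w x y ≠ 0 → ∃ R σ, IsRefl w R σ ∧ R x = y)
    (f : V → ℝ) (l : ℝ) (hf : ∀ x, ∑ y, w x y * (f x - f y) = l * f x) (s : ℝ) :
    Zf P c r w (fun x => s * (l * f x)) ≤
      Real.exp (s ^ 2 * (l / 2 * ∑ x, f x ^ 2)) * Zf P c r w 0 := by
  have h1 := gd0 fl hfl P c r hP hc hrr hPt hct hrt w hws hwp hw (fun x y => s * (f x - f y))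
    (fun x y => by ring)
  unfold ZZ at h1
  have h2 : kf w (fun x y => s * (f x - f y)) = fun x => s * (l * f x) := by
    funext x
    unfold kf
    rw [← hf x, Finset.mul_sum]
    exact Finset.sum_congr rfl fun y _ => by ring
  have h3 : ∑ x, ∑ y, w x y * (s * (f x - f y)) ^ 2 = 2 * s ^ 2 * (l * ∑ x, f x ^ 2) := by
    have e1 : ∑ x, ∑ y, w x y * (f x * (f x - f y)) = l * ∑ x, f x ^ 2 := by
      rw [Finset.mul_sum]
      refine Finset.sum_congr rfl fun x _ => ?_
      have : ∑ y, w x y * (f x * (f x - f y)) = f x * ∑ y, w x y * (f x - f y) := by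
        rw [Finset.mul_sum]; exact Finset.sum_congr rfl fun y _ => by ring
      rw [this, hf x]; ring
    have e2 : ∑ x, ∑ y, w x y * (f y * (f y - f x)) = l * ∑ x, f x ^ 2 := by
      rw [Finset.sum_comm, ← e1]
      refine Finset.sum_congr rfl fun x _ => Finset.sum_congr rfl fun y _ => ?_
      rw [hws]
    calc ∑ x, ∑ y, w x y * (s * (f x - f y)) ^ 2
        = s ^ 2 * (∑ x, ∑ y, w x y * (f x * (f x - f y)) +
            ∑ x, ∑ y, w x y * (f y * (f y - f x))) := by
          rw [← Finset.sum_add_distrib, Finset.mul_sum]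
          refine Finset.sum_congr rfl fun x _ => ?_
          rw [← Finset.sum_add_distrib, Finset.mul_sum]
          exact Finset.sum_congr rfl fun y _ => by ring
      _ = _ := by rw [e1, e2]; ring
  rw [h2, h3] at h1
  have h4 : Zf P c r w (fun x => s * (l * f x)) =
      Real.exp (s ^ 2 * (l / 2 * ∑ x, f x ^ 2)) * (Real.exp (-(2 * s ^ 2 * (l * ∑ x, f x ^ 2)) / 4) *
        Zf P c r w (fun x => s * (l * f x))) := by
    rw [← mul_assoc, ← Real.exp_add]
    have : s ^ 2 * (l / 2 * ∑ x, f x ^ 2) + -(2 * s ^ 2 * (l * ∑ x, f x ^ 2)) / 4 = 0 := by ring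
    rw [this, Real.exp_zero, one_mul]
  rw [h4]
  exact mul_le_mul_of_nonneg_left h1 (Real.exp_pos _).le

end Pool.Agent.H993.TR
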