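import Mathlib
import Pool.Agent.H993.TR.GD

/-!
# Traces of exponentials of symmetric matrices
-/

namespace Pool.Agent.H993.TR

open Filter Topology NormedSpace Matrix MeasureTheory

variable {n : Type} [Fintype n] [DecidableEq n]

/-- The spectral theorem for real symmetric matrices. -/
theorem spectral (X : Matrix n n ℝ) (hX : Xᵀ = X) :
    ∃ (U : Matrix n n ℝ) (x : n → ℝ), Uᵀ * U = 1 ∧ U * Uᵀ = 1 ∧ X = U * diagonal x * Uᵀ := by
  have hH : X.IsHermitian := by
    rw [Matrix.IsHermitian, Matrix.conjTranspose_eq_transpose_of_trivial]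
    exact hX
  refine ⟨hH.eigenvectorUnitary, hH.eigenvalues, ?_, ?_, ?_⟩
  · have := Unitary.coe_star_mul_self hH.eigenvectorUnitary
    rwa [Matrix.star_eq_conjTranspose, Matrix.conjTranspose_eq_transpose_of_trivial] at this
  · have := Unitary.coe_mul_star_self hH.eigenvectorUnitary
    rwa [Unitary.coe_star, Matrix.star_eq_conjTranspose,
      Matrix.conjTranspose_eq_transpose_of_trivial] at this
  · have h := hH.spectral_theorem
    have h2 : (RCLike.ofReal ∘ hH.eigenvalues : n → ℝ) = hH.eigenvalues := by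
      funext i; simp
    rw [h2] at h
    conv_lhs => rw [h]
    rw [Unitary.conjStarAlgAut_apply]
    rw [Matrix.star_eq_conjTranspose, Matrix.conjTranspose_eq_transpose_of_trivial]

theorem exp_conj_orth (U : Matrix n n ℝ) (h1 : Uᵀ * U = 1) (h2 : U * Uᵀ = 1) (X : Matrix n n ℝ) :
    exp (U * X * Uᵀ) = U * exp X * Uᵀ := by
  have hU : IsUnit U := ⟨⟨U, Uᵀ, h2, h1⟩, rfl⟩
  have hinv : U⁻¹ = Uᵀ := Matrix.inv_eq_left_inv h1
  have := Matrix.exp_conj U X hU
  rwa [hinv] at this

theorem exp_diag_real (x : n → ℝ) : exp (diagonal x) = diagonal (fun i => Real.exp (x i)) := by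
  rw [Matrix.exp_diagonal]
  congr 1
  funext i
  rw [Pi.coe_exp, Real.exp_eq_exp_ℝ]

/-- Peierls' inequality. -/
theorem peierls (X : Matrix n n ℝ) (hX : Xᵀ = X) (i : n) : Real.exp (X i i) ≤ exp X i i := by
  obtain ⟨U, x, h1, h2, h3⟩ := spectral X hX
  have hrow : ∑ k, U i k ^ 2 = 1 := by
    have := congrFun (congrFun h2 i) i
    rw [Matrix.mul_apply, Matrix.one_apply_eq] at this
    rw [← this]
    exact Finset.sum_congr rfl fun k _ => by rw [Matrix.transpose_apply]; ring
  have hd : ∀ y : n → ℝ, (U * diagonal y * Uᵀ) i i = ∑ k, U i k ^ 2 * y k := by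
    intro y
    rw [Matrix.mul_apply]
    refine Finset.sum_congr rfl fun k _ => ?_
    rw [Matrix.mul_diagonal, Matrix.transpose_apply]; ring
  have hXi : X i i = ∑ k, U i k ^ 2 * x k := by rw [h3]; exact hd x
  have hEi : exp X i i = ∑ k, U i k ^ 2 * Real.exp (x k) := by
    rw [h3, exp_conj_orth U h1 h2, exp_diag_real, hd]
  rw [hXi, hEi]
  have := convexOn_exp.map_sum_le (t := Finset.univ) (w := fun k => U i k ^ 2) (p := x)
    (fun k _ => sq_nonneg _) hrow (fun k _ => Set.mem_univ _)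
  simpa only [smul_eq_mul] using this

theorem trace_conj_orth (U : Matrix n n ℝ) (h1 : Uᵀ * U = 1) (X : Matrix n n ℝ) :
    (U * X * Uᵀ).trace = X.trace := by
  rw [Matrix.trace_mul_comm, ← Matrix.mul_assoc, h1, Matrix.one_mul]

/-- The trace of the exponential is monotone. -/
theorem trace_exp_mono (X Y : Matrix n n ℝ) (hX : Xᵀ = X) (hY : Yᵀ = Y)
    (h : ∀ v : n → ℝ, v ⬝ᵥ (X *ᵥ v) ≤ v ⬝ᵥ (Y *ᵥ v)) : (exp X).trace ≤ (exp Y).trace := by
  obtain ⟨U, x, h1, h2, h3⟩ := spectral X hX
  set Y' := Uᵀ * Y * U with hY'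
  have hYU : Y = U * Y' * Uᵀ := by
    rw [hY']
    calc Y = (U * Uᵀ) * Y * (U * Uᵀ) := by rw [h2]; simp
      _ = _ := by simp only [Matrix.mul_assoc]
  have hY's : Y'ᵀ = Y' := by
    rw [hY', Matrix.transpose_mul, Matrix.transpose_mul, hY, Matrix.transpose_transpose,
      Matrix.mul_assoc]
  have hxx : ∀ i, x i = (Uᵀ * X * U) i i := by
    intro i
    have : Uᵀ * X * U = diagonal x := by
      rw [h3]
      calc Uᵀ * (U * diagonal x * Uᵀ) * U = (Uᵀ * U) * diagonal x * (Uᵀ * U) := by
            simp only [Matrix.mul_assoc]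
        _ = diagonal x := by rw [h1]; simp
    rw [this, Matrix.diagonal_apply_eq]
  have hform : ∀ (M : Matrix n n ℝ) (i : n), (Uᵀ * M * U) i i =
      (fun k => U k i) ⬝ᵥ (M *ᵥ fun k => U k i) := by
    intro M i
    simp only [Matrix.mul_apply, dotProduct, mulVec, Matrix.transpose_apply, Finset.sum_mul,
      Finset.mul_sum]
    rw [Finset.sum_comm]
    exact Finset.sum_congr rfl fun a _ => Finset.sum_congr rfl fun b _ => by ring
  have e1 : (exp X).trace = ∑ i, Real.exp (x i) := by
    rw [h3, exp_conj_orth U h1 h2, trace_conj_orth U h1, exp_diag_real, Matrix.trace_diagonal]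
  have e2 : (exp Y).trace = ∑ i, exp Y' i i := by
    rw [hYU, exp_conj_orth U h1 h2, trace_conj_orth U h1]
    rfl
  rw [e1, e2]
  refine Finset.sum_le_sum fun i _ => ?_
  refine le_trans ?_ (peierls Y' hY's i)
  rw [Real.exp_le_exp, hxx, hY', hform, hform]
  exact h _

/-- First order convexity of the trace of the exponential. -/
theorem trace_exp_convex (X Y : Matrix n n ℝ) (hX : Xᵀ = X) (hY : Yᵀ = Y) :
    (exp X).trace + (Y * exp X).trace ≤ (exp (X + Y)).trace := by
  obtain ⟨U, x, h1, h2, h3⟩ := spectral X hX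
  set Y' := Uᵀ * Y * U with hY'
  have hYU : Y = U * Y' * Uᵀ := by
    rw [hY']
    calc Y = (U * Uᵀ) * Y * (U * Uᵀ) := by rw [h2]; simp
      _ = _ := by simp only [Matrix.mul_assoc]
  have hY's : Y'ᵀ = Y' := by
    rw [hY', Matrix.transpose_mul, Matrix.transpose_mul, hY, Matrix.transpose_transpose,
      Matrix.mul_assoc]
  have hsum : X + Y = U * (diagonal x + Y') * Uᵀ := by
    rw [Matrix.mul_add, Matrix.add_mul, ← h3, ← hYU]
  have hs : (diagonal x + Y')ᵀ = diagonal x + Y' := by
    rw [Matrix.transpose_add, Matrix.diagonal_transpose, hY's]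
  have e1 : (exp X).trace = ∑ i, Real.exp (x i) := by
    rw [h3, exp_conj_orth U h1 h2, trace_conj_orth U h1, exp_diag_real, Matrix.trace_diagonal]
  have e2 : (Y * exp X).trace = ∑ i, Y' i i * Real.exp (x i) := by
    rw [h3, exp_conj_orth U h1 h2, exp_diag_real]
    have : Y * (U * diagonal (fun i => Real.exp (x i)) * Uᵀ) =
        U * (Y' * diagonal (fun i => Real.exp (x i))) * Uᵀ := by
      rw [hYU]
      calc U * Y' * Uᵀ * (U * diagonal (fun i => Real.exp (x i)) * Uᵀ)
          = U * Y' * (Uᵀ * U) * diagonal (fun i => Real.exp (x i)) * Uᵀ := by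
            simp only [Matrix.mul_assoc]
        _ = _ := by rw [h1]; simp only [Matrix.mul_assoc, Matrix.one_mul]
    rw [this, trace_conj_orth U h1]
    simp only [Matrix.trace, Matrix.diag_apply, Matrix.mul_diagonal]
  have e3 : (exp (X + Y)).trace = ∑ i, exp (diagonal x + Y') i i := by
    rw [hsum, exp_conj_orth U h1 h2, trace_conj_orth U h1]
    rfl
  rw [e1, e2, e3, ← Finset.sum_add_distrib]
  refine Finset.sum_le_sum fun i _ => ?_
  refine le_trans ?_ (peierls _ hs i)
  rw [Matrix.add_apply, Matrix.diagonal_apply_eq, Real.exp_add]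
  have := Real.add_one_le_exp (Y' i i)
  nlinarith [Real.exp_pos (x i)]

end Pool.Agent.H993.TR
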