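import Mathlib
import Pool.Agent.H993.TR.Spec
import Pool.Agent.H993.TR.DuhA

/-!
# Duhamel two point function and the inequality of Falk and Bruch
-/

namespace Pool.Agent.H993.TR

open Filter Topology NormedSpace Matrix MeasureTheory

variable {n : Type} [Fintype n] [DecidableEq n]

theorem mat_exp_continuous : Continuous (exp : Matrix n n ℝ → Matrix n n ℝ) := by
  let := Matrix.linftyOpNormedRing (n := n) (α := ℝ)
  let := Matrix.linftyOpNormedAlgebra (n := n) (α := ℝ) (R := ℝ)
  let : NormedAlgebra ℚ (Matrix n n ℝ) := NormedAlgebra.restrictScalars ℚ ℝ _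
  exact NormedSpace.exp_continuous

/-- The integrand of the Duhamel function. -/
noncomputable def duI (G C : Matrix n n ℝ) (t u : ℝ) : ℝ :=
  (C * exp ((1 - u) • G) * C * exp (u • (G + t • C))).trace

theorem duI_continuous (G C : Matrix n n ℝ) : Continuous (fun p : ℝ × ℝ => duI G C p.1 p.2) := by
  unfold duI
  have h1 : Continuous fun p : ℝ × ℝ => exp ((1 - p.2) • G) :=
    mat_exp_continuous.comp (by fun_prop)
  have h2 : Continuous fun p : ℝ × ℝ => exp (p.2 • (G + p.1 • C)) :=
    mat_exp_continuous.comp (by fun_prop)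
  exact (((continuous_const.matrix_mul h1).matrix_mul continuous_const).matrix_mul h2).matrix_trace

theorem duhamel_trace (G C : Matrix n n ℝ) (t : ℝ) :
    (C * exp (G + t • C)).trace - (C * exp G).trace = t * ∫ u in (0:ℝ)..1, duI G C t u := by
  let := Matrix.linftyOpNormedRing (n := n) (α := ℝ)
  let := Matrix.linftyOpNormedAlgebra (n := n) (α := ℝ) (R := ℝ)
  let L : Matrix n n ℝ →L[ℝ] ℝ := ⟨Matrix.traceLinearMap n ℝ ℝ, continuous_id.matrix_trace⟩
  exact duhamel_abs L G C t

/-- The Duhamel function. -/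
noncomputable def duh (G C : Matrix n n ℝ) (t : ℝ) : ℝ := ∫ u in (0:ℝ)..1, duI G C t u

theorem duh_continuous (G C : Matrix n n ℝ) : Continuous (duh G C) := by
  unfold duh
  exact intervalIntegral.continuous_parametric_intervalIntegral_of_continuous'
    (f := fun t u => duI G C t u) (duI_continuous G C) 0 1

theorem gauss_sum (k : ℕ) : ∑ j ∈ Finset.range k, (j:ℝ) = k * (k - 1) / 2 := by
  induction k with
  | zero => simp
  | succ k ih => rw [Finset.sum_range_succ, ih]; push_cast; ring

theorem phi_lower (G C : Matrix n n ℝ) (hG : Gᵀ = G) (hC : Cᵀ = C) (s : ℝ) (k : ℕ) :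
    (exp G).trace + ∑ j ∈ Finset.range k, s * (C * exp (G + (j * s) • C)).trace ≤
      (exp (G + (k * s) • C)).trace := by
  induction k with
  | zero => simp
  | succ k ih =>
    rw [Finset.sum_range_succ]
    have h1 := trace_exp_convex (G + ((k:ℝ) * s) • C) (s • C)
      (by rw [Matrix.transpose_add, Matrix.transpose_smul, hG, hC])
      (by rw [Matrix.transpose_smul, hC])
    have h2 : G + ((k:ℝ) * s) • C + s • C = G + (((k+1 : ℕ) : ℝ) * s) • C := by
      rw [add_assoc, ← add_smul]
      congr 2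
      push_cast
      ring
    rw [h2, Matrix.smul_mul, Matrix.trace_smul, smul_eq_mul] at h1
    linarith

/-- Gaussian domination bounds the Duhamel function. -/
theorem duh_le (G C : Matrix n n ℝ) (hG : Gᵀ = G) (hC : Cᵀ = C) (q : ℝ)
    (h : ∀ s : ℝ, (exp (G + s • C)).trace ≤ Real.exp (s ^ 2 * q) * (exp G).trace) :
    duh G C 0 ≤ 2 * q * (exp G).trace := by
  set φ0 := (exp G).trace with hφ0
  have hψ : ∀ t, (C * exp (G + t • C)).trace = (C * exp G).trace + t * duh G C t := by
    intro t
    have := duhamel_trace G C t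
    unfold duh
    linarith
  -- for each number of steps
  have hk : ∀ k : ℕ, ((k:ℝ) * (k - 1)) * duh G C 0 ≤ k ^ 2 * (2 * q * φ0) := by
    intro k
    have hs : ∀ s : ℝ, s ≠ 0 → ∑ j ∈ Finset.range k, (j:ℝ) * (duh G C (j * s) + duh G C (-(j * s)))
        ≤ 2 * φ0 * ((Real.exp (s ^ 2 * (k ^ 2 * q)) - 1) / s ^ 2) := by
      intro s hs0
      have h1 := phi_lower G C hG hC s k
      have h2 := phi_lower G C hG hC (-s) k
      simp only [hψ] at h1 h2
      have h3 := h (k * s)
      have h4 := h (k * (-s))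
      have e1 : (k * s) ^ 2 * q = s ^ 2 * (k ^ 2 * q) := by ring
      have e2 : (k * (-s)) ^ 2 * q = s ^ 2 * (k ^ 2 * q) := by ring
      rw [e1] at h3
      rw [e2] at h4
      have h5 : s ^ 2 * ∑ j ∈ Finset.range k, (j:ℝ) * (duh G C (j * s) + duh G C (-(j * s))) =
          (∑ j ∈ Finset.range k, s * ((C * exp G).trace + j * s * duh G C (j * s))) +
          ∑ j ∈ Finset.range k, (-s) * ((C * exp G).trace + j * (-s) * duh G C (j * (-s))) := by
        rw [← Finset.sum_add_distrib, Finset.mul_sum]
        refine Finset.sum_congr rfl fun j _ => ?_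
        have : (j:ℝ) * (-s) = -(j * s) := by ring
        rw [this]
        ring
      have hs2 : 0 < s ^ 2 := by positivity
      rw [← mul_div_assoc, le_div_iff₀ hs2, mul_comm, h5]
      linarith
    have hlim1 : Tendsto (fun s : ℝ => 2 * φ0 * ((Real.exp (s ^ 2 * (k ^ 2 * q)) - 1) / s ^ 2))
        (𝓝[≠] 0) (𝓝 (2 * φ0 * (k ^ 2 * q))) := by
      refine Tendsto.const_mul _ ?_
      have hd : HasDerivAt (fun t : ℝ => Real.exp (t * (k ^ 2 * q))) (k ^ 2 * q) 0 := by
        have := ((hasDerivAt_id (0:ℝ)).mul_const (k ^ 2 * q)).exp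
        simpa using this
      have h1 := hd.tendsto_slope_zero
      have h2 : Tendsto (fun s : ℝ => s ^ 2) (𝓝[≠] 0) (𝓝[≠] 0) := by
        refine tendsto_nhdsWithin_iff.2 ⟨?_, ?_⟩
        · have : Tendsto (fun s : ℝ => s ^ 2) (𝓝 0) (𝓝 (0 ^ 2)) :=
            (continuous_pow 2).tendsto 0
          rw [zero_pow two_ne_zero] at this
          exact this.mono_left nhdsWithin_le_nhds
        · filter_upwards [self_mem_nhdsWithin] with s hs
          have : s ≠ 0 := hs
          simp [this]
      have h3 := h1.comp h2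
      refine h3.congr fun s => ?_
      simp only [Function.comp, zero_add, zero_mul, Real.exp_zero, smul_eq_mul]
      rw [div_eq_inv_mul]
    have hlim2 : Tendsto (fun s : ℝ => ∑ j ∈ Finset.range k, (j:ℝ) * (duh G C (j * s) +
        duh G C (-(j * s)))) (𝓝[≠] 0) (𝓝 (∑ j ∈ Finset.range k, (j:ℝ) * (duh G C 0 + duh G C 0))) := by
      have hc : Continuous fun s : ℝ => ∑ j ∈ Finset.range k, (j:ℝ) * (duh G C (j * s) +
        duh G C (-(j * s))) := by
        refine continuous_finsetSum _ fun j _ => continuous_const.mul ?_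
        exact ((duh_continuous G C).comp (by fun_prop)).add ((duh_continuous G C).comp (by fun_prop))
      have := hc.tendsto 0
      simp only [mul_zero, neg_zero] at this
      exact this.mono_left nhdsWithin_le_nhds
    have hle := le_of_tendsto_of_tendsto hlim2 hlim1
      (by filter_upwards [self_mem_nhdsWithin] with s hs' using hs s hs')
    have hsum : ∑ j ∈ Finset.range k, (j:ℝ) * (duh G C 0 + duh G C 0) =
        ((k:ℝ) * (k - 1)) * duh G C 0 := by
      rw [← Finset.sum_mul]
      rw [gauss_sum k]; ring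
    rw [hsum] at hle
    linarith
  have hlim : Tendsto (fun k : ℕ => (1 - (k:ℝ)⁻¹) * duh G C 0) atTop (𝓝 ((1 - 0) * duh G C 0)) :=
    (tendsto_inv_atTop_nhds_zero_nat.const_sub 1).mul_const _
  rw [sub_zero, one_mul] at hlim
  refine le_of_tendsto hlim ?_
  filter_upwards [eventually_gt_atTop 0] with k hk0
  have hk' : (0:ℝ) < k := by exact_mod_cast hk0
  have h1 := hk k
  have h2 : (1 - (k:ℝ)⁻¹) * duh G C 0 = ((k:ℝ) * (k - 1)) * duh G C 0 / k ^ 2 := by
    field_simp
  rw [h2, div_le_iff₀ (by positivity)]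
  linarith

end Pool.Agent.H993.TR
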