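import Mathlib
import Pool.Agent.H993.TR.Duh

/-!
# The inequality of Falk and Bruch
-/

namespace Pool.Agent.H993.TR

open Filter Topology NormedSpace Matrix MeasureTheory

variable {n : Type} [Fintype n] [DecidableEq n]

/-- The double commutator. -/
noncomputable def dcm (G C : Matrix n n ℝ) : ℝ :=
  ((C * C * G + G * (C * C) - (2:ℝ) • (C * G * C)) * exp G).trace

/-- `∫₀¹ e^{(1-u) y + u x} du`. -/
noncomputable def ddv (x y : ℝ) : ℝ := ∫ u in (0:ℝ)..1, Real.exp ((1 - u) * y + u * x)

theorem ddv_mul (x y : ℝ) : (x - y) * ddv x y = Real.exp x - Real.exp y := by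
  unfold ddv
  rw [← intervalIntegral.integral_const_mul]
  have hd : ∀ u : ℝ, HasDerivAt (fun u : ℝ => Real.exp ((1 - u) * y + u * x))
      ((x - y) * Real.exp ((1 - u) * y + u * x)) u := by
    intro u
    have h1 : HasDerivAt (fun u : ℝ => (1 - u) * y + u * x) (x - y) u := by
      have a1 := ((hasDerivAt_id u).const_sub 1).mul_const y
      have a2 := (hasDerivAt_id u).mul_const x
      have := a1.add a2
      refine this.congr_deriv ?_
      ring
    have := h1.exp
    rwa [mul_comm] at this
  have hc : Continuous fun u : ℝ => (x - y) * Real.exp ((1 - u) * y + u * x) := by fun_prop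
  have := intervalIntegral.integral_eq_sub_of_hasDerivAt (a := (0:ℝ)) (b := 1)
    (fun u _ => hd u) (hc.intervalIntegrable 0 1)
  rw [this]
  simp

theorem ddv_ge (x y : ℝ) : Real.exp (min x y) ≤ ddv x y := by
  unfold ddv
  have h1 : Real.exp (min x y) = ∫ _u in (0:ℝ)..1, Real.exp (min x y) := by simp
  rw [h1]
  have hc : Continuous fun u : ℝ => Real.exp ((1 - u) * y + u * x) := by fun_prop
  refine intervalIntegral.integral_mono_on (by norm_num) (by simp) (hc.intervalIntegrable 0 1) ?_
  intro u hu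
  rw [Real.exp_le_exp]
  have h2 := hu.1
  have h3 := hu.2
  have e1 : (1 - u) * min x y ≤ (1 - u) * y :=
    mul_le_mul_of_nonneg_left (min_le_right _ _) (by linarith)
  have e2 : u * min x y ≤ u * x := mul_le_mul_of_nonneg_left (min_le_left _ _) h2
  nlinarith

theorem ddv_pos (x y : ℝ) : 0 < ddv x y := lt_of_lt_of_le (Real.exp_pos _) (ddv_ge x y)

/-- Everything in an eigenbasis. -/
theorem eigen_sums (G C : Matrix n n ℝ) (hG : Gᵀ = G) (hC : Cᵀ = C) :
    ∃ (g : n → ℝ) (a : n → n → ℝ), (∀ i j, 0 ≤ a i j) ∧ (∀ i j, a i j = a j i) ∧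
      (exp G).trace = ∑ i, Real.exp (g i) ∧
      (C * C * exp G).trace = ∑ i, ∑ j, a i j * Real.exp (g i) ∧
      dcm G C = ∑ i, ∑ j, a i j * ((g i - g j) * (Real.exp (g i) - Real.exp (g j))) ∧
      duh G C 0 = ∑ i, ∑ j, a i j * ddv (g i) (g j) := by
  obtain ⟨U, g, h1, h2, h3⟩ := spectral G hG
  set C' := Uᵀ * C * U with hC'
  have hC's : C'ᵀ = C' := by
    rw [hC', Matrix.transpose_mul, Matrix.transpose_mul, hC, Matrix.transpose_transpose,
      Matrix.mul_assoc]
  set D : (n → ℝ) → Matrix n n ℝ := fun x => U * diagonal x * Uᵀ with hD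
  have hDmul : ∀ x y, D x * D y = D (fun i => x i * y i) := by
    intro x y
    rw [hD]
    simp only
    calc U * diagonal x * Uᵀ * (U * diagonal y * Uᵀ)
        = U * diagonal x * (Uᵀ * U) * diagonal y * Uᵀ := by simp only [Matrix.mul_assoc]
      _ = U * (diagonal x * diagonal y) * Uᵀ := by
          rw [h1]; simp only [Matrix.mul_assoc, Matrix.one_mul]
      _ = _ := by rw [Matrix.diagonal_mul_diagonal]
  have hD1 : D (fun _ => 1) = 1 := by
    rw [hD]
    simp only
    rw [Matrix.diagonal_one, Matrix.mul_one, h2]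
  have hDG : G = D g := h3
  have hDexp : ∀ s : ℝ, exp (s • G) = D (fun i => Real.exp (s * g i)) := by
    intro s
    have : s • G = U * diagonal (fun i => s * g i) * Uᵀ := by
      rw [h3]
      have : diagonal (fun i => s * g i) = s • diagonal g := by
        rw [← Matrix.diagonal_smul]; rfl
      rw [this, Matrix.mul_smul, Matrix.smul_mul]
    rw [this, exp_conj_orth U h1 h2, exp_diag_real]
  have hDexp1 : exp G = D (fun i => Real.exp (g i)) := by
    have := hDexp 1
    rw [one_smul] at this
    simpa using this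
  have htr : ∀ x y : n → ℝ, (C * D x * C * D y).trace = ∑ i, ∑ j, C' i j ^ 2 * (x j * y i) := by
    intro x y
    have e1 : C * D x * C * D y = U * (C' * diagonal x * C' * diagonal y) * Uᵀ := by
      rw [hD, hC']
      simp only
      calc C * (U * diagonal x * Uᵀ) * C * (U * diagonal y * Uᵀ)
          = (U * Uᵀ) * C * (U * diagonal x * Uᵀ) * C * (U * diagonal y * Uᵀ) := by
            rw [h2, Matrix.one_mul]
        _ = _ := by simp only [Matrix.mul_assoc]
    rw [e1, trace_conj_orth U h1, Matrix.trace]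
    refine Finset.sum_congr rfl fun i _ => ?_
    rw [Matrix.diag_apply, Matrix.mul_diagonal, Matrix.mul_apply, Finset.sum_mul]
    refine Finset.sum_congr rfl fun j _ => ?_
    rw [Matrix.mul_diagonal]
    have : C' j i = C' i j := by
      conv_lhs => rw [← hC's]
      rfl
    rw [this]
    ring
  refine ⟨g, fun i j => C' i j ^ 2, fun i j => sq_nonneg _, ?_, ?_, ?_, ?_, ?_⟩
  · intro i j
    have : C' i j = C' j i := by
      conv_lhs => rw [← hC's]
      rfl
    show C' i j ^ 2 = C' j i ^ 2
    rw [this]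
  · rw [hDexp1, hD]
    simp only
    rw [trace_conj_orth U h1, Matrix.trace_diagonal]
  · have e1 : C * C * exp G = C * D (fun _ => 1) * C * D (fun i => Real.exp (g i)) := by
      rw [hD1, Matrix.mul_one, hDexp1]
    rw [e1, htr]
    simp only [one_mul]
  · unfold dcm
    have e1 : C * C * G * exp G = C * D (fun _ => 1) * C * D (fun i => g i * Real.exp (g i)) := by
      rw [hD1, Matrix.mul_one, hDexp1, Matrix.mul_assoc (C * C)]
      conv_lhs => rw [hDG]
      rw [hDmul]
    have e2 : (G * (C * C) * exp G).trace =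
        (C * D (fun _ => 1) * C * D (fun i => Real.exp (g i) * g i)).trace := by
      rw [hD1, Matrix.mul_one, Matrix.mul_assoc, Matrix.trace_mul_comm, hDexp1, Matrix.mul_assoc]
      conv_lhs => rw [hDG]
      rw [hDmul, Matrix.mul_assoc]
    have e3 : C * G * C * exp G = C * D g * C * D (fun i => Real.exp (g i)) := by
      rw [hDexp1, ← hDG]
    rw [Matrix.sub_mul, Matrix.add_mul, Matrix.trace_sub, Matrix.trace_add, e1, e2,
      Matrix.smul_mul, Matrix.trace_smul, e3, htr, htr, htr, smul_eq_mul]
    have hsym : ∀ F : n → n → ℝ, ∑ i, ∑ j, C' i j ^ 2 * F i j = ∑ i, ∑ j, C' i j ^ 2 * F j i := by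
      intro F
      rw [Finset.sum_comm]
      refine Finset.sum_congr rfl fun i _ => Finset.sum_congr rfl fun j _ => ?_
      have : C' j i = C' i j := by
        conv_lhs => rw [← hC's]
        rfl
      rw [this]
    have e4 : ∑ i, ∑ j, C' i j ^ 2 * ((g i - g j) * (Real.exp (g i) - Real.exp (g j))) =
        ∑ i, ∑ j, C' i j ^ 2 * (g i * Real.exp (g i) - g j * Real.exp (g i)) +
        ∑ i, ∑ j, C' i j ^ 2 * (g j * Real.exp (g j) - g i * Real.exp (g j)) := by
      rw [← Finset.sum_add_distrib]
      refine Finset.sum_congr rfl fun i _ => ?_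
      rw [← Finset.sum_add_distrib]
      exact Finset.sum_congr rfl fun j _ => by ring
    rw [e4, ← hsym (fun i j => g i * Real.exp (g i) - g j * Real.exp (g i))]
    have e5 : ∑ i, ∑ j, C' i j ^ 2 * (g i * Real.exp (g i) - g j * Real.exp (g i)) =
        ∑ i, ∑ j, C' i j ^ 2 * (1 * (g i * Real.exp (g i))) -
        ∑ i, ∑ j, C' i j ^ 2 * (g j * Real.exp (g i)) := by
      rw [← Finset.sum_sub_distrib]
      refine Finset.sum_congr rfl fun i _ => ?_
      rw [← Finset.sum_sub_distrib]
      exact Finset.sum_congr rfl fun j _ => by ring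
    rw [e5]
    have e6 : ∑ i, ∑ j, C' i j ^ 2 * (1 * (Real.exp (g i) * g i)) =
        ∑ i, ∑ j, C' i j ^ 2 * (1 * (g i * Real.exp (g i))) :=
      Finset.sum_congr rfl fun i _ => Finset.sum_congr rfl fun j _ => by ring
    rw [e6]
    ring
  · unfold duh duI
    have e1 : ∀ u : ℝ, (C * exp ((1 - u) • G) * C * exp (u • (G + (0:ℝ) • C))).trace =
        ∑ i, ∑ j, C' i j ^ 2 * Real.exp ((1 - u) * g j + u * g i) := by
      intro u
      rw [zero_smul, add_zero, hDexp, hDexp, htr]
      refine Finset.sum_congr rfl fun i _ => Finset.sum_congr rfl fun j _ => ?_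
      rw [Real.exp_add]
    simp only [e1]
    rw [intervalIntegral.integral_finsetSum]
    · refine Finset.sum_congr rfl fun i _ => ?_
      rw [intervalIntegral.integral_finsetSum]
      · refine Finset.sum_congr rfl fun j _ => ?_
        rw [intervalIntegral.integral_const_mul]
        rfl
      · intro j _
        exact Continuous.intervalIntegrable (by fun_prop) _ _
    · intro i _
      exact Continuous.intervalIntegrable (by fun_prop) _ _

/-- The inequality of Falk and Bruch (in a simple form). -/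
theorem falk_bruch (G C : Matrix n n ℝ) (hG : Gᵀ = G) (hC : Cᵀ = C) :
    0 ≤ duh G C 0 ∧ 0 ≤ dcm G C ∧
    (C * C * exp G).trace ≤ duh G C 0 + Real.sqrt (duh G C 0 * dcm G C) / 2 := by
  obtain ⟨g, a, ha, hsym, hZ, hg, hd, hb⟩ := eigen_sums G C hG hC
  have hγ : ∀ i j, 0 ≤ (g i - g j) * (Real.exp (g i) - Real.exp (g j)) := by
    intro i j
    rcases le_total (g i) (g j) with h | h
    · have := Real.exp_le_exp.2 h
      nlinarith
    · have := Real.exp_le_exp.2 h
      nlinarith
  have hb0 : 0 ≤ duh G C 0 := by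
    rw [hb]
    exact Finset.sum_nonneg fun i _ => Finset.sum_nonneg fun j _ =>
      mul_nonneg (ha i j) (ddv_pos _ _).le
  have hd0 : 0 ≤ dcm G C := by
    rw [hd]
    exact Finset.sum_nonneg fun i _ => Finset.sum_nonneg fun j _ =>
      mul_nonneg (ha i j) (hγ i j)
  refine ⟨hb0, hd0, ?_⟩
  have hg2 : (C * C * exp G).trace = ∑ i, ∑ j, a i j * ((Real.exp (g i) + Real.exp (g j)) / 2) := by
    have e1 : ∑ i, ∑ j, a i j * Real.exp (g j) = ∑ i, ∑ j, a i j * Real.exp (g i) := by
      rw [Finset.sum_comm]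
      exact Finset.sum_congr rfl fun i _ => Finset.sum_congr rfl fun j _ => by rw [hsym]
    have e2 : ∑ i, ∑ j, a i j * ((Real.exp (g i) + Real.exp (g j)) / 2) =
        (∑ i, ∑ j, a i j * Real.exp (g i) + ∑ i, ∑ j, a i j * Real.exp (g j)) / 2 := by
      rw [← Finset.sum_add_distrib, Finset.sum_div]
      refine Finset.sum_congr rfl fun i _ => ?_
      rw [← Finset.sum_add_distrib, Finset.sum_div]
      exact Finset.sum_congr rfl fun j _ => by ring
    rw [e2, e1, hg]
    ring
  have hpt : ∀ i j, (Real.exp (g i) + Real.exp (g j)) / 2 ≤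
      ddv (g i) (g j) + |Real.exp (g i) - Real.exp (g j)| / 2 := by
    intro i j
    have h1 := ddv_ge (g i) (g j)
    rcases le_total (g i) (g j) with h | h
    · rw [min_eq_left h] at h1
      have := Real.exp_le_exp.2 h
      rw [abs_of_nonpos (by linarith)]
      linarith
    · rw [min_eq_right h] at h1
      have := Real.exp_le_exp.2 h
      rw [abs_of_nonneg (by linarith)]
      linarith
  have habs : ∀ i j, a i j * |Real.exp (g i) - Real.exp (g j)| =
      Real.sqrt (a i j * ddv (g i) (g j)) *
        Real.sqrt (a i j * ((g i - g j) * (Real.exp (g i) - Real.exp (g j)))) := by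
    intro i j
    rw [← Real.sqrt_mul (mul_nonneg (ha i j) (ddv_pos _ _).le)]
    have e1 : a i j * ddv (g i) (g j) * (a i j * ((g i - g j) * (Real.exp (g i) - Real.exp (g j)))) =
        (a i j * (Real.exp (g i) - Real.exp (g j))) ^ 2 := by
      have := ddv_mul (g i) (g j)
      calc _ = a i j ^ 2 * ((g i - g j) * ddv (g i) (g j)) * (Real.exp (g i) - Real.exp (g j)) := by
            ring
        _ = _ := by rw [this]; ring
    rw [e1, Real.sqrt_sq_eq_abs, abs_mul, abs_of_nonneg (ha i j)]
  have hcs : ∑ i, ∑ j, a i j * |Real.exp (g i) - Real.exp (g j)| ≤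
      Real.sqrt (duh G C 0 * dcm G C) := by
    rw [Real.sqrt_mul hb0, hb, hd]
    simp only [habs]
    have := Real.sum_sqrt_mul_sqrt_le (Finset.univ : Finset (n × n))
      (f := fun p => a p.1 p.2 * ddv (g p.1) (g p.2))
      (g := fun p => a p.1 p.2 * ((g p.1 - g p.2) * (Real.exp (g p.1) - Real.exp (g p.2))))
      (fun p => mul_nonneg (ha _ _) (ddv_pos _ _).le)
      (fun p => mul_nonneg (ha _ _) (hγ _ _))
    simpa only [Fintype.sum_prod_type] using this
  rw [hg2]
  calc ∑ i, ∑ j, a i j * ((Real.exp (g i) + Real.exp (g j)) / 2)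
      ≤ ∑ i, ∑ j, a i j * (ddv (g i) (g j) + |Real.exp (g i) - Real.exp (g j)| / 2) :=
        Finset.sum_le_sum fun i _ => Finset.sum_le_sum fun j _ =>
          mul_le_mul_of_nonneg_left (hpt i j) (ha i j)
    _ = duh G C 0 + (∑ i, ∑ j, a i j * |Real.exp (g i) - Real.exp (g j)|) / 2 := by
        rw [hb, Finset.sum_div, ← Finset.sum_add_distrib]
        refine Finset.sum_congr rfl fun i _ => ?_
        rw [Finset.sum_div, ← Finset.sum_add_distrib]
        exact Finset.sum_congr rfl fun j _ => by ring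
    _ ≤ _ := by linarith

end Pool.Agent.H993.TR
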