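import Mathlib
import Pool.Agent.H993.TR.FB
import Pool.Agent.H993.TR.DuhB

/-!
# The infrared bound with an insertion which commutes with the Hamiltonian
-/

namespace Pool.Agent.H993.TR

open Filter Topology NormedSpace Matrix MeasureTheory

variable {n : Type} [Fintype n] [DecidableEq n]

theorem duhamel_tr (X G C : Matrix n n ℝ) (t b : ℝ) :
    (X * exp (b • (G + t • C))).trace - (X * exp (b • G)).trace =
      t * ∫ u in (0:ℝ)..b, (X * (exp ((b - u) • G) * C * exp (u • (G + t • C)))).trace := by
  let := Matrix.linftyOpNormedRing (n := n) (α := ℝ)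
  let := Matrix.linftyOpNormedAlgebra (n := n) (α := ℝ) (R := ℝ)
  let L : Matrix n n ℝ →L[ℝ] ℝ := ⟨(Matrix.traceLinearMap n ℝ ℝ) ∘ₗ (LinearMap.mulLeft ℝ X),
    (continuous_const.matrix_mul continuous_id).matrix_trace⟩
  exact duhamel_gen L G C t b

theorem comm_exp_smul (I G : Matrix n n ℝ) (h : I * G = G * I) (s : ℝ) :
    I * exp (s • G) = exp (s • G) * I := by
  let := Matrix.linftyOpNormedRing (n := n) (α := ℝ)
  let := Matrix.linftyOpNormedAlgebra (n := n) (α := ℝ) (R := ℝ)
  let : NormedAlgebra ℚ (Matrix n n ℝ) := NormedAlgebra.restrictScalars ℚ ℝ _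
  have h1 : Commute I (s • G) := Commute.smul_right (show Commute I G from h) s
  exact h1.exp_right.eq

theorem exp_smul_mul (G : Matrix n n ℝ) (s t : ℝ) :
    exp (s • G) * exp (t • G) = exp ((s + t) • G) := by
  rw [add_smul, Matrix.exp_add_of_commute]
  exact ((Commute.refl G).smul_left s).smul_right t

/-- The inner integrand. -/
noncomputable def HH (I G C : Matrix n n ℝ) (t u r : ℝ) : ℝ :=
  (I * exp ((1 - u) • G) * C * (exp ((u - r) • G) * C * exp (r • (G + t • C)))).trace

theorem HH_cont (I G C : Matrix n n ℝ) :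
    Continuous fun p : (ℝ × ℝ) × ℝ => HH I G C p.1.1 p.1.2 p.2 := by
  unfold HH
  have h1 : Continuous fun p : (ℝ × ℝ) × ℝ => exp ((1 - p.1.2) • G) :=
    mat_exp_continuous.comp (by fun_prop)
  have h2 : Continuous fun p : (ℝ × ℝ) × ℝ => exp ((p.1.2 - p.2) • G) :=
    mat_exp_continuous.comp (by fun_prop)
  have h3 : Continuous fun p : (ℝ × ℝ) × ℝ => exp (p.2 • (G + p.1.1 • C)) :=
    mat_exp_continuous.comp (by fun_prop)
  exact (((continuous_const.matrix_mul h1).matrix_mul continuous_const).matrix_mul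
    ((h2.matrix_mul continuous_const).matrix_mul h3)).matrix_trace

/-- The inner integral. -/
noncomputable def PsiI (I G C : Matrix n n ℝ) (t u : ℝ) : ℝ := ∫ r in (0:ℝ)..u, HH I G C t u r

theorem PsiI_cont (I G C : Matrix n n ℝ) :
    Continuous fun p : ℝ × ℝ => PsiI I G C p.1 p.2 := by
  unfold PsiI
  exact intervalIntegral.continuous_parametric_intervalIntegral_of_continuous
    (f := fun (p : ℝ × ℝ) r => HH I G C p.1 p.2 r) (HH_cont I G C) (s := fun p : ℝ × ℝ => p.2)
    continuous_snd

theorem PsiI_cont0 (I G C : Matrix n n ℝ) : Continuous (fun u : ℝ => PsiI I G C 0 u) := by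
  have hpr : Continuous fun u : ℝ => ((0:ℝ), u) := by fun_prop
  have h := (PsiI_cont I G C).comp hpr
  simpa [Function.comp_def] using h

/-- The function of the imaginary time. -/
noncomputable def FF (I G C : Matrix n n ℝ) (v : ℝ) : ℝ :=
  (I * exp ((1 - v) • G) * C * exp (v • G) * C).trace

theorem HH_zero (I G C : Matrix n n ℝ) (hIG : I * G = G * I) (u r : ℝ) :
    HH I G C 0 u r = FF I G C (u - r) := by
  unfold HH FF
  rw [zero_smul, add_zero]
  have e1 : I * exp ((1 - u) • G) * C * (exp ((u - r) • G) * C * exp (r • G)) =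
      (I * exp ((1 - u) • G) * C * (exp ((u - r) • G) * C)) * exp (r • G) := by
    simp only [Matrix.mul_assoc]
  rw [e1, Matrix.trace_mul_comm]
  congr 1
  have e2 : exp (r • G) * (I * exp ((1 - u) • G) * C * (exp ((u - r) • G) * C)) =
      (exp (r • G) * I) * exp ((1 - u) • G) * C * (exp ((u - r) • G) * C) := by
    simp only [Matrix.mul_assoc]
  rw [e2, ← comm_exp_smul I G hIG, Matrix.mul_assoc I, exp_smul_mul]
  have e3 : r + (1 - u) = 1 - (u - r) := by ring
  rw [e3]
  simp only [Matrix.mul_assoc]

theorem FF_lower (I G C : Matrix n n ℝ) (hG : Gᵀ = G) (hC : Cᵀ = C) (hI : Iᵀ = I)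
    (hII : I * I = I) (hIG : I * G = G * I) (v : ℝ) :
    0 ≤ FF I G C v ∧ (I * (C * C) * exp G).trace -
      v * (I * (C * (C * G - G * C)) * exp G).trace ≤ FF I G C v := by
  obtain ⟨U, g, h1, h2, h3⟩ := spectral G hG
  set X := Uᵀ * (C * I) * U with hX
  set D : (n → ℝ) → Matrix n n ℝ := fun x => U * diagonal x * Uᵀ with hD
  have hDexp : ∀ s : ℝ, exp (s • G) = D (fun i => Real.exp (s * g i)) := by
    intro s
    have : s • G = U * diagonal (fun i => s * g i) * Uᵀ := by
      rw [h3]
      have : diagonal (fun i => s * g i) = s • diagonal g := by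
        rw [← Matrix.diagonal_smul]; rfl
      rw [this, Matrix.mul_smul, Matrix.smul_mul]
    rw [this, exp_conj_orth U h1 h2, exp_diag_real]
  have hDexp1 : exp G = D (fun i => Real.exp (g i)) := by
    have := hDexp 1
    rw [one_smul] at this
    simpa using this
  have hDmul : ∀ x y, D x * D y = D (fun i => x i * y i) := by
    intro x y
    rw [hD]
    simp only
    calc U * diagonal x * Uᵀ * (U * diagonal y * Uᵀ)
        = U * diagonal x * (Uᵀ * U) * diagonal y * Uᵀ := by simp only [Matrix.mul_assoc]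
      _ = U * (diagonal x * diagonal y) * Uᵀ := by
          rw [h1]; simp only [Matrix.mul_assoc, Matrix.one_mul]
      _ = _ := by rw [Matrix.diagonal_mul_diagonal]
  have hD1 : D (fun _ => 1) = 1 := by
    rw [hD]
    simp only
    rw [Matrix.diagonal_one, Matrix.mul_one, h2]
  -- the basic trace
  have htr : ∀ x y : n → ℝ, ((I * C) * D x * (C * I) * D y).trace =
      ∑ i, ∑ j, X j i ^ 2 * (x j * y i) := by
    intro x y
    have hXt : Uᵀ * (I * C) * U = Xᵀ := by
      rw [hX, Matrix.transpose_mul, Matrix.transpose_mul, Matrix.transpose_mul,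
        Matrix.transpose_transpose, hC, hI, Matrix.mul_assoc]
    have e1 : (I * C) * D x * (C * I) * D y = U * (Xᵀ * diagonal x * X * diagonal y) * Uᵀ := by
      rw [← hXt, hX, hD]
      simp only
      calc (I * C) * (U * diagonal x * Uᵀ) * (C * I) * (U * diagonal y * Uᵀ)
          = (U * Uᵀ) * (I * C) * (U * diagonal x * Uᵀ) * (C * I) * (U * diagonal y * Uᵀ) := by
            rw [h2, Matrix.one_mul]
        _ = _ := by simp only [Matrix.mul_assoc]
    rw [e1, trace_conj_orth U h1, Matrix.trace]
    refine Finset.sum_congr rfl fun i _ => ?_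
    rw [Matrix.diag_apply, Matrix.mul_diagonal, Matrix.mul_apply, Finset.sum_mul]
    refine Finset.sum_congr rfl fun j _ => ?_
    rw [Matrix.mul_diagonal, Matrix.transpose_apply]
    ring
  -- moving the projection
  have hmove : ∀ (Y : Matrix n n ℝ) (y : n → ℝ), I * D y = D y * I →
      (I * C * Y * C * D y).trace = ((I * C) * Y * (C * I) * D y).trace := by
    intro Y y hy
    have e1 : (I * C * Y * C * D y).trace = (I * (I * C * Y * C * D y)).trace := by
      have : I * (I * C * Y * C * D y) = (I * I) * C * Y * C * D y := by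
        simp only [Matrix.mul_assoc]
      rw [this, hII]
    rw [e1, Matrix.trace_mul_comm]
    congr 1
    calc I * C * Y * C * D y * I = I * C * Y * C * (D y * I) := by simp only [Matrix.mul_assoc]
      _ = I * C * Y * C * (I * D y) := by rw [hy]
      _ = _ := by simp only [Matrix.mul_assoc]
  have hcommE : ∀ s : ℝ, I * D (fun i => Real.exp (s * g i)) =
      D (fun i => Real.exp (s * g i)) * I := by
    intro s
    rw [← hDexp]
    exact comm_exp_smul I G hIG s
  have hF : ∀ v, FF I G C v = ∑ i, ∑ j, X j i ^ 2 * Real.exp (v * g j + (1 - v) * g i) := by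
    intro v
    unfold FF
    have e1 : I * exp ((1 - v) • G) * C * exp (v • G) * C =
        exp ((1 - v) • G) * (I * C * exp (v • G) * C) := by
      rw [comm_exp_smul I G hIG]
      simp only [Matrix.mul_assoc]
    rw [e1, Matrix.trace_mul_comm, hDexp, hDexp, hmove _ _ (hcommE _), htr]
    refine Finset.sum_congr rfl fun i _ => Finset.sum_congr rfl fun j _ => ?_
    rw [Real.exp_add]
  have hF0 : (I * (C * C) * exp G).trace = ∑ i, ∑ j, X j i ^ 2 * Real.exp (g i) := by
    have e1 : I * (C * C) * exp G = I * C * D (fun _ => 1) * C * D (fun i => Real.exp (g i)) := by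
      rw [hD1, Matrix.mul_one, hDexp1]
      simp only [Matrix.mul_assoc]
    have hc : I * D (fun i => Real.exp (g i)) = D (fun i => Real.exp (g i)) * I := by
      simpa using hcommE 1
    rw [e1, hmove _ _ hc, htr]
    refine Finset.sum_congr rfl fun i _ => Finset.sum_congr rfl fun j _ => ?_
    rw [one_mul]
  have hDD : (I * (C * (C * G - G * C)) * exp G).trace =
      ∑ i, ∑ j, X j i ^ 2 * ((g i - g j) * Real.exp (g i)) := by
    have hDG : G = D g := h3
    have hc : I * D (fun i => Real.exp (g i)) = D (fun i => Real.exp (g i)) * I := by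
      simpa using hcommE 1
    have hIG' : I * D g = D g * I := by rw [← hDG]; exact hIG
    have hc2 : I * D (fun i => g i * Real.exp (g i)) = D (fun i => g i * Real.exp (g i)) * I := by
      have : D (fun i => g i * Real.exp (g i)) = D g * D (fun i => Real.exp (g i)) :=
        (hDmul _ _).symm
      rw [this]
      calc I * (D g * D (fun i => Real.exp (g i))) = (I * D g) * D (fun i => Real.exp (g i)) :=
            (Matrix.mul_assoc _ _ _).symm
        _ = D g * (I * D (fun i => Real.exp (g i))) := by rw [hIG']; exact Matrix.mul_assoc _ _ _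
        _ = (D g * D (fun i => Real.exp (g i))) * I := by
            rw [hc]; exact (Matrix.mul_assoc _ _ _).symm
    have e1 : I * (C * (C * G - G * C)) * exp G =
        I * C * D (fun _ => 1) * C * D (fun i => g i * Real.exp (g i)) -
        I * C * D g * C * D (fun i => Real.exp (g i)) := by
      rw [hD1, Matrix.mul_one, hDexp1]
      have : D (fun i => g i * Real.exp (g i)) = G * D (fun i => Real.exp (g i)) := by
        conv_rhs => rw [hDG]
        exact (hDmul _ _).symm
      rw [this, ← hDG]
      simp only [Matrix.mul_sub, Matrix.sub_mul, Matrix.mul_assoc]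
    rw [e1, Matrix.trace_sub, hmove _ _ hc, hmove _ _ hc2, htr, htr, ← Finset.sum_sub_distrib]
    refine Finset.sum_congr rfl fun i _ => ?_
    rw [← Finset.sum_sub_distrib]
    exact Finset.sum_congr rfl fun j _ => by ring
  constructor
  · rw [hF]
    exact Finset.sum_nonneg fun i _ => Finset.sum_nonneg fun j _ =>
      mul_nonneg (sq_nonneg _) (Real.exp_pos _).le
  · rw [hF, hF0, hDD, Finset.mul_sum, ← Finset.sum_sub_distrib]
    refine Finset.sum_le_sum fun i _ => ?_
    rw [Finset.mul_sum, ← Finset.sum_sub_distrib]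
    refine Finset.sum_le_sum fun j _ => ?_
    have e1 : v * g j + (1 - v) * g i = g i + v * (g j - g i) := by ring
    rw [e1, Real.exp_add]
    have h4 := Real.add_one_le_exp (v * (g j - g i))
    have h5 : 0 ≤ X j i ^ 2 * Real.exp (g i) := mul_nonneg (sq_nonneg _) (Real.exp_pos _).le
    have h6 := mul_le_mul_of_nonneg_left h4 h5
    linarith

/-- The bound. -/
theorem proj_fb (I G C : Matrix n n ℝ) (hG : Gᵀ = G) (hC : Cᵀ = C) (hI : Iᵀ = I)
    (hII : I * I = I) (hIG : I * G = G * I) (hodd : (I * exp G * C).trace = 0)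
    (hZ : 0 ≤ (I * exp G).trace) (q : ℝ)
    (h : ∀ s : ℝ, (I * exp (G + s • C)).trace ≤ Real.exp (s ^ 2 * q) * (I * exp G).trace)
    (θ : ℝ) (hθ0 : 0 ≤ θ) (hθ : θ ≤ 1 / 2) :
    θ * (I * (C * C) * exp G).trace ≤ 2 * q * (I * exp G).trace +
      θ ^ 2 / 2 * (I * (C * (C * G - G * C)) * exp G).trace := by
  set Z := (I * exp G).trace with hZd
  set F0 := (I * (C * C) * exp G).trace with hF0
  set D0 := (I * (C * (C * G - G * C)) * exp G).trace with hD0
  set Φ : ℝ → ℝ := fun t => ∫ u in (0:ℝ)..1, PsiI I G C t u with hΦ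
  have hΦc : Continuous Φ := by
    rw [hΦ]
    exact intervalIntegral.continuous_parametric_intervalIntegral_of_continuous'
      (f := fun t u => PsiI I G C t u) (PsiI_cont I G C) 0 1
  -- the expansion
  have hexp : ∀ t : ℝ, (I * exp (G + t • C)).trace - Z = t ^ 2 * Φ t := by
    intro t
    have h1 := duhamel_tr I G C t 1
    rw [one_smul, one_smul] at h1
    rw [h1]
    have h2 : ∀ u : ℝ, (I * (exp ((1 - u) • G) * C * exp (u • (G + t • C)))).trace =
        t * PsiI I G C t u := by
      intro u
      have h3 := duhamel_tr (I * exp ((1 - u) • G) * C) G C t u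
      have h4 : (I * exp ((1 - u) • G) * C * exp (u • G)).trace = 0 := by
        rw [Matrix.trace_mul_comm]
        have e1 : exp (u • G) * (I * exp ((1 - u) • G) * C) =
            (exp (u • G) * I) * exp ((1 - u) • G) * C := by simp only [Matrix.mul_assoc]
        rw [e1, ← comm_exp_smul I G hIG, Matrix.mul_assoc I, exp_smul_mul]
        have e2 : u + (1 - u) = 1 := by ring
        rw [e2, one_smul]
        exact hodd
      rw [h4, sub_zero] at h3
      have e3 : I * (exp ((1 - u) • G) * C * exp (u • (G + t • C))) =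
          I * exp ((1 - u) • G) * C * exp (u • (G + t • C)) := by simp only [Matrix.mul_assoc]
      rw [e3, h3]
      rfl
    simp only [h2]
    rw [intervalIntegral.integral_const_mul, hΦ]
    ring
  have hup : Φ 0 ≤ q * Z := by
    have h1 : ∀ t : ℝ, t ≠ 0 → Φ t ≤ q * Real.exp (t ^ 2 * q) * Z := by
      intro t ht
      have h2 := h t
      have h3 := hexp t
      have h4 : Real.exp (t ^ 2 * q) - 1 ≤ t ^ 2 * q * Real.exp (t ^ 2 * q) := by
        have h5 := Real.add_one_le_exp (-(t ^ 2 * q))
        have h6 : Real.exp (-(t ^ 2 * q)) * Real.exp (t ^ 2 * q) = 1 := by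
          rw [← Real.exp_add]; simp
        have h7 := mul_le_mul_of_nonneg_right h5 (Real.exp_pos (t ^ 2 * q)).le
        rw [h6] at h7
        linarith
      have h5 : t ^ 2 * Φ t ≤ t ^ 2 * (q * Real.exp (t ^ 2 * q) * Z) := by
        rw [← h3]
        have h6 := mul_le_mul_of_nonneg_right h4 hZ
        linarith
      exact le_of_mul_le_mul_left h5 (by positivity)
    have hl1 : Tendsto Φ (𝓝[≠] 0) (𝓝 (Φ 0)) := (hΦc.tendsto 0).mono_left nhdsWithin_le_nhds
    have hl2 : Tendsto (fun t : ℝ => q * Real.exp (t ^ 2 * q) * Z) (𝓝[≠] 0)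
        (𝓝 (q * Real.exp (0 ^ 2 * q) * Z)) := by
      have hc : Continuous fun t : ℝ => q * Real.exp (t ^ 2 * q) * Z := by fun_prop
      exact (hc.tendsto 0).mono_left nhdsWithin_le_nhds
    have h2 := le_of_tendsto_of_tendsto hl1 hl2
      (by filter_upwards [self_mem_nhdsWithin] with t ht using h1 t ht)
    have e : q * Real.exp (0 ^ 2 * q) * Z = q * Z := by
      rw [zero_pow two_ne_zero, zero_mul, Real.exp_zero, mul_one]
    rwa [e] at h2
  -- the lower bound
  have hFc : Continuous (FF I G C) := by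
    unfold FF
    have h1 : Continuous fun v : ℝ => exp ((1 - v) • G) := mat_exp_continuous.comp (by fun_prop)
    have h2 : Continuous fun v : ℝ => exp (v • G) := mat_exp_continuous.comp (by fun_prop)
    exact ((((continuous_const.matrix_mul h1).matrix_mul continuous_const).matrix_mul
      h2).matrix_mul continuous_const).matrix_trace
  have hFl := fun v => FF_lower I G C hG hC hI hII hIG v
  have hPsi : ∀ u, PsiI I G C 0 u = ∫ v in (0:ℝ)..u, FF I G C v := by
    intro u
    unfold PsiI
    simp only [HH_zero I G C hIG]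
    rw [intervalIntegral.integral_comp_sub_left (fun v => FF I G C v) u]
    simp
  have hPsi0 : ∀ u, 0 ≤ u → 0 ≤ PsiI I G C 0 u := by
    intro u hu
    rw [hPsi]
    exact intervalIntegral.integral_nonneg hu fun v _ => (hFl v).1
  have hPsi1 : ∀ u, 1 / 2 ≤ u → θ * F0 - θ ^ 2 / 2 * D0 ≤ PsiI I G C 0 u := by
    intro u hu
    rw [hPsi, ← intervalIntegral.integral_add_adjacent_intervals
      (hFc.intervalIntegrable 0 θ) (hFc.intervalIntegrable θ u)]
    have h1 : 0 ≤ ∫ v in θ..u, FF I G C v :=
      intervalIntegral.integral_nonneg (by linarith) fun v _ => (hFl v).1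
    have h2 : ∫ v in (0:ℝ)..θ, (F0 - v * D0) ≤ ∫ v in (0:ℝ)..θ, FF I G C v :=
      intervalIntegral.integral_mono_on hθ0
        ((by fun_prop : Continuous fun v : ℝ => F0 - v * D0).intervalIntegrable 0 θ)
        (hFc.intervalIntegrable 0 θ) fun v _ => (hFl v).2
    have h3 : ∫ v in (0:ℝ)..θ, (F0 - v * D0) = θ * F0 - θ ^ 2 / 2 * D0 := by
      rw [intervalIntegral.integral_sub (by simp)
        ((by fun_prop : Continuous fun v : ℝ => v * D0).intervalIntegrable 0 θ),
        intervalIntegral.integral_const, intervalIntegral.integral_mul_const, integral_id]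
      simp
    linarith
  have hlow : (θ * F0 - θ ^ 2 / 2 * D0) / 2 ≤ Φ 0 := by
    have hPc := PsiI_cont0 I G C
    have e1 : (∫ u in (0:ℝ)..(1/2), PsiI I G C 0 u) + ∫ u in (1/2:ℝ)..1, PsiI I G C 0 u =
        ∫ u in (0:ℝ)..1, PsiI I G C 0 u :=
      intervalIntegral.integral_add_adjacent_intervals (hPc.intervalIntegrable 0 (1/2))
        (hPc.intervalIntegrable (1/2) 1)
    have e2 : Φ 0 = ∫ u in (0:ℝ)..1, PsiI I G C 0 u := rfl
    have h1 : 0 ≤ ∫ u in (0:ℝ)..(1/2), PsiI I G C 0 u :=
      intervalIntegral.integral_nonneg (by norm_num) fun u hu => hPsi0 u hu.1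
    have h2 : ∫ _u in (1/2:ℝ)..1, (θ * F0 - θ ^ 2 / 2 * D0) ≤ ∫ u in (1/2:ℝ)..1, PsiI I G C 0 u :=
      intervalIntegral.integral_mono_on (by norm_num) (by simp)
        (hPc.intervalIntegrable (1/2) 1) fun u hu => hPsi1 u hu.1
    rw [intervalIntegral.integral_const, smul_eq_mul] at h2
    rw [e2, ← e1]
    linarith
  linarith

end Pool.Agent.H993.TR
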