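import Mathlib
import Pool.Graph.R_pool_sql_team_seeded_63374d34.N157.QR_FOU

/-!
# From the infrared bound to long range order
-/

namespace Pool.Agent.H993.TR

open Pool.Agent.N657.QR Pool.Agent.N157.QR_FOU Finset

/-- The sum rule. -/
theorem sum_rule {d L : ℕ} [NeZero L] (G : (Fin d → ZMod L) → (Fin d → ZMod L) → ℝ) (φ : ℝ → ℝ)
    (hG : ∀ (l : ℝ) (f : (Fin d → ZMod L) → ℝ), 0 < l → (∀ x, lap f x = l * f x) →
      (∑ x, ∑ y, f x * f y * G x y) ≤ φ l * ∑ x, f x ^ 2) :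
    (∑ x, G x x) ≤ (∑ x, ∑ y, G x y) / (Fintype.card (Fin d → ZMod L) : ℝ)
      + ∑ k ∈ (Finset.univ : Finset (Fin d → ZMod L)).erase 0, φ (lam k) := by
  set N : ℝ := (Fintype.card (Fin d → ZMod L) : ℝ) with hN
  have hN0 : 0 < N := by
    rw [hN]
    exact_mod_cast Fintype.card_pos
  have h0 : ∀ x : Fin d → ZMod L, cc 0 x = 1 ∧ ss 0 x = 0 := by
    intro x
    unfold cc ss
    have : dot (0 : Fin d → ZMod L) x = 0 := by simp [dot]
    rw [this, ps_zero]
    simp
  have hB0 : BB G (cc 0) + BB G (ss 0) = ∑ x, ∑ y, G x y := by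
    unfold BB
    have e1 : ∑ x, ∑ y, ss 0 x * ss 0 y * G x y = 0 := by
      apply sum_eq_zero
      intro x _
      apply sum_eq_zero
      intro y _
      rw [(h0 x).2]
      ring
    rw [e1, add_zero]
    apply sum_congr rfl
    intro x _
    apply sum_congr rfl
    intro y _
    rw [(h0 x).1, (h0 y).1]
    ring
  have hB : ∀ k : Fin d → ZMod L, k ≠ 0 →
      BB G (cc k) + BB G (ss k) ≤ φ (lam k) * N := by
    intro k hk
    have h1 := hG (lam k) (cc k) (lam_pos k hk) (fun x => lap_cc k x)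
    have h2 := hG (lam k) (ss k) (lam_pos k hk) (fun x => lap_ss k x)
    have h3 : (∑ x, cc k x ^ 2) + ∑ x, ss k x ^ 2 = N := by
      rw [← sum_add_distrib, sum_congr rfl fun x _ => cs_sq k x, hN]
      simp
    unfold BB
    calc _ ≤ φ (lam k) * (∑ x, cc k x ^ 2) + φ (lam k) * ∑ x, ss k x ^ 2 :=
          add_le_add h1 h2
      _ = φ (lam k) * N := by rw [← mul_add, h3]
  have hp := planch G
  rw [← add_sum_erase univ _ (mem_univ (0 : Fin d → ZMod L)), hB0] at hp
  have h1 : ∑ k ∈ univ.erase (0 : Fin d → ZMod L), (BB G (cc k) + BB G (ss k)) ≤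
      ∑ k ∈ univ.erase (0 : Fin d → ZMod L), φ (lam k) * N :=
    sum_le_sum fun k hk => hB k (ne_of_mem_erase hk)
  rw [← sum_mul] at h1
  rw [← hN] at hp
  have h2 : N * ∑ x, G x x ≤ (∑ x, ∑ y, G x y) +
      (∑ k ∈ univ.erase (0 : Fin d → ZMod L), φ (lam k)) * N := by
    rw [← hp]
    linarith
  have h3 : (∑ x, ∑ y, G x y) = (∑ x, ∑ y, G x y) / N * N := by
    field_simp
  rw [h3, ← add_mul, mul_comm] at h2
  exact le_of_mul_le_mul_right h2 hN0

end Pool.Agent.H993.TR
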