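import Mathlib
import Pool.Agent.H993.TR.FB

/-!
# Exponentials of truncated kernels
-/

namespace Pool.Agent.H993.TR

open Filter Topology NormedSpace Matrix
open scoped Kronecker

section emb

variable {I J : Type} [Fintype I] [DecidableEq I] [Fintype J] [DecidableEq J]

theorem pow_emb (M : Matrix I I ℝ) (N : Matrix J J ℝ) (φ : J → I) (hφ : Function.Injective φ)
    (hM : ∀ z z', M (φ z) (φ z') = N z z') (h0 : ∀ u, u ∉ Set.range φ → ∀ z, M u (φ z) = 0)
    (k : ℕ) (z z' : J) : (M ^ k) (φ z) (φ z') = (N ^ k) z z' := by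
  induction k generalizing z' with
  | zero =>
    rw [pow_zero, pow_zero, Matrix.one_apply, Matrix.one_apply]
    simp [hφ.eq_iff]
  | succ k ih =>
    rw [pow_succ, pow_succ, Matrix.mul_apply, Matrix.mul_apply]
    symm
    refine Fintype.sum_of_injective φ hφ _ _ ?_ ?_
    · intro u hu
      rw [h0 u hu z', mul_zero]
    · intro z''
      rw [ih, hM]

/-- The exponential of a matrix on an invariant subset of the indices. -/
theorem exp_emb (M : Matrix I I ℝ) (N : Matrix J J ℝ) (φ : J → I) (hφ : Function.Injective φ)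
    (hM : ∀ z z', M (φ z) (φ z') = N z z') (h0 : ∀ u, u ∉ Set.range φ → ∀ z, M u (φ z) = 0)
    (z z' : J) : exp M (φ z) (φ z') = exp N z z' := by
  have h1 := mat_exp_entry M (φ z) (φ z')
  have h2 := mat_exp_entry N z z'
  simp only [pow_emb M N φ hφ hM h0] at h1
  exact h1.unique h2

theorem pow_emb_le (M : Matrix I I ℝ) (N : Matrix J J ℝ) (φ : J → I) (hφ : Function.Injective φ)
    (hM : ∀ z z', N z z' ≤ M (φ z) (φ z')) (hM0 : ∀ u v, 0 ≤ M u v) (hN0 : ∀ u v, 0 ≤ N u v)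
    (k : ℕ) (z z' : J) : (N ^ k) z z' ≤ (M ^ k) (φ z) (φ z') := by
  induction k generalizing z' with
  | zero =>
    rw [pow_zero, pow_zero, Matrix.one_apply, Matrix.one_apply]
    simp [hφ.eq_iff]
  | succ k ih =>
    rw [pow_succ, pow_succ, Matrix.mul_apply, Matrix.mul_apply]
    calc ∑ j, (N ^ k) z j * N j z' ≤ ∑ j, (M ^ k) (φ z) (φ j) * M (φ j) (φ z') := by
          refine Finset.sum_le_sum fun j _ => ?_
          exact mul_le_mul (ih j) (hM j z') (hN0 _ _) (pow_nonneg_entry hM0 _ _ _)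
      _ = ∑ u ∈ Finset.univ.image φ, (M ^ k) (φ z) u * M u (φ z') := by
          rw [Finset.sum_image (fun a _ b _ h => hφ h)]
      _ ≤ ∑ u, (M ^ k) (φ z) u * M u (φ z') := by
          refine Finset.sum_le_sum_of_subset_of_nonneg (Finset.subset_univ _) fun u _ _ => ?_
          exact mul_nonneg (pow_nonneg_entry hM0 _ _ _) (hM0 _ _)

/-- Monotonicity of the exponential in the index set and in the entries. -/
theorem exp_emb_le (M : Matrix I I ℝ) (N : Matrix J J ℝ) (φ : J → I) (hφ : Function.Injective φ)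
    (hM : ∀ z z', N z z' ≤ M (φ z) (φ z')) (hM0 : ∀ u v, u ≠ v → 0 ≤ M u v)
    (hN0 : ∀ u v, u ≠ v → 0 ≤ N u v)
    (z z' : J) : exp N z z' ≤ exp M (φ z) (φ z') := by
  obtain ⟨s, hs, hs'⟩ : ∃ s : ℝ, (∀ i, 0 ≤ M i i + s) ∧ ∀ j, 0 ≤ N j j + s := by
    obtain ⟨s, hs⟩ := (Set.finite_range (fun i => - M i i)).bddAbove
    obtain ⟨s', hs'⟩ := (Set.finite_range (fun j => - N j j)).bddAbove
    refine ⟨max s s', fun i => ?_, fun j => ?_⟩
    · have := hs ⟨i, rfl⟩
      simp only at this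
      linarith [le_max_left s s']
    · have := hs' ⟨j, rfl⟩
      simp only at this
      linarith [le_max_right s s']
  have hMs : ∀ i j, 0 ≤ (M + s • (1 : Matrix I I ℝ)) i j := by
    intro i j
    by_cases h : i = j
    · subst h; simpa using hs i
    · simpa [h] using hM0 i j h
  have hNs : ∀ i j, 0 ≤ (N + s • (1 : Matrix J J ℝ)) i j := by
    intro i j
    by_cases h : i = j
    · subst h; simpa using hs' i
    · simpa [h] using hN0 i j h
  have hle : ∀ z z', (N + s • (1 : Matrix J J ℝ)) z z' ≤ (M + s • (1 : Matrix I I ℝ)) (φ z) (φ z') := by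
    intro z z'
    by_cases h : z = z'
    · subst h
      simpa using hM z z
    · have h' : φ z ≠ φ z' := fun h' => h (hφ h')
      simpa [h, h'] using hM z z'
  have h1 := mat_exp_entry (M + s • (1 : Matrix I I ℝ)) (φ z) (φ z')
  have h2 := mat_exp_entry (N + s • (1 : Matrix J J ℝ)) z z'
  have h3 : exp (N + s • (1 : Matrix J J ℝ)) z z' ≤ exp (M + s • (1 : Matrix I I ℝ)) (φ z) (φ z') := by
    refine hasSum_le (fun k => ?_) h2 h1
    exact mul_le_mul_of_nonneg_left (pow_emb_le _ _ φ hφ hle hMs hNs k z z') (by positivity)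
  rw [exp_add_smul_one, exp_add_smul_one] at h3
  simp only [Matrix.smul_apply, smul_eq_mul] at h3
  exact le_of_mul_le_mul_left h3 (Real.exp_pos s)

/-- The exponential of a symmetric matrix is positive semidefinite. -/
theorem exp_entry_le (X : Matrix I I ℝ) (hX : Xᵀ = X) (a b : I) :
    exp X a b ≤ (exp X a a + exp X b b) / 2 := by
  have h1 : exp X = exp ((1/2 : ℝ) • X) * exp ((1/2 : ℝ) • X) := by
    rw [← Matrix.exp_add_of_commute _ _ (Commute.refl _)]
    congr 1
    rw [← add_smul]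
    norm_num
  have h2 : (exp ((1/2 : ℝ) • X))ᵀ = exp ((1/2 : ℝ) • X) := by
    rw [← Matrix.exp_transpose, Matrix.transpose_smul, hX]
  have h3 : exp X = exp ((1/2 : ℝ) • X) * (exp ((1/2 : ℝ) • X))ᵀ := by rw [h2]; exact h1
  rw [h3]
  simp only [Matrix.mul_apply, Matrix.transpose_apply]
  rw [← Finset.sum_add_distrib, Finset.sum_div]
  refine Finset.sum_le_sum fun i _ => ?_
  nlinarith [sq_nonneg (exp ((1/2 : ℝ) • X) a i - exp ((1/2 : ℝ) • X) b i)]

/-- The exponential of a Kronecker sum. -/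
theorem exp_kron (X : Matrix I I ℝ) (Y : Matrix J J ℝ) :
    exp (X ⊗ₖ (1 : Matrix J J ℝ) + (1 : Matrix I I ℝ) ⊗ₖ Y) = exp X ⊗ₖ exp Y := by
  have hc : Commute (X ⊗ₖ (1 : Matrix J J ℝ)) ((1 : Matrix I I ℝ) ⊗ₖ Y) := by
    unfold Commute SemiconjBy
    rw [← Matrix.mul_kronecker_mul, ← Matrix.mul_kronecker_mul]
    simp
  have hpowX : ∀ k : ℕ, (X ⊗ₖ (1 : Matrix J J ℝ)) ^ k = (X ^ k) ⊗ₖ (1 : Matrix J J ℝ) := by
    intro k
    induction k with
    | zero => simp
    | succ k ih => rw [pow_succ, ih, ← Matrix.mul_kronecker_mul, pow_succ, Matrix.one_mul]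
  have hpowY : ∀ k : ℕ, ((1 : Matrix I I ℝ) ⊗ₖ Y) ^ k = (1 : Matrix I I ℝ) ⊗ₖ (Y ^ k) := by
    intro k
    induction k with
    | zero => simp
    | succ k ih => rw [pow_succ, ih, ← Matrix.mul_kronecker_mul, pow_succ, Matrix.one_mul]
  have hX : exp (X ⊗ₖ (1 : Matrix J J ℝ)) = exp X ⊗ₖ (1 : Matrix J J ℝ) := by
    ext ⟨i, j⟩ ⟨i', j'⟩
    have h1 := mat_exp_entry (X ⊗ₖ (1 : Matrix J J ℝ)) (i, j) (i', j')
    have h2 := (mat_exp_entry X i i').mul_right ((1 : Matrix J J ℝ) j j')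
    simp only [hpowX, Matrix.kroneckerMap_apply] at h1
    rw [Matrix.kroneckerMap_apply]
    refine h1.unique ?_
    simpa only [mul_assoc] using h2
  have hY : exp ((1 : Matrix I I ℝ) ⊗ₖ Y) = (1 : Matrix I I ℝ) ⊗ₖ exp Y := by
    ext ⟨i, j⟩ ⟨i', j'⟩
    have h1 := mat_exp_entry ((1 : Matrix I I ℝ) ⊗ₖ Y) (i, j) (i', j')
    have h2 := (mat_exp_entry Y j j').mul_left ((1 : Matrix I I ℝ) i i')
    simp only [hpowY, Matrix.kroneckerMap_apply] at h1
    rw [Matrix.kroneckerMap_apply]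
    refine h1.unique ?_
    refine h2.congr_fun ?_
    intro k
    ring
  rw [Matrix.exp_add_of_commute _ _ hc, hX, hY, ← Matrix.mul_kronecker_mul, Matrix.mul_one,
    Matrix.one_mul]

end emb

end Pool.Agent.H993.TR
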