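import Mathlib
import Pool.Agent.H993.TR.Reg

/-!
# Truncated kernels on an infinite set: monotone limits
-/

namespace Pool.Agent.H993.TR

open Filter Topology NormedSpace Matrix
open scoped Kronecker

variable {Ω Ω' : Type} [DecidableEq Ω] [DecidableEq Ω']

/-- The kernel restricted to a finite set. -/
def mt (A : Ω → Ω → ℝ) (R : Finset Ω) : Matrix R R ℝ := fun a b => A a b

/-- The exponential of the restricted kernel, extended by zero. -/
noncomputable def EE (A : Ω → Ω → ℝ) (R : Finset Ω) (a b : Ω) : ℝ :=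
  if h : a ∈ R ∧ b ∈ R then exp (mt A R) ⟨a, h.1⟩ ⟨b, h.2⟩ else 0

/-- The trace of the exponential times the shift `σ`. -/
noncomputable def TS (A : Ω → Ω → ℝ) (σ : Ω → Ω) (R : Finset Ω) : ℝ := ∑ a ∈ R, EE A R (σ a) a

/-- Symmetric kernels with nonnegative off-diagonal entries. -/
structure Adm (A : Ω → Ω → ℝ) : Prop where
  symm : ∀ a b, A a b = A b a
  off : ∀ a b, a ≠ b → 0 ≤ A a b

theorem EE_eq (A : Ω → Ω → ℝ) (R : Finset Ω) (a b : R) : EE A R a b = exp (mt A R) a b := by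
  unfold EE
  rw [dif_pos ⟨a.2, b.2⟩]

theorem mt_off {A : Ω → Ω → ℝ} (hA : Adm A) (R : Finset Ω) (a b : R) (h : a ≠ b) :
    0 ≤ mt A R a b := hA.off _ _ fun h' => h (Subtype.ext h')

theorem mt_symm {A : Ω → Ω → ℝ} (hA : Adm A) (R : Finset Ω) : (mt A R)ᵀ = mt A R := by
  ext a b
  exact hA.symm _ _

theorem EE_nonneg {A : Ω → Ω → ℝ} (hA : Adm A) (R : Finset Ω) (a b : Ω) : 0 ≤ EE A R a b := by
  unfold EE
  split_ifs with h
  · exact exp_nonneg_of_offdiag (mt_off hA R) _ _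
  · exact le_rfl

theorem EE_symm {A : Ω → Ω → ℝ} (hA : Adm A) (R : Finset Ω) (a b : Ω) :
    EE A R a b = EE A R b a := by
  unfold EE
  by_cases h : a ∈ R ∧ b ∈ R
  · rw [dif_pos h, dif_pos ⟨h.2, h.1⟩]
    have : (exp (mt A R))ᵀ = exp (mt A R) := by rw [← Matrix.exp_transpose, mt_symm hA]
    conv_lhs => rw [← this]
    rfl
  · rw [dif_neg h, dif_neg fun h' => h ⟨h'.2, h'.1⟩]

theorem EE_zero_left {A : Ω → Ω → ℝ} {R : Finset Ω} {a b : Ω} (h : a ∉ R) : EE A R a b = 0 := by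
  unfold EE
  rw [dif_neg fun h' => h h'.1]

theorem EE_zero_right {A : Ω → Ω → ℝ} {R : Finset Ω} {a b : Ω} (h : b ∉ R) : EE A R a b = 0 := by
  unfold EE
  rw [dif_neg fun h' => h h'.2]

theorem EE_mono {A : Ω → Ω → ℝ} (hA : Adm A) {R R' : Finset Ω} (h : R ⊆ R') (a b : Ω) :
    EE A R a b ≤ EE A R' a b := by
  by_cases hab : a ∈ R ∧ b ∈ R
  · have h1 : EE A R a b = exp (mt A R) ⟨a, hab.1⟩ ⟨b, hab.2⟩ := by
      unfold EE; rw [dif_pos hab]
    have h2 : EE A R' a b = exp (mt A R') ⟨a, h hab.1⟩ ⟨b, h hab.2⟩ := by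
      unfold EE; rw [dif_pos ⟨h hab.1, h hab.2⟩]
    rw [h1, h2]
    exact exp_emb_le (mt A R') (mt A R) (fun z : R => (⟨z.1, h z.2⟩ : R'))
      (fun x y hxy => Subtype.ext (by simpa using hxy)) (fun z z' => le_rfl)
      (mt_off hA R') (mt_off hA R) ⟨a, hab.1⟩ ⟨b, hab.2⟩
  · have h1 : EE A R a b = 0 := by unfold EE; rw [dif_neg hab]
    rw [h1]
    exact EE_nonneg hA _ _ _

theorem EE_le {A : Ω → Ω → ℝ} (hA : Adm A) (R : Finset Ω) (a b : Ω) :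
    EE A R a b ≤ (EE A R a a + EE A R b b) / 2 := by
  by_cases hab : a ∈ R ∧ b ∈ R
  · have h1 := EE_eq A R ⟨a, hab.1⟩ ⟨b, hab.2⟩
    have h2 := EE_eq A R ⟨a, hab.1⟩ ⟨a, hab.1⟩
    have h3 := EE_eq A R ⟨b, hab.2⟩ ⟨b, hab.2⟩
    simp only at h1 h2 h3
    rw [h1, h2, h3]
    exact exp_entry_le _ (mt_symm hA R) _ _
  · have h1 : EE A R a b = 0 := by unfold EE; rw [dif_neg hab]
    rw [h1]
    have := EE_nonneg hA R a a
    have := EE_nonneg hA R b b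
    linarith

theorem TS_nonneg {A : Ω → Ω → ℝ} (hA : Adm A) (σ : Ω → Ω) (R : Finset Ω) : 0 ≤ TS A σ R :=
  Finset.sum_nonneg fun _ _ => EE_nonneg hA _ _ _

theorem TS_mono {A : Ω → Ω → ℝ} (hA : Adm A) (σ : Ω → Ω) {R R' : Finset Ω} (h : R ⊆ R') :
    TS A σ R ≤ TS A σ R' := by
  unfold TS
  refine (Finset.sum_le_sum fun a _ => EE_mono hA h (σ a) a).trans ?_
  exact Finset.sum_le_sum_of_subset_of_nonneg h fun a _ _ => EE_nonneg hA _ _ _

theorem TS_id (A : Ω → Ω → ℝ) (R : Finset Ω) : TS A id R = (exp (mt A R)).trace := by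
  unfold TS
  rw [← Finset.sum_coe_sort]
  refine Finset.sum_congr rfl fun a _ => ?_
  rw [id, EE_eq]
  rfl

theorem TS_le {A : Ω → Ω → ℝ} (hA : Adm A) {σ : Ω → Ω} (hσ : Function.Injective σ)
    (R : Finset Ω) : TS A σ R ≤ TS A id R := by
  unfold TS
  have h1 : ∑ a ∈ R, EE A R (σ a) (σ a) ≤ ∑ a ∈ R, EE A R a a := by
    have e1 : ∑ a ∈ R, EE A R (σ a) (σ a) = ∑ b ∈ R.image σ, EE A R b b :=
      (Finset.sum_image (f := fun b => EE A R b b) fun a _ b _ h => hσ h).symm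
    rw [e1]
    have e2 : ∑ b ∈ R.image σ, EE A R b b = ∑ b ∈ (R.image σ).filter (· ∈ R), EE A R b b := by
      rw [Finset.sum_filter]
      refine Finset.sum_congr rfl fun b _ => ?_
      split_ifs with h
      · rfl
      · exact EE_zero_left h
    rw [e2]
    refine Finset.sum_le_sum_of_subset_of_nonneg ?_ fun a _ _ => EE_nonneg hA _ _ _
    intro b hb
    exact (Finset.mem_filter.1 hb).2
  calc ∑ a ∈ R, EE A R (σ a) a ≤ ∑ a ∈ R, (EE A R (σ a) (σ a) + EE A R a a) / 2 :=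
        Finset.sum_le_sum fun a _ => EE_le hA R _ _
    _ = (∑ a ∈ R, EE A R (σ a) (σ a) + ∑ a ∈ R, EE A R a a) / 2 := by
        rw [← Finset.sum_add_distrib, Finset.sum_div]
    _ ≤ ∑ a ∈ R, EE A R (id a) a := by simp only [id]; linarith

/-- Bounded partition functions. -/
def Bdd (A : Ω → Ω → ℝ) : Prop := BddAbove (Set.range (TS A id))

/-- The limit. -/
noncomputable def TI (A : Ω → Ω → ℝ) (σ : Ω → Ω) : ℝ := ⨆ R, TS A σ R

theorem TS_bdd {A : Ω → Ω → ℝ} (hA : Adm A) (hB : Bdd A) {σ : Ω → Ω}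
    (hσ : Function.Injective σ) : BddAbove (Set.range (TS A σ)) := by
  obtain ⟨C, hC⟩ := hB
  refine ⟨C, ?_⟩
  rintro _ ⟨R, rfl⟩
  exact (TS_le hA hσ R).trans (hC ⟨R, rfl⟩)

theorem TS_le_TI {A : Ω → Ω → ℝ} (hA : Adm A) (hB : Bdd A) {σ : Ω → Ω}
    (hσ : Function.Injective σ) (R : Finset Ω) : TS A σ R ≤ TI A σ :=
  le_ciSup (TS_bdd hA hB hσ) R

theorem TS_tendsto {A : Ω → Ω → ℝ} (hA : Adm A) (hB : Bdd A) {σ : Ω → Ω}
    (hσ : Function.Injective σ) : Tendsto (TS A σ) atTop (𝓝 (TI A σ)) :=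
  tendsto_atTop_ciSup (fun _ _ h => TS_mono hA σ h) (TS_bdd hA hB hσ)

theorem TI_pos {A : Ω → Ω → ℝ} (hA : Adm A) (hB : Bdd A) [Nonempty Ω] : 0 < TI A id := by
  obtain ⟨a⟩ := (inferInstance : Nonempty Ω)
  refine lt_of_lt_of_le ?_ (TS_le_TI hA hB Function.injective_id {a})
  unfold TS
  rw [Finset.sum_singleton, id]
  have h1 := EE_eq A {a} ⟨a, Finset.mem_singleton_self a⟩ ⟨a, Finset.mem_singleton_self a⟩
  simp only at h1
  rw [h1]
  exact lt_of_lt_of_le (Real.exp_pos _) (peierls _ (mt_symm hA _) _)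

/-- The kernel of two independent systems. -/
def prodK (A₁ : Ω → Ω → ℝ) (A₂ : Ω' → Ω' → ℝ) (a b : Ω × Ω') : ℝ :=
  A₁ a.1 b.1 * (if a.2 = b.2 then 1 else 0) + (if a.1 = b.1 then 1 else 0) * A₂ a.2 b.2

theorem prodK_adm {A₁ : Ω → Ω → ℝ} {A₂ : Ω' → Ω' → ℝ} (h₁ : Adm A₁) (h₂ : Adm A₂) :
    Adm (prodK A₁ A₂) := by
  constructor
  · intro a b
    unfold prodK
    rw [h₁.symm a.1 b.1, h₂.symm a.2 b.2]
    simp only [eq_comm]
  · intro a b hab
    unfold prodK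
    by_cases e1 : a.1 = b.1
    · have e2 : a.2 ≠ b.2 := fun h => hab (Prod.ext e1 h)
      rw [if_neg e2, if_pos e1, mul_zero, zero_add, one_mul]
      exact h₂.off _ _ e2
    · rw [if_neg e1, zero_mul, add_zero]
      split_ifs
      · rw [mul_one]; exact h₁.off _ _ e1
      · simp

theorem EE_prod (A₁ : Ω → Ω → ℝ) (A₂ : Ω' → Ω' → ℝ) (R₁ : Finset Ω) (R₂ : Finset Ω')
    (a b : Ω × Ω') (ha : a ∈ R₁ ×ˢ R₂) (hb : b ∈ R₁ ×ˢ R₂) :
    EE (prodK A₁ A₂) (R₁ ×ˢ R₂) a b = EE A₁ R₁ a.1 b.1 * EE A₂ R₂ a.2 b.2 := by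
  have ha' := Finset.mem_product.1 ha
  have hb' := Finset.mem_product.1 hb
  have h1 := EE_eq (prodK A₁ A₂) (R₁ ×ˢ R₂) ⟨a, ha⟩ ⟨b, hb⟩
  have h2 := EE_eq A₁ R₁ ⟨a.1, ha'.1⟩ ⟨b.1, hb'.1⟩
  have h3 := EE_eq A₂ R₂ ⟨a.2, ha'.2⟩ ⟨b.2, hb'.2⟩
  simp only at h1 h2 h3
  rw [h1, h2, h3]
  set φ : (R₁ ×ˢ R₂ : Finset (Ω × Ω')) → R₁ × R₂ := fun z =>
    (⟨z.1.1, (Finset.mem_product.1 z.2).1⟩, ⟨z.1.2, (Finset.mem_product.1 z.2).2⟩) with hφ
  have hinj : Function.Injective φ := by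
    intro x y hxy
    simp only [hφ, Prod.mk.injEq, Subtype.mk.injEq] at hxy
    exact Subtype.ext (Prod.ext hxy.1 hxy.2)
  have hsurj : ∀ u, u ∈ Set.range φ := by
    intro u
    exact ⟨⟨(u.1.1, u.2.1), Finset.mem_product.2 ⟨u.1.2, u.2.2⟩⟩, rfl⟩
  have key := exp_emb ((mt A₁ R₁) ⊗ₖ (1 : Matrix R₂ R₂ ℝ) + (1 : Matrix R₁ R₁ ℝ) ⊗ₖ (mt A₂ R₂))
    (mt (prodK A₁ A₂) (R₁ ×ˢ R₂)) φ hinj (by
      intro z z'
      simp only [Matrix.add_apply, Matrix.kroneckerMap_apply, mt, prodK, hφ, Matrix.one_apply,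
        Subtype.mk.injEq]) (fun u hu => absurd (hsurj u) hu) ⟨a, ha⟩ ⟨b, hb⟩
  rw [← key, exp_kron]
  rfl

theorem TS_prod (A₁ : Ω → Ω → ℝ) (A₂ : Ω' → Ω' → ℝ) (σ₁ : Ω → Ω) (σ₂ : Ω' → Ω')
    (R₁ : Finset Ω) (R₂ : Finset Ω') :
    TS (prodK A₁ A₂) (Prod.map σ₁ σ₂) (R₁ ×ˢ R₂) = TS A₁ σ₁ R₁ * TS A₂ σ₂ R₂ := by
  unfold TS
  rw [Finset.sum_product, Finset.sum_mul_sum]
  refine Finset.sum_congr rfl fun a ha => Finset.sum_congr rfl fun b hb => ?_
  have hab : (a, b) ∈ R₁ ×ˢ R₂ := Finset.mem_product.2 ⟨ha, hb⟩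
  by_cases h : σ₁ a ∈ R₁ ∧ σ₂ b ∈ R₂
  · exact EE_prod A₁ A₂ R₁ R₂ _ _ (Finset.mem_product.2 h) hab
  · have h' : Prod.map σ₁ σ₂ (a, b) ∉ R₁ ×ˢ R₂ := fun h' => h (Finset.mem_product.1 h')
    rw [EE_zero_left h']
    by_cases h1 : σ₁ a ∈ R₁
    · have h2 : σ₂ b ∉ R₂ := fun h2 => h ⟨h1, h2⟩
      rw [EE_zero_left h2, mul_zero]
    · rw [EE_zero_left h1, zero_mul]

/-- A bound for the partition function. -/
theorem trace_le {A : Ω → Ω → ℝ} (hA : Adm A) (D : Ω → ℝ) (W : Ω → Ω → ℝ) (c : ℝ)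
    (hAD : ∀ a b, A a b = (if a = b then - D a else 0) + W a b)
    (hW : ∀ a b, 0 ≤ W a b) (hWs : ∀ a b, W a b = W b a)
    (hc : ∀ (R : Finset Ω) (a : Ω), ∑ b ∈ R, W a b ≤ c) (R : Finset Ω) :
    TS A id R ≤ Real.exp c * ∑ a ∈ R, Real.exp (- D a) := by
  rw [TS_id]
  have h1 : (exp (diagonal fun a : R => - D a + c)).trace =
      Real.exp c * ∑ a ∈ R, Real.exp (- D a) := by
    rw [exp_diag_real, Matrix.trace_diagonal, Finset.mul_sum, ← Finset.sum_coe_sort R]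
    refine Finset.sum_congr rfl fun a _ => ?_
    rw [Real.exp_add]; ring
  rw [← h1]
  refine trace_exp_mono _ _ (mt_symm hA R) (Matrix.diagonal_transpose _) fun v => ?_
  have e1 : v ⬝ᵥ (diagonal (fun a : R => - D a + c) *ᵥ v) =
      ∑ a : R, (- D a + c) * v a ^ 2 := by
    simp only [dotProduct, Matrix.mulVec_diagonal]
    exact Finset.sum_congr rfl fun a _ => by ring
  have e2 : v ⬝ᵥ (mt A R *ᵥ v) = ∑ a : R, (- D a) * v a ^ 2 +
      ∑ a : R, ∑ b : R, W a b * (v a * v b) := by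
    rw [← Finset.sum_add_distrib]
    simp only [dotProduct, mulVec, mt, hAD]
    refine Finset.sum_congr rfl fun a _ => ?_
    simp only [add_mul, Finset.sum_add_distrib, mul_add, Finset.mul_sum]
    congr 1
    · rw [Finset.sum_eq_single a]
      · simp; ring
      · intro b _ hb
        have : (a : Ω) ≠ b := fun h => hb (Subtype.ext h.symm)
        rw [if_neg this]; ring
      · intro h; exact absurd (Finset.mem_univ a) h
    · exact Finset.sum_congr rfl fun b _ => by ring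
  rw [e1, e2]
  have e3 : ∑ a : R, ∑ b : R, W a b * (v a * v b) ≤ ∑ a : R, c * v a ^ 2 := by
    have f1 : ∑ a : R, ∑ b : R, W a b * (v a * v b) ≤
        ∑ a : R, ∑ b : R, W a b * ((v a ^ 2 + v b ^ 2) / 2) := by
      refine Finset.sum_le_sum fun a _ => Finset.sum_le_sum fun b _ => ?_
      refine mul_le_mul_of_nonneg_left ?_ (hW _ _)
      nlinarith [sq_nonneg (v a - v b)]
    have f2 : ∑ a : R, ∑ b : R, W a b * ((v a ^ 2 + v b ^ 2) / 2) =
        ∑ a : R, ∑ b : R, W a b * v a ^ 2 := by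
      have g1 : ∑ a : R, ∑ b : R, W a b * v b ^ 2 = ∑ a : R, ∑ b : R, W a b * v a ^ 2 := by
        rw [Finset.sum_comm]
        exact Finset.sum_congr rfl fun a _ => Finset.sum_congr rfl fun b _ => by
          rw [hWs (b : Ω) a]
      have g2 : ∑ a : R, ∑ b : R, W a b * ((v a ^ 2 + v b ^ 2) / 2) =
          (∑ a : R, ∑ b : R, W a b * v a ^ 2 + ∑ a : R, ∑ b : R, W a b * v b ^ 2) / 2 := by
        rw [← Finset.sum_add_distrib, Finset.sum_div]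
        refine Finset.sum_congr rfl fun a _ => ?_
        rw [← Finset.sum_add_distrib, Finset.sum_div]
        exact Finset.sum_congr rfl fun b _ => by ring
      rw [g2, g1]; ring
    refine f1.trans (f2.le.trans ?_)
    refine Finset.sum_le_sum fun a _ => ?_
    rw [← Finset.sum_mul]
    refine mul_le_mul_of_nonneg_right ?_ (sq_nonneg _)
    have := hc R a
    rwa [← Finset.sum_coe_sort R] at this
  calc _ ≤ ∑ a : R, (- D a) * v a ^ 2 + ∑ a : R, c * v a ^ 2 := by linarith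
    _ = ∑ a : R, (- D a + c) * v a ^ 2 := by
        rw [← Finset.sum_add_distrib]
        exact Finset.sum_congr rfl fun a _ => by ring

theorem bdd_of {A : Ω → Ω → ℝ} (hA : Adm A) (D : Ω → ℝ) (W : Ω → Ω → ℝ) (c : ℝ)
    (hAD : ∀ a b, A a b = (if a = b then - D a else 0) + W a b)
    (hW : ∀ a b, 0 ≤ W a b) (hWs : ∀ a b, W a b = W b a)
    (hc : ∀ (R : Finset Ω) (a : Ω), ∑ b ∈ R, W a b ≤ c)
    (hD : Summable fun a => Real.exp (- D a)) : Bdd A := by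
  refine ⟨Real.exp c * ∑' a, Real.exp (- D a), ?_⟩
  rintro _ ⟨R, rfl⟩
  refine (trace_le hA D W c hAD hW hWs hc R).trans ?_
  refine mul_le_mul_of_nonneg_left ?_ (Real.exp_pos c).le
  exact hD.sum_le_tsum R fun a _ => (Real.exp_pos _).le

end Pool.Agent.H993.TR
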