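import Mathlib
import Pool.Agent.H993.TR.Ker

/-!
# The kernel of the rotor Hamiltonian
-/

namespace Pool.Agent.H993.TR

open Filter Topology NormedSpace Matrix
open scoped Kronecker

variable {V : Type} [Fintype V] [DecidableEq V]

/-- A particle is moved from `y` to `x`. -/
def eta (x y : V) : V → ℤ := Pi.single x 1 - Pi.single y 1

/-- Potential energy. -/
def pot (K : Matrix V V ℝ) (ν : V → ℝ) (n : V → ℤ) : ℝ :=
  ∑ x, ∑ y, K x y * (((n x : ℝ) - ν x) * ((n y : ℝ) - ν y))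

/-- Matrix elements of `cos (θ_x - θ_y)`. -/
noncomputable def cosK (x y : V) (n m : V → ℤ) : ℝ :=
  ((if n = m + eta x y then 1 else 0) + (if m = n + eta x y then 1 else 0)) / 2

/-- Matrix elements of `- β H`. -/
noncomputable def rotK (β : ℝ) (K : Matrix V V ℝ) (w : V → V → ℝ) (ν : V → ℝ)
    (n m : V → ℤ) : ℝ :=
  (if n = m then -(β * pot K ν n) else 0) + β * ∑ x, ∑ y, w x y * cosK x y n m

theorem cosK_symm (x y : V) (n m : V → ℤ) : cosK x y n m = cosK x y m n := by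
  unfold cosK
  rw [add_comm]

theorem cosK_nonneg (x y : V) (n m : V → ℤ) : 0 ≤ cosK x y n m := by
  unfold cosK
  split_ifs <;> norm_num

theorem rotK_adm {β : ℝ} (hβ : 0 ≤ β) (K : Matrix V V ℝ) {w : V → V → ℝ}
    (hw : ∀ x y, 0 ≤ w x y) (ν : V → ℝ) : Adm (rotK β K w ν) := by
  constructor
  · intro n m
    unfold rotK
    congr 1
    · by_cases h : n = m
      · subst h; rfl
      · rw [if_neg h, if_neg fun h' => h h'.symm]
    · congr 1
      exact Finset.sum_congr rfl fun x _ => Finset.sum_congr rfl fun y _ => by rw [cosK_symm]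
  · intro n m h
    unfold rotK
    rw [if_neg h, zero_add]
    exact mul_nonneg hβ (Finset.sum_nonneg fun x _ => Finset.sum_nonneg fun y _ =>
      mul_nonneg (hw x y) (cosK_nonneg x y n m))

theorem cosK_sum_le (x y : V) (R : Finset (V → ℤ)) (n : V → ℤ) : ∑ m ∈ R, cosK x y n m ≤ 1 := by
  unfold cosK
  rw [← Finset.sum_div, Finset.sum_add_distrib]
  have h1 : ∑ m ∈ R, (if n = m + eta x y then (1:ℝ) else 0) ≤ 1 := by
    have : ∀ m, (n = m + eta x y) ↔ (m = n - eta x y) := fun m =>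
      ⟨fun h => by rw [h]; simp, fun h => by rw [h]; simp⟩
    simp only [this]
    rw [Finset.sum_ite_eq']
    split_ifs <;> norm_num
  have h2 : ∑ m ∈ R, (if m = n + eta x y then (1:ℝ) else 0) ≤ 1 := by
    rw [Finset.sum_ite_eq']
    split_ifs <;> norm_num
  linarith

theorem summable_gauss {κ : ℝ} (hκ : 0 < κ) :
    Summable fun n : V → ℤ => Real.exp (-(κ * ∑ x, (n x : ℝ) ^ 2)) := by
  have h1 : Summable fun k : ℤ => Real.exp (-(κ * (k:ℝ) ^ 2)) := by
    have hk : Summable fun k : ℕ => Real.exp (-(κ * (k:ℝ))) := by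
      have h2 : ∀ k : ℕ, Real.exp (-(κ * (k:ℝ))) = (Real.exp (-κ)) ^ k := by
        intro k
        rw [← Real.exp_nat_mul]; congr 1; ring
      simp only [h2]
      exact summable_geometric_of_lt_one (Real.exp_pos _).le (by rw [Real.exp_lt_one_iff]; linarith)
    have hle : ∀ k : ℤ, Real.exp (-(κ * (k:ℝ) ^ 2)) ≤ Real.exp (-(κ * (k.natAbs : ℝ))) := by
      intro k
      rw [Real.exp_le_exp]
      have : ((k.natAbs : ℕ) : ℝ) ≤ (k:ℝ) ^ 2 := by
        have h3 : (k.natAbs : ℤ) ≤ k ^ 2 := by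
          rw [← Int.natAbs_sq k]
          have : (k.natAbs : ℕ) ≤ k.natAbs ^ 2 := by
            rcases Nat.eq_zero_or_pos k.natAbs with h | h
            · rw [h]; simp
            · nlinarith
          exact_mod_cast this
        calc ((k.natAbs : ℕ) : ℝ) = (((k.natAbs : ℕ) : ℤ) : ℝ) := by simp
          _ ≤ ((k ^ 2 : ℤ) : ℝ) := Int.cast_le.2 h3
          _ = (k:ℝ) ^ 2 := by push_cast; ring
      nlinarith
    refine Summable.of_nonneg_of_le (fun k => (Real.exp_pos _).le) hle ?_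
    rw [summable_int_iff_summable_nat_and_neg]
    constructor
    · simpa using hk
    · simpa using hk
  set S := ∑' k : ℤ, Real.exp (-(κ * (k:ℝ) ^ 2)) with hS
  refine summable_of_sum_le (c := S ^ Fintype.card V) (fun n => (Real.exp_pos _).le) fun R => ?_
  obtain ⟨M, hM⟩ : ∃ M : ℕ, ∀ n ∈ R, ∀ x, n x ∈ Finset.Icc (-(M:ℤ)) M := by
    refine ⟨∑ n ∈ R, ∑ x, (n x).natAbs, fun n hn x => ?_⟩
    have h2 : (n x).natAbs ≤ ∑ n ∈ R, ∑ x, (n x).natAbs := by
      calc (n x).natAbs ≤ ∑ x, (n x).natAbs :=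
            Finset.single_le_sum (f := fun x => (n x).natAbs) (fun _ _ => Nat.zero_le _)
              (Finset.mem_univ x)
        _ ≤ _ := Finset.single_le_sum (f := fun n : V → ℤ => ∑ x, (n x).natAbs)
            (fun _ _ => Nat.zero_le _) hn
    rw [Finset.mem_Icc]
    omega
  have h3 : R ⊆ Fintype.piFinset fun _ : V => Finset.Icc (-(M:ℤ)) M := fun n hn =>
    Fintype.mem_piFinset.2 (hM n hn)
  calc ∑ n ∈ R, Real.exp (-(κ * ∑ x, (n x : ℝ) ^ 2))
      ≤ ∑ n ∈ Fintype.piFinset fun _ : V => Finset.Icc (-(M:ℤ)) M,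
          Real.exp (-(κ * ∑ x, (n x : ℝ) ^ 2)) :=
        Finset.sum_le_sum_of_subset_of_nonneg h3 fun _ _ _ => (Real.exp_pos _).le
    _ = ∑ n ∈ Fintype.piFinset fun _ : V => Finset.Icc (-(M:ℤ)) M,
          ∏ x, Real.exp (-(κ * (n x : ℝ) ^ 2)) := by
        refine Finset.sum_congr rfl fun n _ => ?_
        rw [← Real.exp_sum]
        congr 1
        rw [Finset.sum_neg_distrib, Finset.mul_sum]
    _ = ∏ _x : V, ∑ k ∈ Finset.Icc (-(M:ℤ)) M, Real.exp (-(κ * (k : ℝ) ^ 2)) :=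
        (Finset.prod_univ_sum (fun _ : V => Finset.Icc (-(M:ℤ)) M)
          (fun _ k => Real.exp (-(κ * (k : ℝ) ^ 2)))).symm
    _ ≤ ∏ _x : V, S := by
        refine Finset.prod_le_prod (fun _ _ => Finset.sum_nonneg fun _ _ => (Real.exp_pos _).le)
          fun _ _ => ?_
        exact h1.sum_le_tsum _ fun _ _ => (Real.exp_pos _).le
    _ = S ^ Fintype.card V := by simp

theorem rotK_bdd {β : ℝ} (hβ : 0 < β) (K : Matrix V V ℝ) {w : V → V → ℝ}
    (hw : ∀ x y, 0 ≤ w x y) (ν : V → ℝ) {κ C : ℝ} (hκ : 0 < κ)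
    (hlow : ∀ n, κ * ∑ x, (n x : ℝ) ^ 2 - C ≤ pot K ν n) : Bdd (rotK β K w ν) := by
  refine bdd_of (rotK_adm hβ.le K hw ν) (fun n => β * pot K ν n)
    (fun n m => β * ∑ x, ∑ y, w x y * cosK x y n m) (β * ∑ x, ∑ y, w x y)
    (fun n m => rfl) ?_ ?_ ?_ ?_
  · intro n m
    exact mul_nonneg hβ.le (Finset.sum_nonneg fun x _ => Finset.sum_nonneg fun y _ =>
      mul_nonneg (hw x y) (cosK_nonneg x y n m))
  · intro n m
    congr 1
    exact Finset.sum_congr rfl fun x _ => Finset.sum_congr rfl fun y _ => by rw [cosK_symm]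
  · intro R n
    rw [← Finset.mul_sum]
    refine mul_le_mul_of_nonneg_left ?_ hβ.le
    rw [Finset.sum_comm]
    refine Finset.sum_le_sum fun x _ => ?_
    rw [Finset.sum_comm]
    refine Finset.sum_le_sum fun y _ => ?_
    rw [← Finset.mul_sum]
    have := mul_le_mul_of_nonneg_left (cosK_sum_le x y R n) (hw x y)
    linarith
  · have h1 := (summable_gauss (V := V) (κ := β * κ) (by positivity)).mul_left (Real.exp (β * C))
    refine Summable.of_nonneg_of_le (fun n => (Real.exp_pos _).le) (fun n => ?_) h1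
    rw [← Real.exp_add, Real.exp_le_exp]
    have := mul_le_mul_of_nonneg_left (hlow n) hβ.le
    nlinarith

/-- The quadratic form. -/
def Qf (K : Matrix V V ℝ) (v : V → ℝ) : ℝ := ∑ x, ∑ y, K x y * (v x * v y)

theorem Qf_eq (K : Matrix V V ℝ) (v : V → ℝ) :
    Qf K v = star v ⬝ᵥ (Matrix.mulVec K v) := by
  unfold Qf
  simp only [dotProduct, Matrix.mulVec, Pi.star_apply, star_trivial, Finset.mul_sum]
  refine Finset.sum_congr rfl fun x _ => Finset.sum_congr rfl fun y _ => ?_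
  ring

theorem Qf_low {K : Matrix V V ℝ} (hK : K.PosDef) :
    ∃ c : ℝ, 0 < c ∧ ∀ v : V → ℝ, c * ∑ x, v x ^ 2 ≤ Qf K v := by
  have key : ∃ c : ℝ, 0 < c ∧ ∀ v : V → ℝ, ∑ x, v x ^ 2 = 1 → c ≤ Qf K v := by
    by_cases hne : ∃ v : V → ℝ, ∑ x, v x ^ 2 = 1
    · have hcl : IsClosed {v : V → ℝ | ∑ x, v x ^ 2 = 1} := by
        refine isClosed_eq ?_ continuous_const
        fun_prop
      have hbd : Bornology.IsBounded {v : V → ℝ | ∑ x, v x ^ 2 = 1} := by
        refine (Metric.isBounded_closedBall (x := (0 : V → ℝ)) (r := 1)).subset ?_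
        intro v hv
        rw [Set.mem_ofPred_eq] at hv
        rw [mem_closedBall_zero_iff, pi_norm_le_iff_of_nonneg zero_le_one]
        intro x
        have h1 : v x ^ 2 ≤ ∑ x, v x ^ 2 :=
          Finset.single_le_sum (f := fun x => v x ^ 2) (fun _ _ => sq_nonneg _) (Finset.mem_univ x)
        rw [hv] at h1
        rw [Real.norm_eq_abs]
        exact (sq_le_one_iff_abs_le_one _).1 h1
      have hcpt : IsCompact {v : V → ℝ | ∑ x, v x ^ 2 = 1} :=
        Metric.isCompact_of_isClosed_isBounded hcl hbd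
      have hcont : Continuous (fun v : V → ℝ => Qf K v) := by
        unfold Qf
        fun_prop
      obtain ⟨v0, hv0, hmin⟩ := hcpt.exists_isMinOn hne hcont.continuousOn
      refine ⟨Qf K v0, ?_, fun v hv => hmin hv⟩
      rw [Qf_eq]
      refine hK.dotProduct_mulVec_pos ?_
      intro h0
      rw [Set.mem_ofPred_eq, h0] at hv0
      simp at hv0
    · exact ⟨1, one_pos, fun v hv => absurd ⟨v, hv⟩ hne⟩
  obtain ⟨c, hc, hkey⟩ := key
  refine ⟨c, hc, fun v => ?_⟩
  have hs0 : 0 ≤ ∑ x, v x ^ 2 := Finset.sum_nonneg fun _ _ => sq_nonneg _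
  rcases hs0.eq_or_lt with h0 | h0
  · rw [← h0, mul_zero, Qf_eq]
    exact hK.posSemidef.dotProduct_mulVec_nonneg v
  · set s : ℝ := ∑ x, v x ^ 2 with hs
    set t : ℝ := (Real.sqrt s)⁻¹ with ht
    have ht2 : t ^ 2 = s⁻¹ := by
      rw [ht, inv_pow, Real.sq_sqrt h0.le]
    have h1 := hkey (fun x => t * v x) (by
      calc ∑ x, (t * v x) ^ 2 = t ^ 2 * s := by
            rw [hs, Finset.mul_sum]
            exact Finset.sum_congr rfl fun x _ => by ring
        _ = 1 := by rw [ht2]; exact inv_mul_cancel₀ h0.ne')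
    have h2 : Qf K (fun x => t * v x) = t ^ 2 * Qf K v := by
      unfold Qf
      rw [Finset.mul_sum]
      refine Finset.sum_congr rfl fun x _ => ?_
      rw [Finset.mul_sum]
      refine Finset.sum_congr rfl fun y _ => ?_
      ring
    rw [h2, ht2] at h1
    calc c * s ≤ (s⁻¹ * Qf K v) * s := mul_le_mul_of_nonneg_right h1 h0.le
      _ = Qf K v := by field_simp

theorem pot_low {K : Matrix V V ℝ} (hK : K.PosDef) (ν : V → ℝ) :
    ∃ κ C : ℝ, 0 < κ ∧ ∀ n : V → ℤ, κ * ∑ x, (n x : ℝ) ^ 2 - C ≤ pot K ν n := by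
  obtain ⟨c, hc, hQ⟩ := Qf_low hK
  refine ⟨c / 2, c * ∑ x, ν x ^ 2, by positivity, fun n => ?_⟩
  refine le_trans ?_ (hQ fun x => (n x : ℝ) - ν x)
  have h1 : (∑ x, (n x : ℝ) ^ 2) / 2 - ∑ x, ν x ^ 2 ≤ ∑ x, ((n x : ℝ) - ν x) ^ 2 := by
    rw [Finset.sum_div, ← Finset.sum_sub_distrib]
    refine Finset.sum_le_sum fun x _ => ?_
    nlinarith [sq_nonneg ((n x : ℝ) - 2 * ν x)]
  nlinarith

theorem rotK_bdd' {β : ℝ} (hβ : 0 < β) {K : Matrix V V ℝ} (hK : K.PosDef) {w : V → V → ℝ}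
    (hw : ∀ x y, 0 ≤ w x y) (ν : V → ℝ) : Bdd (rotK β K w ν) := by
  obtain ⟨κ, C, hκ, h⟩ := pot_low hK ν
  exact rotK_bdd hβ K hw ν hκ h

end Pool.Agent.H993.TR
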