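import Mathlib
import Pool.Agent.H993.TR.Rot

/-!
# Comparison of two systems of rotors at positive temperature
-/

namespace Pool.Agent.H993.TR

open Filter Topology NormedSpace Matrix
open scoped Kronecker MatrixOrder ComplexOrder

section shift

variable {Ω : Type} [DecidableEq Ω]

theorem shift_sum (A : Ω → Ω → ℝ) (R : Finset Ω) (σ : Ω → Ω) :
    ∑ z : R, ∑ z' : R, (if (z' : Ω) = σ z then 1 else 0) * exp (mt A R) z' z = TS A σ R := by
  unfold TS
  rw [← Finset.sum_coe_sort R]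
  refine Finset.sum_congr rfl fun z _ => ?_
  by_cases h : σ z ∈ R
  · rw [Finset.sum_eq_single (⟨σ z, h⟩ : R)]
    · rw [if_pos rfl, one_mul]
      exact (EE_eq A R ⟨σ z, h⟩ z).symm
    · intro b _ hb
      have : (b : Ω) ≠ σ z := fun h' => hb (Subtype.ext h')
      rw [if_neg this, zero_mul]
    · intro h'; exact absurd (Finset.mem_univ _) h'
  · rw [EE_zero_left h]
    refine Finset.sum_eq_zero fun b _ => ?_
    have : (b : Ω) ≠ σ z := fun h' => h (h' ▸ b.2)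
    rw [if_neg this, zero_mul]

theorem shift_sum' {A : Ω → Ω → ℝ} (hA : Adm A) (R : Finset Ω) (σ : Ω → Ω) :
    ∑ z : R, ∑ z' : R, (if (z : Ω) = σ z' then 1 else 0) * exp (mt A R) z' z = TS A σ R := by
  rw [Finset.sum_comm, ← shift_sum]
  refine Finset.sum_congr rfl fun z _ => Finset.sum_congr rfl fun z' _ => ?_
  have h1 := EE_symm hA R z z'
  rw [EE_eq, EE_eq] at h1
  rw [h1]

end shift

section psd

variable {α ι : Type} [Fintype α] [DecidableEq α] [Fintype ι] [DecidableEq ι]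

theorem cone_psd (G : Matrix ι ι ℝ) (hG : G.PosSemidef) (F : ι → Matrix α α ℝ) :
    Cone (fun (_ _ : Unit) => ∑ x, ∑ y, G x y • (F x ⊗ₖ F y)) := by
  obtain ⟨B, hB⟩ := CStarAlgebra.nonneg_iff_eq_star_mul_self.mp hG.nonneg
  have h : (fun (_ _ : Unit) => ∑ x, ∑ y, G x y • (F x ⊗ₖ F y)) =
      fun (_ _ : Unit) => ∑ i, (∑ x, B i x • F x) ⊗ₖ (∑ y, B i y • F y) := by
    funext _ _
    have e1 : ∀ x y, G x y = ∑ i, B i x * B i y := by
      intro x y
      rw [hB, Matrix.mul_apply]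
      refine Finset.sum_congr rfl fun i _ => ?_
      simp [Matrix.star_apply]
    ext ⟨a, b⟩ ⟨c, d⟩
    simp only [Matrix.sum_apply, Matrix.smul_apply, Matrix.kroneckerMap_apply, smul_eq_mul, e1]
    calc ∑ x, ∑ y, (∑ i, B i x * B i y) * (F x a c * F y b d)
        = ∑ x, ∑ i, ∑ y, B i x * B i y * (F x a c * F y b d) := by
          refine Finset.sum_congr rfl fun x _ => ?_
          rw [Finset.sum_comm]
          exact Finset.sum_congr rfl fun y _ => Finset.sum_mul _ _ _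
      _ = ∑ i, ∑ x, ∑ y, B i x * B i y * (F x a c * F y b d) := Finset.sum_comm
      _ = ∑ i, (∑ x, B i x * F x a c) * (∑ y, B i y * F y b d) := by
          refine Finset.sum_congr rfl fun i _ => ?_
          rw [Finset.sum_mul_sum]
          exact Finset.sum_congr rfl fun x _ => Finset.sum_congr rfl fun y _ => by ring
  rw [h]
  exact cone_of_sum (fun i => fun _ : Unit => ∑ x, B i x • F x)

end psd

variable {V : Type} [Fintype V] [DecidableEq V]

/-- Sum and difference of two configurations. -/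
def sd (z : (V → ℤ) × (V → ℤ)) : (V → ℤ) × (V → ℤ) := (z.1 + z.2, z.1 - z.2)

theorem sd_inj : Function.Injective (sd (V := V)) := by
  intro z z' h
  unfold sd at h
  rw [Prod.mk.injEq] at h
  obtain ⟨h1, h2⟩ := h
  refine Prod.ext (funext fun x => ?_) (funext fun x => ?_)
  · have a1 := congrFun h1 x
    have a2 := congrFun h2 x
    simp only [Pi.add_apply, Pi.sub_apply] at a1 a2
    omega
  · have a1 := congrFun h1 x
    have a2 := congrFun h2 x
    simp only [Pi.add_apply, Pi.sub_apply] at a1 a2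
    omega

/-- Configurations of two replicas with sum and difference in `Δ`. -/
noncomputable def RD (Δ : Finset (V → ℤ)) : Finset ((V → ℤ) × (V → ℤ)) :=
  (Δ ×ˢ Δ).preimage sd sd_inj.injOn

theorem mem_RD (Δ : Finset (V → ℤ)) (z : (V → ℤ) × (V → ℤ)) :
    z ∈ RD Δ ↔ z.1 + z.2 ∈ Δ ∧ z.1 - z.2 ∈ Δ := by
  unfold RD
  rw [Finset.mem_preimage, Finset.mem_product]
  rfl

/-- The embedding of the region. -/
def ph (Δ : Finset (V → ℤ)) (z : RD Δ) : Δ × Δ :=
  (⟨z.1.1 + z.1.2, ((mem_RD Δ z.1).1 z.2).1⟩, ⟨z.1.1 - z.1.2, ((mem_RD Δ z.1).1 z.2).2⟩)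

theorem ph_inj (Δ : Finset (V → ℤ)) : Function.Injective (ph Δ) := by
  intro z z' h
  unfold ph at h
  rw [Prod.mk.injEq, Subtype.mk.injEq, Subtype.mk.injEq] at h
  exact Subtype.ext (sd_inj (Prod.ext h.1 h.2))

theorem not_range (Δ : Finset (V → ℤ)) (u : Δ × Δ) (hu : u ∉ Set.range (ph Δ))
    (n m : V → ℤ) : ¬ ((u.1 : V → ℤ) = n + m ∧ (u.2 : V → ℤ) = n - m) := by
  rintro ⟨h1, h2⟩
  apply hu
  refine ⟨⟨(n, m), (mem_RD Δ (n, m)).2 ⟨h1 ▸ u.1.2, h2 ▸ u.2.2⟩⟩, ?_⟩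
  exact Prod.ext (Subtype.ext h1.symm) (Subtype.ext h2.symm)

section ops

variable (β : ℝ) (K₁ K₂ : Matrix V V ℝ) (w₁ w₂ : V → V → ℝ) (ν : V → ℝ) (Δ : Finset (V → ℤ))

/-- The diagonal part. -/
noncomputable def aM : Matrix Δ Δ ℝ :=
  diagonal fun p => -(β * ∑ x, ∑ y, (K₁ x y + K₂ x y) / 4 * ((p.1 x - ν x) * (p.1 y - ν y)))

/-- `cos (θ_x - θ_y)`. -/
noncomputable def cM (x y : V) : Matrix Δ Δ ℝ := fun p p' => cosK x y p p'

/-- `sin (θ_x - θ_y)`, up to a factor. -/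
noncomputable def sM (x y : V) : Matrix Δ Δ ℝ := fun p p' =>
  ((if (p : V → ℤ) = p' + eta x y then 1 else 0) -
    (if (p' : V → ℤ) = p + eta x y then 1 else 0)) / 2

/-- The number of particles at `x`. -/
noncomputable def fM (x : V) : Matrix Δ Δ ℝ := diagonal fun p => (p.1 x : ℝ) - ν x

/-- The coupling of the two replicas. -/
noncomputable def bM : Matrix (Δ × Δ) (Δ × Δ) ℝ :=
  (∑ x, ∑ y, (β / 2 * (K₂ x y - K₁ x y)) • (fM ν Δ x ⊗ₖ fM ν Δ y)) +
  ∑ x, ∑ y, ((β * (w₁ x y + w₂ x y)) • (cM Δ x y ⊗ₖ cM Δ x y) +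
    (β * (w₁ x y - w₂ x y)) • (sM Δ x y ⊗ₖ sM Δ x y))

/-- The generator of the two replicas. -/
noncomputable def gM : Matrix (Δ × Δ) (Δ × Δ) ℝ :=
  aM β K₁ K₂ ν Δ ⊗ₖ (1 : Matrix Δ Δ ℝ) + (1 : Matrix Δ Δ ℝ) ⊗ₖ aM β K₁ K₂ ν Δ
    + bM β K₁ K₂ w₁ w₂ ν Δ

theorem ite_mul_ite (P Q : Prop) [Decidable P] [Decidable Q] :
    (if P then (1:ℝ) else 0) * (if Q then 1 else 0) = if P ∧ Q then 1 else 0 := by
  by_cases hP : P <;> by_cases hQ : Q <;> simp [hP, hQ]

theorem kin_id (x y : V) (z z' : RD Δ) :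
    cM Δ x y (ph Δ z).1 (ph Δ z').1 * cM Δ x y (ph Δ z).2 (ph Δ z').2 =
      (cosK x y z.1.1 z'.1.1 * (if z.1.2 = z'.1.2 then 1 else 0) +
        (if z.1.1 = z'.1.1 then 1 else 0) * cosK x y z.1.2 z'.1.2) / 2 ∧
    sM Δ x y (ph Δ z).1 (ph Δ z').1 * sM Δ x y (ph Δ z).2 (ph Δ z').2 =
      (cosK x y z.1.1 z'.1.1 * (if z.1.2 = z'.1.2 then 1 else 0) -
        (if z.1.1 = z'.1.1 then 1 else 0) * cosK x y z.1.2 z'.1.2) / 2 := by
  obtain ⟨⟨n1, n2⟩, hz⟩ := z
  obtain ⟨⟨m1, m2⟩, hz'⟩ := z'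
  unfold cM sM cosK ph
  simp only
  set η := eta x y with hη
  have e1 : (if n1 + n2 = m1 + m2 + η then (1:ℝ) else 0) * (if n1 - n2 = m1 - m2 + η then 1 else 0)
      = (if n1 = m1 + η then 1 else 0) * (if n2 = m2 then 1 else 0) := by
    rw [ite_mul_ite, ite_mul_ite]
    congr 1
    refine propext ⟨fun ⟨h1, h2⟩ => ⟨funext fun a => ?_, funext fun a => ?_⟩, fun ⟨h1, h2⟩ =>
      ⟨?_, ?_⟩⟩
    · have a1 := congrFun h1 a
      have a2 := congrFun h2 a
      simp only [Pi.add_apply, Pi.sub_apply] at a1 a2 ⊢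
      omega
    · have a1 := congrFun h1 a
      have a2 := congrFun h2 a
      simp only [Pi.add_apply, Pi.sub_apply] at a1 a2 ⊢
      omega
    · rw [h1, h2]; abel
    · rw [h1, h2]; abel
  have e2 : (if m1 + m2 = n1 + n2 + η then (1:ℝ) else 0) * (if m1 - m2 = n1 - n2 + η then 1 else 0)
      = (if m1 = n1 + η then 1 else 0) * (if n2 = m2 then 1 else 0) := by
    rw [ite_mul_ite, ite_mul_ite]
    congr 1
    refine propext ⟨fun ⟨h1, h2⟩ => ⟨funext fun a => ?_, funext fun a => ?_⟩, fun ⟨h1, h2⟩ =>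
      ⟨?_, ?_⟩⟩
    · have a1 := congrFun h1 a
      have a2 := congrFun h2 a
      simp only [Pi.add_apply, Pi.sub_apply] at a1 a2 ⊢
      omega
    · have a1 := congrFun h1 a
      have a2 := congrFun h2 a
      simp only [Pi.add_apply, Pi.sub_apply] at a1 a2 ⊢
      omega
    · rw [h1, h2]; abel
    · rw [h1, h2]; abel
  have e3 : (if n1 + n2 = m1 + m2 + η then (1:ℝ) else 0) * (if m1 - m2 = n1 - n2 + η then 1 else 0)
      = (if n1 = m1 then 1 else 0) * (if n2 = m2 + η then 1 else 0) := by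
    rw [ite_mul_ite, ite_mul_ite]
    congr 1
    refine propext ⟨fun ⟨h1, h2⟩ => ⟨funext fun a => ?_, funext fun a => ?_⟩, fun ⟨h1, h2⟩ =>
      ⟨?_, ?_⟩⟩
    · have a1 := congrFun h1 a
      have a2 := congrFun h2 a
      simp only [Pi.add_apply, Pi.sub_apply] at a1 a2 ⊢
      omega
    · have a1 := congrFun h1 a
      have a2 := congrFun h2 a
      simp only [Pi.add_apply, Pi.sub_apply] at a1 a2 ⊢
      omega
    · rw [h1, h2]; abel
    · rw [h1, h2]; abel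
  have e4 : (if m1 + m2 = n1 + n2 + η then (1:ℝ) else 0) * (if n1 - n2 = m1 - m2 + η then 1 else 0)
      = (if n1 = m1 then 1 else 0) * (if m2 = n2 + η then 1 else 0) := by
    rw [ite_mul_ite, ite_mul_ite]
    congr 1
    refine propext ⟨fun ⟨h1, h2⟩ => ⟨funext fun a => ?_, funext fun a => ?_⟩, fun ⟨h1, h2⟩ =>
      ⟨?_, ?_⟩⟩
    · have a1 := congrFun h1 a
      have a2 := congrFun h2 a
      simp only [Pi.add_apply, Pi.sub_apply] at a1 a2 ⊢
      omega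
    · have a1 := congrFun h1 a
      have a2 := congrFun h2 a
      simp only [Pi.add_apply, Pi.sub_apply] at a1 a2 ⊢
      omega
    · rw [h1, h2]; abel
    · rw [h1, h2]; abel
  constructor
  · linear_combination (e1 + e2 + e3 + e4) / 4
  · linear_combination (e1 + e2 - e3 - e4) / 4

theorem kin_out (x y : V) (u : Δ × Δ) (hu : u ∉ Set.range (ph Δ)) (z : RD Δ) :
    cM Δ x y u.1 (ph Δ z).1 * cM Δ x y u.2 (ph Δ z).2 = 0 ∧
    sM Δ x y u.1 (ph Δ z).1 * sM Δ x y u.2 (ph Δ z).2 = 0 := by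
  have h := not_range Δ u hu
  obtain ⟨⟨n1, n2⟩, hz⟩ := z
  unfold cM sM cosK ph
  simp only
  set η := eta x y with hη
  have key : ∀ (P Q : Prop) [Decidable P] [Decidable Q], (¬ (P ∧ Q)) →
      (if P then (1:ℝ) else 0) * (if Q then 1 else 0) = 0 := by
    intro P Q _ _ hPQ
    rw [ite_mul_ite, if_neg hPQ]
  have e1 := key (u.1.1 = n1 + n2 + η) (u.2.1 = n1 - n2 + η) (fun ⟨a, b⟩ =>
    h (n1 + η) n2 ⟨by rw [a]; abel, by rw [b]; abel⟩)
  have e2 := key (n1 + n2 = u.1.1 + η) (n1 - n2 = u.2.1 + η) (fun ⟨a, b⟩ =>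
    h (n1 - η) n2 ⟨by
      funext t; have := congrFun a t; simp only [Pi.add_apply, Pi.sub_apply] at this ⊢; omega,
      by funext t; have := congrFun b t; simp only [Pi.add_apply, Pi.sub_apply] at this ⊢; omega⟩)
  have e3 := key (u.1.1 = n1 + n2 + η) (n1 - n2 = u.2.1 + η) (fun ⟨a, b⟩ =>
    h n1 (n2 + η) ⟨by rw [a]; abel,
      by funext t; have := congrFun b t; simp only [Pi.add_apply, Pi.sub_apply] at this ⊢; omega⟩)
  have e4 := key (n1 + n2 = u.1.1 + η) (u.2.1 = n1 - n2 + η) (fun ⟨a, b⟩ =>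
    h n1 (n2 - η) ⟨by funext t; have := congrFun a t; simp only [Pi.add_apply, Pi.sub_apply] at this ⊢; omega,
      by rw [b]; abel⟩)
  constructor
  · linear_combination (e1 + e2 + e3 + e4) / 4
  · linear_combination (e1 + e2 - e3 - e4) / 4

theorem gM_out (u : Δ × Δ) (hu : u ∉ Set.range (ph Δ)) (z : RD Δ) :
    gM β K₁ K₂ w₁ w₂ ν Δ u (ph Δ z) = 0 := by
  have hne : ∀ (X Y : Δ → ℝ), diagonal X u.1 (ph Δ z).1 * diagonal Y u.2 (ph Δ z).2 = 0 := by
    intro X Y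
    by_cases h1 : u.1 = (ph Δ z).1
    · have h2 : u.2 ≠ (ph Δ z).2 := fun h2 => not_range Δ u hu z.1.1 z.1.2
        ⟨congrArg Subtype.val h1, congrArg Subtype.val h2⟩
      rw [Matrix.diagonal_apply_ne _ h2, mul_zero]
    · rw [Matrix.diagonal_apply_ne _ h1, zero_mul]
  have h1 : (aM β K₁ K₂ ν Δ ⊗ₖ (1 : Matrix Δ Δ ℝ)) u (ph Δ z) = 0 := by
    rw [Matrix.kroneckerMap_apply, ← Matrix.diagonal_one]
    exact hne _ _
  have h2 : ((1 : Matrix Δ Δ ℝ) ⊗ₖ aM β K₁ K₂ ν Δ) u (ph Δ z) = 0 := by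
    rw [Matrix.kroneckerMap_apply, ← Matrix.diagonal_one]
    exact hne _ _
  have h3 : ∀ x y, (fM ν Δ x ⊗ₖ fM ν Δ y) u (ph Δ z) = 0 := by
    intro x y
    rw [Matrix.kroneckerMap_apply]
    exact hne _ _
  have h4 : ∀ x y, (cM Δ x y ⊗ₖ cM Δ x y) u (ph Δ z) = 0 := by
    intro x y
    rw [Matrix.kroneckerMap_apply]
    exact (kin_out Δ x y u hu z).1
  have h5 : ∀ x y, (sM Δ x y ⊗ₖ sM Δ x y) u (ph Δ z) = 0 := by
    intro x y
    rw [Matrix.kroneckerMap_apply]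
    exact (kin_out Δ x y u hu z).2
  unfold gM bM
  simp only [Matrix.add_apply, Matrix.sum_apply, Matrix.smul_apply, h1, h2, h3, h4, h5, smul_zero,
    Finset.sum_const_zero, add_zero]

theorem gM_ph (hK₁ : ∀ x y, K₁ x y = K₁ y x) (hK₂ : ∀ x y, K₂ x y = K₂ y x) (z z' : RD Δ) :
    gM β K₁ K₂ w₁ w₂ ν Δ (ph Δ z) (ph Δ z') =
      prodK (rotK β K₁ w₁ ν) (rotK β K₂ w₂ 0) z z' := by
  have hk := kin_id Δ (z := z) (z' := z')
  have h4 : ∀ x y, (cM Δ x y ⊗ₖ cM Δ x y) (ph Δ z) (ph Δ z') =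
      (cosK x y z.1.1 z'.1.1 * (if z.1.2 = z'.1.2 then 1 else 0) +
        (if z.1.1 = z'.1.1 then 1 else 0) * cosK x y z.1.2 z'.1.2) / 2 := by
    intro x y
    rw [Matrix.kroneckerMap_apply]
    exact (kin_id Δ x y z z').1
  have h5 : ∀ x y, (sM Δ x y ⊗ₖ sM Δ x y) (ph Δ z) (ph Δ z') =
      (cosK x y z.1.1 z'.1.1 * (if z.1.2 = z'.1.2 then 1 else 0) -
        (if z.1.1 = z'.1.1 then 1 else 0) * cosK x y z.1.2 z'.1.2) / 2 := by
    intro x y
    rw [Matrix.kroneckerMap_apply]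
    exact (kin_id Δ x y z z').2
  have hkin : ∑ x, ∑ y, ((β * (w₁ x y + w₂ x y)) * ((cosK x y z.1.1 z'.1.1 *
        (if z.1.2 = z'.1.2 then 1 else 0) +
        (if z.1.1 = z'.1.1 then 1 else 0) * cosK x y z.1.2 z'.1.2) / 2) +
      (β * (w₁ x y - w₂ x y)) * ((cosK x y z.1.1 z'.1.1 * (if z.1.2 = z'.1.2 then 1 else 0) -
        (if z.1.1 = z'.1.1 then 1 else 0) * cosK x y z.1.2 z'.1.2) / 2)) =
      (β * ∑ x, ∑ y, w₁ x y * cosK x y z.1.1 z'.1.1) * (if z.1.2 = z'.1.2 then 1 else 0) +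
      (if z.1.1 = z'.1.1 then 1 else 0) * (β * ∑ x, ∑ y, w₂ x y * cosK x y z.1.2 z'.1.2) := by
    simp only [Finset.mul_sum, Finset.sum_mul]
    rw [← Finset.sum_add_distrib]
    refine Finset.sum_congr rfl fun x _ => ?_
    rw [← Finset.sum_add_distrib]
    exact Finset.sum_congr rfl fun y _ => by ring
  -- the diagonal part
  have hdiag : (aM β K₁ K₂ ν Δ ⊗ₖ (1 : Matrix Δ Δ ℝ)) (ph Δ z) (ph Δ z') +
      ((1 : Matrix Δ Δ ℝ) ⊗ₖ aM β K₁ K₂ ν Δ) (ph Δ z) (ph Δ z') +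
      ∑ x, ∑ y, (β / 2 * (K₂ x y - K₁ x y)) * (fM ν Δ x ⊗ₖ fM ν Δ y) (ph Δ z) (ph Δ z') =
      (if z.1.1 = z'.1.1 then -(β * pot K₁ ν z.1.1) else 0) * (if z.1.2 = z'.1.2 then 1 else 0) +
      (if z.1.1 = z'.1.1 then 1 else 0) * (if z.1.2 = z'.1.2 then -(β * pot K₂ 0 z.1.2) else 0) := by
    by_cases hz : z = z'
    · subst hz
      simp only [Matrix.kroneckerMap_apply, Matrix.one_apply_eq, if_true, mul_one, one_mul, aM, fM,
        Matrix.diagonal_apply_eq, ph, pot, Pi.zero_apply, sub_zero]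
      set P : V → ℝ := fun x => (((z.1.1 + z.1.2) x : ℤ) : ℝ) - ν x with hP
      set Q : V → ℝ := fun x => (((z.1.1 - z.1.2) x : ℤ) : ℝ) - ν x with hQ
      have e1 : ∀ x, ((z.1.1 x : ℤ) : ℝ) - ν x = (P x + Q x) / 2 := by
        intro x
        simp only [hP, hQ, Pi.add_apply, Pi.sub_apply]; push_cast; ring
      have e2 : ∀ x, ((z.1.2 x : ℤ) : ℝ) = (P x - Q x) / 2 := by
        intro x
        simp only [hP, hQ, Pi.add_apply, Pi.sub_apply]; push_cast; ring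
      simp only [e1, e2]
      have hsw : ∑ x, ∑ y, (β / 2 * (K₂ x y - K₁ x y)) * (P x * Q y) =
          ∑ x, ∑ y, (β / 2 * (K₂ x y - K₁ x y)) * ((P x * Q y + Q x * P y) / 2) := by
        have : ∑ x, ∑ y, (β / 2 * (K₂ x y - K₁ x y)) * (Q x * P y) =
            ∑ x, ∑ y, (β / 2 * (K₂ x y - K₁ x y)) * (P x * Q y) := by
          rw [Finset.sum_comm]
          refine Finset.sum_congr rfl fun x _ => Finset.sum_congr rfl fun y _ => ?_
          rw [hK₁ y x, hK₂ y x]; ring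
        have e3 : ∑ x, ∑ y, (β / 2 * (K₂ x y - K₁ x y)) * ((P x * Q y + Q x * P y) / 2) =
            (∑ x, ∑ y, (β / 2 * (K₂ x y - K₁ x y)) * (P x * Q y) +
            ∑ x, ∑ y, (β / 2 * (K₂ x y - K₁ x y)) * (Q x * P y)) / 2 := by
          rw [← Finset.sum_add_distrib, Finset.sum_div]
          refine Finset.sum_congr rfl fun x _ => ?_
          rw [← Finset.sum_add_distrib, Finset.sum_div]
          exact Finset.sum_congr rfl fun y _ => by ring
        rw [e3, this]; ring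
      have hgoal : -(β * ∑ x, ∑ y, (K₁ x y + K₂ x y) / 4 * (P x * P y)) +
          -(β * ∑ x, ∑ y, (K₁ x y + K₂ x y) / 4 * (Q x * Q y)) +
          ∑ x, ∑ y, (β / 2 * (K₂ x y - K₁ x y)) * (P x * Q y) =
          -(β * ∑ x, ∑ y, K₁ x y * ((P x + Q x) / 2 * ((P y + Q y) / 2))) +
          -(β * ∑ x, ∑ y, K₂ x y * ((P x - Q x) / 2 * ((P y - Q y) / 2))) := by
        rw [hsw]
        simp only [Finset.mul_sum, ← Finset.sum_neg_distrib]
        rw [← Finset.sum_add_distrib, ← Finset.sum_add_distrib, ← Finset.sum_add_distrib]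
        refine Finset.sum_congr rfl fun x _ => ?_
        rw [← Finset.sum_add_distrib, ← Finset.sum_add_distrib, ← Finset.sum_add_distrib]
        exact Finset.sum_congr rfl fun y _ => by ring
      exact hgoal
    · have hne : ∀ (X Y : Δ → ℝ), diagonal X (ph Δ z).1 (ph Δ z').1 *
          diagonal Y (ph Δ z).2 (ph Δ z').2 = 0 := by
        intro X Y
        by_cases h1 : (ph Δ z).1 = (ph Δ z').1
        · have h2 : (ph Δ z).2 ≠ (ph Δ z').2 := fun h2 => hz (ph_inj Δ (Prod.ext h1 h2))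
          rw [Matrix.diagonal_apply_ne _ h2, mul_zero]
        · rw [Matrix.diagonal_apply_ne _ h1, zero_mul]
      have h1 : (aM β K₁ K₂ ν Δ ⊗ₖ (1 : Matrix Δ Δ ℝ)) (ph Δ z) (ph Δ z') = 0 := by
        rw [Matrix.kroneckerMap_apply, ← Matrix.diagonal_one]
        exact hne _ _
      have h2 : ((1 : Matrix Δ Δ ℝ) ⊗ₖ aM β K₁ K₂ ν Δ) (ph Δ z) (ph Δ z') = 0 := by
        rw [Matrix.kroneckerMap_apply, ← Matrix.diagonal_one]
        exact hne _ _
      have h3 : ∀ x y, (fM ν Δ x ⊗ₖ fM ν Δ y) (ph Δ z) (ph Δ z') = 0 := by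
        intro x y
        rw [Matrix.kroneckerMap_apply]
        exact hne _ _
      simp only [h1, h2, h3, mul_zero, Finset.sum_const_zero, add_zero]
      by_cases h1 : z.1.1 = z'.1.1
      · have h2 : z.1.2 ≠ z'.1.2 := fun h2 => hz (Subtype.ext (Prod.ext h1 h2))
        simp [h2]
      · simp [h1]
  unfold gM bM prodK rotK
  simp only [Matrix.add_apply, Matrix.sum_apply, Matrix.smul_apply, smul_eq_mul, h4, h5]
  rw [hkin]
  linear_combination hdiag

/-- The parity class. -/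
noncomputable def pM (c : V → ZMod 2) : Matrix Δ Δ ℝ :=
  diagonal fun p => if ∀ x, ((p.1 x : ℤ) : ZMod 2) = c x then 1 else 0

/-- The projection on the configurations with equal parities. -/
noncomputable def PM : Matrix (Δ × Δ) (Δ × Δ) ℝ := ∑ c : V → ZMod 2, pM Δ c ⊗ₖ pM Δ c

theorem PM_eq : PM Δ = diagonal fun u => if ∀ x, ((u.1.1 x : ℤ) : ZMod 2) = ((u.2.1 x : ℤ) : ZMod 2)
    then (1:ℝ) else 0 := by
  have h1 : ∀ c, pM Δ c ⊗ₖ pM Δ c = diagonal fun u : Δ × Δ =>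
      (if ∀ x, ((u.1.1 x : ℤ) : ZMod 2) = c x then (1:ℝ) else 0) *
      (if ∀ x, ((u.2.1 x : ℤ) : ZMod 2) = c x then 1 else 0) := by
    intro c
    unfold pM
    rw [Matrix.diagonal_kronecker_diagonal]
  unfold PM
  ext u v
  rw [Matrix.sum_apply]
  simp only [h1]
  by_cases huv : u = v
  · subst huv
    simp only [Matrix.diagonal_apply_eq]
    rw [Finset.sum_eq_single (fun x => ((u.1.1 x : ℤ) : ZMod 2))]
    · simp only [implies_true, if_true, one_mul]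
      by_cases h : ∀ x, ((u.1.1 x : ℤ) : ZMod 2) = ((u.2.1 x : ℤ) : ZMod 2)
      · rw [if_pos h, if_pos fun x => (h x).symm]
      · rw [if_neg h, if_neg fun h' => h fun x => (h' x).symm]
    · intro c _ hc
      rw [if_neg, zero_mul]
      intro h
      exact hc (funext fun x => (h x).symm)
    · intro h; exact absurd (Finset.mem_univ _) h
  · simp only [Matrix.diagonal_apply_ne _ huv, Finset.sum_const_zero]

theorem cone_gM (hβ : 0 ≤ β) (hK : (K₂ - K₁).PosSemidef) (hw₂ : ∀ x y, 0 ≤ w₂ x y)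
    (hw : ∀ x y, w₂ x y ≤ w₁ x y) (x y : V) :
    Cone (fun (_ _ : Unit) => PM Δ * (sM Δ x y ⊗ₖ sM Δ x y) * exp (gM β K₁ K₂ w₁ w₂ ν Δ)) := by
  have h1 : Cone (fun (_ _ : Unit) => PM Δ) :=
    cone_of_sum (fun c : V → ZMod 2 => fun _ : Unit => pM Δ c)
  have h2 : Cone (fun (_ _ : Unit) => sM Δ x y ⊗ₖ sM Δ x y) :=
    cone_kron (fun _ : Unit => sM Δ x y)
  have h3 : Cone (fun (_ _ : Unit) => bM β K₁ K₂ w₁ w₂ ν Δ) := by
    unfold bM
    refine Cone.add ?_ ?_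
    · have hG : ((β / 2) • (K₂ - K₁)).PosSemidef := Matrix.PosSemidef.smul hK (by positivity)
      exact cone_psd ((β / 2) • (K₂ - K₁)) hG (fM ν Δ)
    · refine Cone.sum Finset.univ (M := fun x => fun (_ _ : Unit) => ∑ y,
        ((β * (w₁ x y + w₂ x y)) • (cM Δ x y ⊗ₖ cM Δ x y) +
        (β * (w₁ x y - w₂ x y)) • (sM Δ x y ⊗ₖ sM Δ x y))) fun x _ => ?_
      refine Cone.sum Finset.univ (M := fun y => fun (_ _ : Unit) =>
        ((β * (w₁ x y + w₂ x y)) • (cM Δ x y ⊗ₖ cM Δ x y) +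
        (β * (w₁ x y - w₂ x y)) • (sM Δ x y ⊗ₖ sM Δ x y))) fun y _ => ?_
      have a1 := hw₂ x y
      have a2 := hw x y
      exact ((cone_kron (fun _ : Unit => cM Δ x y)).smul (mul_nonneg hβ (by linarith))).add
        ((cone_kron (fun _ : Unit => sM Δ x y)).smul (mul_nonneg hβ (by linarith)))
  exact (h1.mul h2).mul (cone_exp (fun _ : Unit => aM β K₁ K₂ ν Δ) h3)

/-- The comparison of the two replicas in a finite region. -/
theorem cmp_region (hβ : 0 ≤ β) (hK : (K₂ - K₁).PosSemidef) (hK₁ : ∀ x y, K₁ x y = K₁ y x)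
    (hK₂ : ∀ x y, K₂ x y = K₂ y x) (hw₂ : ∀ x y, 0 ≤ w₂ x y)
    (hw : ∀ x y, w₂ x y ≤ w₁ x y) (x y : V) :
    TS (prodK (rotK β K₁ w₁ ν) (rotK β K₂ w₂ 0)) (Prod.map id (· + eta x y)) (RD Δ) ≤
      TS (prodK (rotK β K₁ w₁ ν) (rotK β K₂ w₂ 0)) (Prod.map (· + eta x y) id) (RD Δ) := by
  set A := prodK (rotK β K₁ w₁ ν) (rotK β K₂ w₂ 0) with hA
  have hw₁ : ∀ x y, 0 ≤ w₁ x y := fun x y => (hw₂ x y).trans (hw x y)
  have hAdm : Adm A := prodK_adm (rotK_adm hβ K₁ hw₁ ν) (rotK_adm hβ K₂ hw₂ 0)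
  have h0 := (cone_gM β K₁ K₂ w₁ w₂ ν Δ hβ hK hw₂ hw x y).trace_nonneg ()
  have hexp : ∀ z z' : RD Δ, exp (gM β K₁ K₂ w₁ w₂ ν Δ) (ph Δ z) (ph Δ z') =
      exp (mt A (RD Δ)) z z' := fun z z' =>
    exp_emb _ (mt A (RD Δ)) (ph Δ) (ph_inj Δ)
      (fun z z' => gM_ph β K₁ K₂ w₁ w₂ ν Δ hK₁ hK₂ z z')
      (fun u hu z => gM_out β K₁ K₂ w₁ w₂ ν Δ u hu z) z z'
  set E := exp (gM β K₁ K₂ w₁ w₂ ν Δ) with hE
  -- the trace
  have htr : (PM Δ * (sM Δ x y ⊗ₖ sM Δ x y) * E).trace =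
      ∑ z : RD Δ, ∑ z' : RD Δ, sM Δ x y (ph Δ z).1 (ph Δ z').1 * sM Δ x y (ph Δ z).2 (ph Δ z').2 *
        exp (mt A (RD Δ)) z' z := by
    rw [PM_eq, Matrix.mul_assoc]
    simp only [Matrix.trace, Matrix.diag_apply, Matrix.diagonal_mul]
    symm
    refine Fintype.sum_of_injective (ph Δ) (ph_inj Δ) _ _ ?_ ?_
    · intro u hu
      rw [if_neg, zero_mul]
      intro h
      have hex : ∀ a : V, ∃ k : ℤ, u.1.1 a + u.2.1 a = 2 * k := by
        intro a
        have h1 := h a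
        have h2 : ((u.1.1 a + u.2.1 a : ℤ) : ZMod 2) = 0 := by
          push_cast
          rw [h1]
          exact CharTwo.add_self_eq_zero _
        exact (ZMod.intCast_zmod_eq_zero_iff_dvd _ 2).1 h2
      choose k hk using hex
      refine not_range Δ u hu k (u.1.1 - k) ⟨?_, ?_⟩
      · funext a; simp
      · funext a
        have := hk a
        simp only [Pi.sub_apply]
        omega
    · intro z
      have hpar : ∀ a : V, (((ph Δ z).1.1 a : ℤ) : ZMod 2) = (((ph Δ z).2.1 a : ℤ) : ZMod 2) := by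
        intro a
        unfold ph
        simp only [Pi.add_apply, Pi.sub_apply]
        push_cast
        rw [sub_eq_add_neg, ZMod.neg_eq_self_mod_two]
      rw [if_pos hpar, one_mul, Matrix.mul_apply]
      refine Fintype.sum_of_injective (ph Δ) (ph_inj Δ) _ _ ?_ ?_
      · intro u hu
        rw [Matrix.kroneckerMap_apply]
        have h1 := (kin_out Δ x y u hu z).2
        have hs : ∀ p p' : Δ, sM Δ x y p p' = - sM Δ x y p' p := by
          intro p p'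
          unfold sM
          ring
        rw [hs (ph Δ z).1 u.1, hs (ph Δ z).2 u.2, neg_mul_neg, h1, zero_mul]
      · intro z'
        rw [Matrix.kroneckerMap_apply, hexp]
  rw [htr] at h0
  have h1 : ∀ z z' : RD Δ, sM Δ x y (ph Δ z).1 (ph Δ z').1 * sM Δ x y (ph Δ z).2 (ph Δ z').2 =
      ((if (z : (V → ℤ) × (V → ℤ)) = Prod.map (· + eta x y) id z'.1 then (1:ℝ) else 0) +
       (if (z' : (V → ℤ) × (V → ℤ)) = Prod.map (· + eta x y) id z.1 then 1 else 0) -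
       (if (z : (V → ℤ) × (V → ℤ)) = Prod.map id (· + eta x y) z'.1 then 1 else 0) -
       (if (z' : (V → ℤ) × (V → ℤ)) = Prod.map id (· + eta x y) z.1 then 1 else 0)) / 4 := by
    intro z z'
    rw [(kin_id Δ x y z z').2]
    unfold cosK
    have g : ∀ (P Q S : Prop) [Decidable P] [Decidable Q] [Decidable S], (S ↔ P ∧ Q) →
        (if S then (1:ℝ) else 0) = (if P then 1 else 0) * (if Q then 1 else 0) := by
      intro P Q S _ _ _ h
      rw [ite_mul_ite]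
      simp only [h]
    rw [g (z.1.1 = z'.1.1 + eta x y) (z.1.2 = z'.1.2)
        ((z : (V → ℤ) × (V → ℤ)) = Prod.map (· + eta x y) id z'.1) (by rw [Prod.ext_iff]; rfl),
      g (z'.1.1 = z.1.1 + eta x y) (z.1.2 = z'.1.2)
        ((z' : (V → ℤ) × (V → ℤ)) = Prod.map (· + eta x y) id z.1) (by
        rw [Prod.ext_iff]; exact and_congr_right fun _ => eq_comm),
      g (z.1.1 = z'.1.1) (z.1.2 = z'.1.2 + eta x y)
        ((z : (V → ℤ) × (V → ℤ)) = Prod.map id (· + eta x y) z'.1) (by rw [Prod.ext_iff]; rfl),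
      g (z.1.1 = z'.1.1) (z'.1.2 = z.1.2 + eta x y)
        ((z' : (V → ℤ) × (V → ℤ)) = Prod.map id (· + eta x y) z.1) (by
        rw [Prod.ext_iff]; exact and_congr_left fun _ => eq_comm)]
    ring
  simp only [h1] at h0
  have h2 : ∑ z : RD Δ, ∑ z' : RD Δ,
      ((if (z : (V → ℤ) × (V → ℤ)) = Prod.map (· + eta x y) id z'.1 then (1:ℝ) else 0) +
       (if (z' : (V → ℤ) × (V → ℤ)) = Prod.map (· + eta x y) id z.1 then 1 else 0) -
       (if (z : (V → ℤ) × (V → ℤ)) = Prod.map id (· + eta x y) z'.1 then 1 else 0) -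
       (if (z' : (V → ℤ) × (V → ℤ)) = Prod.map id (· + eta x y) z.1 then 1 else 0)) / 4 *
        exp (mt A (RD Δ)) z' z =
      (TS A (Prod.map (· + eta x y) id) (RD Δ) + TS A (Prod.map (· + eta x y) id) (RD Δ) -
        TS A (Prod.map id (· + eta x y)) (RD Δ) - TS A (Prod.map id (· + eta x y)) (RD Δ)) / 4 := by
    have e1 := shift_sum' hAdm (RD Δ) (Prod.map (· + eta x y) id)
    have e2 := shift_sum A (RD Δ) (Prod.map (· + eta x y) id)
    have e3 := shift_sum' hAdm (RD Δ) (Prod.map id (· + eta x y))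
    have e4 := shift_sum A (RD Δ) (Prod.map id (· + eta x y))
    have e5 : ∀ (a b c d : RD Δ → RD Δ → ℝ), ∑ z : RD Δ, ∑ z' : RD Δ,
        (a z z' + b z z' - c z z' - d z z') / 4 * exp (mt A (RD Δ)) z' z =
        (∑ z : RD Δ, ∑ z' : RD Δ, a z z' * exp (mt A (RD Δ)) z' z +
        ∑ z : RD Δ, ∑ z' : RD Δ, b z z' * exp (mt A (RD Δ)) z' z -
        ∑ z : RD Δ, ∑ z' : RD Δ, c z z' * exp (mt A (RD Δ)) z' z -
        ∑ z : RD Δ, ∑ z' : RD Δ, d z z' * exp (mt A (RD Δ)) z' z) / 4 := by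
      intro a b c d
      rw [← Finset.sum_add_distrib, ← Finset.sum_sub_distrib, ← Finset.sum_sub_distrib,
        Finset.sum_div]
      refine Finset.sum_congr rfl fun z _ => ?_
      rw [← Finset.sum_add_distrib, ← Finset.sum_sub_distrib, ← Finset.sum_sub_distrib,
        Finset.sum_div]
      exact Finset.sum_congr rfl fun z' _ => by ring
    rw [e5, e1, e2, e3, e4]
  rw [h2] at h0
  linarith

end ops

end Pool.Agent.H993.TR
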