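import Mathlib
import Pool.Agent.H993.TR.Cmp

/-!
# Comparison of two systems of rotors at positive temperature, without cut-off
-/

namespace Pool.Agent.H993.TR

open Filter Topology NormedSpace Matrix
open scoped Kronecker MatrixOrder ComplexOrder

variable {V : Type} [Fintype V] [DecidableEq V]

/-- The comparison inequality: the correlations are smallest at the neutral point. -/
theorem cmp_inf {β : ℝ} (hβ : 0 < β) {K₁ K₂ : Matrix V V ℝ} {w₁ w₂ : V → V → ℝ} (ν : V → ℝ)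
    (hK : (K₂ - K₁).PosSemidef) (hK₁ : K₁.PosDef) (hK₂ : K₂.PosDef)
    (hw₂ : ∀ x y, 0 ≤ w₂ x y) (hw : ∀ x y, w₂ x y ≤ w₁ x y) (x y : V) :
    TI (rotK β K₁ w₁ ν) id * TI (rotK β K₂ w₂ 0) (· + eta x y) ≤
      TI (rotK β K₁ w₁ ν) (· + eta x y) * TI (rotK β K₂ w₂ 0) id := by
  have hw₁ : ∀ x y, 0 ≤ w₁ x y := fun x y => (hw₂ x y).trans (hw x y)
  have hA₁ := rotK_adm hβ.le K₁ hw₁ ν
  have hA₂ := rotK_adm hβ.le K₂ hw₂ 0
  have hB₁ := rotK_bdd' hβ hK₁ hw₁ ν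
  have hB₂ := rotK_bdd' hβ hK₂ hw₂ 0
  have hσ : Function.Injective (fun n : V → ℤ => n + eta x y) := add_left_injective _
  have hs : ∀ {K : Matrix V V ℝ}, K.PosDef → ∀ x y, K x y = K y x := by
    intro K hK x y
    have := hK.isHermitian.apply x y
    simpa using this.symm
  set A₁ := rotK β K₁ w₁ ν with hA₁d
  set A₂ := rotK β K₂ w₂ 0 with hA₂d
  have hA := prodK_adm hA₁ hA₂
  have key : ∀ R₁ R₂ : Finset (V → ℤ), TS A₁ id R₁ * TS A₂ (· + eta x y) R₂ ≤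
      TI A₁ (· + eta x y) * TI A₂ id := by
    intro R₁ R₂
    rw [← TS_prod]
    set Δ : Finset (V → ℤ) := (R₁ ×ˢ R₂).image (fun z => z.1 + z.2) ∪
      (R₁ ×ˢ R₂).image (fun z => z.1 - z.2) with hΔ
    have hsub : R₁ ×ˢ R₂ ⊆ RD Δ := by
      intro z hz
      rw [mem_RD]
      exact ⟨Finset.mem_union_left _ (Finset.mem_image_of_mem (fun z => z.1 + z.2) hz),
        Finset.mem_union_right _ (Finset.mem_image_of_mem (fun z => z.1 - z.2) hz)⟩
    have h1 := TS_mono hA (Prod.map id (· + eta x y)) hsub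
    have h2 := cmp_region β K₁ K₂ w₁ w₂ ν Δ hβ.le hK (hs hK₁) (hs hK₂) hw₂ hw x y
    have hsub2 : RD Δ ⊆ (RD Δ).image Prod.fst ×ˢ (RD Δ).image Prod.snd := by
      intro z hz
      rw [Finset.mem_product]
      exact ⟨Finset.mem_image_of_mem _ hz, Finset.mem_image_of_mem _ hz⟩
    have h3 := TS_mono hA (Prod.map (· + eta x y) id) hsub2
    rw [TS_prod] at h3
    refine (h1.trans (h2.trans h3)).trans ?_
    exact mul_le_mul (TS_le_TI hA₁ hB₁ hσ _) (TS_le_TI hA₂ hB₂ Function.injective_id _)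
      (TS_nonneg hA₂ _ _) ((TS_nonneg hA₁ _ ∅).trans (TS_le_TI hA₁ hB₁ hσ _))
  have h1 : ∀ R₁ : Finset (V → ℤ), TS A₁ id R₁ * TI A₂ (· + eta x y) ≤
      TI A₁ (· + eta x y) * TI A₂ id := by
    intro R₁
    exact le_of_tendsto' ((TS_tendsto hA₂ hB₂ hσ).const_mul (TS A₁ id R₁)) fun R₂ => key R₁ R₂
  exact le_of_tendsto' ((TS_tendsto hA₁ hB₁ Function.injective_id).mul_const _) h1

end Pool.Agent.H993.TR
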