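import Mathlib
import Pool.Agent.H993.TR.CmpI

/-!
# Kernels which are sums of shifts
-/

namespace Pool.Agent.H993.TR

open Filter Topology NormedSpace Matrix

variable {Ω I J : Type} [DecidableEq Ω] [AddCommGroup Ω] [Fintype I] [Fintype J]

/-- A sum of weighted shifts. -/
noncomputable def sk (b : J → Ω → ℝ) (v : J → Ω) (n m : Ω) : ℝ :=
  ∑ j, if n = m + v j then b j m else 0

theorem sk_sum_left (R : Finset Ω) (b : J → Ω → ℝ) (v : J → Ω) (F : R → ℝ) (m : Ω) :
    ∑ k : R, sk b v k m * F k = ∑ j, if h : m + v j ∈ R then b j m * F ⟨m + v j, h⟩ else 0 := by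
  unfold sk
  simp only [Finset.sum_mul]
  rw [Finset.sum_comm]
  refine Finset.sum_congr rfl fun j _ => ?_
  split_ifs with h
  · rw [Finset.sum_eq_single (⟨m + v j, h⟩ : R)]
    · rw [if_pos rfl]
    · intro k _ hk
      rw [if_neg, zero_mul]
      intro h'
      exact hk (Subtype.ext h')
    · intro h'; exact absurd (Finset.mem_univ _) h'
  · refine Finset.sum_eq_zero fun k _ => ?_
    rw [if_neg, zero_mul]
    intro h'
    exact h (h' ▸ k.2)

theorem mul_sk (R : Finset Ω) (a : I → Ω → ℝ) (u : I → Ω) (b : J → Ω → ℝ) (v : J → Ω)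
    (n m : R) : (mt (sk a u) R * mt (sk b v) R) n m =
      ∑ j, ∑ i, if (m : Ω) + v j ∈ R then (if (n : Ω) = m + v j + u i then
        a i (m + v j) * b j m else 0) else 0 := by
  rw [Matrix.mul_apply]
  have h1 : ∑ k : R, mt (sk a u) R n k * mt (sk b v) R k m =
      ∑ k : R, sk b v k m * sk a u n k := Finset.sum_congr rfl fun k _ => mul_comm _ _
  rw [h1, sk_sum_left R b v (fun k => sk a u n k) m]
  refine Finset.sum_congr rfl fun j _ => ?_
  by_cases h : (m : Ω) + v j ∈ R
  · rw [dif_pos h]
    simp only [if_pos h]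
    unfold sk
    rw [Finset.mul_sum]
    refine Finset.sum_congr rfl fun i _ => ?_
    split_ifs with h'
    · ring
    · ring
  · rw [dif_neg h]
    simp only [if_neg h, Finset.sum_const_zero]

/-- The trace of a product of two shift sums and the exponential. -/
theorem trace_sk (A : Ω → Ω → ℝ) (R : Finset Ω) (a : I → Ω → ℝ) (u : I → Ω) (b : J → Ω → ℝ)
    (v : J → Ω) : (mt (sk a u) R * mt (sk b v) R * exp (mt A R)).trace =
      ∑ i, ∑ j, ∑ m ∈ R, if m + v j ∈ R then
        a i (m + v j) * b j m * EE A R m (m + v j + u i) else 0 := by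
  have h1 : (mt (sk a u) R * mt (sk b v) R * exp (mt A R)).trace =
      ∑ m : R, ∑ n : R, (mt (sk a u) R * mt (sk b v) R) n m * EE A R m n := by
    rw [Matrix.trace]
    simp only [Matrix.diag_apply, Matrix.mul_apply (N := exp (mt A R))]
    rw [Finset.sum_comm]
    refine Finset.sum_congr rfl fun m _ => Finset.sum_congr rfl fun n _ => ?_
    rw [EE_eq]
  rw [h1]
  have h2 : ∀ m : R, ∑ n : R, (mt (sk a u) R * mt (sk b v) R) n m * EE A R m n =
      ∑ i, ∑ j, if (m : Ω) + v j ∈ R then
        a i (m + v j) * b j m * EE A R m (m + v j + u i) else 0 := by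
    intro m
    simp only [mul_sk, Finset.sum_mul]
    rw [Finset.sum_comm]
    have h3 : ∀ j : J, ∑ n : R, ∑ i, (if (m : Ω) + v j ∈ R then (if (n : Ω) = m + v j + u i then
        a i (m + v j) * b j m else 0) else 0) * EE A R m n =
        ∑ i, if (m : Ω) + v j ∈ R then
          a i (m + v j) * b j m * EE A R m (m + v j + u i) else 0 := by
      intro j
      rw [Finset.sum_comm]
      refine Finset.sum_congr rfl fun i _ => ?_
      by_cases h : (m : Ω) + v j ∈ R
      · simp only [if_pos h]
        by_cases h' : (m : Ω) + v j + u i ∈ R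
        · rw [Finset.sum_eq_single (⟨m + v j + u i, h'⟩ : R)]
          · rw [if_pos rfl]
          · intro k _ hk
            rw [if_neg, zero_mul]
            intro h''
            exact hk (Subtype.ext h'')
          · intro h''; exact absurd (Finset.mem_univ _) h''
        · rw [EE_zero_right h', mul_zero]
          refine Finset.sum_eq_zero fun k _ => ?_
          rw [if_neg, zero_mul]
          intro h''
          exact h' (h'' ▸ k.2)
      · simp only [if_neg h, zero_mul, Finset.sum_const_zero]
    simp only [h3]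
    rw [Finset.sum_comm]
  simp only [h2]
  rw [Finset.sum_comm]
  refine Finset.sum_congr rfl fun i _ => ?_
  rw [Finset.sum_comm]
  refine Finset.sum_congr rfl fun j _ => ?_
  exact Finset.sum_coe_sort R fun m => if m + v j ∈ R then
        a i (m + v j) * b j m * EE A R m (m + v j + u i) else 0

/-- The commutator of two truncated shift sums. -/
theorem comm_sk (R : Finset Ω) (a : I → ℝ) (u : I → Ω) (b : J → ℝ) (v : J → Ω) :
    mt (sk (fun i _ => a i) u) R * mt (sk (fun j _ => b j) v) R -
      mt (sk (fun j _ => b j) v) R * mt (sk (fun i _ => a i) u) R =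
    mt (sk (fun (p : I × J) m => a p.1 * b p.2 * ((if m + v p.2 ∈ R then 1 else 0) -
      (if m + u p.1 ∈ R then 1 else 0))) (fun p => u p.1 + v p.2)) R := by
  ext n m
  rw [Matrix.sub_apply, mul_sk, mul_sk]
  unfold mt sk
  rw [Fintype.sum_prod_type, Finset.sum_comm, ← Finset.sum_sub_distrib]
  refine Finset.sum_congr rfl fun i _ => ?_
  rw [← Finset.sum_sub_distrib]
  refine Finset.sum_congr rfl fun j _ => ?_
  have e1 : (m : Ω) + v j + u i = m + (u i + v j) := by abel
  have e2 : (m : Ω) + u i + v j = m + (u i + v j) := by abel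
  rw [e1, e2]
  by_cases h : (n : Ω) = m + (u i + v j)
  · simp only [if_pos h]
    split_ifs <;> ring
  · simp only [if_neg h]
    simp

end Pool.Agent.H993.TR
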