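import Mathlib
import Pool.Agent.H993.TR.Sh

/-!
# The neutral system in a box
-/

namespace Pool.Agent.H993.TR

open Filter Topology NormedSpace Matrix

variable {V : Type} [Fintype V] [DecidableEq V]

/-- Configurations with at most `M` particles (or holes) at every site. -/
noncomputable def RM (V : Type) [Fintype V] [DecidableEq V] (M : ℕ) : Finset (V → ℤ) :=
  Fintype.piFinset fun _ => Finset.Icc (-(M:ℤ)) M

theorem mem_RM (M : ℕ) (n : V → ℤ) : n ∈ RM V M ↔ ∀ x, -(M:ℤ) ≤ n x ∧ n x ≤ M := by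
  unfold RM
  rw [Fintype.mem_piFinset]
  simp only [Finset.mem_Icc]

/-- Occupation numbers of a site. -/
abbrev BM (M : ℕ) : Type := {k : ℤ // k ∈ Finset.Icc (-(M:ℤ)) M}

/-- The configurations in the box. -/
def boxE (M : ℕ) : RM V M ≃ (V → BM M) where
  toFun n := fun x => ⟨n.1 x, by rw [Finset.mem_Icc]; exact (mem_RM M n.1).1 n.2 x⟩
  invFun g := ⟨fun x => (g x).1, (mem_RM M _).2 fun x => Finset.mem_Icc.1 (g x).2⟩
  left_inv n := rfl
  right_inv g := rfl

/-- Reversal of the sign. -/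
def flM (M : ℕ) : BM M ≃ BM M where
  toFun b := ⟨-b.1, by have := Finset.mem_Icc.1 b.2; rw [Finset.mem_Icc]; omega⟩
  invFun b := ⟨-b.1, by have := Finset.mem_Icc.1 b.2; rw [Finset.mem_Icc]; omega⟩
  left_inv b := Subtype.ext (by simp)
  right_inv b := Subtype.ext (by simp)

theorem flM_flM (M : ℕ) (b : BM M) : flM M (flM M b) = b := (flM M).left_inv b

/-- The on-site energy. -/
noncomputable def PP (a : ℝ) (M : ℕ) : Matrix (BM M) (BM M) ℝ := diagonal fun b => -(a * (b.1:ℝ) ^ 2)

/-- `cos θ`. -/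
noncomputable def cc (M : ℕ) : Matrix (BM M) (BM M) ℝ := fun b b' =>
  ((if b.1 = b'.1 + 1 then 1 else 0) + (if b'.1 = b.1 + 1 then 1 else 0)) / 2

/-- `sin θ`, up to a factor. -/
noncomputable def rr (M : ℕ) : Matrix (BM M) (BM M) ℝ := fun b b' =>
  ((if b.1 = b'.1 + 1 then 1 else 0) - (if b'.1 = b.1 + 1 then 1 else 0)) / 2

theorem PP_flip (a : ℝ) (M : ℕ) : (PP a M).submatrix (flM M) (flM M) = PP a M := by
  ext b b'
  unfold PP
  rw [Matrix.submatrix_apply]
  by_cases h : b = b'
  · subst h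
    rw [Matrix.diagonal_apply_eq, Matrix.diagonal_apply_eq]
    unfold flM
    simp
  · rw [Matrix.diagonal_apply_ne _ h, Matrix.diagonal_apply_ne]
    intro h'
    exact h ((flM M).injective h')

theorem cc_flip (M : ℕ) : (cc M).submatrix (flM M) (flM M) = cc M := by
  ext b b'
  rw [Matrix.submatrix_apply]
  unfold cc flM
  simp only [Equiv.coe_fn_mk]
  have h1 : (-b.1 = -b'.1 + 1) ↔ (b'.1 = b.1 + 1) := by omega
  have h2 : (-b'.1 = -b.1 + 1) ↔ (b.1 = b'.1 + 1) := by omega
  simp only [h1, h2]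
  rw [add_comm]

theorem rr_flip (M : ℕ) : (rr M).submatrix (flM M) (flM M) = -rr M := by
  ext b b'
  rw [Matrix.submatrix_apply, Matrix.neg_apply]
  unfold rr flM
  simp only [Equiv.coe_fn_mk]
  have h1 : (-b.1 = -b'.1 + 1) ↔ (b'.1 = b.1 + 1) := by omega
  have h2 : (-b'.1 = -b.1 + 1) ↔ (b.1 = b'.1 + 1) := by omega
  simp only [h1, h2]
  ring

theorem PP_t (a : ℝ) (M : ℕ) : (PP a M)ᵀ = PP a M := Matrix.diagonal_transpose _

theorem cc_t (M : ℕ) : (cc M)ᵀ = cc M := by
  ext b b'
  rw [Matrix.transpose_apply]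
  unfold cc
  rw [add_comm]

theorem rr_t (M : ℕ) : (rr M)ᵀ = -rr M := by
  ext b b'
  rw [Matrix.transpose_apply, Matrix.neg_apply]
  unfold rr
  ring

theorem st_apply {B : Type} [Fintype B] [DecidableEq B] (x : V) (X : Matrix B B ℝ) (n m : V → B) :
    st x X n m = if ∀ z, z ≠ x → n z = m z then X (n x) (m x) else 0 := by
  unfold st pr
  rw [← Finset.mul_prod_erase _ _ (Finset.mem_univ x), Function.update_self]
  split_ifs with h
  · rw [Finset.prod_eq_one, mul_one]
    intro z hz
    have hz' := Finset.ne_of_mem_erase hz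
    rw [Function.update_of_ne hz', h z hz', Matrix.one_apply_eq]
  · push Not at h
    obtain ⟨z, hz, hz'⟩ := h
    rw [Finset.prod_eq_zero (i := z), mul_zero]
    · exact Finset.mem_erase.2 ⟨hz, Finset.mem_univ _⟩
    · rw [Function.update_of_ne hz, Matrix.one_apply_ne hz']

theorem st_st_apply {B : Type} [Fintype B] [DecidableEq B] (x y : V) (hxy : x ≠ y)
    (X Y : Matrix B B ℝ) (n m : V → B) :
    (st x X * st y Y) n m = if ∀ z, z ≠ x → z ≠ y → n z = m z then
      X (n x) (m x) * Y (n y) (m y) else 0 := by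
  unfold st
  rw [pr_mul]
  unfold pr
  rw [← Finset.mul_prod_erase _ _ (Finset.mem_univ x), ← Finset.mul_prod_erase _ _
    (Finset.mem_erase.2 ⟨hxy.symm, Finset.mem_univ y⟩)]
  simp only [Function.update_self, Function.update_of_ne hxy, Function.update_of_ne hxy.symm,
    Matrix.mul_one, Matrix.one_mul]
  split_ifs with h
  · rw [Finset.prod_eq_one, mul_one]
    intro z hz
    have hz1 := Finset.ne_of_mem_erase hz
    have hz2 := Finset.ne_of_mem_erase (Finset.mem_of_mem_erase hz)
    rw [Function.update_of_ne hz1, Function.update_of_ne hz2, h z hz2 hz1, Matrix.mul_one,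
      Matrix.one_apply_eq]
  · push Not at h
    obtain ⟨z, hz, hz', hz''⟩ := h
    rw [Finset.prod_eq_zero (i := z), mul_zero, mul_zero]
    · exact Finset.mem_erase.2 ⟨hz', Finset.mem_erase.2 ⟨hz, Finset.mem_univ _⟩⟩
    · rw [Function.update_of_ne hz, Function.update_of_ne hz', Matrix.mul_one,
        Matrix.one_apply_ne hz'']

/-- Kernel of `cos θ_x`. -/
noncomputable def cs (x : V) (n m : V → ℤ) : ℝ :=
  ((if n = m + Pi.single x 1 then 1 else 0) + (if m = n + Pi.single x 1 then 1 else 0)) / 2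

theorem eq_add_single_iff (x : V) (n m : V → ℤ) :
    n = m + Pi.single x 1 ↔ (∀ z, z ≠ x → n z = m z) ∧ n x = m x + 1 := by
  constructor
  · intro h
    subst h
    refine ⟨fun z hz => ?_, ?_⟩
    · rw [Pi.add_apply, Pi.single_eq_of_ne hz, add_zero]
    · rw [Pi.add_apply, Pi.single_eq_same]
  · rintro ⟨h1, h2⟩
    funext z
    by_cases hz : z = x
    · subst hz
      rw [Pi.add_apply, Pi.single_eq_same, h2]
    · rw [Pi.add_apply, Pi.single_eq_of_ne hz, add_zero, h1 z hz]

theorem eq_add_eta_iff (x y : V) (hxy : x ≠ y) (n m : V → ℤ) :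
    n = m + eta x y ↔ (∀ z, z ≠ x → z ≠ y → n z = m z) ∧ n x = m x + 1 ∧ m y = n y + 1 := by
  unfold eta
  constructor
  · intro h
    subst h
    refine ⟨fun z hz hz' => ?_, ?_, ?_⟩
    · rw [Pi.add_apply, Pi.sub_apply, Pi.single_eq_of_ne hz, Pi.single_eq_of_ne hz']
      ring
    · rw [Pi.add_apply, Pi.sub_apply, Pi.single_eq_same, Pi.single_eq_of_ne hxy]
      ring
    · rw [Pi.add_apply, Pi.sub_apply, Pi.single_eq_same, Pi.single_eq_of_ne hxy.symm]
      ring
  · rintro ⟨h1, h2, h3⟩
    funext z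
    rw [Pi.add_apply, Pi.sub_apply]
    by_cases hz : z = x
    · subst hz
      rw [Pi.single_eq_same, Pi.single_eq_of_ne hxy, h2]
      ring
    · by_cases hz' : z = y
      · subst hz'
        rw [Pi.single_eq_same, Pi.single_eq_of_ne hxy.symm, h3]
        ring
      · rw [Pi.single_eq_of_ne hz, Pi.single_eq_of_ne hz', h1 z hz hz']
        ring

theorem st_cc_box (M : ℕ) (x : V) (n m : RM V M) :
    st x (cc M) (boxE M n) (boxE M m) = cs x n m := by
  rw [st_apply]
  unfold cs cc
  rw [ite_congr (propext (eq_add_single_iff x n.1 m.1)) (fun _ => rfl) (fun _ => rfl),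
    ite_congr (propext (eq_add_single_iff x m.1 n.1)) (fun _ => rfl) (fun _ => rfl)]
  have h1 : (∀ z, z ≠ x → boxE M n z = boxE M m z) ↔ ∀ z, z ≠ x → n.1 z = m.1 z := by
    refine forall_congr' fun z => forall_congr' fun _ => ?_
    exact ⟨fun h => congrArg Subtype.val h, fun h => Subtype.ext h⟩
  have h2 : (∀ z, z ≠ x → m.1 z = n.1 z) ↔ ∀ z, z ≠ x → n.1 z = m.1 z :=
    forall_congr' fun z => forall_congr' fun _ => eq_comm
  have e1 : (boxE M n x).1 = n.1 x := rfl
  have e2 : (boxE M m x).1 = m.1 x := rfl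
  simp only [h1, h2, e1, e2]
  by_cases h : ∀ z, z ≠ x → n.1 z = m.1 z
  · have key : ∀ (P : Prop) [Decidable P], (if (∀ z, z ≠ x → n.1 z = m.1 z) ∧
        P then (1:ℝ) else 0) = (if P then 1 else 0) := by
      intro P _
      simp only [and_iff_right h]
    rw [if_pos h, key, key]
  · rw [if_neg h, if_neg fun h' => h h'.1, if_neg fun h' => h h'.1]
    norm_num

theorem st_cos_box (M : ℕ) (x y : V) (hxy : x ≠ y) (n m : RM V M) :
    (st x (cc M) * st y (cc M) - st x (rr M) * st y (rr M)) (boxE M n) (boxE M m) =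
      cosK x y n m := by
  rw [Matrix.sub_apply, st_st_apply x y hxy, st_st_apply x y hxy]
  unfold cosK cc rr
  rw [ite_congr (propext (eq_add_eta_iff x y hxy n.1 m.1)) (fun _ => rfl) (fun _ => rfl),
    ite_congr (propext (eq_add_eta_iff x y hxy m.1 n.1)) (fun _ => rfl) (fun _ => rfl)]
  have h1 : (∀ z, z ≠ x → z ≠ y → boxE M n z = boxE M m z) ↔
      ∀ z, z ≠ x → z ≠ y → n.1 z = m.1 z := by
    refine forall_congr' fun z => forall_congr' fun _ => forall_congr' fun _ => ?_
    exact ⟨fun h => congrArg Subtype.val h, fun h => Subtype.ext h⟩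
  have h2 : (∀ z, z ≠ x → z ≠ y → m.1 z = n.1 z) ↔ ∀ z, z ≠ x → z ≠ y → n.1 z = m.1 z :=
    forall_congr' fun z => forall_congr' fun _ => forall_congr' fun _ => eq_comm
  have e1 : ∀ x, (boxE M n x).1 = n.1 x := fun _ => rfl
  have e2 : ∀ x, (boxE M m x).1 = m.1 x := fun _ => rfl
  simp only [h1, h2, e1, e2]
  by_cases h : ∀ z, z ≠ x → z ≠ y → n.1 z = m.1 z
  · have key : ∀ (P Q : Prop) [Decidable P] [Decidable Q], (if (∀ z, z ≠ x → z ≠ y → n.1 z = m.1 z) ∧
        P ∧ Q then (1:ℝ) else 0) = (if P then 1 else 0) * (if Q then 1 else 0) := by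
      intro P Q _ _
      rw [ite_mul_ite]
      simp only [and_iff_right h]
    rw [if_pos h, if_pos h, key, key]
    ring
  · rw [if_neg h, if_neg h, if_neg fun h' => h h'.1, if_neg fun h' => h h'.1]
    norm_num

theorem cosK_swap (x y : V) (n m : V → ℤ) : cosK y x n m = cosK x y n m := by
  unfold cosK
  have h1 : (n = m + eta y x) ↔ (m = n + eta x y) := by
    unfold eta
    constructor
    · intro h; rw [h]; abel
    · intro h; rw [h]; abel
  have h2 : (m = n + eta y x) ↔ (n = m + eta x y) := by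
    unfold eta
    constructor
    · intro h; rw [h]; abel
    · intro h; rw [h]; abel
  simp only [h1, h2]
  rw [add_comm]

/-- The symmetrised coupling. -/
def wg (β : ℝ) (w : V → V → ℝ) (x y : V) : ℝ := β * (w x y + w y x)

theorem pot_neutral (U : ℝ) (n : V → ℤ) :
    pot (U • (1 : Matrix V V ℝ)) 0 n = U * ∑ x, (n x : ℝ) ^ 2 := by
  unfold pot
  rw [Finset.mul_sum]
  refine Finset.sum_congr rfl fun x _ => ?_
  rw [Finset.sum_eq_single x]
  · rw [Matrix.smul_apply, Matrix.one_apply_eq]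
    simp only [Pi.zero_apply, sub_zero, smul_eq_mul, mul_one]
    ring
  · intro y _ hy
    rw [Matrix.smul_apply, Matrix.one_apply_ne (Ne.symm hy)]
    simp
  · intro hx
    exact absurd (Finset.mem_univ _) hx

theorem gen_box (β U : ℝ) (w : V → V → ℝ) (hw0 : ∀ x, w x x = 0) (M : ℕ) (n m : RM V M) :
    gen (PP (β * U) M) (cc M) (rr M) (wg β w) 0 (boxE M n) (boxE M m) =
      rotK β (U • (1 : Matrix V V ℝ)) w 0 n m := by
  unfold gen rotK
  simp only [Pi.zero_apply, zero_smul, Finset.sum_const_zero, add_zero, Matrix.add_apply,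
    Matrix.smul_apply, Matrix.sum_apply, smul_eq_mul]
  have h1 : ∑ x, st x (PP (β * U) M) (boxE M n) (boxE M m) =
      (if n.1 = m.1 then -(β * pot (U • (1 : Matrix V V ℝ)) 0 n.1) else 0) := by
    rw [pot_neutral]
    by_cases h : n.1 = m.1
    · have h' : n = m := Subtype.ext h
      subst h'
      rw [if_pos rfl, ← mul_assoc, Finset.mul_sum, ← Finset.sum_neg_distrib]
      refine Finset.sum_congr rfl fun x _ => ?_
      rw [st_apply, if_pos fun _ _ => rfl]
      unfold PP
      rw [Matrix.diagonal_apply_eq]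
      rfl
    · rw [if_neg h]
      refine Finset.sum_eq_zero fun x _ => ?_
      rw [st_apply]
      split_ifs with h'
      · unfold PP
        rw [Matrix.diagonal_apply_ne]
        intro h''
        apply h
        funext z
        by_cases hz : z = x
        · subst hz; exact congrArg Subtype.val h''
        · exact congrArg Subtype.val (h' z hz)
      · rfl
  rw [h1]
  congr 1
  have h2 : ∀ x y, wg β w x y * (st x (cc M) * st y (cc M) - st x (rr M) * st y (rr M))
      (boxE M n) (boxE M m) = wg β w x y * cosK x y n m := by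
    intro x y
    by_cases hxy : x = y
    · subst hxy
      unfold wg
      rw [hw0]; ring
    · rw [st_cos_box M x y hxy]
  simp only [h2]
  unfold wg
  have h3 : ∑ x, ∑ y, β * (w x y + w y x) * cosK x y n.1 m.1 =
      β * ∑ x, ∑ y, w x y * cosK x y n.1 m.1 + β * ∑ x, ∑ y, w x y * cosK x y n.1 m.1 := by
    have h4 : ∑ x, ∑ y, w y x * cosK x y n.1 m.1 = ∑ x, ∑ y, w x y * cosK x y n.1 m.1 := by
      rw [Finset.sum_comm]
      exact Finset.sum_congr rfl fun x _ => Finset.sum_congr rfl fun y _ => by rw [cosK_swap]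
    calc ∑ x, ∑ y, β * (w x y + w y x) * cosK x y n.1 m.1
        = β * ∑ x, ∑ y, w x y * cosK x y n.1 m.1 + β * ∑ x, ∑ y, w y x * cosK x y n.1 m.1 := by
          simp only [Finset.mul_sum]
          rw [← Finset.sum_add_distrib]
          refine Finset.sum_congr rfl fun x _ => ?_
          rw [← Finset.sum_add_distrib]
          exact Finset.sum_congr rfl fun y _ => by ring
      _ = _ := by rw [h4]
  rw [h3]
  ring

end Pool.Agent.H993.TR
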