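import Mathlib
import Pool.Agent.H993.TR.Box

/-!
# The infrared bound in a box
-/

namespace Pool.Agent.H993.TR

open Filter Topology NormedSpace Matrix

variable {V : Type} [Fintype V] [DecidableEq V]

/-- Kernel of `∑ f_x cos θ_x`. -/
noncomputable def ck (f : V → ℝ) (n m : V → ℤ) : ℝ := ∑ x, f x * cs x n m

theorem cs_symm (x : V) (n m : V → ℤ) : cs x n m = cs x m n := by
  unfold cs
  rw [add_comm]

theorem ck_symm (f : V → ℝ) (R : Finset (V → ℤ)) : (mt (ck f) R)ᵀ = mt (ck f) R := by
  ext n m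
  rw [Matrix.transpose_apply]
  unfold mt ck
  exact Finset.sum_congr rfl fun x _ => by rw [cs_symm]

/-- The shifts by `± δ_x`. -/
def us (i : V × Bool) : V → ℤ := if i.2 then Pi.single i.1 1 else - Pi.single i.1 1

theorem ck_eq_sk (f : V → ℝ) : ck f = sk (fun (i : V × Bool) _ => f i.1 / 2) us := by
  funext n m
  unfold ck sk cs us
  rw [Fintype.sum_prod_type]
  refine Finset.sum_congr rfl fun x _ => ?_
  rw [Fintype.sum_bool]
  simp only [if_true, Bool.false_eq_true, if_false]
  have h : (m = n + Pi.single x 1) ↔ (n = m + -Pi.single x 1) := by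
    constructor
    · intro h; rw [h]; abel
    · intro h; rw [h]; abel
  simp only [h]
  split_ifs <;> ring

theorem duh_smul {n : Type} [Fintype n] [DecidableEq n] (G C : Matrix n n ℝ) (l : ℝ) :
    duh G (l • C) 0 = l ^ 2 * duh G C 0 := by
  unfold duh duI
  rw [← intervalIntegral.integral_const_mul]
  refine intervalIntegral.integral_congr fun u _ => ?_
  simp only [zero_smul, add_zero, Matrix.smul_mul, Matrix.mul_smul, Matrix.trace_smul, smul_eq_mul]
  ring

theorem gen_field {B : Type} [Fintype B] [DecidableEq B] (P c r : Matrix B B ℝ) (w : V → V → ℝ)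
    (k : V → ℝ) : gen P c r w k = gen P c r w 0 + ∑ x, k x • st x c := by
  unfold gen
  simp only [Pi.zero_apply, zero_smul, Finset.sum_const_zero, add_zero]
  abel

/-- The Duhamel function in a box. -/
theorem duh_box {β U : ℝ} {w : V → V → ℝ} (hw0 : ∀ x, w x x = 0) (hβ : 0 ≤ β)
    (hw : ∀ x y, 0 ≤ w x y)
    (hrefl : ∀ x y, wg β w x y ≠ 0 → ∃ R σ, IsRefl (wg β w) R σ ∧ R x = y)
    {f : V → ℝ} {l : ℝ} (hl : 0 < l) (hf : ∀ x, ∑ y, wg β w x y * (f x - f y) = l * f x) (M : ℕ) :
    duh (mt (rotK β (U • (1 : Matrix V V ℝ)) w 0) (RM V M)) (mt (ck f) (RM V M)) 0 ≤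
      (∑ x, f x ^ 2) / l * TS (rotK β (U • (1 : Matrix V V ℝ)) w 0) id (RM V M) := by
  set A := rotK β (U • (1 : Matrix V V ℝ)) w 0 with hA
  have hAdm : Adm A := rotK_adm hβ _ hw 0
  set G := mt A (RM V M) with hG
  set C := mt (ck f) (RM V M) with hC
  have hgen : ∀ k : V → ℝ, (gen (PP (β * U) M) (cc M) (rr M) (wg β w) k).submatrix
      (boxE M) (boxE M) = G + mt (ck k) (RM V M) := by
    intro k
    rw [gen_field]
    ext n m
    rw [Matrix.submatrix_apply, Matrix.add_apply, Matrix.add_apply, gen_box β U w hw0,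
      Matrix.sum_apply]
    congr 1
    unfold mt ck
    refine Finset.sum_congr rfl fun x _ => ?_
    rw [Matrix.smul_apply, st_cc_box, smul_eq_mul]
  have htr : ∀ k : V → ℝ, (exp (G + mt (ck k) (RM V M))).trace =
      Zf (PP (β * U) M) (cc M) (rr M) (wg β w) k := by
    intro k
    rw [← hgen, trace_exp_submatrix_equiv]
    rfl
  have hck : ∀ s : ℝ, mt (ck fun x => s * (l * f x)) (RM V M) = s • (l • C) := by
    intro s
    ext n m
    rw [Matrix.smul_apply, Matrix.smul_apply]
    simp only [hC, mt, ck, smul_eq_mul, Finset.mul_sum]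
    exact Finset.sum_congr rfl fun x _ => by ring
  have hgd : ∀ s : ℝ, (exp (G + s • (l • C))).trace ≤
      Real.exp (s ^ 2 * (l / 2 * ∑ x, f x ^ 2)) * (exp G).trace := by
    intro s
    rw [← hck, htr]
    have h0 : (exp G).trace = Zf (PP (β * U) M) (cc M) (rr M) (wg β w) 0 := by
      rw [← htr]
      congr 2
      have : mt (ck (0 : V → ℝ)) (RM V M) = 0 := by
        ext n m
        simp [mt, ck]
      rw [this, add_zero]
    rw [h0]
    exact gd_grad (flM M) (flM_flM M) _ _ _ (PP_flip _ M) (cc_flip M) (rr_flip M) (PP_t _ M)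
      (cc_t M) (rr_t M) (wg β w) (fun x y => by unfold wg; ring)
      (fun x y => mul_nonneg hβ (add_nonneg (hw _ _) (hw _ _))) hrefl f l hf s
  have h1 := duh_le G (l • C) (mt_symm hAdm _)
    (by rw [Matrix.transpose_smul, hC, ck_symm]) (l / 2 * ∑ x, f x ^ 2) hgd
  rw [duh_smul, ← TS_id] at h1
  have h2 : (∑ x, f x ^ 2) / l * TS A id (RM V M) =
      (2 * (l / 2 * ∑ x, f x ^ 2) * TS A id (RM V M)) / l ^ 2 := by
    field_simp
  rw [h2, le_div_iff₀ (by positivity)]
  linarith

/-- Charge conservation. -/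
theorem EE_charge {β : ℝ} {K : Matrix V V ℝ} {w : V → V → ℝ} {ν : V → ℝ} (R : Finset (V → ℤ))
    (n m : V → ℤ) (h : ∑ x, n x ≠ ∑ x, m x) : EE (rotK β K w ν) R n m = 0 := by
  by_cases hnm : n ∈ R ∧ m ∈ R
  · have h1 := EE_eq (rotK β K w ν) R ⟨n, hnm.1⟩ ⟨m, hnm.2⟩
    simp only at h1
    rw [h1]
    have hker : ∀ n m : V → ℤ, ∑ x, n x ≠ ∑ x, m x → rotK β K w ν n m = 0 := by
      intro n m hne
      unfold rotK cosK
      have h2 : n ≠ m := fun h => hne (by rw [h])
      have hsum : ∀ x y : V, ∑ z, eta x y z = 0 := by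
        intro x y
        unfold eta
        simp [Finset.sum_sub_distrib]
      have h3 : ∀ x y, n ≠ m + eta x y := by
        intro x y h
        apply hne
        rw [h]
        simp [Finset.sum_add_distrib, hsum]
      have h4 : ∀ x y, m ≠ n + eta x y := by
        intro x y h
        apply hne
        rw [h]
        simp [Finset.sum_add_distrib, hsum]
      simp [h2, h3, h4]
    have hpow : ∀ (k : ℕ) (n m : R), ∑ x, n.1 x ≠ ∑ x, m.1 x →
        (mt (rotK β K w ν) R ^ k) n m = 0 := by
      intro k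
      induction k with
      | zero =>
        intro n m hne
        rw [pow_zero, Matrix.one_apply_ne]
        intro h; exact hne (by rw [h])
      | succ k ih =>
        intro n m hne
        rw [pow_succ, Matrix.mul_apply]
        refine Finset.sum_eq_zero fun l _ => ?_
        by_cases hl : ∑ x, n.1 x = ∑ x, l.1 x
        · have : mt (rotK β K w ν) R l m = 0 := hker _ _ (by rw [← hl]; exact hne)
          rw [this, mul_zero]
        · rw [ih n l hl, zero_mul]
    have h5 := mat_exp_entry (mt (rotK β K w ν) R) ⟨n, hnm.1⟩ ⟨m, hnm.2⟩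
    have h6 : ∀ k, (mt (rotK β K w ν) R ^ k) ⟨n, hnm.1⟩ ⟨m, hnm.2⟩ = 0 := fun k => hpow k _ _ h
    simp only [h6, mul_zero] at h5
    exact h5.unique hasSum_zero
  · unfold EE; rw [dif_neg hnm]

end Pool.Agent.H993.TR
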