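import Mathlib
import Pool.Agent.H993.TR.IR

/-!
# Evaluation of the traces in a box
-/

namespace Pool.Agent.H993.TR

open Filter Topology NormedSpace Matrix

variable {V : Type} [Fintype V] [DecidableEq V]

theorem RM_add {a : ℕ} {m v : V → ℤ} (hm : m ∈ RM V a) (b : ℕ) (hv : ∀ z, |v z| ≤ b) :
    m + v ∈ RM V (a + b) := by
  rw [mem_RM] at hm ⊢
  intro z
  have h1 := hm z
  have h2 := abs_le.1 (hv z)
  rw [Pi.add_apply]
  push_cast
  constructor <;> linarith [h1.1, h1.2, h2.1, h2.2]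

theorem RM_mono {a b : ℕ} (h : a ≤ b) : RM V a ⊆ RM V b := by
  intro m hm
  rw [mem_RM] at hm ⊢
  intro z
  have h1 := hm z
  have : (a:ℤ) ≤ b := by exact_mod_cast h
  constructor <;> linarith [h1.1, h1.2]

theorem not_RM_add {a : ℕ} (b : ℕ) {m v : V → ℤ} (hv : ∀ z, |v z| ≤ b) (hm : m ∉ RM V (a + b)) :
    m + v ∉ RM V a := by
  intro h
  apply hm
  have h1 := RM_add (v := -v) h b (fun z => by rw [Pi.neg_apply, abs_neg]; exact hv z)
  simpa using h1

theorem us_abs (i : V × Bool) (z : V) : |us i z| ≤ ((1 : ℕ) : ℤ) := by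
  unfold us
  obtain ⟨x, b⟩ := i
  have h : |(Pi.single x (1:ℤ) : V → ℤ) z| ≤ 1 := by
    by_cases hz : z = x
    · subst hz; rw [Pi.single_eq_same]; norm_num
    · rw [Pi.single_eq_of_ne hz]; norm_num
  cases b
  · simpa using h
  · simpa using h

theorem eta_abs (x y z : V) : |eta x y z| ≤ ((1 : ℕ) : ℤ) := by
  unfold eta
  rw [Pi.sub_apply]
  by_cases hx : z = x
  · by_cases hy : z = y
    · subst hx; subst hy; rw [Pi.single_eq_same]; norm_num
    · subst hx; rw [Pi.single_eq_same, Pi.single_eq_of_ne hy]; norm_num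
  · by_cases hy : z = y
    · subst hy; rw [Pi.single_eq_same, Pi.single_eq_of_ne hx]; norm_num
    · rw [Pi.single_eq_of_ne hx, Pi.single_eq_of_ne hy]; norm_num

/-- The weight of the configurations near the boundary of the box. -/
noncomputable def tl (A : (V → ℤ) → (V → ℤ) → ℝ) (a : ℕ) : ℝ :=
  ∑ m ∈ (RM V (a + 4)).filter (fun m => m ∉ RM V a), EE A (RM V (a + 4)) m m

theorem tl_nonneg {A : (V → ℤ) → (V → ℤ) → ℝ} (hA : Adm A) (a : ℕ) : 0 ≤ tl A a :=
  Finset.sum_nonneg fun _ _ => EE_nonneg hA _ _ _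

theorem tl_le {A : (V → ℤ) → (V → ℤ) → ℝ} (hA : Adm A) (a : ℕ) :
    tl A a ≤ TS A id (RM V (a + 4)) - TS A id (RM V a) := by
  have h1 : TS A id (RM V (a + 4)) = ∑ m ∈ (RM V (a + 4)).filter (fun m => m ∈ RM V a),
      EE A (RM V (a + 4)) m m + tl A a := by
    unfold TS tl
    exact (Finset.sum_filter_add_sum_filter_not _ _ _).symm
  have h2 : (RM V (a + 4)).filter (fun m => m ∈ RM V a) = RM V a := by
    ext m
    rw [Finset.mem_filter]
    exact ⟨fun h => h.2, fun h => ⟨RM_mono (by omega) h, h⟩⟩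
  rw [h2] at h1
  have h3 : TS A id (RM V a) ≤ ∑ m ∈ RM V a, EE A (RM V (a + 4)) m m :=
    Finset.sum_le_sum fun m _ => EE_mono hA (RM_mono (by omega)) m m
  linarith

/-- Sums near the boundary are small. -/
theorem edge_le {A : (V → ℤ) → (V → ℤ) → ℝ} (hA : Adm A) (a : ℕ) (t : V → ℤ)
    (ht : ∀ z, |t z| ≤ ((3 : ℕ) : ℤ)) (F : (V → ℤ) → ℝ) (hF : ∀ m, |F m| ≤ 1)
    (hF0 : ∀ m ∈ RM V (a + 3), F m = 0) :
    |∑ m ∈ RM V (a + 4), F m * EE A (RM V (a + 4)) m (m + t)| ≤ tl A a := by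
  set R := RM V (a + 4) with hR
  refine (Finset.abs_sum_le_sum_abs _ _).trans ?_
  have h1 : ∀ m ∈ R, |F m * EE A R m (m + t)| ≤
      ((if m ∉ RM V a then EE A R m m else 0) +
        (if m + t ∉ RM V a then EE A R (m + t) (m + t) else 0)) / 2 := by
    intro m _
    by_cases hm : m ∈ RM V (a + 3)
    · rw [hF0 m hm, zero_mul, abs_zero]
      have := EE_nonneg hA R m m
      have := EE_nonneg hA R (m + t) (m + t)
      split_ifs <;> linarith
    · have h2 : m ∉ RM V a := fun h => hm (RM_mono (by omega) h)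
      have h3 : m + t ∉ RM V a := not_RM_add 3 ht hm
      rw [if_pos h2, if_pos h3, abs_mul, abs_of_nonneg (EE_nonneg hA _ _ _)]
      have h4 := EE_le hA R m (m + t)
      have h5 := hF m
      have h6 := EE_nonneg hA R m (m + t)
      nlinarith [abs_nonneg (F m)]
  refine (Finset.sum_le_sum h1).trans ?_
  rw [← Finset.sum_div, Finset.sum_add_distrib]
  have e1 : ∑ m ∈ R, (if m ∉ RM V a then EE A R m m else 0) = tl A a := by
    unfold tl
    rw [Finset.sum_filter]
  have e2 : ∑ m ∈ R, (if m + t ∉ RM V a then EE A R (m + t) (m + t) else 0) ≤ tl A a := by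
    have e3 : ∑ m ∈ R, (if m + t ∉ RM V a then EE A R (m + t) (m + t) else 0) =
        ∑ n ∈ R.image (· + t), (if n ∉ RM V a then EE A R n n else 0) :=
      (Finset.sum_image (f := fun n => if n ∉ RM V a then EE A R n n else 0)
        (fun _ _ _ _ h => add_right_cancel h)).symm
    rw [e3]
    unfold tl
    rw [Finset.sum_filter]
    have e4 : ∑ n ∈ R.image (· + t), (if n ∉ RM V a then EE A R n n else 0) =
        ∑ n ∈ (R.image (· + t)).filter (· ∈ R), (if n ∉ RM V a then EE A R n n else 0) := by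
      rw [Finset.sum_filter]
      refine Finset.sum_congr rfl fun n _ => ?_
      by_cases hn : n ∈ R
      · rw [if_pos hn]
      · rw [if_neg hn, EE_zero_left hn]; simp
    rw [e4]
    refine Finset.sum_le_sum_of_subset_of_nonneg (fun n hn => (Finset.mem_filter.1 hn).2)
      fun n _ _ => ?_
    split_ifs
    · exact le_rfl
    · exact EE_nonneg hA _ _ _
  linarith

/-- Change of variables. -/
theorem shift_reindex {A : (V → ℤ) → (V → ℤ) → ℝ} (R : Finset (V → ℤ)) (t : V → ℤ)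
    (F : (V → ℤ) → ℝ) :
    ∑ m ∈ R, F m * EE A R m (m + t) = ∑ n ∈ R, F (n - t) * EE A R (n - t) n := by
  have e1 : ∑ m ∈ R, F m * EE A R m (m + t) =
      ∑ m ∈ R.filter (fun m => m + t ∈ R), F m * EE A R m (m + t) := by
    rw [Finset.sum_filter]
    refine Finset.sum_congr rfl fun m _ => ?_
    split_ifs with h
    · rfl
    · rw [EE_zero_right h, mul_zero]
  have e2 : ∑ n ∈ R, F (n - t) * EE A R (n - t) n =
      ∑ n ∈ R.filter (fun n => n - t ∈ R), F (n - t) * EE A R (n - t) n := by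
    rw [Finset.sum_filter]
    refine Finset.sum_congr rfl fun m _ => ?_
    split_ifs with h
    · rfl
    · rw [EE_zero_left h, mul_zero]
  rw [e1, e2]
  refine Finset.sum_nbij' (· + t) (· - t) ?_ ?_ ?_ ?_ ?_
  · intro m hm
    rw [Finset.mem_filter] at hm ⊢
    exact ⟨hm.2, by simpa using hm.1⟩
  · intro m hm
    rw [Finset.mem_filter] at hm ⊢
    exact ⟨hm.2, by simpa using hm.1⟩
  · intro m _; simp
  · intro m _; simp
  · intro m _; simp

theorem TS_eta {A : (V → ℤ) → (V → ℤ) → ℝ} (hA : Adm A) (R : Finset (V → ℤ)) (t : V → ℤ) :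
    ∑ m ∈ R, EE A R m (m + t) = TS A (· + t) R := by
  unfold TS
  exact Finset.sum_congr rfl fun m _ => EE_symm hA _ _ _

theorem TS_eta_swap {A : (V → ℤ) → (V → ℤ) → ℝ} (hA : Adm A) (R : Finset (V → ℤ)) (t : V → ℤ) :
    TS A (· + -t) R = TS A (· + t) R := by
  rw [← TS_eta hA R t]
  have h := shift_reindex (A := A) R t (fun _ => 1)
  simp only [one_mul] at h
  rw [h]
  unfold TS
  simp only [sub_eq_add_neg]

theorem eta_neg (x y : V) : eta y x = - eta x y := by
  unfold eta; abel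

end Pool.Agent.H993.TR
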