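import Mathlib
import Pool.Agent.H993.TR.IRa

/-!
# Evaluation of the traces in a box, continued
-/

namespace Pool.Agent.H993.TR

open Filter Topology NormedSpace Matrix

variable {V : Type} [Fintype V] [DecidableEq V]

theorem us_pair (x y : V) (t : Bool) : us (y, t) + us (x, !t) = if t then eta y x else eta x y := by
  unfold us eta
  cases t
  · simp; abel
  · simp; abel

theorem us_charge (x : V) (t : Bool) : ∑ z, us (x, t) z = if t then 1 else -1 := by
  unfold us
  cases t <;> simp

/-- If both ends are in the box then so is the point between them. -/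
theorem mid_mem {a : ℕ} {x y : V} (hxy : x ≠ y) (t : Bool) {m : V → ℤ} (hm : m ∈ RM V a)
    (hm' : m + (us (y, t) + us (x, !t)) ∈ RM V a) : m + us (y, t) ∈ RM V a := by
  rw [mem_RM] at hm hm' ⊢
  intro z
  have h1 := hm z
  have h2 := hm' z
  rw [Pi.add_apply, Pi.add_apply] at h2
  rw [Pi.add_apply]
  by_cases hz : z = x
  · subst hz
    have : us (y, t) z = 0 := by
      unfold us; cases t <;> simp [Pi.single_eq_of_ne hxy]
    rw [this, add_zero]
    exact h1
  · have : us (x, !t) z = 0 := by
      unfold us; cases t <;> simp [Pi.single_eq_of_ne hz]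
    rw [this, add_zero] at h2
    exact h2

/-- A sum over pairs of shifts: only the pairs which conserve the charge contribute. -/
theorem pair_sum {β : ℝ} {K : Matrix V V ℝ} {w : V → V → ℝ} {ν : V → ℝ} (R : Finset (V → ℤ))
    (g : V → V → ℝ) (F : V → Bool → (V → ℤ) → ℝ) :
    ∑ i : V × Bool, ∑ j : V × Bool, ∑ m ∈ R, (if m + us j ∈ R then
        g i.1 j.1 * F j.1 j.2 m * EE (rotK β K w ν) R m (m + us j + us i) else 0) =
    ∑ x, ∑ y, g x y * ∑ t : Bool, ∑ m ∈ R, (if m + us (y, t) ∈ R then
        F y t m * EE (rotK β K w ν) R m (m + (us (y, t) + us (x, !t))) else 0) := by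
  rw [Fintype.sum_prod_type]
  refine Finset.sum_congr rfl fun x _ => ?_
  rw [Finset.sum_comm, Fintype.sum_prod_type]
  refine Finset.sum_congr rfl fun y _ => ?_
  rw [Finset.mul_sum]
  refine Finset.sum_congr rfl fun t _ => ?_
  have hz : ∀ m : V → ℤ, EE (rotK β K w ν) R m (m + us (y, t) + us (x, t)) = 0 := by
    intro m
    refine EE_charge R _ _ ?_
    simp only [Pi.add_apply, Finset.sum_add_distrib, us_charge]
    cases t
    · simp; omega
    · simp; omega
  rw [Finset.mul_sum]
  have h1 : ∀ G : Bool → ℝ, ∑ s : Bool, G s = G t + G (!t) := by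
    intro G
    cases t
    · rw [Fintype.sum_bool]; simp; ring
    · rw [Fintype.sum_bool]; simp
  rw [h1]
  have h2 : ∑ m ∈ R, (if m + us (y, t) ∈ R then
        g x y * F y t m * EE (rotK β K w ν) R m (m + us (y, t) + us (x, t)) else 0) = 0 := by
    refine Finset.sum_eq_zero fun m _ => ?_
    rw [hz, mul_zero, ite_self]
  simp only
  rw [h2, zero_add]
  refine Finset.sum_congr rfl fun m _ => ?_
  split_ifs
  · rw [add_assoc]; ring
  · ring

theorem pair_ne {β : ℝ} {K : Matrix V V ℝ} {w : V → V → ℝ} {ν : V → ℝ} (a : ℕ)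
    {x y : V} (hxy : x ≠ y) (t : Bool) (F : (V → ℤ) → ℝ) :
    ∑ m ∈ RM V a, (if m + us (y, t) ∈ RM V a then
        F m * EE (rotK β K w ν) (RM V a) m (m + (us (y, t) + us (x, !t))) else 0) =
    ∑ m ∈ RM V a, F m * EE (rotK β K w ν) (RM V a) m (m + (us (y, t) + us (x, !t))) := by
  refine Finset.sum_congr rfl fun m hm => ?_
  split_ifs with h
  · rfl
  · have : m + (us (y, t) + us (x, !t)) ∉ RM V a := fun h' => h (mid_mem hxy t hm h')
    rw [EE_zero_right this, mul_zero]

theorem trace_CC {β : ℝ} (hβ : 0 ≤ β) {K : Matrix V V ℝ} {w : V → V → ℝ}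
    (hw : ∀ x y, 0 ≤ w x y) {ν : V → ℝ} (f : V → ℝ) (a : ℕ) :
    |(mt (ck f) (RM V (a + 4)) * mt (ck f) (RM V (a + 4)) *
        exp (mt (rotK β K w ν) (RM V (a + 4)))).trace -
      (∑ x, ∑ y, f x * f y * TS (rotK β K w ν) (· + eta x y) (RM V (a + 4))) / 2| ≤
      (∑ x, f x ^ 2) / 2 * tl (rotK β K w ν) a := by
  set A := rotK β K w ν with hA
  have hAdm : Adm A := rotK_adm hβ K hw ν
  set R := RM V (a + 4) with hR
  rw [ck_eq_sk, trace_sk]
  have h1 : ∑ i : V × Bool, ∑ j : V × Bool, ∑ m ∈ R, (if m + us j ∈ R then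
        f i.1 / 2 * (f j.1 / 2) * EE A R m (m + us j + us i) else 0) =
      ∑ x, ∑ y, (f x / 2 * (f y / 2)) * ∑ t : Bool, ∑ m ∈ R, (if m + us (y, t) ∈ R then
        1 * EE A R m (m + (us (y, t) + us (x, !t))) else 0) := by
    rw [hA, ← pair_sum R (fun x y => f x / 2 * (f y / 2)) (fun _ _ _ => 1)]
    simp only [mul_one]
  rw [h1]
  have h2 : (∑ x, ∑ y, f x * f y * TS A (· + eta x y) R) / 2 =
      ∑ x, ∑ y, (f x / 2 * (f y / 2)) * (2 * TS A (· + eta x y) R) := by
    rw [Finset.sum_div]
    refine Finset.sum_congr rfl fun x _ => ?_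
    rw [Finset.sum_div]
    exact Finset.sum_congr rfl fun y _ => by ring
  rw [h2, ← Finset.sum_sub_distrib]
  have h3 : ∀ x, ∑ y, (f x / 2 * (f y / 2)) * (∑ t : Bool, ∑ m ∈ R, (if m + us (y, t) ∈ R then
        1 * EE A R m (m + (us (y, t) + us (x, !t))) else 0)) -
        ∑ y, (f x / 2 * (f y / 2)) * (2 * TS A (· + eta x y) R) =
      (f x / 2 * (f x / 2)) * (∑ t : Bool, ∑ m ∈ R, (if m + us (x, t) ∈ R then
        1 * EE A R m (m + (us (x, t) + us (x, !t))) else 0) - 2 * TS A (· + eta x x) R) := by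
    intro x
    rw [← Finset.sum_sub_distrib, Finset.sum_eq_single x]
    · ring
    · intro y _ hy
      rw [← mul_sub]
      have hxy : x ≠ y := fun h => hy h.symm
      have e1 : ∀ t : Bool, ∑ m ∈ R, (if m + us (y, t) ∈ R then
        1 * EE A R m (m + (us (y, t) + us (x, !t))) else 0) = TS A (· + eta x y) R := by
        intro t
        rw [pair_ne (a + 4) hxy t (fun _ => 1)]
        simp only [one_mul]
        rw [TS_eta hAdm, us_pair]
        cases t
        · simp only [Bool.false_eq_true, if_false]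
          rfl
        · simp only [if_true]
          rw [eta_neg x y, TS_eta_swap hAdm]
      rw [Fintype.sum_bool, e1, e1]
      ring
    · intro h; exact absurd (Finset.mem_univ _) h
  simp only [h3]
  refine (Finset.abs_sum_le_sum_abs _ _).trans ?_
  rw [Finset.sum_div, Finset.sum_mul]
  refine Finset.sum_le_sum fun x _ => ?_
  rw [abs_mul]
  have e0 : eta x x = 0 := by unfold eta; simp
  have e2 : ∀ t : Bool, |∑ m ∈ R, (if m + us (x, t) ∈ R then
        1 * EE A R m (m + (us (x, t) + us (x, !t))) else 0) - TS A (· + eta x x) R| ≤ tl A a := by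
    intro t
    have e3 : us (x, t) + us (x, !t) = 0 := by
      rw [us_pair, e0, ite_self]
    rw [e3, e0, ← TS_eta hAdm, ← Finset.sum_sub_distrib]
    have e4 := edge_le hAdm a 0 (fun z => by simp)
      (fun m => if m + us (x, t) ∈ R then 0 else -1)
      (fun m => by split_ifs <;> norm_num)
      (fun m hm => by rw [if_pos (RM_add hm 1 (us_abs (x, t)))])
    have e5 : ∀ m ∈ R, (if m + us (x, t) ∈ R then 1 * EE A R m (m + 0) else 0) -
        EE A R m (m + 0) = (if m + us (x, t) ∈ R then 0 else -1) * EE A R m (m + 0) := by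
      intro m _
      split_ifs <;> ring
    rw [Finset.sum_congr rfl e5]
    exact e4
  rw [Fintype.sum_bool]
  have e6 := e2 true
  have e7 := e2 false
  have e8 : |f x / 2 * (f x / 2)| = f x ^ 2 / 4 := by
    rw [abs_of_nonneg (mul_self_nonneg _)]; ring
  rw [e8]
  set S1 := ∑ m ∈ R, (if m + us (x, true) ∈ R then
        1 * EE A R m (m + (us (x, true) + us (x, !true))) else 0)
  set S2 := ∑ m ∈ R, (if m + us (x, false) ∈ R then
        1 * EE A R m (m + (us (x, false) + us (x, !false))) else 0)
  have e9 : |S1 + S2 - 2 * TS A (· + eta x x) R| ≤ 2 * tl A a := by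
    have : S1 + S2 - 2 * TS A (· + eta x x) R =
        (S1 - TS A (· + eta x x) R) + (S2 - TS A (· + eta x x) R) := by ring
    rw [this]
    exact (abs_add_le _ _).trans (by linarith)
  nlinarith [sq_nonneg (f x)]

/-- The part of the double commutator coming from the potential energy. -/
theorem dc_pot {β U : ℝ} (hβ : 0 ≤ β) (hU : 0 ≤ U) {w : V → V → ℝ}
    (hw : ∀ x y, 0 ≤ w x y) (f : V → ℝ) (a : ℕ) :
    ∑ i : V × Bool, ∑ j : V × Bool, ∑ m ∈ RM V a, (if m + us j ∈ RM V a then
        f i.1 / 2 * (f j.1 / 2 * (β * (U * ∑ z, (((m + us j) z : ℤ) : ℝ) ^ 2) -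
          β * (U * ∑ z, ((m z : ℤ) : ℝ) ^ 2))) *
        EE (rotK β (U • (1 : Matrix V V ℝ)) w 0) (RM V a) m (m + us j + us i) else 0) ≤
      β * U / 2 * (∑ x, f x ^ 2) * TS (rotK β (U • (1 : Matrix V V ℝ)) w 0) id (RM V a) := by
  set A := rotK β (U • (1 : Matrix V V ℝ)) w 0 with hA
  have hAdm : Adm A := rotK_adm hβ _ hw 0
  set R := RM V a with hR
  have hD : ∀ (m : V → ℤ) (y : V) (t : Bool), (β * (U * ∑ z, (((m + us (y, t)) z : ℤ) : ℝ) ^ 2) -
          β * (U * ∑ z, ((m z : ℤ) : ℝ) ^ 2)) =
          β * U * ((if t then 2 * (m y : ℝ) else -(2 * (m y : ℝ))) + 1) := by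
    intro m y t
    have : ∑ z, (((m + us (y, t)) z : ℤ) : ℝ) ^ 2 = ∑ z, ((m z : ℤ) : ℝ) ^ 2 +
        ((if t then 2 * (m y : ℝ) else -(2 * (m y : ℝ))) + 1) := by
      rw [← sub_eq_iff_eq_add', ← Finset.sum_sub_distrib, Finset.sum_eq_single y]
      · unfold us
        cases t
        · simp; ring
        · simp; ring
      · intro z _ hz
        unfold us
        cases t
        · simp [Pi.single_eq_of_ne hz]
        · simp [Pi.single_eq_of_ne hz]
      · intro h; exact absurd (Finset.mem_univ _) h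
    rw [this]; ring
  have h1 : ∑ i : V × Bool, ∑ j : V × Bool, ∑ m ∈ R, (if m + us j ∈ R then
        f i.1 / 2 * (f j.1 / 2 * (β * (U * ∑ z, (((m + us j) z : ℤ) : ℝ) ^ 2) -
          β * (U * ∑ z, ((m z : ℤ) : ℝ) ^ 2))) *
        EE A R m (m + us j + us i) else 0) =
      ∑ x, ∑ y, (f x / 2 * (f y / 2)) * ∑ t : Bool, ∑ m ∈ R, (if m + us (y, t) ∈ R then
        (β * U * ((if t then 2 * (m y : ℝ) else -(2 * (m y : ℝ))) + 1)) *
          EE A R m (m + (us (y, t) + us (x, !t))) else 0) := by
    rw [hA, ← pair_sum R (fun x y => f x / 2 * (f y / 2)) (fun y t m =>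
      (β * U * ((if t then 2 * (m y : ℝ) else -(2 * (m y : ℝ))) + 1)))]
    refine Finset.sum_congr rfl fun i _ => Finset.sum_congr rfl fun j _ =>
      Finset.sum_congr rfl fun m _ => ?_
    obtain ⟨y, t⟩ := j
    rw [hD]
    split_ifs <;> ring
  rw [h1]
  have h2 : ∀ x, ∑ y, (f x / 2 * (f y / 2)) * ∑ t : Bool, ∑ m ∈ R, (if m + us (y, t) ∈ R then
        (β * U * ((if t then 2 * (m y : ℝ) else -(2 * (m y : ℝ))) + 1)) *
          EE A R m (m + (us (y, t) + us (x, !t))) else 0) =
      (f x / 2 * (f x / 2)) * ∑ t : Bool, ∑ m ∈ R, (if m + us (x, t) ∈ R then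
        (β * U * ((if t then 2 * (m x : ℝ) else -(2 * (m x : ℝ))) + 1)) *
          EE A R m (m + (us (x, t) + us (x, !t))) else 0) := by
    intro x
    refine Finset.sum_eq_single x (fun y _ hy => ?_) (fun h => absurd (Finset.mem_univ _) h)
    have hxy : x ≠ y := fun h => hy h.symm
    rw [Fintype.sum_bool, pair_ne a hxy true, pair_ne a hxy false, us_pair, us_pair]
    simp only [if_true, Bool.false_eq_true, if_false]
    have e1 := shift_reindex (A := A) R (eta x y)
      (fun m => β * U * (-(2 * (m y : ℝ)) + 1))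
    rw [e1]
    have e2 : ∀ n : V → ℤ, β * U * (-(2 * (((n - eta x y) y : ℤ) : ℝ)) + 1) =
        - (β * U * (2 * (n y : ℝ) + 1)) := by
      intro n
      have : eta x y y = -1 := by
        unfold eta
        rw [Pi.sub_apply, Pi.single_eq_same, Pi.single_eq_of_ne hxy.symm]; ring
      rw [Pi.sub_apply, this]
      push_cast
      ring
    simp only [e2]
    have e3 : ∀ n : V → ℤ, EE A R (n - eta x y) n = EE A R n (n + eta y x) := by
      intro n
      rw [EE_symm hAdm, eta_neg x y, sub_eq_add_neg]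
    simp only [e3, neg_mul, Finset.sum_neg_distrib]
    ring
  simp only [h2]
  rw [Finset.mul_sum, Finset.sum_mul]
  refine Finset.sum_le_sum fun x _ => ?_
  have e0 : eta x x = 0 := by unfold eta; simp
  have h3 : ∑ t : Bool, ∑ m ∈ R, (if m + us (x, t) ∈ R then
        (β * U * ((if t then 2 * (m x : ℝ) else -(2 * (m x : ℝ))) + 1)) *
          EE A R m (m + (us (x, t) + us (x, !t))) else 0) ≤ 2 * (β * U) * TS A id R := by
    rw [Finset.sum_comm]
    unfold TS
    rw [Finset.mul_sum]
    refine Finset.sum_le_sum fun m hm => ?_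
    rw [Fintype.sum_bool, us_pair, us_pair, e0, ite_self, ite_self, add_zero]
    simp only [if_true, Bool.false_eq_true, if_false, id]
    have hE := EE_nonneg hAdm R m m
    have hbU : 0 ≤ β * U := mul_nonneg hβ hU
    have hmR := (mem_RM a m).1 hm x
    have hin : ∀ t : Bool, (m + us (x, t) ∈ R) ↔ (if t then m x + 1 ≤ a else -(a:ℤ) ≤ m x - 1) := by
      intro t
      rw [hR, mem_RM]
      have hm' := (mem_RM a m).1 hm
      constructor
      · intro h
        have := h x
        unfold us at this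
        cases t
        · simp at this ⊢
          omega
        · simp at this ⊢
          omega
      · intro h z
        by_cases hz : z = x
        · subst hz
          unfold us
          cases t
          · simp at h ⊢
            omega
          · simp at h ⊢
            omega
        · have := hm' z
          unfold us
          cases t
          · simp [Pi.single_eq_of_ne hz]; exact this
          · simp [Pi.single_eq_of_ne hz]; exact this
    have h4 := hin true
    have h5 := hin false
    simp only [if_true, Bool.false_eq_true, if_false] at h4 h5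
    have ha0 : (0:ℤ) ≤ a := Int.natCast_nonneg a
    by_cases c1 : m + us (x, true) ∈ R
    · by_cases c2 : m + us (x, false) ∈ R
      · rw [if_pos c1, if_pos c2]
        apply le_of_eq
        ring
      · rw [if_pos c1, if_neg c2, add_zero]
        have : m x ≤ 0 := by
          have : ¬ (-(a:ℤ) ≤ m x - 1) := fun h => c2 (h5.2 h)
          omega
        have h6 : (m x : ℝ) ≤ 0 := by exact_mod_cast this
        have h7 : 0 ≤ β * U * EE A R m m := mul_nonneg hbU hE
        nlinarith
    · by_cases c2 : m + us (x, false) ∈ R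
      · rw [if_neg c1, if_pos c2, zero_add]
        have : 0 ≤ m x := by
          have : ¬ (m x + 1 ≤ (a:ℤ)) := fun h => c1 (h4.2 h)
          omega
        have h6 : (0:ℝ) ≤ m x := by exact_mod_cast this
        have h7 : 0 ≤ β * U * EE A R m m := mul_nonneg hbU hE
        nlinarith
      · rw [if_neg c1, if_neg c2]
        have h7 : 0 ≤ β * U * EE A R m m := mul_nonneg hbU hE
        nlinarith
  calc (f x / 2 * (f x / 2)) * _ ≤ (f x / 2 * (f x / 2)) * (2 * (β * U) * TS A id R) :=
        mul_le_mul_of_nonneg_left h3 (mul_self_nonneg _)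
    _ = _ := by ring

end Pool.Agent.H993.TR
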