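import Mathlib
import Pool.Agent.H993.TR.IRb
import Pool.Agent.H993.TR.FB

/-!
# The double commutator and the infrared bound without cut-off
-/

namespace Pool.Agent.H993.TR

open Filter Topology NormedSpace Matrix

variable {V : Type} [Fintype V] [DecidableEq V]

theorem comm_exp {n : Type} [Fintype n] [DecidableEq n] (G : Matrix n n ℝ) :
    exp G * G = G * exp G := by
  let := Matrix.linftyOpNormedRing (n := n) (α := ℝ)
  let := Matrix.linftyOpNormedAlgebra (n := n) (α := ℝ) (R := ℝ)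
  let : NormedAlgebra ℚ (Matrix n n ℝ) := NormedAlgebra.restrictScalars ℚ ℝ _
  exact ((Commute.refl G).exp_right).eq.symm

theorem dcm_eq {n : Type} [Fintype n] [DecidableEq n] (G C : Matrix n n ℝ) :
    dcm G C = 2 * (C * (C * G - G * C) * exp G).trace := by
  unfold dcm
  have e1 : (G * (C * C) * exp G).trace = (C * C * G * exp G).trace := by
    rw [Matrix.mul_assoc, Matrix.trace_mul_comm, Matrix.mul_assoc (C * C), comm_exp,
      ← Matrix.mul_assoc]
  rw [Matrix.sub_mul, Matrix.add_mul, Matrix.trace_sub, Matrix.trace_add, e1,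
    Matrix.smul_mul, Matrix.trace_smul, Matrix.mul_sub, Matrix.sub_mul, Matrix.trace_sub]
  have e2 : C * (C * G) = C * C * G := (Matrix.mul_assoc _ _ _).symm
  have e3 : C * (G * C) = C * G * C := (Matrix.mul_assoc _ _ _).symm
  rw [e2, e3, smul_eq_mul]
  ring

/-- The shifts of the hopping terms. -/
def hs (p : (V × V) × Bool) : V → ℤ := if p.2 then eta p.1.1 p.1.2 else - eta p.1.1 p.1.2

theorem hs_abs (p : (V × V) × Bool) (z : V) : |hs p z| ≤ ((1 : ℕ) : ℤ) := by
  unfold hs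
  obtain ⟨p, b⟩ := p
  cases b
  · simpa using eta_abs p.1 p.2 z
  · simpa using eta_abs p.1 p.2 z

theorem hop_eq_sk (β : ℝ) (w : V → V → ℝ) (n m : V → ℤ) :
    β * ∑ x, ∑ y, w x y * cosK x y n m =
      sk (fun (p : (V × V) × Bool) _ => β * w p.1.1 p.1.2 / 2) hs n m := by
  unfold sk hs
  rw [Fintype.sum_prod_type, Fintype.sum_prod_type, Finset.mul_sum]
  refine Finset.sum_congr rfl fun x _ => ?_
  rw [Finset.mul_sum]
  refine Finset.sum_congr rfl fun y _ => ?_
  rw [Fintype.sum_bool]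
  simp only [if_true, Bool.false_eq_true, if_false]
  have h : (m = n + eta x y) ↔ (n = m + -eta x y) := by
    constructor
    · intro h; rw [h]; abel
    · intro h; rw [h]; abel
  unfold cosK
  simp only [h]
  split_ifs <;> ring

theorem comm_G (β U : ℝ) (w : V → V → ℝ) (f : V → ℝ) (R : Finset (V → ℤ)) :
    mt (ck f) R * mt (rotK β (U • (1 : Matrix V V ℝ)) w 0) R -
      mt (rotK β (U • (1 : Matrix V V ℝ)) w 0) R * mt (ck f) R =
    mt (sk (fun (j : V × Bool) m => f j.1 / 2 * (β * (U * ∑ z, (((m + us j) z : ℤ) : ℝ) ^ 2) -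
          β * (U * ∑ z, ((m z : ℤ) : ℝ) ^ 2))) us) R +
    mt (sk (fun (p : (V × Bool) × ((V × V) × Bool)) m =>
        f p.1.1 / 2 * (β * w p.2.1.1 p.2.1.2 / 2) * ((if m + hs p.2 ∈ R then 1 else 0) -
      (if m + us p.1 ∈ R then 1 else 0))) (fun p => us p.1 + hs p.2)) R := by
  have h1 : mt (rotK β (U • (1 : Matrix V V ℝ)) w 0) R =
      diagonal (fun n : R => -(β * (U * ∑ z, ((n.1 z : ℤ) : ℝ) ^ 2))) +
      mt (sk (fun (p : (V × V) × Bool) _ => β * w p.1.1 p.1.2 / 2) hs) R := by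
    ext n m
    rw [Matrix.add_apply]
    have h2 := hop_eq_sk β w n m
    unfold mt rotK
    rw [h2]
    congr 1
    rw [Matrix.diagonal_apply]
    by_cases h : n = m
    · subst h
      rw [if_pos rfl, if_pos rfl, pot_neutral]
    · rw [if_neg h, if_neg fun h' => h (Subtype.ext h')]
  rw [h1, Matrix.mul_add, Matrix.add_mul]
  have h3 := comm_sk R (fun i : V × Bool => f i.1 / 2) us
    (fun (p : (V × V) × Bool) => β * w p.1.1 p.1.2 / 2) hs
  rw [← ck_eq_sk] at h3
  rw [← h3]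
  have h4 : mt (ck f) R * diagonal (fun n : R => -(β * (U * ∑ z, ((n.1 z : ℤ) : ℝ) ^ 2))) -
      diagonal (fun n : R => -(β * (U * ∑ z, ((n.1 z : ℤ) : ℝ) ^ 2))) * mt (ck f) R =
      mt (sk (fun (j : V × Bool) m => f j.1 / 2 * (β * (U * ∑ z, (((m + us j) z : ℤ) : ℝ) ^ 2) -
          β * (U * ∑ z, ((m z : ℤ) : ℝ) ^ 2))) us) R := by
    ext n m
    rw [Matrix.sub_apply, Matrix.mul_diagonal, Matrix.diagonal_mul]
    unfold mt
    rw [ck_eq_sk]
    unfold sk
    have hgen : ∀ (F : V × Bool → ℝ) (a b : ℝ),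
        (∑ i, F i) * a - b * ∑ i, F i = ∑ i, F i * (a - b) := by
      intro F a b
      rw [Finset.sum_mul, Finset.mul_sum, ← Finset.sum_sub_distrib]
      exact Finset.sum_congr rfl fun i _ => by ring
    rw [hgen]
    refine Finset.sum_congr rfl fun j _ => ?_
    by_cases h : (n : V → ℤ) = m + us j
    · rw [if_pos h, if_pos h, h]
      ring
    · rw [if_neg h, if_neg h]
      ring
  rw [← h4]
  abel

/-- The constant in front of the boundary term. -/
noncomputable def Kc (β : ℝ) (w : V → V → ℝ) (f : V → ℝ) : ℝ :=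
  ∑ i : V × Bool, ∑ p : (V × Bool) × ((V × V) × Bool),
    |f i.1 / 2 * (f p.1.1 / 2 * (β * w p.2.1.1 p.2.1.2 / 2))|

theorem dcm_box {β U : ℝ} (hβ : 0 ≤ β) (hU : 0 ≤ U) {w : V → V → ℝ}
    (hw : ∀ x y, 0 ≤ w x y) (f : V → ℝ) (a : ℕ) :
    dcm (mt (rotK β (U • (1 : Matrix V V ℝ)) w 0) (RM V (a + 4))) (mt (ck f) (RM V (a + 4))) ≤
      β * U * (∑ x, f x ^ 2) * TS (rotK β (U • (1 : Matrix V V ℝ)) w 0) id (RM V (a + 4)) +
      2 * Kc β w f * tl (rotK β (U • (1 : Matrix V V ℝ)) w 0) a := by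
  have hpot := dc_pot hβ hU hw f (a + 4)
  set A := rotK β (U • (1 : Matrix V V ℝ)) w 0 with hA
  have hAdm : Adm A := rotK_adm hβ _ hw 0
  set R := RM V (a + 4) with hR
  rw [dcm_eq, comm_G, Matrix.mul_add, Matrix.add_mul, Matrix.trace_add]
  conv_lhs => rw [ck_eq_sk]
  rw [trace_sk, trace_sk]
  have h2 : ∑ i : V × Bool, ∑ p : (V × Bool) × ((V × V) × Bool), ∑ m ∈ R,
      (if m + (us p.1 + hs p.2) ∈ R then
        f i.1 / 2 * (f p.1.1 / 2 * (β * w p.2.1.1 p.2.1.2 / 2) *
          ((if m + hs p.2 ∈ R then 1 else 0) - (if m + us p.1 ∈ R then 1 else 0))) *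
          EE A R m (m + (us p.1 + hs p.2) + us i) else 0) ≤ Kc β w f * tl A a := by
    unfold Kc
    rw [Finset.sum_mul]
    refine Finset.sum_le_sum fun i _ => ?_
    rw [Finset.sum_mul]
    refine Finset.sum_le_sum fun p _ => ?_
    have e1 := edge_le hAdm a ((us p.1 + hs p.2) + us i) (fun z => by
        have h1 := us_abs p.1 z
        have h2 := hs_abs p.2 z
        have h3 := us_abs i z
        rw [Pi.add_apply, Pi.add_apply]
        push_cast at h1 h2 h3 ⊢
        rw [abs_le] at h1 h2 h3 ⊢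
        constructor <;> linarith [h1.1, h1.2, h2.1, h2.2, h3.1, h3.2])
      (fun m => if m + (us p.1 + hs p.2) ∈ R then
        ((if m + hs p.2 ∈ R then 1 else 0) - (if m + us p.1 ∈ R then 1 else 0)) else 0)
      (fun m => by split_ifs <;> norm_num)
      (fun m hm => by
        have h1 : m + hs p.2 ∈ R := RM_add hm 1 (hs_abs p.2)
        have h2 : m + us p.1 ∈ R := RM_add hm 1 (us_abs p.1)
        rw [if_pos h1, if_pos h2, sub_self, ite_self])
    have e2 : ∑ m ∈ R, (if m + (us p.1 + hs p.2) ∈ R then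
        f i.1 / 2 * (f p.1.1 / 2 * (β * w p.2.1.1 p.2.1.2 / 2) *
          ((if m + hs p.2 ∈ R then 1 else 0) - (if m + us p.1 ∈ R then 1 else 0))) *
          EE A R m (m + (us p.1 + hs p.2) + us i) else 0) =
        (f i.1 / 2 * (f p.1.1 / 2 * (β * w p.2.1.1 p.2.1.2 / 2))) *
        ∑ m ∈ R, (if m + (us p.1 + hs p.2) ∈ R then
        ((if m + hs p.2 ∈ R then 1 else 0) - (if m + us p.1 ∈ R then 1 else 0)) else 0) *
          EE A R m (m + ((us p.1 + hs p.2) + us i)) := by
      rw [Finset.mul_sum]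
      refine Finset.sum_congr rfl fun m _ => ?_
      rw [add_assoc m]
      split_ifs <;> ring
    rw [e2]
    refine (le_abs_self _).trans ?_
    rw [abs_mul]
    exact mul_le_mul_of_nonneg_left e1 (abs_nonneg _)
  have h3 : ∀ x y z : ℝ, x ≤ z → y ≤ Kc β w f * tl A a → 2 * (x + y) ≤
      2 * z + 2 * Kc β w f * tl A a := by
    intro x y z h1 h2
    linarith
  refine (h3 _ _ _ hpot h2).trans (le_of_eq ?_)
  ring

/-- The boxes exhaust the configurations. -/
theorem RM_tendsto : Tendsto (fun a : ℕ => RM V (a + 4)) atTop atTop := by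
  refine tendsto_atTop.2 fun R => ?_
  obtain ⟨M, hM⟩ : ∃ M : ℕ, ∀ n ∈ R, ∀ x, |n x| ≤ (M : ℤ) := by
    refine ⟨∑ n ∈ R, ∑ x, (n x).natAbs, fun n hn x => ?_⟩
    have h2 : (n x).natAbs ≤ ∑ n ∈ R, ∑ x, (n x).natAbs := by
      calc (n x).natAbs ≤ ∑ x, (n x).natAbs :=
            Finset.single_le_sum (f := fun x => (n x).natAbs) (fun _ _ => Nat.zero_le _)
              (Finset.mem_univ x)
        _ ≤ _ := Finset.single_le_sum (f := fun n : V → ℤ => ∑ x, (n x).natAbs)
            (fun _ _ => Nat.zero_le _) hn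
    rw [Int.abs_eq_natAbs]
    exact_mod_cast h2
  filter_upwards [eventually_ge_atTop M] with a ha
  intro n hn
  rw [mem_RM]
  intro x
  have h1 := abs_le.1 (hM n hn x)
  have h2 : (M : ℤ) ≤ a := by exact_mod_cast ha
  push_cast
  constructor <;> linarith [h1.1, h1.2]

theorem RM_tendsto0 : Tendsto (fun a : ℕ => RM V a) atTop atTop :=
  (tendsto_add_atTop_iff_nat 4).1 RM_tendsto

theorem tl_tendsto {A : (V → ℤ) → (V → ℤ) → ℝ} (hA : Adm A) (hB : Bdd A) :
    Tendsto (tl A) atTop (𝓝 0) := by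
  have h1 := (TS_tendsto hA hB Function.injective_id).comp (RM_tendsto (V := V))
  have h2 := (TS_tendsto hA hB Function.injective_id).comp (RM_tendsto0 (V := V))
  have h3 := h1.sub h2
  rw [sub_self] at h3
  exact squeeze_zero (fun a => tl_nonneg hA a) (fun a => tl_le hA a) h3

/-- The infrared bound at positive temperature, for rotors at the neutral point, without cut-off. -/
theorem ir_inf {β U : ℝ} (hβ : 0 < β) (hU : 0 < U) {w : V → V → ℝ} (hw0 : ∀ x, w x x = 0)
    (hw : ∀ x y, 0 ≤ w x y)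
    (hrefl : ∀ x y, wg β w x y ≠ 0 → ∃ R σ, IsRefl (wg β w) R σ ∧ R x = y)
    {f : V → ℝ} {l : ℝ} (hl : 0 < l) (hf : ∀ x, ∑ y, wg β w x y * (f x - f y) = l * f x) :
    ∑ x, ∑ y, f x * f y * TI (rotK β (U • (1 : Matrix V V ℝ)) w 0) (· + eta x y) ≤
      (2 / l + Real.sqrt (β * U / l)) * (∑ x, f x ^ 2) *
        TI (rotK β (U • (1 : Matrix V V ℝ)) w 0) id := by
  have hpd : (U • (1 : Matrix V V ℝ)).PosDef := Matrix.PosDef.one.smul hU
  set A := rotK β (U • (1 : Matrix V V ℝ)) w 0 with hA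
  have hAdm : Adm A := rotK_adm hβ.le _ hw 0
  have hB : Bdd A := rotK_bdd' hβ hpd hw 0
  set S := ∑ x, f x ^ 2 with hS
  have hS0 : 0 ≤ S := Finset.sum_nonneg fun _ _ => sq_nonneg _
  have hσ : ∀ x y : V, Function.Injective (fun n : V → ℤ => n + eta x y) :=
    fun x y => add_left_injective _
  have key : ∀ a : ℕ, (∑ x, ∑ y, f x * f y * TS A (· + eta x y) (RM V (a + 4))) / 2 -
      S / 2 * tl A a ≤ S / l * TS A id (RM V (a + 4)) +
        Real.sqrt (S / l * TS A id (RM V (a + 4)) * (β * U * S * TS A id (RM V (a + 4)) +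
          2 * Kc β w f * tl A a)) / 2 := by
    intro a
    have h1 := (abs_le.1 (trace_CC hβ.le (K := U • (1 : Matrix V V ℝ)) hw (ν := 0) f a)).1
    obtain ⟨h2, h3, h4⟩ := falk_bruch (mt A (RM V (a + 4))) (mt (ck f) (RM V (a + 4)))
      (mt_symm hAdm _) (ck_symm f _)
    have h5 := duh_box (U := U) hw0 hβ.le hw hrefl hl hf (a + 4)
    have h6 := dcm_box hβ.le hU.le hw f a
    have h7 : duh (mt A (RM V (a + 4))) (mt (ck f) (RM V (a + 4))) 0 *
        dcm (mt A (RM V (a + 4))) (mt (ck f) (RM V (a + 4))) ≤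
        S / l * TS A id (RM V (a + 4)) * (β * U * S * TS A id (RM V (a + 4)) +
          2 * Kc β w f * tl A a) := by
      refine mul_le_mul h5 h6 h3 ?_
      exact mul_nonneg (div_nonneg hS0 hl.le) (TS_nonneg hAdm _ _)
    have h8 := Real.sqrt_le_sqrt h7
    linarith
  have hlim1 : Tendsto (fun a : ℕ => (∑ x, ∑ y, f x * f y * TS A (· + eta x y) (RM V (a + 4))) / 2 -
      S / 2 * tl A a) atTop (𝓝 ((∑ x, ∑ y, f x * f y * TI A (· + eta x y)) / 2 - S / 2 * 0)) := by
    refine Tendsto.sub (Tendsto.div_const ?_ _) ((tl_tendsto hAdm hB).const_mul _)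
    refine tendsto_finsetSum _ fun x _ => tendsto_finsetSum _ fun y _ => ?_
    exact ((TS_tendsto hAdm hB (hσ x y)).comp RM_tendsto).const_mul _
  have hZ : Tendsto (fun a : ℕ => TS A id (RM V (a + 4))) atTop (𝓝 (TI A id)) :=
    (TS_tendsto hAdm hB Function.injective_id).comp RM_tendsto
  have hlim2 : Tendsto (fun a : ℕ => S / l * TS A id (RM V (a + 4)) +
        Real.sqrt (S / l * TS A id (RM V (a + 4)) * (β * U * S * TS A id (RM V (a + 4)) +
          2 * Kc β w f * tl A a)) / 2) atTop (𝓝 (S / l * TI A id +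
        Real.sqrt (S / l * TI A id * (β * U * S * TI A id +
          2 * Kc β w f * 0)) / 2)) := by
    refine Tendsto.add (hZ.const_mul _) (Tendsto.div_const ?_ _)
    refine (Real.continuous_sqrt.tendsto _).comp ?_
    exact (hZ.const_mul _).mul ((hZ.const_mul _).add ((tl_tendsto hAdm hB).const_mul _))
  have hfin := le_of_tendsto_of_tendsto' hlim1 hlim2 key
  have hZ0 : 0 ≤ TI A id := (TI_pos hAdm hB).le
  have e1 : S / l * TI A id * (β * U * S * TI A id + 2 * Kc β w f * 0) =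
      (β * U / l) * (S * TI A id) ^ 2 := by ring
  rw [e1, Real.sqrt_mul (by positivity), Real.sqrt_sq (mul_nonneg hS0 hZ0)] at hfin
  have e2 : (2 / l + Real.sqrt (β * U / l)) * S * TI A id =
      2 * (S / l * TI A id + Real.sqrt (β * U / l) * (S * TI A id) / 2) := by ring
  rw [e2]
  linarith

end Pool.Agent.H993.TR
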