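import Mathlib
import Pool.Graph.R_pool_sql_team_seeded_63374d34.N615.QR_LAT

/-!
# The lattice sum of `1 / lam k` in at least three dimensions
-/

namespace Pool.Agent.H993.TR

open Pool.Agent.N657.QR Pool.Agent.N615.QRLAT

/-- The cube root. -/
noncomputable def cb (x : ℝ) : ℝ := x ^ ((1:ℝ) / 3)

theorem cb_pow {x : ℝ} (hx : 0 ≤ x) : cb x ^ 3 = x := by
  unfold cb
  rw [← Real.rpow_natCast, ← Real.rpow_mul hx]
  norm_num

theorem cb_nonneg {x : ℝ} (hx : 0 ≤ x) : 0 ≤ cb x := Real.rpow_nonneg hx _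

theorem cb_pos {x : ℝ} (hx : 0 < x) : 0 < cb x := Real.rpow_pos_of_pos hx _

theorem cb_mono {x y : ℝ} (hx : 0 ≤ x) (h : x ≤ y) : cb x ≤ cb y :=
  Real.rpow_le_rpow hx h (by norm_num)

theorem sum_cb (L : ℕ) : ∑ m ∈ Finset.range L, 1 / cb ((m : ℝ) + 1) ^ 2 ≤ 3 * cb L := by
  induction L with
  | zero => simp [cb]
  | succ L ih =>
    rw [Finset.sum_range_succ]
    push_cast
    have hL0 : (0:ℝ) ≤ L := Nat.cast_nonneg _
    have h1 : 0 < cb ((L : ℝ) + 1) := cb_pos (by positivity)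
    have h0 : 0 ≤ cb (L:ℝ) := cb_nonneg hL0
    have h2 : cb (L : ℝ) ≤ cb ((L : ℝ) + 1) := cb_mono hL0 (by linarith)
    have h3 : cb ((L : ℝ) + 1) ^ 3 = (L : ℝ) + 1 := cb_pow (by positivity)
    have h4 : cb (L : ℝ) ^ 3 = (L : ℝ) := cb_pow hL0
    set u := cb ((L : ℝ) + 1)
    set v := cb (L : ℝ)
    have h5 : 1 / u ^ 2 ≤ 3 * u - 3 * v := by
      rw [div_le_iff₀ (by positivity)]
      have h6 : (u - v) * (u ^ 2 + u * v + v ^ 2) = 1 := by
        have : (u - v) * (u ^ 2 + u * v + v ^ 2) = u ^ 3 - v ^ 3 := by ring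
        rw [this, h3, h4]; ring
      have h7 : u ^ 2 + u * v + v ^ 2 ≤ 3 * u ^ 2 := by nlinarith
      have h8 := mul_le_mul_of_nonneg_left h7 (sub_nonneg.2 h2)
      nlinarith
    linarith

section

variable {L : ℕ} [NeZero L]

theorem sum_mu3 : ∑ t : ZMod L, 1 / cb (1 + mu t) ^ 2 ≤ 6 * cb L := by
  have h1 : ∀ t : ZMod L, 1 / cb (1 + mu t) ^ 2 ≤
      1 / cb ((t.val : ℝ) + 1) ^ 2 + 1 / cb (((L - 1 - t.val : ℕ) : ℝ) + 1) ^ 2 := by
    intro t
    have hv := val_le t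
    have hlt := ZMod.val_lt t
    have e : ((L - 1 - t.val : ℕ) : ℝ) = (L : ℝ) - 1 - t.val := by
      rw [Nat.cast_sub (by omega), Nat.cast_sub (by omega)]
      push_cast
      ring
    have hv0 : (0 : ℝ) ≤ t.val := Nat.cast_nonneg _
    unfold mu
    rcases le_total (t.val : ℝ) ((L : ℝ) - t.val) with h | h
    · rw [min_eq_left h, add_comm (1 : ℝ)]
      have : 0 ≤ 1 / cb (((L - 1 - t.val : ℕ) : ℝ) + 1) ^ 2 := by positivity
      linarith
    · rw [min_eq_right h, e]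
      have h2 : 0 ≤ 1 / cb ((t.val : ℝ) + 1) ^ 2 := by positivity
      have hp : 0 < cb ((L : ℝ) - 1 - t.val + 1) := cb_pos (by linarith)
      have h3 : 1 / cb (1 + ((L : ℝ) - t.val)) ^ 2 ≤ 1 / cb ((L : ℝ) - 1 - t.val + 1) ^ 2 := by
        apply one_div_le_one_div_of_le (by positivity)
        exact pow_le_pow_left₀ hp.le (cb_mono (by linarith) (by linarith)) 2
      linarith
  calc ∑ t : ZMod L, 1 / cb (1 + mu t) ^ 2 ≤
        ∑ t : ZMod L, (1 / cb ((t.val : ℝ) + 1) ^ 2 +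
          1 / cb (((L - 1 - t.val : ℕ) : ℝ) + 1) ^ 2) := Finset.sum_le_sum fun t _ => h1 t
    _ = ∑ m ∈ Finset.range L, 1 / cb ((m : ℝ) + 1) ^ 2 +
          ∑ m ∈ Finset.range L, 1 / cb (((L - 1 - m : ℕ) : ℝ) + 1) ^ 2 := by
        rw [Finset.sum_add_distrib, sum_val (fun m => 1 / cb ((m : ℝ) + 1) ^ 2),
          sum_val (fun m => 1 / cb (((L - 1 - m : ℕ) : ℝ) + 1) ^ 2)]
    _ = ∑ m ∈ Finset.range L, 1 / cb ((m : ℝ) + 1) ^ 2 +
          ∑ m ∈ Finset.range L, 1 / cb ((m : ℝ) + 1) ^ 2 := by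
        rw [Finset.sum_range_reflect (fun m => 1 / cb ((m : ℝ) + 1) ^ 2) L]
    _ ≤ 6 * cb L := by
        have := sum_cb L
        linarith

variable {d : ℕ}

/-- The bound for one momentum. -/
theorem one_k3 {i₀ i₁ i₂ : Fin d} (h01 : i₀ ≠ i₁) (h02 : i₀ ≠ i₂) (h12 : i₁ ≠ i₂)
    {k : Fin d → ZMod L} (hk : k ≠ 0) :
    1 / lam k ≤ 1 / 6 * ((cb L ^ 2 / cb (1 + mu (k i₀)) ^ 2) *
      (cb L ^ 2 / cb (1 + mu (k i₁)) ^ 2) * (cb L ^ 2 / cb (1 + mu (k i₂)) ^ 2)) := by
  have hL : (0 : ℝ) < L := by exact_mod_cast Nat.pos_of_ne_zero (NeZero.ne L)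
  set a := mu (k i₀) with ha
  set b := mu (k i₁) with hb
  set c := mu (k i₂) with hc
  have ha0 : 0 ≤ a := mu_nn _
  have hb0 : 0 ≤ b := mu_nn _
  have hc0 : 0 ≤ c := mu_nn _
  set S := ∑ i, mu (k i) ^ 2 with hS
  have h1 : 16 * S / L ^ 2 ≤ lam k := by
    unfold lam
    rw [hS, Finset.mul_sum, Finset.sum_div]
    apply Finset.sum_le_sum
    intro i _
    have hv := val_le (k i)
    exact cos_bd hL (Nat.cast_nonneg _) (by linarith)
  have h2 : 1 ≤ S := by
    obtain ⟨i, hi'⟩ := Function.ne_iff.1 hk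
    have h3 : mu (k i) ^ 2 ≤ S :=
      Finset.single_le_sum (f := fun i => mu (k i) ^ 2) (fun j _ => sq_nonneg _)
        (Finset.mem_univ i)
    have h4 := mu_one (show k i ≠ 0 from hi')
    nlinarith
  have h3 : a ^ 2 + b ^ 2 + c ^ 2 ≤ S := by
    have h4 : ∑ i ∈ ({i₀, i₁, i₂} : Finset (Fin d)), mu (k i) ^ 2 ≤ S :=
      Finset.sum_le_sum_of_subset_of_nonneg (Finset.subset_univ _) (fun j _ _ => sq_nonneg _)
    rw [Finset.sum_insert (by simp [h01, h02]), Finset.sum_pair h12] at h4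
    linarith
  set p := cb (1 + a) ^ 2 with hp
  set q := cb (1 + b) ^ 2 with hq
  set r := cb (1 + c) ^ 2 with hr
  have hp0 : 0 < p := by have := cb_pos (x := 1 + a) (by linarith); positivity
  have hq0 : 0 < q := by have := cb_pos (x := 1 + b) (by linarith); positivity
  have hr0 : 0 < r := by have := cb_pos (x := 1 + c) (by linarith); positivity
  have hp3 : p ^ 3 = (1 + a) ^ 2 := by
    rw [hp, ← pow_mul, mul_comm 2 3, pow_mul, cb_pow (by linarith)]
  have hq3 : q ^ 3 = (1 + b) ^ 2 := by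
    rw [hq, ← pow_mul, mul_comm 2 3, pow_mul, cb_pow (by linarith)]
  have hr3 : r ^ 3 = (1 + c) ^ 2 := by
    rw [hr, ← pow_mul, mul_comm 2 3, pow_mul, cb_pow (by linarith)]
  have hag : 3 * (p * q * r) ≤ p ^ 3 + q ^ 3 + r ^ 3 := by
    have : p ^ 3 + q ^ 3 + r ^ 3 - 3 * (p * q * r) =
        (p + q + r) * ((p - q) ^ 2 + (q - r) ^ 2 + (r - p) ^ 2) / 2 := by ring
    have h5 : 0 ≤ (p + q + r) * ((p - q) ^ 2 + (q - r) ^ 2 + (r - p) ^ 2) / 2 := by positivity
    linarith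
  rw [hp3, hq3, hr3] at hag
  have h4 : 3 * (p * q * r) ≤ 8 * S := by
    nlinarith [sq_nonneg (a - 1), sq_nonneg (b - 1), sq_nonneg (c - 1)]
  have h5 : 6 * (p * q * r) / L ^ 2 ≤ lam k := by
    refine le_trans ?_ h1
    apply div_le_div_of_nonneg_right _ (by positivity)
    linarith
  have h7 : 0 < 6 * (p * q * r) / L ^ 2 := by positivity
  have hcL : cb (L:ℝ) ^ 2 * cb (L:ℝ) ^ 2 * cb (L:ℝ) ^ 2 = (L:ℝ) ^ 2 := by
    calc cb (L:ℝ) ^ 2 * cb (L:ℝ) ^ 2 * cb (L:ℝ) ^ 2 = (cb (L:ℝ) ^ 3) ^ 2 := by ring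
      _ = _ := by rw [cb_pow hL.le]
  calc 1 / lam k ≤ 1 / (6 * (p * q * r) / L ^ 2) := one_div_le_one_div_of_le h7 h5
    _ = 1 / 6 * ((L:ℝ) ^ 2 / (p * q * r)) := by
        field_simp
    _ = 1 / 6 * ((cb L ^ 2 / p) * (cb L ^ 2 / q) * (cb L ^ 2 / r)) := by
        rw [← hcL]
        field_simp

end

/-- In at least three dimensions the lattice sum of `1 / lam k` is of the order of the volume. -/
theorem lat_three (d : ℕ) (hd : 3 ≤ d) (L : ℕ) [NeZero L] :
    ∑ k ∈ (Finset.univ : Finset (Fin d → ZMod L)).erase 0, 1 / lam k ≤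
      36 * (Fintype.card (Fin d → ZMod L) : ℝ) := by
  have hL : (0 : ℝ) < L := by exact_mod_cast Nat.pos_of_ne_zero (NeZero.ne L)
  let i₀ : Fin d := ⟨0, by omega⟩
  let i₁ : Fin d := ⟨1, by omega⟩
  let i₂ : Fin d := ⟨2, by omega⟩
  have h01 : i₀ ≠ i₁ := by
    intro h
    have := congrArg Fin.val h
    simp [i₀, i₁] at this
  have h02 : i₀ ≠ i₂ := by
    intro h
    have := congrArg Fin.val h
    simp [i₀, i₂] at this
  have h12 : i₁ ≠ i₂ := by
    intro h
    have := congrArg Fin.val h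
    simp [i₁, i₂] at this
  set h : ZMod L → ℝ := fun t => cb L ^ 2 / cb (1 + mu t) ^ 2 with hh
  have hpos : ∀ t, 0 ≤ h t := fun t => by
    simp only [hh]
    positivity
  set F : Fin d → ZMod L → ℝ := fun i t => (if i = i₀ then h t else 1) *
    (if i = i₁ then h t else 1) * (if i = i₂ then h t else 1) with hF
  have hFnn : ∀ i t, 0 ≤ F i t := by
    intro i t
    simp only [hF]
    refine mul_nonneg (mul_nonneg ?_ ?_) ?_ <;> split_ifs <;>
      first | exact hpos t | exact zero_le_one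
  have hFprod : ∀ k : Fin d → ZMod L, ∏ i, F i (k i) = h (k i₀) * h (k i₁) * h (k i₂) := by
    intro k
    simp only [hF]
    rw [Finset.prod_mul_distrib, Finset.prod_mul_distrib,
      Finset.prod_ite_eq' Finset.univ i₀ (fun i => h (k i)),
      Finset.prod_ite_eq' Finset.univ i₁ (fun i => h (k i)),
      Finset.prod_ite_eq' Finset.univ i₂ (fun i => h (k i)), if_pos (Finset.mem_univ _),
      if_pos (Finset.mem_univ _), if_pos (Finset.mem_univ _)]
  have hsum_h : ∑ t, h t ≤ 6 * L := by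
    have h1 : ∑ t, h t = cb L ^ 2 * ∑ t : ZMod L, 1 / cb (1 + mu t) ^ 2 := by
      rw [Finset.mul_sum]
      refine Finset.sum_congr rfl fun t _ => ?_
      simp only [hh]
      ring
    rw [h1]
    calc cb L ^ 2 * ∑ t : ZMod L, 1 / cb (1 + mu t) ^ 2 ≤ cb L ^ 2 * (6 * cb L) :=
          mul_le_mul_of_nonneg_left sum_mu3 (by positivity)
      _ = 6 * (cb L ^ 3) := by ring
      _ = 6 * L := by rw [cb_pow hL.le]
  have hone : ∑ _t : ZMod L, (1 : ℝ) = L := by
    rw [Finset.sum_const, Finset.card_univ, ZMod.card, nsmul_eq_mul, mul_one]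
  set c : Fin d → ℝ := fun i => (if i = i₀ then 6 else 1) * (if i = i₁ then 6 else 1) *
    (if i = i₂ then 6 else 1) with hc
  have hFsum : ∀ i, ∑ t, F i t ≤ c i * L := by
    intro i
    simp only [hF, hc]
    by_cases h0 : i = i₀
    · have h1 : ¬ i = i₁ := fun h' => h01 (h0.symm.trans h')
      have h2 : ¬ i = i₂ := fun h' => h02 (h0.symm.trans h')
      simp only [if_pos h0, if_neg h1, if_neg h2, mul_one]
      exact hsum_h
    · by_cases h1 : i = i₁
      · have h2 : ¬ i = i₂ := fun h' => h12 (h1.symm.trans h')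
        simp only [if_neg h0, if_pos h1, if_neg h2, one_mul, mul_one]
        exact hsum_h
      · by_cases h2 : i = i₂
        · simp only [if_neg h0, if_neg h1, if_pos h2, one_mul]
          exact hsum_h
        · simp only [if_neg h0, if_neg h1, if_neg h2, mul_one, one_mul]
          exact hone.le
  have hcprod : ∏ i, c i = 216 := by
    simp only [hc]
    rw [Finset.prod_mul_distrib, Finset.prod_mul_distrib,
      Finset.prod_ite_eq' Finset.univ i₀ (fun _ => (6 : ℝ)),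
      Finset.prod_ite_eq' Finset.univ i₁ (fun _ => (6 : ℝ)),
      Finset.prod_ite_eq' Finset.univ i₂ (fun _ => (6 : ℝ)), if_pos (Finset.mem_univ _),
      if_pos (Finset.mem_univ _), if_pos (Finset.mem_univ _)]
    norm_num
  have hcard : (Fintype.card (Fin d → ZMod L) : ℝ) = (L : ℝ) ^ d := by
    rw [Fintype.card_fun, ZMod.card, Fintype.card_fin]
    push_cast
    rfl
  have hprod : ∑ k : Fin d → ZMod L, ∏ i, F i (k i) ≤ 216 * (L : ℝ) ^ d := by
    have h1 := Finset.prod_univ_sum (fun _ : Fin d => (Finset.univ : Finset (ZMod L))) F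
    rw [Fintype.piFinset_univ] at h1
    rw [← h1]
    calc ∏ i, ∑ t, F i t ≤ ∏ i, c i * L :=
          Finset.prod_le_prod (fun i _ => Finset.sum_nonneg fun t _ => hFnn i t)
            (fun i _ => hFsum i)
      _ = 216 * (L : ℝ) ^ d := by
          rw [Finset.prod_mul_distrib, hcprod, Finset.prod_const, Finset.card_univ,
            Fintype.card_fin]
  calc ∑ k ∈ (Finset.univ : Finset (Fin d → ZMod L)).erase 0, 1 / lam k ≤
        ∑ k ∈ (Finset.univ : Finset (Fin d → ZMod L)).erase 0, 1 / 6 * ∏ i, F i (k i) := by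
        apply Finset.sum_le_sum
        intro k hk
        rw [hFprod]
        exact one_k3 h01 h02 h12 (Finset.ne_of_mem_erase hk)
    _ ≤ ∑ k : Fin d → ZMod L, 1 / 6 * ∏ i, F i (k i) := by
        apply Finset.sum_le_sum_of_subset_of_nonneg (Finset.erase_subset _ _)
        intro k _ _
        have : 0 ≤ ∏ i, F i (k i) := Finset.prod_nonneg fun i _ => hFnn i _
        positivity
    _ = 1 / 6 * ∑ k : Fin d → ZMod L, ∏ i, F i (k i) := by rw [Finset.mul_sum]
    _ ≤ 1 / 6 * (216 * (L : ℝ) ^ d) := mul_le_mul_of_nonneg_left hprod (by norm_num)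
    _ = 36 * (Fintype.card (Fin d → ZMod L) : ℝ) := by rw [hcard]; ring

end Pool.Agent.H993.TR
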