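import Mathlib
import Pool.Graph.R_pool_sql_team_seeded_63374d34.N92.QR_GD0
import Pool.Agent.H993.TR.IRc
import Pool.Agent.H993.TR.Lat
import Pool.Agent.H993.TR.Four

/-!
# The torus: reflections, and condensation at the neutral point at positive temperature
-/

namespace Pool.Agent.H993.TR

open Filter Topology
open Pool.Agent.N657.QR (ee nnw rho side lap lam)
open Pool.Agent.N92.QR (rho_rho side_rho rho_shift val_neg)

variable {d L : ℕ} [NeZero L]

theorem rho_shift_other (i j : Fin d) (hij : j ≠ i) (c : ZMod L) (x : Fin d → ZMod L) :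
    rho i c (x + ee j) = rho i c x + ee j := by
  unfold rho ee
  funext z
  by_cases hz : z = i
  · subst hz
    simp [Pi.single_eq_of_ne hij.symm]
  · simp [Function.update_of_ne hz]

theorem side_shift_other (i j : Fin d) (hij : j ≠ i) (c : ZMod L) (x : Fin d → ZMod L) :
    side i c (x + ee j) = side i c x := by
  unfold side ee
  have : (x + (Pi.single j (1 : ZMod L) : Fin d → ZMod L)) i = x i := by
    simp [Pi.single_eq_of_ne hij.symm]
  rw [this]

theorem two_half (hL : Even L) : (2 : ZMod L) * ((L / 2 : ℕ) : ZMod L) = 0 := by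
  obtain ⟨m, hm⟩ := hL
  have h1 : L / 2 = m := by omega
  rw [h1]
  have h2 : ((m + m : ℕ) : ZMod L) = 0 := by rw [← hm]; exact ZMod.natCast_self L
  push_cast at h2
  rw [two_mul]
  exact h2

theorem cross_shift (hL : Even L) (i : Fin d) (c : ZMod L) (x : Fin d → ZMod L)
    (h : side i c x ≠ side i c (x + ee i)) : x + ee i = rho i c x := by
  have hL0 : 0 < L := Nat.pos_of_ne_zero (NeZero.ne L)
  obtain ⟨m, hm⟩ := id hL
  have hLm : L / 2 = m := by omega
  have h2 := two_half hL
  rw [hLm] at h2
  set t := x i - c with ht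
  have hxi : (x + (ee i : Fin d → ZMod L)) i - c = t + 1 := by
    unfold ee
    simp [ht]
    ring
  have hval : (t + 1).val = if t.val + 1 = L then 0 else t.val + 1 := by
    split_ifs with hc
    · have : t + 1 = 0 := by
        have h3 : ((t.val + 1 : ℕ) : ZMod L) = 0 := by rw [hc]; exact ZMod.natCast_self L
        push_cast at h3
        rwa [ZMod.natCast_zmod_val] at h3
      rw [this, ZMod.val_zero]
    · have hlt : t.val + 1 < L := by
        have := ZMod.val_lt t
        omega
      have h3 : t + 1 = ((t.val + 1 : ℕ) : ZMod L) := by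
        push_cast
        rw [ZMod.natCast_zmod_val]
      rw [h3, ZMod.val_cast_of_lt hlt]
  have key : 2 * (t + 1) = 0 := by
    unfold side at h
    rw [hxi, hLm, ← ht, hval] at h
    by_cases hc : t.val + 1 = L
    · have : t + 1 = 0 := by
        have h3 : ((t.val + 1 : ℕ) : ZMod L) = 0 := by rw [hc]; exact ZMod.natCast_self L
        push_cast at h3
        rwa [ZMod.natCast_zmod_val] at h3
      rw [this, mul_zero]
    · rw [if_neg hc] at h
      have h4 : t.val + 1 = m := by
        by_contra hne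
        apply h
        by_cases h5 : t.val < m
        · have h6 : t.val + 1 < m := by omega
          simp [h5, h6]
        · have h6 : ¬ t.val + 1 < m := by omega
          simp [h5, h6]
      have h5 : t + 1 = (m : ZMod L) := by
        rw [← h4]
        push_cast
        rw [ZMod.natCast_zmod_val]
      rw [h5]
      exact h2
  unfold rho ee
  funext z
  by_cases hz : z = i
  · subst hz
    simp only [Pi.add_apply, Pi.single_eq_same, Function.update_self]
    have : x z = t + c := by rw [ht]; ring
    rw [this]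
    linear_combination key
  · simp [Function.update_of_ne hz, Pi.single_eq_of_ne hz]

theorem nnw_ne (J : ℝ) (x y : Fin d → ZMod L) (h : nnw J x y ≠ 0) : ∃ i, y = x + ee i := by
  by_contra hne
  apply h
  unfold nnw
  refine Finset.sum_eq_zero fun i _ => ?_
  rw [if_neg]
  exact fun hh => hne ⟨i, hh⟩

/-- The symmetrised hopping is invariant under the reflections. -/
theorem wg_rho (J β : ℝ) (i : Fin d) (c : ZMod L) (x y : Fin d → ZMod L) :
    wg β (nnw J) (rho i c x) (rho i c y) = wg β (nnw J) x y := by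
  unfold wg nnw
  congr 1
  rw [← Finset.sum_add_distrib, ← Finset.sum_add_distrib]
  refine Finset.sum_congr rfl fun j _ => ?_
  by_cases hj : j = i
  · subst hj
    have e : ∀ a b : Fin d → ZMod L, (rho j c b = rho j c a + ee j) ↔ (a = b + ee j) := by
      intro a b
      constructor
      · intro h
        have h1 := rho_shift j c (rho j c a)
        rw [← h, rho_rho, rho_rho] at h1
        exact h1.symm
      · intro h
        rw [h, rho_shift]
    rw [if_congr (e x y) rfl rfl, if_congr (e y x) rfl rfl]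
    ring
  · have e : ∀ a b : Fin d → ZMod L, (rho i c b = rho i c a + ee j) ↔ (b = a + ee j) := by
      intro a b
      rw [← rho_shift_other i j hj]
      constructor
      · intro h
        rw [← rho_rho i c b, h, rho_rho]
      · intro h
        rw [h]
    rw [if_congr (e x y) rfl rfl, if_congr (e y x) rfl rfl]

theorem isRefl_rho (hL : Even L) (J β : ℝ) (i : Fin d) (c : ZMod L) :
    IsRefl (wg β (nnw J)) (rho i c) (side i c) where
  inv := rho_rho i c
  side := side_rho hL i c
  symm := wg_rho J β i c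
  cross := by
    intro x y hxy hne
    have key : ∀ a b : Fin d → ZMod L, side i c a ≠ side i c b → b ≠ rho i c a →
        nnw J a b = 0 := by
      intro a b hab hb
      by_contra h
      obtain ⟨j, hj⟩ := nnw_ne J a b h
      by_cases hji : j = i
      · subst hji
        rw [hj] at hab
        exact hb (hj.trans (cross_shift hL j c a hab))
      · apply hab
        rw [hj, side_shift_other i j hji]
    unfold wg
    rw [key x y hxy hne, key y x hxy.symm (fun h => hne (by rw [h, rho_rho]))]
    ring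

theorem hrefl_nnw (hL : Even L) (J β : ℝ) (x y : Fin d → ZMod L)
    (h : wg β (nnw J) x y ≠ 0) :
    ∃ R σ, IsRefl (wg β (nnw J)) R σ ∧ R x = y := by
  have h1 : nnw J x y ≠ 0 ∨ nnw J y x ≠ 0 := by
    by_contra hc
    push Not at hc
    apply h
    unfold wg
    rw [hc.1, hc.2]; ring
  rcases h1 with h1 | h1
  · obtain ⟨i, hi⟩ := nnw_ne J x y h1
    refine ⟨rho i (x i + 1), side i (x i + 1), isRefl_rho hL J β i _, ?_⟩
    rw [hi]
    unfold rho ee
    funext z
    by_cases hz : z = i
    · subst hz
      simp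
      ring
    · simp [Function.update_of_ne hz, Pi.single_eq_of_ne hz]
  · obtain ⟨i, hi⟩ := nnw_ne J y x h1
    refine ⟨rho i (x i), side i (x i), isRefl_rho hL J β i _, ?_⟩
    rw [hi]
    unfold rho ee
    funext z
    by_cases hz : z = i
    · subst hz
      simp
      ring
    · simp [Function.update_of_ne hz, Pi.single_eq_of_ne hz]

theorem nnw_self (hL : Even L) (J : ℝ) (x : Fin d → ZMod L) : nnw J x x = 0 := by
  unfold nnw
  refine Finset.sum_eq_zero fun i _ => ?_
  rw [if_neg]
  intro h
  have h1 := congrFun h i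
  unfold ee at h1
  simp only [Pi.add_apply, Pi.single_eq_same] at h1
  have h2 : (1 : ZMod L) = 0 := by
    have := add_eq_left.1 h1.symm
    exact this
  have hL1 : L ≠ 1 := by
    obtain ⟨m, hm⟩ := hL
    omega
  have h3 : ((1 : ℕ) : ZMod L) = 0 := by push_cast; exact h2
  rw [ZMod.natCast_eq_zero_iff] at h3
  exact hL1 (Nat.dvd_one.1 h3)

theorem nnw_nonneg {J : ℝ} (hJ : 0 ≤ J) (x y : Fin d → ZMod L) : 0 ≤ nnw J x y := by
  unfold nnw
  refine Finset.sum_nonneg fun i _ => ?_
  split_ifs
  · exact hJ
  · exact le_rfl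

theorem wg_lap (J β : ℝ) (f : (Fin d → ZMod L) → ℝ) (x : Fin d → ZMod L) :
    ∑ y, wg β (nnw J) x y * (f x - f y) = β * J * lap f x := by
  unfold wg nnw lap
  have h1 : ∀ y, β * ((∑ i : Fin d, if y = x + ee i then J else 0) +
      ∑ i : Fin d, if x = y + ee i then J else 0) * (f x - f y) =
      ∑ i : Fin d, ((if y = x + ee i then β * J * (f x - f y) else 0) +
        if y = x - ee i then β * J * (f x - f y) else 0) := by
    intro y
    rw [← Finset.sum_add_distrib, Finset.mul_sum, Finset.sum_mul]
    refine Finset.sum_congr rfl fun i _ => ?_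
    have e : (x = y + ee i) ↔ (y = x - ee i) :=
      ⟨fun h => by rw [h]; simp, fun h => by rw [h]; simp⟩
    simp only [e]
    split_ifs <;> ring
  simp only [h1]
  rw [Finset.sum_comm, Finset.mul_sum]
  refine Finset.sum_congr rfl fun i _ => ?_
  rw [Finset.sum_add_distrib, Finset.sum_ite_eq', Finset.sum_ite_eq', if_pos (Finset.mem_univ _),
    if_pos (Finset.mem_univ _)]
  ring

/-- The constant of the two lattice sums. -/
theorem lat_both (d : ℕ) (hd : 3 ≤ d) : ∃ C : ℝ, 0 < C ∧ ∀ (L : ℕ) [NeZero L] (s t : ℝ),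
    0 ≤ s → 0 ≤ t →
    ∑ k ∈ (Finset.univ : Finset (Fin d → ZMod L)).erase 0,
      (2 / (t * lam k) + s / Real.sqrt (lam k)) ≤
      C * (s + 1 / t) * (Fintype.card (Fin d → ZMod L) : ℝ) := by
  obtain ⟨C, hC, hl⟩ := Pool.Agent.N615.QRLAT.main d (by omega)
  refine ⟨C + 72, by linarith, ?_⟩
  intro L _ s t hs ht
  rw [Finset.sum_add_distrib]
  have h1 : ∑ k ∈ (Finset.univ : Finset (Fin d → ZMod L)).erase 0, 2 / (t * lam k) =
      2 / t * ∑ k ∈ (Finset.univ : Finset (Fin d → ZMod L)).erase 0, 1 / lam k := by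
    rw [Finset.mul_sum]
    refine Finset.sum_congr rfl fun k _ => ?_
    rw [div_mul_div_comm, mul_one]
  have h2 : ∑ k ∈ (Finset.univ : Finset (Fin d → ZMod L)).erase 0, s / Real.sqrt (lam k) =
      s * ∑ k ∈ (Finset.univ : Finset (Fin d → ZMod L)).erase 0, 1 / Real.sqrt (lam k) := by
    rw [Finset.mul_sum]
    refine Finset.sum_congr rfl fun k _ => ?_
    rw [mul_one_div]
  rw [h1, h2]
  have h3 := mul_le_mul_of_nonneg_left (lat_three d hd L) (show 0 ≤ 2 / t by positivity)
  have h4 := mul_le_mul_of_nonneg_left (hl L) hs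
  have hN : (0:ℝ) ≤ (Fintype.card (Fin d → ZMod L) : ℝ) := Nat.cast_nonneg _
  have h5 : 0 ≤ 1 / t := by positivity
  have h6 : 2 / t = 2 * (1 / t) := by ring
  rw [h6] at h3 ⊢
  nlinarith [mul_nonneg hs hN, mul_nonneg h5 hN, mul_nonneg (mul_nonneg hC.le h5) hN]

/-- Condensation at the neutral point at positive temperature. -/
theorem neutral_cond (d : ℕ) (hd : 3 ≤ d) : ∃ C : ℝ, 0 < C ∧ ∀ (L : ℕ) [NeZero L] (U J β : ℝ),
    Even L → 0 < U → 0 < J → 0 < β →
    (1 - C * (Real.sqrt (U / J) + 1 / (β * J))) * (Fintype.card (Fin d → ZMod L) : ℝ) ^ 2 *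
      TI (rotK β (U • (1 : Matrix (Fin d → ZMod L) (Fin d → ZMod L) ℝ)) (nnw J) 0) id ≤
    ∑ x, ∑ y, TI (rotK β (U • (1 : Matrix (Fin d → ZMod L) (Fin d → ZMod L) ℝ)) (nnw J) 0)
      (· + eta x y) := by
  obtain ⟨C, hC, hlat⟩ := lat_both d hd
  refine ⟨C, hC, ?_⟩
  intro L _ U J β hL hU hJ hβ
  set A := rotK β (U • (1 : Matrix (Fin d → ZMod L) (Fin d → ZMod L) ℝ)) (nnw J) 0 with hA
  have hpd : (U • (1 : Matrix (Fin d → ZMod L) (Fin d → ZMod L) ℝ)).PosDef :=
    Matrix.PosDef.one.smul hU
  have hAdm : Adm A := rotK_adm hβ.le _ (nnw_nonneg hJ.le) 0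
  have hB : Bdd A := rotK_bdd' hβ hpd (nnw_nonneg hJ.le) 0
  have hZ : 0 < TI A id := TI_pos hAdm hB
  set N : ℝ := (Fintype.card (Fin d → ZMod L) : ℝ) with hN
  have hN0 : 0 < N := by
    rw [hN]
    exact_mod_cast Fintype.card_pos
  have hG := sum_rule (fun x y : Fin d → ZMod L => TI A (· + eta x y) / TI A id)
    (fun l => 2 / (β * J * l) + Real.sqrt (U / J) / Real.sqrt l) (by
      intro l f hl hf
      have h1 := ir_inf (U := U) hβ hU (nnw_self hL J) (nnw_nonneg hJ.le) (hrefl_nnw hL J β)
        (f := f) (l := β * J * l) (by positivity) (by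
          intro x
          rw [wg_lap, hf]; ring)
      have h2 : ∑ x, ∑ y, f x * f y * (TI A (· + eta x y) / TI A id) =
          (∑ x, ∑ y, f x * f y * TI A (· + eta x y)) / TI A id := by
        rw [Finset.sum_div]
        refine Finset.sum_congr rfl fun x _ => ?_
        rw [Finset.sum_div]
        exact Finset.sum_congr rfl fun y _ => by ring
      rw [h2, div_le_iff₀ hZ]
      refine h1.trans (le_of_eq ?_)
      have h3 : Real.sqrt (β * U / (β * J * l)) = Real.sqrt (U / J) / Real.sqrt l := by
        rw [← Real.sqrt_div' _ hl.le]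
        congr 1
        field_simp
      rw [h3])
  have h1 : ∑ x : Fin d → ZMod L, TI A (· + eta x x) / TI A id = N := by
    have : ∀ x : Fin d → ZMod L, TI A (· + eta x x) / TI A id = 1 := by
      intro x
      have e : (fun n : (Fin d → ZMod L) → ℤ => n + eta x x) = id := by
        funext n
        unfold eta
        simp
      rw [e, div_self hZ.ne']
    simp [this, hN]
  rw [h1] at hG
  have h2 := hlat L (Real.sqrt (U / J)) (β * J) (Real.sqrt_nonneg _) (by positivity)
  have h3 : ∑ x, ∑ y, TI A (· + eta x y) / TI A id = (∑ x, ∑ y, TI A (· + eta x y)) / TI A id := by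
    rw [Finset.sum_div]
    refine Finset.sum_congr rfl fun x _ => ?_
    rw [Finset.sum_div]
  rw [h3] at hG
  have h4 : N ≤ (∑ x, ∑ y, TI A (· + eta x y)) / TI A id / N +
      C * (Real.sqrt (U / J) + 1 / (β * J)) * N := hG.trans (by linarith)
  have h5 : (1 - C * (Real.sqrt (U / J) + 1 / (β * J))) * N ≤
      (∑ x, ∑ y, TI A (· + eta x y)) / TI A id / N := by linarith
  rw [le_div_iff₀ hN0, le_div_iff₀ hZ] at h5
  refine le_trans (le_of_eq ?_) h5
  ring

end Pool.Agent.H993.TR
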