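import Mathlib
import Pool.Agent.H993.TR.Tor

/-!
# Condensation at all densities at positive temperature
-/

namespace Pool.Agent.H993.TR

open Filter Topology NormedSpace Matrix
open Pool.Agent.N657.QR (ee nnw)

section gen

variable {V : Type} [Fintype V] [DecidableEq V]

/-- The trace of the exponential against the matrix of `cos (θ_x - θ_y)`. -/
theorem trace_cosK {A : (V → ℤ) → (V → ℤ) → ℝ} (hA : Adm A) (x y : V) (R : Finset (V → ℤ)) :
    (mt (cosK x y) R * exp (mt A R)).trace = TS A (· + eta x y) R := by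
  have h1 : (mt (cosK x y) R * exp (mt A R)).trace =
      ∑ n ∈ R, ∑ m ∈ R, cosK x y n m * EE A R m n := by
    rw [Matrix.trace, ← Finset.sum_coe_sort R (fun n => ∑ m ∈ R, cosK x y n m * EE A R m n)]
    refine Finset.sum_congr rfl fun n _ => ?_
    rw [Matrix.diag_apply, Matrix.mul_apply,
      ← Finset.sum_coe_sort R (fun m => cosK x y n m * EE A R m n)]
    refine Finset.sum_congr rfl fun m _ => ?_
    rw [EE_eq]
    rfl
  rw [h1]
  have h2 : ∀ n ∈ R, ∑ m ∈ R, cosK x y n m * EE A R m n =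
      (EE A R (n - eta x y) n + EE A R (n + eta x y) n) / 2 := by
    intro n _
    unfold cosK
    have h3 : ∀ m : V → ℤ, ((if n = m + eta x y then 1 else 0) +
        (if m = n + eta x y then 1 else 0)) / 2 * EE A R m n =
        ((if m = n - eta x y then EE A R m n else 0) +
        (if m = n + eta x y then EE A R m n else 0)) / 2 := by
      intro m
      have e : (n = m + eta x y) ↔ (m = n - eta x y) :=
        ⟨fun h => by rw [h]; simp, fun h => by rw [h]; simp⟩
      simp only [e]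
      split_ifs <;> ring
    simp only [h3]
    rw [← Finset.sum_div, Finset.sum_add_distrib, Finset.sum_ite_eq', Finset.sum_ite_eq']
    have e1 : (if n - eta x y ∈ R then EE A R (n - eta x y) n else 0) =
        EE A R (n - eta x y) n := by
      split_ifs with h
      · rfl
      · rw [EE_zero_left h]
    have e2 : (if n + eta x y ∈ R then EE A R (n + eta x y) n else 0) =
        EE A R (n + eta x y) n := by
      split_ifs with h
      · rfl
      · rw [EE_zero_left h]
    rw [e1, e2]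
  rw [Finset.sum_congr rfl h2, ← Finset.sum_div, Finset.sum_add_distrib]
  have h4 : ∑ n ∈ R, EE A R (n - eta x y) n = TS A (· + eta x y) R := by
    rw [← TS_eta_swap hA]
    unfold TS
    exact Finset.sum_congr rfl fun n _ => by rw [sub_eq_add_neg]
  rw [h4]
  unfold TS
  ring

end gen

variable {d L : ℕ} [NeZero L]

theorem nnw_le (hL : Even L) {J : ℝ} {w : (Fin d → ZMod L) → (Fin d → ZMod L) → ℝ}
    (hw : ∀ x y, 0 ≤ w x y) (hwJ : ∀ x i, J ≤ w x (x + ee i)) (x y : Fin d → ZMod L) :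
    nnw J x y ≤ w x y := by
  unfold nnw
  by_cases h : ∃ i, y = x + ee i
  · obtain ⟨i, hi⟩ := h
    rw [Finset.sum_eq_single i]
    · rw [if_pos hi, hi]
      exact hwJ x i
    · intro j _ hj
      rw [if_neg]
      intro hj'
      rw [hi] at hj'
      have h1 : (ee i : Fin d → ZMod L) = ee j := add_left_cancel hj'
      have h2 := congrFun h1 i
      unfold ee at h2
      rw [Pi.single_eq_same, Pi.single_eq_of_ne hj.symm] at h2
      have hL1 : L ≠ 1 := by
        obtain ⟨m, hm⟩ := hL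
        omega
      have h3 : ((1 : ℕ) : ZMod L) = 0 := by push_cast; exact h2
      rw [ZMod.natCast_eq_zero_iff] at h3
      exact hL1 (Nat.dvd_one.1 h3)
    · intro h'; exact absurd (Finset.mem_univ _) h'
  · rw [Finset.sum_eq_zero]
    · exact hw x y
    · intro i _
      rw [if_neg]
      exact fun hh => h ⟨i, hh⟩

/-- The grand canonical bound. -/
theorem gc_bound (d : ℕ) (hd : 3 ≤ d) : ∃ C : ℝ, 0 < C ∧ ∀ (L : ℕ) [NeZero L] (U J β : ℝ)
    (K : Matrix (Fin d → ZMod L) (Fin d → ZMod L) ℝ)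
    (w : (Fin d → ZMod L) → (Fin d → ZMod L) → ℝ) (ν : (Fin d → ZMod L) → ℝ),
    Even L → 0 < U → 0 < J → 0 < β → K.PosDef → (U • (1 : Matrix _ _ ℝ) - K).PosSemidef →
    (∀ x y, 0 ≤ w x y) → (∀ x i, J ≤ w x (x + ee i)) →
    (1 - C * (Real.sqrt (U / J) + 1 / (β * J))) * (Fintype.card (Fin d → ZMod L) : ℝ) ^ 2 *
      TI (rotK β K w ν) id ≤ ∑ x, ∑ y, TI (rotK β K w ν) (· + eta x y) := by
  obtain ⟨C, hC, h⟩ := neutral_cond d hd
  refine ⟨C, hC, ?_⟩
  intro L _ U J β K w ν hL hU hJ hβ hK hUK hw hwJ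
  have h1 := h L U J β hL hU hJ hβ
  set A₀ := rotK β (U • (1 : Matrix (Fin d → ZMod L) (Fin d → ZMod L) ℝ)) (nnw J) 0 with hA₀
  set A₁ := rotK β K w ν with hA₁
  have hpd : (U • (1 : Matrix (Fin d → ZMod L) (Fin d → ZMod L) ℝ)).PosDef :=
    Matrix.PosDef.one.smul hU
  have hAdm : Adm A₀ := rotK_adm hβ.le _ (nnw_nonneg hJ.le) 0
  have hB : Bdd A₀ := rotK_bdd' hβ hpd (nnw_nonneg hJ.le) 0
  have hZ : 0 < TI A₀ id := TI_pos hAdm hB
  have hAdm₁ : Adm A₁ := rotK_adm hβ.le _ hw ν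
  have hB₁ : Bdd A₁ := rotK_bdd' hβ hK hw ν
  have hZ₁ : 0 < TI A₁ id := TI_pos hAdm₁ hB₁
  have h2 : TI A₁ id * ∑ x, ∑ y, TI A₀ (· + eta x y) ≤
      (∑ x, ∑ y, TI A₁ (· + eta x y)) * TI A₀ id := by
    rw [Finset.mul_sum, Finset.sum_mul]
    refine Finset.sum_le_sum fun x _ => ?_
    rw [Finset.mul_sum, Finset.sum_mul]
    refine Finset.sum_le_sum fun y _ => ?_
    exact cmp_inf hβ ν hUK hK hpd (nnw_nonneg hJ.le) (nnw_le hL hw hwJ) x y
  have h3 := mul_le_mul_of_nonneg_left h1 hZ₁.le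
  have h4 := h3.trans h2
  have h5 : (1 - C * (Real.sqrt (U / J) + 1 / (β * J))) *
      (Fintype.card (Fin d → ZMod L) : ℝ) ^ 2 * TI A₁ id * TI A₀ id ≤
      (∑ x, ∑ y, TI A₁ (· + eta x y)) * TI A₀ id := by
    refine le_trans (le_of_eq ?_) h4
    ring
  exact le_of_mul_le_mul_right h5 hZ

end Pool.Agent.H993.TR
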