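import Mathlib
import Pool.Agent.H993.TR.RPV

/-!
# Reflection positivity with an insertion
-/

namespace Pool.Agent.H993.TR

open Filter Topology NormedSpace Matrix
open scoped Kronecker

section rps

variable {A α : Type} [Fintype A] [DecidableEq A] [Fintype α] [DecidableEq α]

/-- Reflection positivity with an insertion `D` in the cone. -/
theorem rpsI (D : Matrix (α × α) (α × α) ℝ) (hD : Cone (fun _ _ : Bool => D)) (M0 : Matrix α α ℝ) (C R : A → Matrix α α ℝ) (κ η : A → ℝ) (hκ : ∀ a, 0 ≤ κ a)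
    (k0 k1 : A → ℝ) :
    (D * exp (TT M0 C R κ k0 k1)).trace ^ 2 ≤ Real.exp (∑ a, κ a * η a ^ 2) *
      ((D * exp (TT M0 C R κ (fun a => k0 a - κ a * η a) (fun a => k0 a - κ a * η a))).trace *
       (D * exp (TT M0 C R κ (fun a => k1 a + κ a * η a) (fun a => k1 a + κ a * η a))).trace) := by
  classical
  set ε : Bool → ℝ := fun s => if s then -1 else 1 with hε
  set AA : Bool → Matrix α α ℝ := fun s =>
    M0 + ∑ a, ((if s then k1 a else k0 a) - ε s * (κ a * η a / 2)) • C a with hAA
  set X : A → Bool → Matrix α α ℝ := fun a s => C a - (ε s * (η a / 2)) • 1 with hX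
  set BB : Bool → Bool → Matrix (α × α) (α × α) ℝ := fun s t =>
    ∑ a, κ a • (X a s ⊗ₖ X a t + R a ⊗ₖ R a) with hBB
  have hcone : Cone BB := by
    rw [hBB]
    refine Cone.sum Finset.univ (M := fun a s t => κ a • (X a s ⊗ₖ X a t + R a ⊗ₖ R a))
      fun a _ => ?_
    exact ((cone_kron (X a)).add (cone_kron (S := Bool) (fun _ => R a))).smul (hκ a)
  have hE := cone_exp AA hcone
  set Q : ℝ := ∑ a, κ a * η a ^ 2 with hQ
  -- the general identity
  have hid : ∀ (s t : Bool) (u v : A → ℝ),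
      (∀ a, u a = (if s then k1 a else k0 a) - ε s * (κ a * η a / 2) - κ a * (ε t * (η a / 2))) →
      (∀ a, v a = (if t then k1 a else k0 a) - ε t * (κ a * η a / 2) - κ a * (ε s * (η a / 2))) →
      AA s ⊗ₖ (1 : Matrix α α ℝ) + (1 : Matrix α α ℝ) ⊗ₖ AA t + BB s t =
        TT M0 C R κ u v + (ε s * ε t * (Q / 4)) • (1 : Matrix (α × α) (α × α) ℝ) := by
    intro s t u v hu hv
    ext ⟨i, j⟩ ⟨i', j'⟩
    simp only [hAA, hBB, hX, TT, Matrix.add_apply, Matrix.kroneckerMap_apply, Matrix.sum_apply,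
      Matrix.smul_apply, Matrix.sub_apply, smul_eq_mul, hu, hv]
    rw [add_mul, add_mul, mul_add, mul_add, hQ]
    have h1 : (1 : Matrix (α × α) (α × α) ℝ) (i, j) (i', j') =
        (1 : Matrix α α ℝ) i i' * (1 : Matrix α α ℝ) j j' := by
      rw [← Matrix.one_kronecker_one, Matrix.kroneckerMap_apply]
    rw [h1]
    simp only [Finset.sum_mul, Finset.mul_sum, Finset.sum_div]
    rw [← sub_eq_zero]
    have e1 : ∀ (a b c d e f g h k : ℝ), a + b + (c + d) + e - (a + f + (c + g) + h + k) =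
      (b + d + e - f - g - h - k) := by intros; ring
    rw [e1, ← Finset.sum_add_distrib, ← Finset.sum_add_distrib, ← Finset.sum_sub_distrib,
      ← Finset.sum_sub_distrib, ← Finset.sum_sub_distrib, ← Finset.sum_sub_distrib]
    refine Finset.sum_eq_zero fun a _ => ?_
    ring
  have hft := hid false true k0 k1 (by intro a; simp [hε]; ring) (by intro a; simp [hε]; ring)
  have hff := hid false false (fun a => k0 a - κ a * η a) (fun a => k0 a - κ a * η a)
    (by intro a; simp [hε]; ring) (by intro a; simp [hε]; ring)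
  have htt := hid true true (fun a => k1 a + κ a * η a) (fun a => k1 a + κ a * η a)
    (by intro a; simp [hε]; ring) (by intro a; simp [hε]; ring)
  have h1 := (hD.mul hE).trace_sq_le false true
  rw [hft, hff, htt, exp_add_smul_one, exp_add_smul_one, exp_add_smul_one, Matrix.mul_smul,
    Matrix.mul_smul, Matrix.mul_smul, Matrix.trace_smul, Matrix.trace_smul, Matrix.trace_smul] at h1
  simp only [smul_eq_mul] at h1
  have e1 : ε false * ε true * (Q / 4) = -(Q / 4) := by simp [hε]
  have e2 : ε false * ε false * (Q / 4) = Q / 4 := by simp [hε]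
  have e3 : ε true * ε true * (Q / 4) = Q / 4 := by simp [hε]
  rw [e1, e2, e3] at h1
  set T1 := (D * exp (TT M0 C R κ k0 k1)).trace
  set T2 := (D * exp (TT M0 C R κ (fun a => k0 a - κ a * η a) (fun a => k0 a - κ a * η a))).trace
  set T3 := (D * exp (TT M0 C R κ (fun a => k1 a + κ a * η a) (fun a => k1 a + κ a * η a))).trace
  have hQ4 : Real.exp Q = Real.exp (Q/4) ^ 4 := by rw [← Real.exp_nat_mul]; congr 1; push_cast; ring
  have hm : Real.exp (-(Q/4)) * Real.exp (Q/4) = 1 := by rw [← Real.exp_add]; simp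
  have hp : 0 < Real.exp (Q/4) := Real.exp_pos _
  have h2 : T1 ^ 2 = Real.exp (Q/4) ^ 2 * (Real.exp (-(Q/4)) * T1) ^ 2 := by
    have : (Real.exp (-(Q/4)) * Real.exp (Q/4)) ^ 2 = 1 := by rw [hm]; ring
    calc T1 ^ 2 = (Real.exp (-(Q/4)) * Real.exp (Q/4)) ^ 2 * T1 ^ 2 := by rw [this, one_mul]
      _ = _ := by ring
  rw [h2, hQ4]
  calc Real.exp (Q/4) ^ 2 * (Real.exp (-(Q/4)) * T1) ^ 2
      ≤ Real.exp (Q/4) ^ 2 * (Real.exp (Q/4) * T2 * (Real.exp (Q/4) * T3)) := by gcongr
    _ = Real.exp (Q/4) ^ 4 * (T2 * T3) := by ring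

end rps

variable {V B : Type} [Fintype V] [DecidableEq V] [Fintype B] [DecidableEq B]

section

variable (R : V → V) (σ : V → Bool) (hR : ∀ x, R (R x) = x) (hσ : ∀ x, σ (R x) = !σ x)
  (fl : B ≃ B) (hfl : ∀ b, fl (fl b) = b)

/-- The partition function with an insertion. -/
noncomputable def Zi (I : Matrix (V → B) (V → B) ℝ) (P c r : Matrix B B ℝ) (w : V → V → ℝ)
    (k : V → ℝ) : ℝ := (I * exp (gen P c r w k)).trace

theorem trace_ins_tr (I M : Matrix (V → B) (V → B) ℝ) :
    (tr R σ hR hσ fl hfl I * exp (tr R σ hR hσ fl hfl M)).trace = (I * exp M).trace := by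
  have h1 : exp (tr R σ hR hσ fl hfl M) = tr R σ hR hσ fl hfl (exp M) :=
    exp_submatrix_equiv (confEquiv R σ hR hσ fl hfl).symm M
  rw [h1, ← map_mul]
  show ((I * exp M).submatrix (confEquiv R σ hR hσ fl hfl).symm
    (confEquiv R σ hR hσ fl hfl).symm).trace = _
  simp only [Matrix.trace, Matrix.diag_apply, Matrix.submatrix_apply]
  exact (confEquiv R σ hR hσ fl hfl).symm.sum_comp (fun i => (I * exp M) i i)

/-- Reflection positivity for a reflection `R` of the sites. -/
theorem rpvI (I : Matrix (V → B) (V → B) ℝ)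
    (hI : Cone (fun _ _ : Bool => tr R σ hR hσ fl hfl I)) (P c r : Matrix B B ℝ) (hP : P.submatrix fl fl = P) (hc : c.submatrix fl fl = c)
    (hr : r.submatrix fl fl = -r) (w : V → V → ℝ) (k η : V → ℝ)
    (hw : ∀ x y, w (R x) (R y) = w x y) (hws : ∀ x y, w x y = w y x)
    (hw0 : ∀ x y, σ x ≠ σ y → y ≠ R x → w x y = 0) (hwp : ∀ x, 0 ≤ w x (R x)) :
    Zi I P c r w k ^ 2 ≤ Real.exp (∑ x, if σ x = false then w x (R x) * η x ^ 2 else 0) *
      (Zi I P c r w (fun x => if σ x = false then k x - w x (R x) * η x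
          else k (R x) - w x (R x) * η (R x)) *
       Zi I P c r w (fun x => if σ x = false then k (R x) + w x (R x) * η x
          else k x + w x (R x) * η (R x))) := by
  have key : ∀ k : V → ℝ, Zi I P c r w k = (tr R σ hR hσ fl hfl I * exp (TT (∑ a : Half σ, st a P + (1 / 2 : ℝ) •
      ∑ a : Half σ, ∑ b : Half σ, w a.1 b.1 • (st a c * st b c - st a r * st b r))
        (fun a : Half σ => st a c) (fun a : Half σ => st a r) (fun a => w a.1 (R a.1))
        (fun a => k a.1) (fun a => k (R a.1)))).trace := by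
    intro k
    rw [← tr_gen R σ hR hσ fl hfl P c r hP hc hr w k hw hws hw0, trace_ins_tr]
    rfl
  have hsum : (∑ x, if σ x = false then w x (R x) * η x ^ 2 else 0) =
      ∑ a : Half σ, w a.1 (R a.1) * η a.1 ^ 2 := by
    rw [sum_half R σ hR hσ]
    have h1 : ∑ a : Half σ, (if σ (R a.1) = false then w (R a.1) (R (R a.1)) * η (R a.1) ^ 2 else 0)
        = 0 := by
      refine Finset.sum_eq_zero fun a _ => ?_
      rw [if_neg]
      rw [hσ, a.2]; simp
    rw [h1, add_zero]
    exact Finset.sum_congr rfl fun a _ => if_pos a.2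
  rw [key k, key, key, hsum]
  have h := rpsI _ hI (∑ a : Half σ, st a P + (1 / 2 : ℝ) •
      ∑ a : Half σ, ∑ b : Half σ, w a.1 b.1 • (st a c * st b c - st a r * st b r))
        (fun a : Half σ => st a c) (fun a : Half σ => st a r) (fun a => w a.1 (R a.1))
        (fun a => η a.1) (fun a => hwp a.1) (fun a => k a.1) (fun a => k (R a.1))
  have hRn : ∀ a : Half σ, ¬ σ (R a.1) = false := fun a => by rw [hσ, a.2]; simp
  have e1 : (fun a : Half σ => (if σ a.1 = false then k a.1 - w a.1 (R a.1) * η a.1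
      else k (R a.1) - w a.1 (R a.1) * η (R a.1))) =
      fun a : Half σ => k a.1 - w a.1 (R a.1) * η a.1 := by
    funext a; rw [if_pos a.2]
  have e2 : (fun a : Half σ => (if σ (R a.1) = false then k (R a.1) - w (R a.1) (R (R a.1)) * η (R a.1)
      else k (R (R a.1)) - w (R a.1) (R (R a.1)) * η (R (R a.1)))) =
      fun a : Half σ => k a.1 - w a.1 (R a.1) * η a.1 := by
    funext a; rw [if_neg (hRn a), hR, hws (R a.1) a.1]
  have e3 : (fun a : Half σ => (if σ a.1 = false then k (R a.1) + w a.1 (R a.1) * η a.1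
      else k a.1 + w a.1 (R a.1) * η (R a.1))) =
      fun a : Half σ => k (R a.1) + w a.1 (R a.1) * η a.1 := by
    funext a; rw [if_pos a.2]
  have e4 : (fun a : Half σ => (if σ (R a.1) = false then k (R (R a.1)) +
      w (R a.1) (R (R a.1)) * η (R a.1)
      else k (R a.1) + w (R a.1) (R (R a.1)) * η (R (R a.1)))) =
      fun a : Half σ => k (R a.1) + w a.1 (R a.1) * η a.1 := by
    funext a; rw [if_neg (hRn a), hR, hws (R a.1) a.1]
  rw [e1, e2, e3, e4]
  exact h

end

end Pool.Agent.H993.TR
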