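import Mathlib
import Pool.Agent.H993.TR.GDI
import Pool.Agent.H993.TR.IRc

/-!
# Gaussian domination in the sector of charge zero
-/

namespace Pool.Agent.H993.TR

open Filter Topology NormedSpace Matrix
open scoped Kronecker

variable {V : Type} [Fintype V] [DecidableEq V]

/-- Projection on charge zero. -/
noncomputable def Ch (V : Type) [Fintype V] [DecidableEq V] (M : ℕ) :
    Matrix (V → BM M) (V → BM M) ℝ :=
  diagonal fun g => if ∑ x, (g x).1 = 0 then 1 else 0

theorem diag_cone {α κ : Type} [Fintype α] [DecidableEq α] [DecidableEq κ] (Q : α → κ) :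
    Cone (fun _ _ : Bool => (diagonal fun p : α × α => if Q p.1 = Q p.2 then (1:ℝ) else 0)) := by
  set ι := {q : κ // q ∈ Finset.univ.image Q} with hι
  have h1 : (fun _ _ : Bool => (diagonal fun p : α × α => if Q p.1 = Q p.2 then (1:ℝ) else 0)) =
      fun s t : Bool => ∑ i : ι, (fun (i : ι) (_ : Bool) =>
        (diagonal fun g : α => if Q g = i.1 then (1:ℝ) else 0)) i s ⊗ₖ
        (fun (i : ι) (_ : Bool) => (diagonal fun g : α => if Q g = i.1 then (1:ℝ) else 0)) i t := by
    funext s t
    simp only [Matrix.diagonal_kronecker_diagonal]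
    ext p q
    rw [Matrix.sum_apply]
    by_cases hpq : p = q
    · subst hpq
      simp only [Matrix.diagonal_apply_eq]
      rw [Finset.sum_eq_single (⟨Q p.1, Finset.mem_image_of_mem _ (Finset.mem_univ _)⟩ : ι)]
      · simp only [if_true, one_mul, eq_comm]
      · intro b _ hb
        rw [if_neg, zero_mul]
        intro h
        exact hb (Subtype.ext h.symm)
      · intro h; exact absurd (Finset.mem_univ _) h
    · rw [Matrix.diagonal_apply_ne _ hpq]
      symm
      refine Finset.sum_eq_zero fun i _ => ?_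
      rw [Matrix.diagonal_apply_ne _ hpq]
  rw [h1]
  exact cone_of_sum _

theorem ch_cone (M : ℕ) (R : V → V) (σ : V → Bool) (hR : ∀ x, R (R x) = x)
    (hσ : ∀ x, σ (R x) = !σ x) :
    Cone (fun _ _ : Bool => tr R σ hR hσ (flM M) (flM_flM M) (Ch V M)) := by
  have h1 : tr R σ hR hσ (flM M) (flM_flM M) (Ch V M) =
      diagonal fun p : (Half σ → BM M) × (Half σ → BM M) =>
        if (∑ a, (p.1 a).1) = ∑ a, (p.2 a).1 then (1:ℝ) else 0 := by
    ext p q
    show Ch V M ((confEquiv R σ hR hσ (flM M) (flM_flM M)).symm p)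
      ((confEquiv R σ hR hσ (flM M) (flM_flM M)).symm q) = _
    unfold Ch
    by_cases hpq : p = q
    · subst hpq
      rw [Matrix.diagonal_apply_eq, Matrix.diagonal_apply_eq]
      have h0 : ∀ a : Half σ,
          (confEquiv R σ hR hσ (flM M) (flM_flM M)).symm p a.1 = p.1 a := by
        intro a
        show (if h : σ a.1 = false then p.1 ⟨a.1, h⟩ else _) = _
        rw [dif_pos a.2]
      have h1 : ∀ a : Half σ,
          (confEquiv R σ hR hσ (flM M) (flM_flM M)).symm p (R a.1) = flM M (p.2 a) := by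
        intro a
        have h1 : ¬ σ (R a.1) = false := by rw [hσ, a.2]; simp
        have h2 : σ (R (R a.1)) = false := by rw [hR]; exact a.2
        have h3 : (⟨R (R a.1), h2⟩ : Half σ) = a := Subtype.ext (hR a.1)
        show (if h : σ (R a.1) = false then p.1 ⟨R a.1, h⟩ else
          flM M (p.2 ⟨R (R a.1), _⟩)) = _
        rw [dif_neg h1, h3]
      have h2 : ∑ x, ((confEquiv R σ hR hσ (flM M) (flM_flM M)).symm p x).1 =
          (∑ a, (p.1 a).1) - ∑ a, (p.2 a).1 := by
        rw [sum_half R σ hR hσ]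
        simp only [h0, h1]
        unfold flM
        simp only [Equiv.coe_fn_mk, Finset.sum_neg_distrib]
        ring
      rw [h2]
      simp only [sub_eq_zero]
    · rw [Matrix.diagonal_apply_ne _ hpq, Matrix.diagonal_apply_ne]
      intro h
      exact hpq ((confEquiv R σ hR hσ (flM M) (flM_flM M)).symm.injective h)
  rw [h1]
  exact diag_cone (fun g : Half σ → BM M => ∑ a, (g a).1)

theorem trace_diag_exp_nonneg {n : Type} [Fintype n] [DecidableEq n] (p : n → ℝ)
    (hp : ∀ i, 0 ≤ p i) (X : Matrix n n ℝ) (hX : Xᵀ = X) :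
    0 ≤ (diagonal p * exp X).trace := by
  have h1 : exp X = exp ((1/2 : ℝ) • X) * exp ((1/2 : ℝ) • X) := by
    rw [← Matrix.exp_add_of_commute _ _ (Commute.refl _)]
    congr 1
    rw [← add_smul]
    norm_num
  have h2 : (exp ((1/2 : ℝ) • X))ᵀ = exp ((1/2 : ℝ) • X) := by
    rw [← Matrix.exp_transpose, Matrix.transpose_smul, hX]
  have h3 : exp X = exp ((1/2 : ℝ) • X) * (exp ((1/2 : ℝ) • X))ᵀ := by rw [h2]; exact h1
  rw [Matrix.trace]
  refine Finset.sum_nonneg fun i _ => ?_
  rw [Matrix.diag_apply, Matrix.diagonal_mul]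
  refine mul_nonneg (hp i) ?_
  rw [h3, Matrix.mul_apply]
  exact Finset.sum_nonneg fun j _ => mul_self_nonneg _

/-- Projection on charge zero in a set of configurations. -/
noncomputable def Pq (R : Finset (V → ℤ)) : Matrix R R ℝ :=
  diagonal fun n => if ∑ x, n.1 x = 0 then 1 else 0

/-- Gaussian domination in a box, in the sector of charge zero. -/
theorem gd_box0 {β U : ℝ} {w : V → V → ℝ} (hw0 : ∀ x, w x x = 0) (hβ : 0 ≤ β)
    (hw : ∀ x y, 0 ≤ w x y)
    (hrefl : ∀ x y, wg β w x y ≠ 0 → ∃ R σ, IsRefl (wg β w) R σ ∧ R x = y)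
    {f : V → ℝ} {l : ℝ} (hl : 0 < l) (hf : ∀ x, ∑ y, wg β w x y * (f x - f y) = l * f x) (M : ℕ)
    (s : ℝ) :
    (Pq (RM V M) * exp (mt (rotK β (U • (1 : Matrix V V ℝ)) w 0) (RM V M) +
      s • mt (ck f) (RM V M))).trace ≤
      Real.exp (s ^ 2 * ((∑ x, f x ^ 2) / (2 * l))) *
      (Pq (RM V M) * exp (mt (rotK β (U • (1 : Matrix V V ℝ)) w 0) (RM V M))).trace := by
  set A := rotK β (U • (1 : Matrix V V ℝ)) w 0 with hA
  have hAdm : Adm A := rotK_adm hβ _ hw 0
  set G := mt A (RM V M) with hG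
  set C := mt (ck f) (RM V M) with hC
  have hgen : ∀ k : V → ℝ, (gen (PP (β * U) M) (cc M) (rr M) (wg β w) k).submatrix
      (boxE M) (boxE M) = G + mt (ck k) (RM V M) := by
    intro k
    rw [gen_field]
    ext n m
    rw [Matrix.submatrix_apply, Matrix.add_apply, Matrix.add_apply, gen_box β U w hw0,
      Matrix.sum_apply]
    congr 1
    unfold mt ck
    refine Finset.sum_congr rfl fun x _ => ?_
    rw [Matrix.smul_apply, st_cc_box, smul_eq_mul]
  have hCh : (Ch V M).submatrix (boxE M) (boxE M) = Pq (RM V M) := by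
    ext n m
    rw [Matrix.submatrix_apply]
    unfold Ch Pq
    by_cases h : n = m
    · subst h
      rw [Matrix.diagonal_apply_eq, Matrix.diagonal_apply_eq]
      rfl
    · rw [Matrix.diagonal_apply_ne _ h, Matrix.diagonal_apply_ne]
      intro h'
      exact h ((boxE M).injective h')
  have htr : ∀ k : V → ℝ, (Pq (RM V M) * exp (G + mt (ck k) (RM V M))).trace =
      Zi (Ch V M) (PP (β * U) M) (cc M) (rr M) (wg β w) k := by
    intro k
    rw [← hgen, ← hCh, exp_submatrix_equiv, Matrix.submatrix_mul_equiv]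
    unfold Zi
    simp only [Matrix.trace, Matrix.diag_apply, Matrix.submatrix_apply]
    exact (boxE M).sum_comp (fun i => (Ch V M * exp (gen (PP (β * U) M) (cc M) (rr M)
      (wg β w) k)) i i)
  have hck : ∀ s : ℝ, mt (ck fun x => s * (l * f x)) (RM V M) = (s * l) • C := by
    intro s
    ext n m
    rw [Matrix.smul_apply]
    simp only [hC, mt, ck, smul_eq_mul, Finset.mul_sum]
    exact Finset.sum_congr rfl fun x _ => by ring
  have h0 : (Pq (RM V M) * exp G).trace =
      Zi (Ch V M) (PP (β * U) M) (cc M) (rr M) (wg β w) 0 := by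
    rw [← htr]
    congr 3
    have : mt (ck (0 : V → ℝ)) (RM V M) = 0 := by
      ext n m
      simp [mt, ck]
    rw [this, add_zero]
  have hgd := gd_gradI (Ch V M) (flM M) (flM_flM M) (ch_cone M) (PP (β * U) M) (cc M) (rr M)
    (PP_flip _ M) (cc_flip M) (rr_flip M) (fun k w => by
      unfold Zi Ch
      exact trace_diag_exp_nonneg _ (fun i => by split_ifs <;> norm_num) _
        (gen_symm (PP_t _ M) (cc_t M) (rr_t M) w k))
    (wg β w) (fun x y => by unfold wg; ring)
    (fun x y => mul_nonneg hβ (add_nonneg (hw _ _) (hw _ _))) hrefl f l hf (s / l)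
  rw [← htr, ← h0, hck] at hgd
  have e1 : s / l * l = s := by field_simp
  have e2 : (s / l) ^ 2 * (l / 2 * ∑ x, f x ^ 2) = s ^ 2 * ((∑ x, f x ^ 2) / (2 * l)) := by
    field_simp
  rw [e1, e2] at hgd
  exact hgd

end Pool.Agent.H993.TR
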