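import Mathlib
import Pool.Agent.H993.TR.Ins
import Pool.Agent.H993.TR.ProjFB

/-!
# The infrared bound in the sector of charge zero
-/

namespace Pool.Agent.H993.TR

open Filter Topology NormedSpace Matrix

section skw

variable {Ω I J : Type} [DecidableEq Ω] [AddCommGroup Ω] [Fintype I] [Fintype J]

/-- The trace of a product of two shift sums and the exponential, with a weight. -/
theorem trace_skw (A : Ω → Ω → ℝ) (R : Finset Ω) (p : Ω → ℝ) (a : I → Ω → ℝ) (u : I → Ω)
    (b : J → Ω → ℝ) (v : J → Ω) :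
    (mt (sk a u) R * mt (sk b v) R * (diagonal (fun n : R => p n) * exp (mt A R))).trace =
      ∑ i, ∑ j, ∑ m ∈ R, if m + v j ∈ R then
        a i (m + v j) * b j m * (p m * EE A R m (m + v j + u i)) else 0 := by
  have h1 : (mt (sk a u) R * mt (sk b v) R *
      (diagonal (fun n : R => p n) * exp (mt A R))).trace =
      ∑ m : R, ∑ n : R, (mt (sk a u) R * mt (sk b v) R) n m * (p m * EE A R m n) := by
    rw [Matrix.trace]
    simp only [Matrix.diag_apply,
      Matrix.mul_apply (N := (diagonal (fun n : R => p n) * exp (mt A R)))]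
    rw [Finset.sum_comm]
    refine Finset.sum_congr rfl fun m _ => Finset.sum_congr rfl fun n _ => ?_
    rw [EE_eq, Matrix.diagonal_mul]
  rw [h1]
  have h2 : ∀ m : R, ∑ n : R, (mt (sk a u) R * mt (sk b v) R) n m * (p m * EE A R m n) =
      ∑ i, ∑ j, if (m : Ω) + v j ∈ R then
        a i (m + v j) * b j m * (p m * EE A R m (m + v j + u i)) else 0 := by
    intro m
    simp only [mul_sk, Finset.sum_mul]
    rw [Finset.sum_comm]
    have h3 : ∀ j : J, ∑ n : R, ∑ i, (if (m : Ω) + v j ∈ R then (if (n : Ω) = m + v j + u i then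
        a i (m + v j) * b j m else 0) else 0) * (p m * EE A R m n) =
        ∑ i, if (m : Ω) + v j ∈ R then
          a i (m + v j) * b j m * (p m * EE A R m (m + v j + u i)) else 0 := by
      intro j
      rw [Finset.sum_comm]
      refine Finset.sum_congr rfl fun i _ => ?_
      by_cases h : (m : Ω) + v j ∈ R
      · simp only [if_pos h]
        by_cases h' : (m : Ω) + v j + u i ∈ R
        · rw [Finset.sum_eq_single (⟨m + v j + u i, h'⟩ : R)]
          · rw [if_pos rfl]
          · intro k _ hk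
            rw [if_neg, zero_mul]
            intro h''
            exact hk (Subtype.ext h'')
          · intro h''; exact absurd (Finset.mem_univ _) h''
        · rw [EE_zero_right h', mul_zero, mul_zero]
          refine Finset.sum_eq_zero fun k _ => ?_
          rw [if_neg, zero_mul]
          intro h''
          exact h' (h'' ▸ k.2)
      · simp only [if_neg h, zero_mul, Finset.sum_const_zero]
    simp only [h3]
    rw [Finset.sum_comm]
  simp only [h2]
  rw [Finset.sum_comm]
  refine Finset.sum_congr rfl fun i _ => ?_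
  rw [Finset.sum_comm]
  refine Finset.sum_congr rfl fun j _ => ?_
  exact Finset.sum_coe_sort R fun m => if m + v j ∈ R then
        a i (m + v j) * b j m * (p m * EE A R m (m + v j + u i)) else 0

end skw

variable {V : Type} [Fintype V] [DecidableEq V]

/-- The indicator of the charge zero. -/
noncomputable def pz (m : V → ℤ) : ℝ := if ∑ x, m x = 0 then 1 else 0

theorem pz_nonneg (m : V → ℤ) : 0 ≤ pz m := by unfold pz; split_ifs <;> norm_num

theorem pz_abs (m : V → ℤ) : |pz m| ≤ 1 := by unfold pz; split_ifs <;> norm_num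

theorem eta_charge (x y : V) : ∑ z, eta x y z = 0 := by
  unfold eta
  simp [Finset.sum_sub_distrib]

theorem pz_sub (m : V → ℤ) (x y : V) : pz (m - eta x y) = pz m := by
  unfold pz
  simp only [Pi.sub_apply, Finset.sum_sub_distrib, eta_charge, sub_zero]

/-- The trace in the sector of charge zero. -/
noncomputable def TZ (A : (V → ℤ) → (V → ℤ) → ℝ) (t : V → ℤ) (R : Finset (V → ℤ)) : ℝ :=
  ∑ m ∈ R, pz m * EE A R m (m + t)

theorem TZ_swap {A : (V → ℤ) → (V → ℤ) → ℝ} (hA : Adm A) (R : Finset (V → ℤ)) (x y : V) :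
    TZ A (-eta x y) R = TZ A (eta x y) R := by
  unfold TZ
  rw [shift_reindex (A := A) R (eta x y) pz]
  refine Finset.sum_congr rfl fun m _ => ?_
  rw [pz_sub, ← sub_eq_add_neg, EE_symm hA]

theorem trace_CCw {β : ℝ} (hβ : 0 ≤ β) {K : Matrix V V ℝ} {w : V → V → ℝ}
    (hw : ∀ x y, 0 ≤ w x y) {ν : V → ℝ} (f : V → ℝ) (a : ℕ) :
    |(mt (ck f) (RM V (a + 4)) * mt (ck f) (RM V (a + 4)) *
        (Pq (RM V (a + 4)) * exp (mt (rotK β K w ν) (RM V (a + 4))))).trace -
      (∑ x, ∑ y, f x * f y * TZ (rotK β K w ν) (eta x y) (RM V (a + 4))) / 2| ≤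
      (∑ x, f x ^ 2) / 2 * tl (rotK β K w ν) a := by
  set A := rotK β K w ν with hA
  have hAdm : Adm A := rotK_adm hβ K hw ν
  set R := RM V (a + 4) with hR
  have hPq : Pq R = diagonal (fun n : R => pz (n : V → ℤ)) := rfl
  rw [ck_eq_sk, hPq, trace_skw A R pz]
  have h1 : ∑ i : V × Bool, ∑ j : V × Bool, ∑ m ∈ R, (if m + us j ∈ R then
        f i.1 / 2 * (f j.1 / 2) * (pz m * EE A R m (m + us j + us i)) else 0) =
      ∑ x, ∑ y, (f x / 2 * (f y / 2)) * ∑ t : Bool, ∑ m ∈ R, (if m + us (y, t) ∈ R then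
        pz m * EE A R m (m + (us (y, t) + us (x, !t))) else 0) := by
    rw [hA, ← pair_sum R (fun x y => f x / 2 * (f y / 2)) (fun _ _ m => pz m)]
    refine Finset.sum_congr rfl fun i _ => Finset.sum_congr rfl fun j _ =>
      Finset.sum_congr rfl fun m _ => ?_
    split_ifs <;> ring
  rw [h1]
  have h2 : (∑ x, ∑ y, f x * f y * TZ A (eta x y) R) / 2 =
      ∑ x, ∑ y, (f x / 2 * (f y / 2)) * (2 * TZ A (eta x y) R) := by
    rw [Finset.sum_div]
    refine Finset.sum_congr rfl fun x _ => ?_
    rw [Finset.sum_div]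
    exact Finset.sum_congr rfl fun y _ => by ring
  rw [h2, ← Finset.sum_sub_distrib]
  have h3 : ∀ x, ∑ y, (f x / 2 * (f y / 2)) * (∑ t : Bool, ∑ m ∈ R, (if m + us (y, t) ∈ R then
        pz m * EE A R m (m + (us (y, t) + us (x, !t))) else 0)) -
        ∑ y, (f x / 2 * (f y / 2)) * (2 * TZ A (eta x y) R) =
      (f x / 2 * (f x / 2)) * (∑ t : Bool, ∑ m ∈ R, (if m + us (x, t) ∈ R then
        pz m * EE A R m (m + (us (x, t) + us (x, !t))) else 0) - 2 * TZ A (eta x x) R) := by
    intro x
    rw [← Finset.sum_sub_distrib, Finset.sum_eq_single x]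
    · ring
    · intro y _ hy
      rw [← mul_sub]
      have hxy : x ≠ y := fun h => hy h.symm
      have e1 : ∀ t : Bool, ∑ m ∈ R, (if m + us (y, t) ∈ R then
        pz m * EE A R m (m + (us (y, t) + us (x, !t))) else 0) = TZ A (eta x y) R := by
        intro t
        rw [pair_ne (a + 4) hxy t pz, us_pair]
        cases t
        · simp only [Bool.false_eq_true, if_false]
          rfl
        · simp only [if_true]
          rw [← TZ_swap hAdm, eta_neg x y]
          rfl
      rw [Fintype.sum_bool, e1, e1]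
      ring
    · intro h; exact absurd (Finset.mem_univ _) h
  simp only [h3]
  refine (Finset.abs_sum_le_sum_abs _ _).trans ?_
  rw [Finset.sum_div, Finset.sum_mul]
  refine Finset.sum_le_sum fun x _ => ?_
  rw [abs_mul]
  have e0 : eta x x = 0 := by unfold eta; simp
  have e2 : ∀ t : Bool, |∑ m ∈ R, (if m + us (x, t) ∈ R then
        pz m * EE A R m (m + (us (x, t) + us (x, !t))) else 0) - TZ A (eta x x) R| ≤ tl A a := by
    intro t
    have e3 : us (x, t) + us (x, !t) = 0 := by
      rw [us_pair, e0, ite_self]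
    rw [e3, e0]
    unfold TZ
    rw [← Finset.sum_sub_distrib]
    have e4 := edge_le hAdm a 0 (fun z => by simp)
      (fun m => if m + us (x, t) ∈ R then 0 else -pz m)
      (fun m => by
        split_ifs
        · norm_num
        · rw [abs_neg]; exact pz_abs m)
      (fun m hm => by rw [if_pos (RM_add hm 1 (us_abs (x, t)))])
    have e5 : ∀ m ∈ R, (if m + us (x, t) ∈ R then pz m * EE A R m (m + 0) else 0) -
        pz m * EE A R m (m + 0) = (if m + us (x, t) ∈ R then 0 else -pz m) *
          EE A R m (m + 0) := by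
      intro m _
      split_ifs <;> ring
    rw [Finset.sum_congr rfl e5]
    exact e4
  rw [Fintype.sum_bool]
  have e6 := e2 true
  have e7 := e2 false
  have e8 : |f x / 2 * (f x / 2)| = f x ^ 2 / 4 := by
    rw [abs_of_nonneg (mul_self_nonneg _)]; ring
  rw [e8]
  set S1 := ∑ m ∈ R, (if m + us (x, true) ∈ R then
        pz m * EE A R m (m + (us (x, true) + us (x, !true))) else 0)
  set S2 := ∑ m ∈ R, (if m + us (x, false) ∈ R then
        pz m * EE A R m (m + (us (x, false) + us (x, !false))) else 0)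
  have e9 : |S1 + S2 - 2 * TZ A (eta x x) R| ≤ 2 * tl A a := by
    have : S1 + S2 - 2 * TZ A (eta x x) R =
        (S1 - TZ A (eta x x) R) + (S2 - TZ A (eta x x) R) := by ring
    rw [this]
    exact (abs_add_le _ _).trans (by linarith)
  nlinarith [sq_nonneg (f x)]

/-- The part of the double commutator coming from the potential energy. -/
theorem dc_potw {β U : ℝ} (hβ : 0 ≤ β) (hU : 0 ≤ U) {w : V → V → ℝ}
    (hw : ∀ x y, 0 ≤ w x y) (f : V → ℝ) (a : ℕ) :
    ∑ i : V × Bool, ∑ j : V × Bool, ∑ m ∈ RM V a, (if m + us j ∈ RM V a then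
        f i.1 / 2 * (f j.1 / 2 * (β * (U * ∑ z, (((m + us j) z : ℤ) : ℝ) ^ 2) -
          β * (U * ∑ z, ((m z : ℤ) : ℝ) ^ 2))) *
        (pz m * EE (rotK β (U • (1 : Matrix V V ℝ)) w 0) (RM V a) m (m + us j + us i)) else 0) ≤
      β * U / 2 * (∑ x, f x ^ 2) * TZ (rotK β (U • (1 : Matrix V V ℝ)) w 0) 0 (RM V a) := by
  set A := rotK β (U • (1 : Matrix V V ℝ)) w 0 with hA
  have hAdm : Adm A := rotK_adm hβ _ hw 0
  set R := RM V a with hR
  have hD : ∀ (m : V → ℤ) (y : V) (t : Bool), (β * (U * ∑ z, (((m + us (y, t)) z : ℤ) : ℝ) ^ 2) -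
          β * (U * ∑ z, ((m z : ℤ) : ℝ) ^ 2)) =
          β * U * ((if t then 2 * (m y : ℝ) else -(2 * (m y : ℝ))) + 1) := by
    intro m y t
    have : ∑ z, (((m + us (y, t)) z : ℤ) : ℝ) ^ 2 = ∑ z, ((m z : ℤ) : ℝ) ^ 2 +
        ((if t then 2 * (m y : ℝ) else -(2 * (m y : ℝ))) + 1) := by
      rw [← sub_eq_iff_eq_add', ← Finset.sum_sub_distrib, Finset.sum_eq_single y]
      · unfold us
        cases t
        · simp; ring
        · simp; ring
      · intro z _ hz
        unfold us
        cases t
        · simp [Pi.single_eq_of_ne hz]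
        · simp [Pi.single_eq_of_ne hz]
      · intro h; exact absurd (Finset.mem_univ _) h
    rw [this]; ring
  have h1 : ∑ i : V × Bool, ∑ j : V × Bool, ∑ m ∈ R, (if m + us j ∈ R then
        f i.1 / 2 * (f j.1 / 2 * (β * (U * ∑ z, (((m + us j) z : ℤ) : ℝ) ^ 2) -
          β * (U * ∑ z, ((m z : ℤ) : ℝ) ^ 2))) *
        (pz m * EE A R m (m + us j + us i)) else 0) =
      ∑ x, ∑ y, (f x / 2 * (f y / 2)) * ∑ t : Bool, ∑ m ∈ R, (if m + us (y, t) ∈ R then
        (pz m * (β * U * ((if t then 2 * (m y : ℝ) else -(2 * (m y : ℝ))) + 1))) *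
          EE A R m (m + (us (y, t) + us (x, !t))) else 0) := by
    rw [hA, ← pair_sum R (fun x y => f x / 2 * (f y / 2)) (fun y t m =>
      (pz m * (β * U * ((if t then 2 * (m y : ℝ) else -(2 * (m y : ℝ))) + 1))))]
    refine Finset.sum_congr rfl fun i _ => Finset.sum_congr rfl fun j _ =>
      Finset.sum_congr rfl fun m _ => ?_
    obtain ⟨y, t⟩ := j
    rw [hD]
    split_ifs <;> ring
  rw [h1]
  have h2 : ∀ x, ∑ y, (f x / 2 * (f y / 2)) * ∑ t : Bool, ∑ m ∈ R, (if m + us (y, t) ∈ R then
        (pz m * (β * U * ((if t then 2 * (m y : ℝ) else -(2 * (m y : ℝ))) + 1))) *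
          EE A R m (m + (us (y, t) + us (x, !t))) else 0) =
      (f x / 2 * (f x / 2)) * ∑ t : Bool, ∑ m ∈ R, (if m + us (x, t) ∈ R then
        (pz m * (β * U * ((if t then 2 * (m x : ℝ) else -(2 * (m x : ℝ))) + 1))) *
          EE A R m (m + (us (x, t) + us (x, !t))) else 0) := by
    intro x
    refine Finset.sum_eq_single x (fun y _ hy => ?_) (fun h => absurd (Finset.mem_univ _) h)
    have hxy : x ≠ y := fun h => hy h.symm
    rw [Fintype.sum_bool, pair_ne a hxy true, pair_ne a hxy false, us_pair, us_pair]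
    simp only [if_true, Bool.false_eq_true, if_false]
    have e1 := shift_reindex (A := A) R (eta x y)
      (fun m => pz m * (β * U * (-(2 * (m y : ℝ)) + 1)))
    rw [e1]
    have e2 : ∀ n : V → ℤ, pz (n - eta x y) *
        (β * U * (-(2 * (((n - eta x y) y : ℤ) : ℝ)) + 1)) =
        - (pz n * (β * U * (2 * (n y : ℝ) + 1))) := by
      intro n
      have : eta x y y = -1 := by
        unfold eta
        rw [Pi.sub_apply, Pi.single_eq_same, Pi.single_eq_of_ne hxy.symm]; ring
      rw [pz_sub, Pi.sub_apply, this]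
      push_cast
      ring
    simp only [e2]
    have e3 : ∀ n : V → ℤ, EE A R (n - eta x y) n = EE A R n (n + eta y x) := by
      intro n
      rw [EE_symm hAdm, eta_neg x y, sub_eq_add_neg]
    simp only [e3, neg_mul, Finset.sum_neg_distrib]
    ring
  simp only [h2]
  rw [Finset.mul_sum, Finset.sum_mul]
  refine Finset.sum_le_sum fun x _ => ?_
  have e0 : eta x x = 0 := by unfold eta; simp
  have h3 : ∑ t : Bool, ∑ m ∈ R, (if m + us (x, t) ∈ R then
        (pz m * (β * U * ((if t then 2 * (m x : ℝ) else -(2 * (m x : ℝ))) + 1))) *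
          EE A R m (m + (us (x, t) + us (x, !t))) else 0) ≤ 2 * (β * U) * TZ A 0 R := by
    rw [Finset.sum_comm]
    unfold TZ
    rw [Finset.mul_sum]
    refine Finset.sum_le_sum fun m hm => ?_
    rw [Fintype.sum_bool, us_pair, us_pair, e0, ite_self, ite_self, add_zero]
    simp only [if_true, Bool.false_eq_true, if_false]
    have hE0 := EE_nonneg hAdm R m m
    have hp0 := pz_nonneg m
    have hE : 0 ≤ pz m * EE A R m m := mul_nonneg hp0 hE0
    have hbU : 0 ≤ β * U := mul_nonneg hβ hU
    have hmR := (mem_RM a m).1 hm x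
    have hin : ∀ t : Bool, (m + us (x, t) ∈ R) ↔ (if t then m x + 1 ≤ a else -(a:ℤ) ≤ m x - 1) := by
      intro t
      rw [hR, mem_RM]
      have hm' := (mem_RM a m).1 hm
      constructor
      · intro h
        have := h x
        unfold us at this
        cases t
        · simp at this ⊢
          omega
        · simp at this ⊢
          omega
      · intro h z
        by_cases hz : z = x
        · subst hz
          unfold us
          cases t
          · simp at h ⊢
            omega
          · simp at h ⊢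
            omega
        · have := hm' z
          unfold us
          cases t
          · simp [Pi.single_eq_of_ne hz]; exact this
          · simp [Pi.single_eq_of_ne hz]; exact this
    have h4 := hin true
    have h5 := hin false
    simp only [if_true, Bool.false_eq_true, if_false] at h4 h5
    have ha0 : (0:ℤ) ≤ a := Int.natCast_nonneg a
    have h7 : 0 ≤ β * U * (pz m * EE A R m m) := mul_nonneg hbU hE
    by_cases c1 : m + us (x, true) ∈ R
    · by_cases c2 : m + us (x, false) ∈ R
      · rw [if_pos c1, if_pos c2]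
        apply le_of_eq
        ring
      · rw [if_pos c1, if_neg c2, add_zero]
        have : m x ≤ 0 := by
          have : ¬ (-(a:ℤ) ≤ m x - 1) := fun h => c2 (h5.2 h)
          omega
        have h6 : (m x : ℝ) ≤ 0 := by exact_mod_cast this
        nlinarith
    · by_cases c2 : m + us (x, false) ∈ R
      · rw [if_neg c1, if_pos c2, zero_add]
        have : 0 ≤ m x := by
          have : ¬ (m x + 1 ≤ (a:ℤ)) := fun h => c1 (h4.2 h)
          omega
        have h6 : (0:ℝ) ≤ m x := by exact_mod_cast this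
        nlinarith
      · rw [if_neg c1, if_neg c2]
        nlinarith
  calc (f x / 2 * (f x / 2)) * _ ≤ (f x / 2 * (f x / 2)) * (2 * (β * U) * TZ A 0 R) :=
        mul_le_mul_of_nonneg_left h3 (mul_self_nonneg _)
    _ = _ := by ring

theorem dcm_boxw {β U : ℝ} (hβ : 0 ≤ β) (hU : 0 ≤ U) {w : V → V → ℝ}
    (hw : ∀ x y, 0 ≤ w x y) (f : V → ℝ) (a : ℕ) :
    (mt (ck f) (RM V (a + 4)) * (mt (ck f) (RM V (a + 4)) *
      mt (rotK β (U • (1 : Matrix V V ℝ)) w 0) (RM V (a + 4)) -
      mt (rotK β (U • (1 : Matrix V V ℝ)) w 0) (RM V (a + 4)) * mt (ck f) (RM V (a + 4))) *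
      (Pq (RM V (a + 4)) * exp (mt (rotK β (U • (1 : Matrix V V ℝ)) w 0) (RM V (a + 4))))).trace ≤
      β * U / 2 * (∑ x, f x ^ 2) * TZ (rotK β (U • (1 : Matrix V V ℝ)) w 0) 0 (RM V (a + 4)) +
      Kc β w f * tl (rotK β (U • (1 : Matrix V V ℝ)) w 0) a := by
  have hpot := dc_potw hβ hU hw f (a + 4)
  set A := rotK β (U • (1 : Matrix V V ℝ)) w 0 with hA
  have hAdm : Adm A := rotK_adm hβ _ hw 0
  set R := RM V (a + 4) with hR
  have hPq : Pq R = diagonal (fun n : R => pz (n : V → ℤ)) := rfl
  rw [comm_G, Matrix.mul_add, Matrix.add_mul, Matrix.trace_add]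
  conv_lhs => rw [ck_eq_sk]
  rw [hPq, trace_skw A R pz, trace_skw A R pz]
  have h2 : ∑ i : V × Bool, ∑ p : (V × Bool) × ((V × V) × Bool), ∑ m ∈ R,
      (if m + (us p.1 + hs p.2) ∈ R then
        f i.1 / 2 * (f p.1.1 / 2 * (β * w p.2.1.1 p.2.1.2 / 2) *
          ((if m + hs p.2 ∈ R then 1 else 0) - (if m + us p.1 ∈ R then 1 else 0))) *
          (pz m * EE A R m (m + (us p.1 + hs p.2) + us i)) else 0) ≤ Kc β w f * tl A a := by
    unfold Kc
    rw [Finset.sum_mul]
    refine Finset.sum_le_sum fun i _ => ?_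
    rw [Finset.sum_mul]
    refine Finset.sum_le_sum fun p _ => ?_
    have e1 := edge_le hAdm a ((us p.1 + hs p.2) + us i) (fun z => by
        have h1 := us_abs p.1 z
        have h2 := hs_abs p.2 z
        have h3 := us_abs i z
        rw [Pi.add_apply, Pi.add_apply]
        push_cast at h1 h2 h3 ⊢
        rw [abs_le] at h1 h2 h3 ⊢
        constructor <;> linarith [h1.1, h1.2, h2.1, h2.2, h3.1, h3.2])
      (fun m => (if m + (us p.1 + hs p.2) ∈ R then
        ((if m + hs p.2 ∈ R then 1 else 0) - (if m + us p.1 ∈ R then 1 else 0)) else 0) * pz m)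
      (fun m => by
        have h1 := pz_abs m
        rw [abs_mul]
        have h2 : |(if m + (us p.1 + hs p.2) ∈ R then
          ((if m + hs p.2 ∈ R then (1:ℝ) else 0) - (if m + us p.1 ∈ R then 1 else 0)) else 0)| ≤ 1 := by
          split_ifs <;> norm_num
        calc _ ≤ (1:ℝ) * 1 := mul_le_mul h2 h1 (abs_nonneg _) (by norm_num)
          _ = 1 := by norm_num)
      (fun m hm => by
        have h1 : m + hs p.2 ∈ R := RM_add hm 1 (hs_abs p.2)
        have h2 : m + us p.1 ∈ R := RM_add hm 1 (us_abs p.1)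
        rw [if_pos h1, if_pos h2, sub_self, ite_self, zero_mul])
    have e2 : ∑ m ∈ R, (if m + (us p.1 + hs p.2) ∈ R then
        f i.1 / 2 * (f p.1.1 / 2 * (β * w p.2.1.1 p.2.1.2 / 2) *
          ((if m + hs p.2 ∈ R then 1 else 0) - (if m + us p.1 ∈ R then 1 else 0))) *
          (pz m * EE A R m (m + (us p.1 + hs p.2) + us i)) else 0) =
        (f i.1 / 2 * (f p.1.1 / 2 * (β * w p.2.1.1 p.2.1.2 / 2))) *
        ∑ m ∈ R, ((if m + (us p.1 + hs p.2) ∈ R then
        ((if m + hs p.2 ∈ R then 1 else 0) - (if m + us p.1 ∈ R then 1 else 0)) else 0) * pz m) *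
          EE A R m (m + ((us p.1 + hs p.2) + us i)) := by
      rw [Finset.mul_sum]
      refine Finset.sum_congr rfl fun m _ => ?_
      rw [add_assoc m]
      split_ifs <;> ring
    rw [e2]
    refine (le_abs_self _).trans ?_
    rw [abs_mul]
    exact mul_le_mul_of_nonneg_left e1 (abs_nonneg _)
  exact add_le_add hpot h2

end Pool.Agent.H993.TR
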