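import Mathlib
import Pool.Agent.H993.TR.IRs

/-!
# Sectors of fixed charge
-/

namespace Pool.Agent.H993.TR

open Filter Topology NormedSpace Matrix
open scoped Kronecker MatrixOrder ComplexOrder

section map

variable {Ω Ω' : Type} [DecidableEq Ω] [DecidableEq Ω']

theorem EE_map (φ : Ω' ↪ Ω) (A : Ω → Ω → ℝ) (R' : Finset Ω') (a b : Ω') :
    EE (fun a b => A (φ a) (φ b)) R' a b = EE A (R'.map φ) (φ a) (φ b) := by
  by_cases h : a ∈ R' ∧ b ∈ R'
  · have h1 := EE_eq (fun a b => A (φ a) (φ b)) R' ⟨a, h.1⟩ ⟨b, h.2⟩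
    have h2 := EE_eq A (R'.map φ) ⟨φ a, Finset.mem_map_of_mem φ h.1⟩
      ⟨φ b, Finset.mem_map_of_mem φ h.2⟩
    simp only at h1 h2
    rw [h1, h2]
    have hsurj : ∀ u : R'.map φ, u ∈ Set.range
        (fun z : R' => (⟨φ z.1, Finset.mem_map_of_mem φ z.2⟩ : R'.map φ)) := by
      rintro ⟨u, hu⟩
      obtain ⟨z, hz, rfl⟩ := Finset.mem_map.1 hu
      exact ⟨⟨z, hz⟩, rfl⟩
    exact (exp_emb (mt A (R'.map φ)) (mt (fun a b => A (φ a) (φ b)) R')
      (fun z : R' => (⟨φ z.1, Finset.mem_map_of_mem φ z.2⟩ : R'.map φ))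
      (fun x y hxy => Subtype.ext (φ.injective (congrArg Subtype.val hxy)))
      (fun z z' => rfl) (fun u hu => absurd (hsurj u) hu) ⟨a, h.1⟩ ⟨b, h.2⟩).symm
  · have h1 : EE (fun a b => A (φ a) (φ b)) R' a b = 0 := by unfold EE; rw [dif_neg h]
    have h2 : EE A (R'.map φ) (φ a) (φ b) = 0 := by
      unfold EE
      rw [dif_neg]
      rintro ⟨h3, h4⟩
      exact h ⟨(Finset.mem_map' φ).1 h3, (Finset.mem_map' φ).1 h4⟩
    rw [h1, h2]

theorem TS_map (φ : Ω' ↪ Ω) (A : Ω → Ω → ℝ) (σ : Ω → Ω) (σ' : Ω' → Ω')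
    (h : ∀ a, σ (φ a) = φ (σ' a)) (R' : Finset Ω') :
    TS (fun a b => A (φ a) (φ b)) σ' R' = TS A σ (R'.map φ) := by
  unfold TS
  rw [Finset.sum_map]
  refine Finset.sum_congr rfl fun a _ => ?_
  rw [EE_map, h]

end map

variable {V : Type} [Fintype V] [DecidableEq V]

/-- Configurations of charge `N`. -/
abbrev Sec (V : Type) [Fintype V] (N : ℤ) : Type := {n : V → ℤ // ∑ x, n x = N}

/-- The embedding. -/
def se (V : Type) [Fintype V] (N : ℤ) : Sec V N ↪ (V → ℤ) := Function.Embedding.subtype _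

/-- The restricted kernel. -/
def rs (A : (V → ℤ) → (V → ℤ) → ℝ) (N : ℤ) (a b : Sec V N) : ℝ := A a.1 b.1

/-- The shift in a sector. -/
def sh (N : ℤ) (x y : V) (n : Sec V N) : Sec V N :=
  ⟨n.1 + eta x y, by
    simp only [Pi.add_apply, Finset.sum_add_distrib, eta_charge, add_zero]
    exact n.2⟩

theorem sh_inj (N : ℤ) (x y : V) : Function.Injective (sh N x y) := by
  intro a b h
  exact Subtype.ext (add_right_cancel (congrArg Subtype.val h))

theorem rs_adm {A : (V → ℤ) → (V → ℤ) → ℝ} (hA : Adm A) (N : ℤ) : Adm (rs A N) where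
  symm a b := hA.symm _ _
  off a b hab := hA.off _ _ fun h => hab (Subtype.ext h)

theorem TS_rs (A : (V → ℤ) → (V → ℤ) → ℝ) (N : ℤ) (x y : V) (R : Finset (Sec V N)) :
    TS (rs A N) (sh N x y) R = TS A (· + eta x y) (R.map (se V N)) :=
  TS_map (se V N) A (· + eta x y) (sh N x y) (fun _ => rfl) R

theorem TS_rs_id (A : (V → ℤ) → (V → ℤ) → ℝ) (N : ℤ) (R : Finset (Sec V N)) :
    TS (rs A N) id R = TS A id (R.map (se V N)) :=
  TS_map (se V N) A id id (fun _ => rfl) R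

theorem rs_bdd {A : (V → ℤ) → (V → ℤ) → ℝ} (hA : Adm A) (hB : Bdd A) (N : ℤ) :
    Bdd (rs A N) := by
  refine ⟨TI A id, ?_⟩
  rintro _ ⟨R, rfl⟩
  rw [TS_rs_id]
  exact TS_le_TI hA hB Function.injective_id _

theorem filter_eq_map (N : ℤ) (R : Finset (V → ℤ)) :
    R.filter (fun n => ∑ x, n x = N) =
      (R.subtype (fun n : V → ℤ => ∑ x, n x = N)).map (se V N) :=
  (Finset.subtype_map (fun n : V → ℤ => ∑ x, n x = N)).symm

/-- A set of configurations of charge `N`. -/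
theorem TS_le_sec {A : (V → ℤ) → (V → ℤ) → ℝ} (hA : Adm A) (hB : Bdd A) (N : ℤ) (x y : V)
    (R : Finset (V → ℤ)) (hR : ∀ n ∈ R, ∑ x, n x = N) :
    TS A (· + eta x y) R ≤ TI (rs A N) (sh N x y) ∧ TS A id R ≤ TI (rs A N) id := by
  have h1 : R = (R.subtype (fun n : V → ℤ => ∑ x, n x = N)).map (se V N) := by
    rw [← filter_eq_map, Finset.filter_true_of_mem hR]
  constructor
  · rw [h1, ← TS_rs]
    exact TS_le_TI (rs_adm hA N) (rs_bdd hA hB N) (sh_inj N x y) _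
  · rw [h1, ← TS_rs_id]
    exact TS_le_TI (rs_adm hA N) (rs_bdd hA hB N) Function.injective_id _

/-- The comparison inequality in sectors: arbitrary charge against charge zero. -/
theorem cmp_sec {β : ℝ} (hβ : 0 < β) {K₁ K₂ : Matrix V V ℝ} {w₁ w₂ : V → V → ℝ} (ν : V → ℝ)
    (hK : (K₂ - K₁).PosSemidef) (hK₁ : K₁.PosDef) (hK₂ : K₂.PosDef)
    (hw₂ : ∀ x y, 0 ≤ w₂ x y) (hw : ∀ x y, w₂ x y ≤ w₁ x y) (N : ℤ) (x y : V) :
    TI (rs (rotK β K₁ w₁ ν) N) id * TI (rs (rotK β K₂ w₂ 0) 0) (sh 0 x y) ≤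
      TI (rs (rotK β K₁ w₁ ν) N) (sh N x y) * TI (rs (rotK β K₂ w₂ 0) 0) id := by
  have hw₁ : ∀ x y, 0 ≤ w₁ x y := fun x y => (hw₂ x y).trans (hw x y)
  have hA₁ := rotK_adm hβ.le K₁ hw₁ ν
  have hA₂ := rotK_adm hβ.le K₂ hw₂ 0
  have hB₁ := rotK_bdd' hβ hK₁ hw₁ ν
  have hB₂ := rotK_bdd' hβ hK₂ hw₂ 0
  have hs : ∀ {K : Matrix V V ℝ}, K.PosDef → ∀ x y, K x y = K y x := by
    intro K hK x y
    have := hK.isHermitian.apply x y
    simpa using this.symm
  set A₁ := rotK β K₁ w₁ ν with hA₁d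
  set A₂ := rotK β K₂ w₂ 0 with hA₂d
  have hA := prodK_adm hA₁ hA₂
  have key : ∀ (R₁ : Finset (Sec V N)) (R₂ : Finset (Sec V 0)),
      TS (rs A₁ N) id R₁ * TS (rs A₂ 0) (sh 0 x y) R₂ ≤
      TI (rs A₁ N) (sh N x y) * TI (rs A₂ 0) id := by
    intro R₁' R₂'
    rw [TS_rs, TS_rs_id]
    set R₁ := R₁'.map (se V N) with hR₁
    set R₂ := R₂'.map (se V 0) with hR₂
    have hc₁ : ∀ n ∈ R₁, ∑ x, n x = N := by
      intro n hn
      obtain ⟨z, _, rfl⟩ := Finset.mem_map.1 hn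
      exact z.2
    have hc₂ : ∀ n ∈ R₂, ∑ x, n x = 0 := by
      intro n hn
      obtain ⟨z, _, rfl⟩ := Finset.mem_map.1 hn
      exact z.2
    rw [← TS_prod]
    set Δ : Finset (V → ℤ) := (R₁ ×ˢ R₂).image (fun z => z.1 + z.2) ∪
      (R₁ ×ˢ R₂).image (fun z => z.1 - z.2) with hΔ
    have hcΔ : ∀ n ∈ Δ, ∑ x, n x = N := by
      intro n hn
      rw [hΔ, Finset.mem_union, Finset.mem_image, Finset.mem_image] at hn
      rcases hn with ⟨z, hz, rfl⟩ | ⟨z, hz, rfl⟩
      · have hz' := Finset.mem_product.1 hz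
        simp only [Pi.add_apply, Finset.sum_add_distrib, hc₁ _ hz'.1, hc₂ _ hz'.2, add_zero]
      · have hz' := Finset.mem_product.1 hz
        simp only [Pi.sub_apply, Finset.sum_sub_distrib, hc₁ _ hz'.1, hc₂ _ hz'.2, sub_zero]
    have hsub : R₁ ×ˢ R₂ ⊆ RD Δ := by
      intro z hz
      rw [mem_RD]
      exact ⟨Finset.mem_union_left _ (Finset.mem_image_of_mem (fun z => z.1 + z.2) hz),
        Finset.mem_union_right _ (Finset.mem_image_of_mem (fun z => z.1 - z.2) hz)⟩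
    have h1 := TS_mono hA (Prod.map id (· + eta x y)) hsub
    have h2 := cmp_region β K₁ K₂ w₁ w₂ ν Δ hβ.le hK (hs hK₁) (hs hK₂) hw₂ hw x y
    have hsub2 : RD Δ ⊆ (RD Δ).image Prod.fst ×ˢ (RD Δ).image Prod.snd := by
      intro z hz
      rw [Finset.mem_product]
      exact ⟨Finset.mem_image_of_mem _ hz, Finset.mem_image_of_mem _ hz⟩
    have h3 := TS_mono hA (Prod.map (· + eta x y) id) hsub2
    rw [TS_prod] at h3
    refine (h1.trans (h2.trans h3)).trans ?_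
    have hRD : ∀ z ∈ RD Δ, ∑ x, z.1 x = N ∧ ∑ x, z.2 x = 0 := by
      intro z hz
      rw [mem_RD] at hz
      have e1 := hcΔ _ hz.1
      have e2 := hcΔ _ hz.2
      simp only [Pi.add_apply, Pi.sub_apply, Finset.sum_add_distrib,
        Finset.sum_sub_distrib] at e1 e2
      constructor <;> omega
    have hf : ∀ n ∈ (RD Δ).image Prod.fst, ∑ x, n x = N := by
      intro n hn
      obtain ⟨z, hz, rfl⟩ := Finset.mem_image.1 hn
      exact (hRD z hz).1
    have hg : ∀ n ∈ (RD Δ).image Prod.snd, ∑ x, n x = 0 := by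
      intro n hn
      obtain ⟨z, hz, rfl⟩ := Finset.mem_image.1 hn
      exact (hRD z hz).2
    have h4 := (TS_le_sec hA₁ hB₁ N x y _ hf).1
    have h5 := (TS_le_sec hA₂ hB₂ 0 x y _ hg).2
    have hnn : 0 ≤ TI (rs A₁ N) (sh N x y) :=
      (TS_nonneg (rs_adm hA₁ N) _ ∅).trans
        (TS_le_TI (rs_adm hA₁ N) (rs_bdd hA₁ hB₁ N) (sh_inj N x y) _)
    exact mul_le_mul h4 h5 (TS_nonneg hA₂ _ _) hnn
  have h1 : ∀ R₁ : Finset (Sec V N), TS (rs A₁ N) id R₁ * TI (rs A₂ 0) (sh 0 x y) ≤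
      TI (rs A₁ N) (sh N x y) * TI (rs A₂ 0) id := by
    intro R₁
    exact le_of_tendsto' ((TS_tendsto (rs_adm hA₂ 0) (rs_bdd hA₂ hB₂ 0)
      (sh_inj 0 x y)).const_mul (TS (rs A₁ N) id R₁)) fun R₂ => key R₁ R₂
  exact le_of_tendsto' ((TS_tendsto (rs_adm hA₁ N) (rs_bdd hA₁ hB₁ N)
    Function.injective_id).mul_const _) h1

/-- Kernels between different charges vanish. -/
theorem rotK_charge (β : ℝ) (K : Matrix V V ℝ) (w : V → V → ℝ) (ν : V → ℝ) (n m : V → ℤ)
    (hne : ∑ x, n x ≠ ∑ x, m x) : rotK β K w ν n m = 0 := by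
  unfold rotK cosK
  have h2 : n ≠ m := fun h => hne (by rw [h])
  have h3 : ∀ x y, n ≠ m + eta x y := by
    intro x y h
    apply hne
    rw [h]
    simp [Finset.sum_add_distrib, eta_charge]
  have h4 : ∀ x y, m ≠ n + eta x y := by
    intro x y h
    apply hne
    rw [h]
    simp [Finset.sum_add_distrib, eta_charge]
  simp [h2, h3, h4]

theorem EE_filter (β : ℝ) (K : Matrix V V ℝ) (w : V → V → ℝ) (ν : V → ℝ) (R : Finset (V → ℤ))
    (N : ℤ) (n m : V → ℤ) (hn : ∑ x, n x = N) (hm : ∑ x, m x = N) :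
    EE (rotK β K w ν) R n m = EE (rotK β K w ν) (R.filter (fun n => ∑ x, n x = N)) n m := by
  set A := rotK β K w ν with hA
  set S := R.filter (fun n => ∑ x, n x = N) with hS
  by_cases h : n ∈ R ∧ m ∈ R
  · have hn' : n ∈ S := Finset.mem_filter.2 ⟨h.1, hn⟩
    have hm' : m ∈ S := Finset.mem_filter.2 ⟨h.2, hm⟩
    have h1 := EE_eq A R ⟨n, h.1⟩ ⟨m, h.2⟩
    have h2 := EE_eq A S ⟨n, hn'⟩ ⟨m, hm'⟩
    simp only at h1 h2
    rw [h1, h2]
    refine exp_emb (mt A R) (mt A S) (fun z : S => (⟨z.1, (Finset.mem_filter.1 z.2).1⟩ : R))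
      (fun x y hxy => Subtype.ext (by simpa using hxy)) (fun z z' => rfl) ?_
      ⟨n, hn'⟩ ⟨m, hm'⟩
    intro u hu z
    apply rotK_charge
    intro h'
    apply hu
    have hz := (Finset.mem_filter.1 z.2).2
    exact ⟨⟨u.1, Finset.mem_filter.2 ⟨u.2, h'.trans hz⟩⟩, rfl⟩
  · have h1 : EE A R n m = 0 := by unfold EE; rw [dif_neg h]
    have h2 : EE A S n m = 0 := by
      unfold EE
      rw [dif_neg]
      rintro ⟨h3, h4⟩
      exact h ⟨(Finset.mem_filter.1 h3).1, (Finset.mem_filter.1 h4).1⟩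
    rw [h1, h2]

theorem TZ_eq {β : ℝ} (hβ : 0 ≤ β) {K : Matrix V V ℝ} {w : V → V → ℝ} (hw : ∀ x y, 0 ≤ w x y)
    (ν : V → ℝ) (R : Finset (V → ℤ)) (t : V → ℤ) (ht : ∑ x, t x = 0) :
    TZ (rotK β K w ν) t R = ∑ m ∈ R.filter (fun n => ∑ x, n x = 0),
      EE (rotK β K w ν) (R.filter (fun n => ∑ x, n x = 0)) (m + t) m := by
  have hA := rotK_adm hβ K hw ν
  unfold TZ
  rw [Finset.sum_filter]
  refine Finset.sum_congr rfl fun m _ => ?_
  unfold pz
  split_ifs with h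
  · rw [one_mul, EE_symm hA]
    refine EE_filter β K w ν R 0 (m + t) m ?_ h
    simp only [Pi.add_apply, Finset.sum_add_distrib, h, ht, add_zero]
  · rw [zero_mul]

theorem TZ_sec {β : ℝ} (hβ : 0 ≤ β) {K : Matrix V V ℝ} {w : V → V → ℝ} (hw : ∀ x y, 0 ≤ w x y)
    (ν : V → ℝ) (R : Finset (V → ℤ)) (x y : V) :
    TZ (rotK β K w ν) (eta x y) R = TS (rs (rotK β K w ν) 0) (sh 0 x y)
      (R.subtype (fun n : V → ℤ => ∑ x, n x = 0)) := by
  rw [TZ_eq hβ hw ν R _ (eta_charge x y), TS_rs, ← filter_eq_map]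
  rfl

theorem TZ_sec_id {β : ℝ} (hβ : 0 ≤ β) {K : Matrix V V ℝ} {w : V → V → ℝ} (hw : ∀ x y, 0 ≤ w x y)
    (ν : V → ℝ) (R : Finset (V → ℤ)) :
    TZ (rotK β K w ν) 0 R = TS (rs (rotK β K w ν) 0) id
      (R.subtype (fun n : V → ℤ => ∑ x, n x = 0)) := by
  rw [TZ_eq hβ hw ν R 0 (by simp), TS_rs_id, ← filter_eq_map]
  unfold TS
  simp only [add_zero, id]

theorem subtype_tendsto (N : ℤ) :
    Tendsto (fun a : ℕ => (RM V (a + 4)).subtype (fun n : V → ℤ => ∑ x, n x = N)) atTop atTop := by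
  have h1 := RM_tendsto (V := V)
  rw [tendsto_atTop] at h1 ⊢
  intro R
  filter_upwards [h1 (R.map (se V N))] with a ha
  intro n hn
  rw [Finset.mem_subtype]
  exact ha (Finset.mem_map_of_mem _ hn)

/-- The infrared bound in the sector of charge zero, without cut-off. -/
theorem ir_sec {β U : ℝ} (hβ : 0 < β) (hU : 0 < U) {w : V → V → ℝ} (hw0 : ∀ x, w x x = 0)
    (hw : ∀ x y, 0 ≤ w x y)
    (hrefl : ∀ x y, wg β w x y ≠ 0 → ∃ R σ, IsRefl (wg β w) R σ ∧ R x = y)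
    {f : V → ℝ} {l : ℝ} (hl : 0 < l) (hf : ∀ x, ∑ y, wg β w x y * (f x - f y) = l * f x)
    (θ : ℝ) (hθ0 : 0 ≤ θ) (hθ : θ ≤ 1 / 2) :
    θ * ((∑ x, ∑ y, f x * f y *
      TI (rs (rotK β (U • (1 : Matrix V V ℝ)) w 0) 0) (sh 0 x y)) / 2) ≤
      ((∑ x, f x ^ 2) / l + θ ^ 2 / 2 * (β * U / 2 * ∑ x, f x ^ 2)) *
        TI (rs (rotK β (U • (1 : Matrix V V ℝ)) w 0) 0) id := by
  have hpd : (U • (1 : Matrix V V ℝ)).PosDef := Matrix.PosDef.one.smul hU
  set A := rotK β (U • (1 : Matrix V V ℝ)) w 0 with hA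
  have hAdm : Adm A := rotK_adm hβ.le _ hw 0
  have hB : Bdd A := rotK_bdd' hβ hpd hw 0
  have hAdm0 := rs_adm hAdm 0
  have hB0 := rs_bdd hAdm hB 0
  set S := ∑ x, f x ^ 2 with hS
  have hS0 : 0 ≤ S := Finset.sum_nonneg fun _ _ => sq_nonneg _
  have key : ∀ a : ℕ, θ * ((∑ x, ∑ y, f x * f y * TS (rs A 0) (sh 0 x y)
        ((RM V (a + 4)).subtype (fun n : V → ℤ => ∑ x, n x = 0))) / 2 - S / 2 * tl A a) ≤
      S / l * TS (rs A 0) id ((RM V (a + 4)).subtype (fun n : V → ℤ => ∑ x, n x = 0)) +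
        θ ^ 2 / 2 * (β * U / 2 * S *
          TS (rs A 0) id ((RM V (a + 4)).subtype (fun n : V → ℤ => ∑ x, n x = 0)) +
          Kc β w f * tl A a) := by
    intro a
    set R := RM V (a + 4) with hR
    have hcc := trace_CCw hβ.le (K := U • (1 : Matrix V V ℝ)) hw (ν := 0) f a
    have hdc := dcm_boxw hβ.le hU.le hw f a
    have hgd := fun s => gd_box0 (U := U) hw0 hβ.le hw hrefl hl hf (a + 4) s
    rw [← hA, ← hR] at hcc hdc
    simp only [← hA, ← hR] at hgd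
    have hGs := mt_symm hAdm R
    set G := mt A R with hG
    have hCs := ck_symm f R
    set C := mt (ck f) R with hC
    set I := Pq R with hI
    have hIs : Iᵀ = I := Matrix.diagonal_transpose _
    have hII : I * I = I := by
      rw [hI]
      unfold Pq
      rw [Matrix.diagonal_mul_diagonal]
      congr 1
      funext n
      split_ifs <;> norm_num
    have hIG : I * G = G * I := by
      ext n m
      rw [hI]
      unfold Pq
      rw [Matrix.diagonal_mul, Matrix.mul_diagonal]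
      by_cases h : ∑ x, n.1 x = ∑ x, m.1 x
      · rw [h, mul_comm]
      · have : G n m = 0 := rotK_charge _ _ _ _ _ _ h
        rw [this, mul_zero, zero_mul]
    have hIE : I * exp G = exp G * I := by
      have := comm_exp_smul I G hIG 1
      rwa [one_smul] at this
    have hodd : (I * exp G * C).trace = 0 := by
      rw [Matrix.mul_assoc, Matrix.trace]
      refine Finset.sum_eq_zero fun n _ => ?_
      rw [Matrix.diag_apply, hI]
      unfold Pq
      rw [Matrix.diagonal_mul, Matrix.mul_apply]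
      have : ∑ m : R, exp G n m * C m n = 0 := by
        refine Finset.sum_eq_zero fun m _ => ?_
        by_cases h : ∑ x, n.1 x = ∑ x, m.1 x
        · have : C m n = 0 := by
            show ck f m.1 n.1 = 0
            unfold ck
            refine Finset.sum_eq_zero fun x _ => ?_
            unfold cs
            rw [if_neg, if_neg]
            · ring
            · intro h'
              rw [h'] at h
              simp [Finset.sum_add_distrib] at h
            · intro h'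
              rw [h'] at h
              simp [Finset.sum_add_distrib] at h
          rw [this, mul_zero]
        · have h1 := EE_eq A R n m
          have h2 := EE_charge (β := β) (K := U • (1 : Matrix V V ℝ)) (w := w) (ν := 0) R n.1 m.1 h
          rw [← hA] at h2
          rw [h2] at h1
          rw [← h1, zero_mul]
      rw [this, mul_zero]
    have hcyc : ∀ X : Matrix R R ℝ, (I * X * exp G).trace = (X * (I * exp G)).trace := by
      intro X
      rw [Matrix.mul_assoc, Matrix.trace_mul_comm, Matrix.mul_assoc, ← hIE]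
    have hZeq : (I * exp G).trace = TZ A 0 R := by
      unfold TZ
      rw [Matrix.trace, ← Finset.sum_coe_sort R (fun m => pz m * EE A R m (m + 0))]
      refine Finset.sum_congr rfl fun m _ => ?_
      rw [Matrix.diag_apply, hI]
      unfold Pq
      rw [Matrix.diagonal_mul, add_zero, EE_eq]
      rfl
    have hZ0 : 0 ≤ (I * exp G).trace := by
      rw [hZeq]
      unfold TZ
      exact Finset.sum_nonneg fun m _ => mul_nonneg (pz_nonneg m) (EE_nonneg hAdm _ _ _)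
    have hfb := proj_fb I G C hGs hCs hIs hII hIG hodd hZ0 (S / (2 * l)) hgd θ hθ0 hθ
    rw [hcyc, hcyc, hZeq] at hfb
    have h1 := (abs_le.1 hcc).1
    have h2 : θ * ((∑ x, ∑ y, f x * f y * TZ A (eta x y) R) / 2 - S / 2 * tl A a) ≤
        θ * (C * C * (I * exp G)).trace := mul_le_mul_of_nonneg_left (by linarith) hθ0
    have h3 : θ ^ 2 / 2 * (C * (C * G - G * C) * (I * exp G)).trace ≤
        θ ^ 2 / 2 * (β * U / 2 * S * TZ A 0 R + Kc β w f * tl A a) :=
      mul_le_mul_of_nonneg_left hdc (by positivity)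
    have h4 : 2 * (S / (2 * l)) = S / l := by field_simp
    rw [h4] at hfb
    have h5 := TZ_sec_id hβ.le (K := U • (1 : Matrix V V ℝ)) hw 0 R
    rw [← hA] at h5
    rw [← h5]
    have h6 : ∀ x y, TS (rs A 0) (sh 0 x y) (R.subtype (fun n : V → ℤ => ∑ x, n x = 0)) =
        TZ A (eta x y) R := fun x y => (TZ_sec hβ.le hw 0 R x y).symm
    simp only [h6]
    linarith
  have hlim1 : Tendsto (fun a : ℕ => θ * ((∑ x, ∑ y, f x * f y * TS (rs A 0) (sh 0 x y)
        ((RM V (a + 4)).subtype (fun n : V → ℤ => ∑ x, n x = 0))) / 2 - S / 2 * tl A a)) atTop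
      (𝓝 (θ * ((∑ x, ∑ y, f x * f y * TI (rs A 0) (sh 0 x y)) / 2 - S / 2 * 0))) := by
    refine Tendsto.const_mul _ (Tendsto.sub (Tendsto.div_const ?_ _)
      ((tl_tendsto hAdm hB).const_mul _))
    refine tendsto_finsetSum _ fun x _ => tendsto_finsetSum _ fun y _ => ?_
    exact ((TS_tendsto hAdm0 hB0 (sh_inj 0 x y)).comp (subtype_tendsto 0)).const_mul _
  have hZ : Tendsto (fun a : ℕ => TS (rs A 0) id
      ((RM V (a + 4)).subtype (fun n : V → ℤ => ∑ x, n x = 0))) atTop (𝓝 (TI (rs A 0) id)) :=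
    (TS_tendsto hAdm0 hB0 Function.injective_id).comp (subtype_tendsto 0)
  have hlim2 : Tendsto (fun a : ℕ => S / l * TS (rs A 0) id
      ((RM V (a + 4)).subtype (fun n : V → ℤ => ∑ x, n x = 0)) +
        θ ^ 2 / 2 * (β * U / 2 * S *
          TS (rs A 0) id ((RM V (a + 4)).subtype (fun n : V → ℤ => ∑ x, n x = 0)) +
          Kc β w f * tl A a)) atTop (𝓝 (S / l * TI (rs A 0) id +
        θ ^ 2 / 2 * (β * U / 2 * S * TI (rs A 0) id + Kc β w f * 0))) :=
    (hZ.const_mul _).add (((hZ.const_mul _).add ((tl_tendsto hAdm hB).const_mul _)).const_mul _)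
  have hfin := le_of_tendsto_of_tendsto' hlim1 hlim2 key
  rw [mul_zero, sub_zero, mul_zero, add_zero] at hfin
  refine hfin.trans (le_of_eq ?_)
  ring

/-- Choice of the parameter. -/
theorem choose_theta {l c : ℝ} (hl : 0 < l) (hc : 0 < c) : ∃ θ : ℝ, 0 < θ ∧ θ ≤ 1 / 2 ∧
    2 / (θ * l) + θ * c / 2 ≤ 8 / l + 2 * Real.sqrt (c / l) := by
  set r := Real.sqrt (l * c) with hr
  have hr0 : 0 < r := Real.sqrt_pos.2 (by positivity)
  have hr2 : r ^ 2 = l * c := Real.sq_sqrt (by positivity)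
  have hq : Real.sqrt (c / l) = r / l := by
    rw [hr, Real.sqrt_eq_iff_mul_self_eq (by positivity) (by positivity)]
    rw [← hr, div_mul_div_comm, ← pow_two r, hr2]
    field_simp
  by_cases h : 2 / r ≤ 1 / 2
  · refine ⟨2 / r, by positivity, h, ?_⟩
    have e1 : 2 / (2 / r * l) = r / l := by field_simp
    have e2 : 2 / r * c / 2 = r / l := by
      field_simp
      linarith
    rw [e1, e2, hq]
    have : 0 ≤ 8 / l := by positivity
    linarith
  · refine ⟨1 / 2, by norm_num, le_refl _, ?_⟩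
    push Not at h
    rw [lt_div_iff₀ hr0] at h
    have h1 : c / 4 ≤ 4 / l := by
      rw [div_le_div_iff₀ (by norm_num) hl]
      nlinarith
    have e1 : 2 / (1 / 2 * l) = 4 / l := by field_simp; norm_num
    have e2 : 1 / 2 * c / 2 = c / 4 := by ring
    rw [e1, e2]
    have h2 := Real.sqrt_nonneg (c / l)
    have h3 : 8 / l = 4 / l + 4 / l := by ring
    linarith

theorem ir_sec' {β U : ℝ} (hβ : 0 < β) (hU : 0 < U) {w : V → V → ℝ} (hw0 : ∀ x, w x x = 0)
    (hw : ∀ x y, 0 ≤ w x y)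
    (hrefl : ∀ x y, wg β w x y ≠ 0 → ∃ R σ, IsRefl (wg β w) R σ ∧ R x = y)
    {f : V → ℝ} {l : ℝ} (hl : 0 < l) (hf : ∀ x, ∑ y, wg β w x y * (f x - f y) = l * f x) :
    ∑ x, ∑ y, f x * f y *
      TI (rs (rotK β (U • (1 : Matrix V V ℝ)) w 0) 0) (sh 0 x y) ≤
      (8 / l + 2 * Real.sqrt (β * U / l)) * (∑ x, f x ^ 2) *
        TI (rs (rotK β (U • (1 : Matrix V V ℝ)) w 0) 0) id := by
  obtain ⟨θ, hθ0, hθ, h⟩ := choose_theta hl (mul_pos hβ hU)
  have h1 := ir_sec hβ hU hw0 hw hrefl hl hf θ hθ0.le hθ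
  have hpd : (U • (1 : Matrix V V ℝ)).PosDef := Matrix.PosDef.one.smul hU
  set A := rotK β (U • (1 : Matrix V V ℝ)) w 0 with hA
  have hAdm : Adm A := rotK_adm hβ.le _ hw 0
  set X := ∑ x, ∑ y, f x * f y * TI (rs A 0) (sh 0 x y) with hX
  set S := ∑ x, f x ^ 2 with hS
  set Z := TI (rs A 0) id with hZ
  have hS0 : 0 ≤ S := Finset.sum_nonneg fun _ _ => sq_nonneg _
  have hZ0 : 0 ≤ Z := (TS_nonneg (rs_adm hAdm 0) id ∅).trans
    (TS_le_TI (rs_adm hAdm 0) (rs_bdd hAdm (rotK_bdd' hβ hpd hw 0) 0) Function.injective_id _)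
  have h2 : X ≤ (2 / (θ * l) + θ * (β * U) / 2) * (S * Z) := by
    have h3 : X = (2 / θ) * (θ * (X / 2)) := by field_simp
    rw [h3]
    refine (mul_le_mul_of_nonneg_left h1 (by positivity)).trans (le_of_eq ?_)
    field_simp
  refine h2.trans ?_
  rw [mul_assoc (8 / l + 2 * Real.sqrt (β * U / l))]
  exact mul_le_mul_of_nonneg_right h (mul_nonneg hS0 hZ0)

end Pool.Agent.H993.TR
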