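import Mathlib
import Pool.Agent.H993.TR.Fin
import Pool.Agent.H993.TR.Sec

/-!
# Condensation in the canonical ensemble, and in ensembles of charges in a given set
-/

namespace Pool.Agent.H993.TR

open Filter Topology NormedSpace Matrix
open Pool.Agent.N657.QR (ee nnw rho side lap lam)

section can

variable {d L : ℕ} [NeZero L]

/-- Condensation in the sector of charge zero at the neutral point. -/
theorem neutral_cond0 (d : ℕ) (hd : 3 ≤ d) : ∃ C : ℝ, 0 < C ∧ ∀ (L : ℕ) [NeZero L] (U J β : ℝ),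
    Even L → 0 < U → 0 < J → 0 < β →
    (1 - C * (Real.sqrt (U / J) + 1 / (β * J))) * (Fintype.card (Fin d → ZMod L) : ℝ) ^ 2 *
      TI (rs (rotK β (U • (1 : Matrix (Fin d → ZMod L) (Fin d → ZMod L) ℝ)) (nnw J) 0) 0) id ≤
    ∑ x, ∑ y, TI (rs (rotK β (U • (1 : Matrix (Fin d → ZMod L) (Fin d → ZMod L) ℝ)) (nnw J) 0) 0)
      (sh 0 x y) := by
  obtain ⟨C, hC, hlat⟩ := lat_both d hd
  refine ⟨4 * C, by positivity, ?_⟩
  intro L _ U J β hL hU hJ hβ
  set A := rotK β (U • (1 : Matrix (Fin d → ZMod L) (Fin d → ZMod L) ℝ)) (nnw J) 0 with hA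
  have hpd : (U • (1 : Matrix (Fin d → ZMod L) (Fin d → ZMod L) ℝ)).PosDef :=
    Matrix.PosDef.one.smul hU
  have hAdm : Adm A := rotK_adm hβ.le _ (nnw_nonneg hJ.le) 0
  have hB : Bdd A := rotK_bdd' hβ hpd (nnw_nonneg hJ.le) 0
  have : Nonempty (Sec (Fin d → ZMod L) 0) := ⟨⟨0, by simp⟩⟩
  have hZ : 0 < TI (rs A 0) id := TI_pos (rs_adm hAdm 0) (rs_bdd hAdm hB 0)
  set N : ℝ := (Fintype.card (Fin d → ZMod L) : ℝ) with hN
  have hN0 : 0 < N := by
    rw [hN]
    exact_mod_cast Fintype.card_pos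
  have hG := sum_rule (fun x y : Fin d → ZMod L => TI (rs A 0) (sh 0 x y) / TI (rs A 0) id)
    (fun l => 4 * (2 / (β * J * l) + Real.sqrt (U / J) / Real.sqrt l)) (by
      intro l f hl hf
      have h1 := ir_sec' (U := U) hβ hU (nnw_self hL J) (nnw_nonneg hJ.le) (hrefl_nnw hL J β)
        (f := f) (l := β * J * l) (by positivity) (by
          intro x
          rw [wg_lap, hf]; ring)
      have h2 : ∑ x, ∑ y, f x * f y * (TI (rs A 0) (sh 0 x y) / TI (rs A 0) id) =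
          (∑ x, ∑ y, f x * f y * TI (rs A 0) (sh 0 x y)) / TI (rs A 0) id := by
        rw [Finset.sum_div]
        refine Finset.sum_congr rfl fun x _ => ?_
        rw [Finset.sum_div]
        exact Finset.sum_congr rfl fun y _ => by ring
      rw [h2, div_le_iff₀ hZ]
      refine h1.trans ?_
      have h3 : Real.sqrt (β * U / (β * J * l)) = Real.sqrt (U / J) / Real.sqrt l := by
        rw [← Real.sqrt_div' _ hl.le]
        congr 1
        field_simp
      rw [h3]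
      have h4 : 0 ≤ Real.sqrt (U / J) / Real.sqrt l := by positivity
      have h5 : 8 / (β * J * l) + 2 * (Real.sqrt (U / J) / Real.sqrt l) ≤
          4 * (2 / (β * J * l) + Real.sqrt (U / J) / Real.sqrt l) := by
        have : 4 * (2 / (β * J * l)) = 8 / (β * J * l) := by ring
        rw [mul_add, this]
        linarith
      have h6 : (0:ℝ) ≤ ∑ x, f x ^ 2 := Finset.sum_nonneg fun _ _ => sq_nonneg _
      exact mul_le_mul_of_nonneg_right (mul_le_mul_of_nonneg_right h5 h6) hZ.le)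
  have h1 : ∑ x : Fin d → ZMod L, TI (rs A 0) (sh 0 x x) / TI (rs A 0) id = N := by
    have : ∀ x : Fin d → ZMod L, TI (rs A 0) (sh 0 x x) / TI (rs A 0) id = 1 := by
      intro x
      have e : sh 0 x x = (id : Sec (Fin d → ZMod L) 0 → Sec (Fin d → ZMod L) 0) := by
        funext n
        apply Subtype.ext
        show n.1 + eta x x = n.1
        unfold eta
        simp
      rw [e, div_self hZ.ne']
    simp [this, hN]
  rw [h1, ← Finset.mul_sum] at hG
  have h2 := hlat L (Real.sqrt (U / J)) (β * J) (Real.sqrt_nonneg _) (by positivity)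
  have h3 : ∑ x, ∑ y, TI (rs A 0) (sh 0 x y) / TI (rs A 0) id =
      (∑ x, ∑ y, TI (rs A 0) (sh 0 x y)) / TI (rs A 0) id := by
    rw [Finset.sum_div]
    refine Finset.sum_congr rfl fun x _ => ?_
    rw [Finset.sum_div]
  rw [h3] at hG
  have h4 : N ≤ (∑ x, ∑ y, TI (rs A 0) (sh 0 x y)) / TI (rs A 0) id / N +
      4 * C * (Real.sqrt (U / J) + 1 / (β * J)) * N := hG.trans (by linarith)
  have h5 : (1 - 4 * C * (Real.sqrt (U / J) + 1 / (β * J))) * N ≤
      (∑ x, ∑ y, TI (rs A 0) (sh 0 x y)) / TI (rs A 0) id / N := by linarith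
  rw [le_div_iff₀ hN0, le_div_iff₀ hZ] at h5
  refine le_trans (le_of_eq ?_) h5
  ring

/-- The canonical bound, for every charge. -/
theorem can_bound (d : ℕ) (hd : 3 ≤ d) : ∃ C : ℝ, 0 < C ∧ ∀ (L : ℕ) [NeZero L] (U J β : ℝ)
    (K : Matrix (Fin d → ZMod L) (Fin d → ZMod L) ℝ)
    (w : (Fin d → ZMod L) → (Fin d → ZMod L) → ℝ) (ν : (Fin d → ZMod L) → ℝ) (N : ℤ),
    Even L → 0 < U → 0 < J → 0 < β → K.PosDef → (U • (1 : Matrix _ _ ℝ) - K).PosSemidef →
    (∀ x y, 0 ≤ w x y) → (∀ x i, J ≤ w x (x + ee i)) →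
    (1 - C * (Real.sqrt (U / J) + 1 / (β * J))) * (Fintype.card (Fin d → ZMod L) : ℝ) ^ 2 *
      TI (rs (rotK β K w ν) N) id ≤ ∑ x, ∑ y, TI (rs (rotK β K w ν) N) (sh N x y) := by
  obtain ⟨C, hC, h⟩ := neutral_cond0 d hd
  refine ⟨C, hC, ?_⟩
  intro L _ U J β K w ν N hL hU hJ hβ hK hUK hw hwJ
  have h1 := h L U J β hL hU hJ hβ
  set A₀ := rotK β (U • (1 : Matrix (Fin d → ZMod L) (Fin d → ZMod L) ℝ)) (nnw J) 0 with hA₀
  set A₁ := rotK β K w ν with hA₁
  have hpd : (U • (1 : Matrix (Fin d → ZMod L) (Fin d → ZMod L) ℝ)).PosDef :=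
    Matrix.PosDef.one.smul hU
  have hAdm : Adm A₀ := rotK_adm hβ.le _ (nnw_nonneg hJ.le) 0
  have hB : Bdd A₀ := rotK_bdd' hβ hpd (nnw_nonneg hJ.le) 0
  have : Nonempty (Sec (Fin d → ZMod L) 0) := ⟨⟨0, by simp⟩⟩
  have hZ : 0 < TI (rs A₀ 0) id := TI_pos (rs_adm hAdm 0) (rs_bdd hAdm hB 0)
  have hAdm₁ : Adm A₁ := rotK_adm hβ.le _ hw ν
  have hB₁ : Bdd A₁ := rotK_bdd' hβ hK hw ν
  have hZ₁ : 0 ≤ TI (rs A₁ N) id := (TS_nonneg (rs_adm hAdm₁ N) id ∅).trans
    (TS_le_TI (rs_adm hAdm₁ N) (rs_bdd hAdm₁ hB₁ N) Function.injective_id _)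
  have h2 : TI (rs A₁ N) id * ∑ x, ∑ y, TI (rs A₀ 0) (sh 0 x y) ≤
      (∑ x, ∑ y, TI (rs A₁ N) (sh N x y)) * TI (rs A₀ 0) id := by
    rw [Finset.mul_sum, Finset.sum_mul]
    refine Finset.sum_le_sum fun x _ => ?_
    rw [Finset.mul_sum, Finset.sum_mul]
    refine Finset.sum_le_sum fun y _ => ?_
    exact cmp_sec hβ ν hUK hK hpd (nnw_nonneg hJ.le) (nnw_le hL hw hwJ) N x y
  have h3 := mul_le_mul_of_nonneg_left h1 hZ₁
  have h4 := h3.trans h2
  have h5 : (1 - C * (Real.sqrt (U / J) + 1 / (β * J))) *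
      (Fintype.card (Fin d → ZMod L) : ℝ) ^ 2 * TI (rs A₁ N) id * TI (rs A₀ 0) id ≤
      (∑ x, ∑ y, TI (rs A₁ N) (sh N x y)) * TI (rs A₀ 0) id := by
    refine le_trans (le_of_eq ?_) h4
    ring
  exact le_of_mul_le_mul_right h5 hZ

end can

section sets

variable {V : Type} [Fintype V] [DecidableEq V]

/-- Configurations whose charge is in `T`. -/
abbrev CT (V : Type) [Fintype V] (T : Set ℤ) : Type := {n : V → ℤ // ∑ x, n x ∈ T}

/-- The embedding. -/
def te (V : Type) [Fintype V] (T : Set ℤ) : CT V T ↪ (V → ℤ) := Function.Embedding.subtype _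

/-- The restricted kernel. -/
def rt (A : (V → ℤ) → (V → ℤ) → ℝ) (T : Set ℤ) (a b : CT V T) : ℝ := A a.1 b.1

/-- The shift. -/
def sht (T : Set ℤ) (x y : V) (n : CT V T) : CT V T :=
  ⟨n.1 + eta x y, by
    simp only [Pi.add_apply, Finset.sum_add_distrib, eta_charge, add_zero]
    exact n.2⟩

theorem sht_inj (T : Set ℤ) (x y : V) : Function.Injective (sht T x y) := by
  intro a b h
  exact Subtype.ext (add_right_cancel (congrArg Subtype.val h))

theorem rt_adm {A : (V → ℤ) → (V → ℤ) → ℝ} (hA : Adm A) (T : Set ℤ) : Adm (rt A T) where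
  symm a b := hA.symm _ _
  off a b hab := hA.off _ _ fun h => hab (Subtype.ext h)

theorem TS_rt (A : (V → ℤ) → (V → ℤ) → ℝ) (T : Set ℤ) (x y : V) (R : Finset (CT V T)) :
    TS (rt A T) (sht T x y) R = TS A (· + eta x y) (R.map (te V T)) :=
  TS_map (te V T) A (· + eta x y) (sht T x y) (fun _ => rfl) R

theorem TS_rt_id (A : (V → ℤ) → (V → ℤ) → ℝ) (T : Set ℤ) (R : Finset (CT V T)) :
    TS (rt A T) id R = TS A id (R.map (te V T)) :=
  TS_map (te V T) A id id (fun _ => rfl) R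

theorem rt_bdd {A : (V → ℤ) → (V → ℤ) → ℝ} (hA : Adm A) (hB : Bdd A) (T : Set ℤ) :
    Bdd (rt A T) := by
  refine ⟨TI A id, ?_⟩
  rintro _ ⟨R, rfl⟩
  rw [TS_rt_id]
  exact TS_le_TI hA hB Function.injective_id _

/-- Decomposition into sectors. -/
theorem TS_split (β : ℝ) (K : Matrix V V ℝ) (w : V → V → ℝ) (ν : V → ℝ) (t : V → ℤ)
    (ht : ∑ x, t x = 0) (R : Finset (V → ℤ)) (Q : Finset ℤ) (hQ : ∀ n ∈ R, ∑ x, n x ∈ Q) :
    TS (rotK β K w ν) (· + t) R =
      ∑ N ∈ Q, TS (rotK β K w ν) (· + t) (R.filter (fun n => ∑ x, n x = N)) := by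
  unfold TS
  rw [← Finset.sum_fiberwise_of_maps_to (g := fun n : V → ℤ => ∑ x, n x) (t := Q) hQ]
  refine Finset.sum_congr rfl fun N _ => Finset.sum_congr rfl fun m hm => ?_
  have h := (Finset.mem_filter.1 hm).2
  refine EE_filter β K w ν R N (m + t) m ?_ h
  simp only [Pi.add_apply, Finset.sum_add_distrib, ht, add_zero]
  exact h

theorem TS_split_id (β : ℝ) (K : Matrix V V ℝ) (w : V → V → ℝ) (ν : V → ℝ)
    (R : Finset (V → ℤ)) (Q : Finset ℤ) (hQ : ∀ n ∈ R, ∑ x, n x ∈ Q) :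
    TS (rotK β K w ν) id R =
      ∑ N ∈ Q, TS (rotK β K w ν) id (R.filter (fun n => ∑ x, n x = N)) := by
  have h := TS_split β K w ν 0 (by simp) R Q hQ
  have e : (fun n : V → ℤ => n + 0) = id := by funext n; simp
  rw [e] at h
  exact h

/-- Finitely many sectors contribute less than all. -/
theorem sec_le_set {β : ℝ} (hβ : 0 < β) {K : Matrix V V ℝ} (hK : K.PosDef) {w : V → V → ℝ}
    (hw : ∀ x y, 0 ≤ w x y) (ν : V → ℝ) (T : Set ℤ) (Q : Finset ℤ) (hQ : ∀ N ∈ Q, N ∈ T)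
    (x y : V) :
    ∑ N ∈ Q, TI (rs (rotK β K w ν) N) (sh N x y) ≤ TI (rt (rotK β K w ν) T) (sht T x y) := by
  classical
  have hA := rotK_adm hβ.le K hw ν
  have hB := rotK_bdd' hβ hK hw ν
  set A := rotK β K w ν with hAd
  -- the boxes
  have hlim : Tendsto (fun a : ℕ => ∑ N ∈ Q, TS (rs A N) (sh N x y)
      ((RM V (a + 4)).subtype (fun n : V → ℤ => ∑ x, n x = N))) atTop
      (𝓝 (∑ N ∈ Q, TI (rs A N) (sh N x y))) := by
    refine tendsto_finsetSum _ fun N _ => ?_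
    exact (TS_tendsto (rs_adm hA N) (rs_bdd hA hB N) (sh_inj N x y)).comp (subtype_tendsto N)
  refine le_of_tendsto' hlim fun a => ?_
  set R := (RM V (a + 4)).filter (fun n : V → ℤ => ∑ x, n x ∈ Q) with hR
  have h1 : ∀ N ∈ Q, TS (rs A N) (sh N x y)
      ((RM V (a + 4)).subtype (fun n : V → ℤ => ∑ x, n x = N)) =
      TS A (· + eta x y) (R.filter (fun n => ∑ x, n x = N)) := by
    intro N hN
    rw [TS_rs, ← filter_eq_map]
    congr 1
    rw [hR, Finset.filter_filter]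
    refine Finset.filter_congr fun n _ => ?_
    constructor
    · intro h; exact ⟨h ▸ hN, h⟩
    · intro h; exact h.2
  rw [Finset.sum_congr rfl h1, ← TS_split β K w ν (eta x y) (eta_charge x y) R Q
    (fun n hn => (Finset.mem_filter.1 hn).2)]
  have h2 : R = (R.subtype (fun n : V → ℤ => ∑ x, n x ∈ T)).map (te V T) := by
    rw [te, Finset.subtype_map, Finset.filter_true_of_mem]
    intro n hn
    exact hQ _ (Finset.mem_filter.1 hn).2
  rw [h2, ← TS_rt]
  exact TS_le_TI (rt_adm hA T) (rt_bdd hA hB T) (sht_inj T x y) _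

/-- From sectors to ensembles. -/
theorem set_bound {β : ℝ} (hβ : 0 < β) {K : Matrix V V ℝ} (hK : K.PosDef) {w : V → V → ℝ}
    (hw : ∀ x y, 0 ≤ w x y) (ν : V → ℝ) (T : Set ℤ) (c : ℝ)
    (h : ∀ N, c * TI (rs (rotK β K w ν) N) id ≤
      ∑ x, ∑ y, TI (rs (rotK β K w ν) N) (sh N x y)) :
    c * TI (rt (rotK β K w ν) T) id ≤ ∑ x, ∑ y, TI (rt (rotK β K w ν) T) (sht T x y) := by
  classical
  have hA := rotK_adm hβ.le K hw ν
  have hB := rotK_bdd' hβ hK hw ν
  set A := rotK β K w ν with hAd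
  have hnn : 0 ≤ ∑ x, ∑ y, TI (rt A T) (sht T x y) := by
    refine Finset.sum_nonneg fun x _ => Finset.sum_nonneg fun y _ => ?_
    exact (TS_nonneg (rt_adm hA T) _ ∅).trans
      (TS_le_TI (rt_adm hA T) (rt_bdd hA hB T) (sht_inj T x y) _)
  have hlim := (TS_tendsto (rt_adm hA T) (rt_bdd hA hB T) Function.injective_id).const_mul c
  refine le_of_tendsto' hlim fun R => ?_
  rcases le_total c 0 with hc | hc
  · exact (mul_nonpos_of_nonpos_of_nonneg hc (TS_nonneg (rt_adm hA T) _ _)).trans hnn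
  set Q : Finset ℤ := R.image (fun n : CT V T => ∑ x, n.1 x) with hQ
  have hQT : ∀ N ∈ Q, N ∈ T := by
    intro N hN
    obtain ⟨n, _, rfl⟩ := Finset.mem_image.1 hN
    exact n.2
  rw [TS_rt_id, TS_split_id β K w ν (R.map (te V T)) Q (by
    intro n hn
    obtain ⟨z, hz, rfl⟩ := Finset.mem_map.1 hn
    exact Finset.mem_image_of_mem _ hz)]
  calc c * ∑ N ∈ Q, TS A id ((R.map (te V T)).filter (fun n => ∑ x, n x = N))
      ≤ c * ∑ N ∈ Q, TI (rs A N) id := by
        refine mul_le_mul_of_nonneg_left (Finset.sum_le_sum fun N _ => ?_) hc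
        rw [filter_eq_map, ← TS_rs_id]
        exact TS_le_TI (rs_adm hA N) (rs_bdd hA hB N) Function.injective_id _
    _ = ∑ N ∈ Q, c * TI (rs A N) id := by rw [Finset.mul_sum]
    _ ≤ ∑ N ∈ Q, ∑ x, ∑ y, TI (rs A N) (sh N x y) := Finset.sum_le_sum fun N _ => h N
    _ = ∑ x, ∑ y, ∑ N ∈ Q, TI (rs A N) (sh N x y) := by
        rw [Finset.sum_comm]
        refine Finset.sum_congr rfl fun x _ => ?_
        rw [Finset.sum_comm]
    _ ≤ _ := by
        refine Finset.sum_le_sum fun x _ => Finset.sum_le_sum fun y _ => ?_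
        exact sec_le_set hβ hK hw ν T Q hQT x y

/-- The trace in terms of entries. -/
theorem trace_two {Ω : Type} [DecidableEq Ω] (A B : Ω → Ω → ℝ) (R : Finset Ω) :
    (mt B R * exp (mt A R)).trace = ∑ n ∈ R, ∑ m ∈ R, B n m * EE A R m n := by
  rw [Matrix.trace, ← Finset.sum_coe_sort R (fun n => ∑ m ∈ R, B n m * EE A R m n)]
  refine Finset.sum_congr rfl fun n _ => ?_
  rw [Matrix.diag_apply, Matrix.mul_apply,
    ← Finset.sum_coe_sort R (fun m => B n m * EE A R m n)]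
  refine Finset.sum_congr rfl fun m _ => ?_
  rw [EE_eq]
  rfl

theorem trace_rt {A : (V → ℤ) → (V → ℤ) → ℝ} (hA : Adm A) (T : Set ℤ) (x y : V)
    (R : Finset (CT V T)) :
    (mt (rt (cosK x y) T) R * exp (mt (rt A T) R)).trace = TS (rt A T) (sht T x y) R := by
  rw [TS_rt, ← trace_cosK hA, trace_two, trace_two, Finset.sum_map]
  refine Finset.sum_congr rfl fun n _ => ?_
  rw [Finset.sum_map]
  refine Finset.sum_congr rfl fun m _ => ?_
  have h := EE_map (te V T) A R m n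
  rw [← h]
  rfl

/-- The ratio converges. -/
theorem ratio_tendsto {β : ℝ} (hβ : 0 < β) {K : Matrix V V ℝ} (hK : K.PosDef) {w : V → V → ℝ}
    (hw : ∀ x y, 0 ≤ w x y) (ν : V → ℝ) (T : Set ℤ) [Nonempty (CT V T)] :
    0 < TI (rt (rotK β K w ν) T) id ∧
    Tendsto (fun R : Finset (CT V T) => (∑ x, ∑ y, (mt (rt (cosK x y) T) R *
        exp (mt (rt (rotK β K w ν) T) R)).trace) / (exp (mt (rt (rotK β K w ν) T) R)).trace)
      atTop (𝓝 ((∑ x, ∑ y, TI (rt (rotK β K w ν) T) (sht T x y)) /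
        TI (rt (rotK β K w ν) T) id)) := by
  have hA := rotK_adm hβ.le K hw ν
  have hB := rotK_bdd' hβ hK hw ν
  have hpos := TI_pos (rt_adm hA T) (rt_bdd hA hB T)
  refine ⟨hpos, ?_⟩
  refine Tendsto.div ?_ ?_ hpos.ne'
  · refine tendsto_finsetSum _ fun x _ => tendsto_finsetSum _ fun y _ => ?_
    refine (TS_tendsto (rt_adm hA T) (rt_bdd hA hB T) (sht_inj T x y)).congr fun R => ?_
    rw [trace_rt hA]
  · refine (TS_tendsto (rt_adm hA T) (rt_bdd hA hB T) Function.injective_id).congr fun R => ?_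
    rw [TS_id]

end sets

end Pool.Agent.H993.TR
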