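import Mathlib
import Pool.Agent.H993.TR.Fin2

/-!
# Translation invariance and pointwise bounds
-/

namespace Pool.Agent.H993.TR

open Filter Topology NormedSpace Matrix
open Pool.Agent.N157
open Pool.Agent.N657.QR (ee nnw rho side lap lam)
open Pool.Agent.N157.QR_FOU (ps ps_add ps_neg ps_re ps_zero norm_ps dot dot_add dot_sub lap_cc lap_ss lam_pos
  cs_sq ortho BB)

variable {d L : ℕ} [NeZero L]

/-- Translation of a configuration. -/
def trn (a : Fin d → ZMod L) : ((Fin d → ZMod L) → ℤ) ≃ ((Fin d → ZMod L) → ℤ) where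
  toFun n := fun x => n (x - a)
  invFun n := fun x => n (x + a)
  left_inv n := by funext x; simp
  right_inv n := by funext x; simp

theorem trn_add (a : Fin d → ZMod L) (n m : (Fin d → ZMod L) → ℤ) :
    trn a (n + m) = trn a n + trn a m := rfl

theorem trn_eta (a x y : Fin d → ZMod L) : trn a (eta x y) = eta (x + a) (y + a) := by
  funext z
  show eta x y (z - a) = _
  unfold eta
  rw [Pi.sub_apply, Pi.sub_apply]
  have h1 : (z - a = x) ↔ (z = x + a) := sub_eq_iff_eq_add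
  have h2 : (z - a = y) ↔ (z = y + a) := sub_eq_iff_eq_add
  simp only [Pi.single_apply, h1, h2]

theorem trn_sum (a : Fin d → ZMod L) (F : ℤ → ℝ) (n : (Fin d → ZMod L) → ℤ) :
    ∑ x, F (trn a n x) = ∑ x, F (n x) :=
  (Equiv.subRight a).sum_comp (fun x => F (n x))

theorem trn_charge (a : Fin d → ZMod L) (n : (Fin d → ZMod L) → ℤ) :
    ∑ x, trn a n x = ∑ x, n x :=
  (Equiv.subRight a).sum_comp (fun x => n x)

theorem nnw_trn (J : ℝ) (a x y : Fin d → ZMod L) : nnw J (x + a) (y + a) = nnw J x y := by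
  unfold nnw
  refine Finset.sum_congr rfl fun i _ => ?_
  have : (y + a = x + a + ee i) ↔ (y = x + ee i) := by
    constructor
    · intro h
      have e : x + a + ee i = (x + ee i) + a := by abel
      rw [e] at h
      exact add_right_cancel h
    · intro h; rw [h]; abel
  simp only [this]

theorem cosK_trn (a x y : Fin d → ZMod L) (n m : (Fin d → ZMod L) → ℤ) :
    cosK (x + a) (y + a) (trn a n) (trn a m) = cosK x y n m := by
  unfold cosK
  rw [← trn_eta, ← trn_add, ← trn_add]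
  simp only [(trn a).injective.eq_iff]

theorem rotK_trn (β U J : ℝ) (a : Fin d → ZMod L) (n m : (Fin d → ZMod L) → ℤ) :
    rotK β (U • (1 : Matrix (Fin d → ZMod L) (Fin d → ZMod L) ℝ)) (nnw J) 0 (trn a n) (trn a m) =
      rotK β (U • (1 : Matrix (Fin d → ZMod L) (Fin d → ZMod L) ℝ)) (nnw J) 0 n m := by
  unfold rotK
  rw [pot_neutral, pot_neutral, trn_sum a (fun k => (k : ℝ) ^ 2)]
  have h1 : (trn a n = trn a m) ↔ (n = m) := (trn a).injective.eq_iff
  simp only [h1]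
  congr 2
  have h2 := Equiv.sum_comp (Equiv.addRight a) (fun x : Fin d → ZMod L =>
    ∑ y, nnw J x y * cosK x y (trn a n) (trn a m))
  rw [← h2]
  refine Finset.sum_congr rfl fun x _ => ?_
  have h3 := Equiv.sum_comp (Equiv.addRight a) (fun y : Fin d → ZMod L =>
    nnw J (Equiv.addRight a x) y * cosK (Equiv.addRight a x) y (trn a n) (trn a m))
  rw [← h3]
  refine Finset.sum_congr rfl fun y _ => ?_
  simp only [Equiv.coe_addRight]
  rw [nnw_trn, cosK_trn]

/-- Translation within a sector. -/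
def trs (N : ℤ) (a : Fin d → ZMod L) : Sec (Fin d → ZMod L) N ↪ Sec (Fin d → ZMod L) N where
  toFun n := ⟨trn a n.1, by rw [trn_charge]; exact n.2⟩
  inj' := by
    intro n m h
    exact Subtype.ext ((trn a).injective (congrArg Subtype.val h))

theorem TI_trn_le {β U J : ℝ} (hβ : 0 < β) (hU : 0 < U) (hJ : 0 ≤ J) (N : ℤ)
    (a x y : Fin d → ZMod L) :
    TI (rs (rotK β (U • (1 : Matrix (Fin d → ZMod L) (Fin d → ZMod L) ℝ)) (nnw J) 0) N)
      (sh N x y) ≤
    TI (rs (rotK β (U • (1 : Matrix (Fin d → ZMod L) (Fin d → ZMod L) ℝ)) (nnw J) 0) N)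
      (sh N (x + a) (y + a)) := by
  have hpd : (U • (1 : Matrix (Fin d → ZMod L) (Fin d → ZMod L) ℝ)).PosDef :=
    Matrix.PosDef.one.smul hU
  set A := rotK β (U • (1 : Matrix (Fin d → ZMod L) (Fin d → ZMod L) ℝ)) (nnw J) 0 with hA
  have hAdm : Adm A := rotK_adm hβ.le _ (nnw_nonneg hJ) 0
  have hB : Bdd A := rotK_bdd' hβ hpd (nnw_nonneg hJ) 0
  refine le_of_tendsto' (TS_tendsto (rs_adm hAdm N) (rs_bdd hAdm hB N) (sh_inj N x y)) fun R => ?_
  have h1 := TS_map (trs N a) (rs A N) (sh N (x + a) (y + a)) (sh N x y) (fun n => by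
    apply Subtype.ext
    show trn a n.1 + eta (x + a) (y + a) = trn a (n.1 + eta x y)
    rw [trn_add, trn_eta]) R
  have h2 : (fun n m => rs A N (trs N a n) (trs N a m)) = rs A N := by
    funext n m
    exact rotK_trn β U J a n.1 m.1
  rw [h2] at h1
  rw [h1]
  exact TS_le_TI (rs_adm hAdm N) (rs_bdd hAdm hB N) (sh_inj N _ _) _

theorem TI_trn {β U J : ℝ} (hβ : 0 < β) (hU : 0 < U) (hJ : 0 ≤ J) (N : ℤ)
    (a x y : Fin d → ZMod L) :
    TI (rs (rotK β (U • (1 : Matrix (Fin d → ZMod L) (Fin d → ZMod L) ℝ)) (nnw J) 0) N)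
      (sh N (x + a) (y + a)) =
    TI (rs (rotK β (U • (1 : Matrix (Fin d → ZMod L) (Fin d → ZMod L) ℝ)) (nnw J) 0) N)
      (sh N x y) := by
  refine le_antisymm ?_ (TI_trn_le hβ hU hJ N a x y)
  have h := TI_trn_le (L := L) hβ hU hJ N (-a) (x + a) (y + a)
  simpa using h

theorem TI_swap {β : ℝ} (hβ : 0 < β) {V : Type} [Fintype V] [DecidableEq V] {K : Matrix V V ℝ}
    (hK : K.PosDef) {w : V → V → ℝ} (hw : ∀ x y, 0 ≤ w x y) (ν : V → ℝ) (N : ℤ) (x y : V) :
    TI (rs (rotK β K w ν) N) (sh N y x) = TI (rs (rotK β K w ν) N) (sh N x y) := by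
  have hAdm : Adm (rotK β K w ν) := rotK_adm hβ.le _ hw ν
  have h1 : TS (rs (rotK β K w ν) N) (sh N y x) = TS (rs (rotK β K w ν) N) (sh N x y) := by
    funext R
    rw [TS_rs, TS_rs, eta_neg x y]
    exact TS_eta_swap hAdm _ _
  unfold TI
  rw [h1]

/-- `1 - cos (k z)`. -/
noncomputable def oc (k z : Fin d → ZMod L) : ℝ := 1 - (ps (dot k z)).re

theorem oc_nonneg (k z : Fin d → ZMod L) : 0 ≤ oc k z := by
  unfold oc
  have := Complex.re_le_norm (ps (dot k z))
  rw [norm_ps] at this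
  linarith

theorem oc_le (k z : Fin d → ZMod L) : oc k z ≤ 2 := by
  unfold oc
  have h1 := Complex.abs_re_le_norm (ps (dot k z))
  rw [norm_ps] at h1
  have := (abs_le.1 h1).1
  linarith

theorem oc_zero (z : Fin d → ZMod L) : oc 0 z = 0 := by
  unfold oc
  have : dot (0 : Fin d → ZMod L) z = 0 := by simp [dot]
  rw [this, ps_zero]
  simp

theorem re_dot_sub (k x y : Fin d → ZMod L) :
    (ps (dot k (x - y))).re = QR_FOU.cc k x * QR_FOU.cc k y + QR_FOU.ss k x * QR_FOU.ss k y := by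
  rw [dot_sub, sub_eq_add_neg, ps_add, ps_neg, Complex.mul_re, Complex.conj_re, Complex.conj_im]
  unfold QR_FOU.cc QR_FOU.ss
  ring

/-- The weighted Plancherel formula. -/
theorem planch_oc (G : (Fin d → ZMod L) → (Fin d → ZMod L) → ℝ)
    (z : Fin d → ZMod L) :
    ∑ k, (BB G (QR_FOU.cc k) + BB G (QR_FOU.ss k)) * oc k z =
      (Fintype.card (Fin d → ZMod L) : ℝ) * ∑ x, (G x x - (G (x + z) x + G x (x + z)) / 2) := by
  set n : ℝ := (Fintype.card (Fin d → ZMod L) : ℝ) with hn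
  have h1 : ∀ k : Fin d → ZMod L, (BB G (QR_FOU.cc k) + BB G (QR_FOU.ss k)) * oc k z =
      ∑ x, ∑ y, (QR_FOU.cc k x * QR_FOU.cc k y + QR_FOU.ss k x * QR_FOU.ss k y) * G x y -
      (∑ x, ∑ y, ((QR_FOU.cc k x * QR_FOU.cc k (y + z) + QR_FOU.ss k x * QR_FOU.ss k (y + z)) * G x y) / 2 +
        ∑ x, ∑ y, ((QR_FOU.cc k (x + z) * QR_FOU.cc k y + QR_FOU.ss k (x + z) * QR_FOU.ss k y) * G x y) / 2) := by
    intro k
    have e1 : BB G (QR_FOU.cc k) + BB G (QR_FOU.ss k) =
        ∑ x, ∑ y, (QR_FOU.cc k x * QR_FOU.cc k y + QR_FOU.ss k x * QR_FOU.ss k y) * G x y := by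
      unfold BB
      rw [← Finset.sum_add_distrib]
      refine Finset.sum_congr rfl fun x _ => ?_
      rw [← Finset.sum_add_distrib]
      exact Finset.sum_congr rfl fun y _ => by ring
    rw [e1]
    unfold oc
    rw [mul_sub, mul_one, ← Finset.sum_add_distrib]
    congr 1
    rw [Finset.sum_mul]
    refine Finset.sum_congr rfl fun x _ => ?_
    rw [← Finset.sum_add_distrib, Finset.sum_mul]
    refine Finset.sum_congr rfl fun y _ => ?_
    have e2 : ∀ y : Fin d → ZMod L, QR_FOU.cc k (y + z) = QR_FOU.cc k y * (ps (dot k z)).re -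
        QR_FOU.ss k y * (ps (dot k z)).im := by
      intro y
      unfold QR_FOU.cc QR_FOU.ss
      rw [dot_add, ps_add, Complex.mul_re]
    have e3 : ∀ y : Fin d → ZMod L, QR_FOU.ss k (y + z) = QR_FOU.cc k y * (ps (dot k z)).im +
        QR_FOU.ss k y * (ps (dot k z)).re := by
      intro y
      unfold QR_FOU.cc QR_FOU.ss
      rw [dot_add, ps_add, Complex.mul_im]
    rw [e2, e3, e2, e3]
    ring
  simp only [h1]
  rw [Finset.sum_sub_distrib, Finset.sum_add_distrib]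
  have h2 : ∀ (F : (Fin d → ZMod L) → (Fin d → ZMod L) → Fin d → ZMod L)
      (H : (Fin d → ZMod L) → (Fin d → ZMod L) → Fin d → ZMod L),
      ∑ k : Fin d → ZMod L, ∑ x, ∑ y, (QR_FOU.cc k (F x y) * QR_FOU.cc k (H x y) +
        QR_FOU.ss k (F x y) * QR_FOU.ss k (H x y)) * G x y =
      ∑ x, ∑ y, (if F x y = H x y then n else 0) * G x y := by
    intro F H
    rw [Finset.sum_comm]
    refine Finset.sum_congr rfl fun x _ => ?_
    rw [Finset.sum_comm]
    refine Finset.sum_congr rfl fun y _ => ?_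
    rw [← Finset.sum_mul, ortho]
  have h3 := h2 (fun x _ => x) (fun _ y => y)
  have h4 := h2 (fun x _ => x) (fun _ y => y + z)
  have h5 := h2 (fun x _ => x + z) (fun _ y => y)
  simp only [← Finset.sum_div]
  rw [h3, h4, h5]
  have e3 : ∑ x : Fin d → ZMod L, ∑ y, (if x = y then n else 0) * G x y = n * ∑ x, G x x := by
    rw [Finset.mul_sum]
    refine Finset.sum_congr rfl fun x _ => ?_
    simp only [ite_mul, zero_mul]
    rw [Finset.sum_ite_eq, if_pos (Finset.mem_univ x)]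
  have e4 : ∑ x : Fin d → ZMod L, ∑ y, (if x = y + z then n else 0) * G x y =
      n * ∑ x, G (x + z) x := by
    rw [Finset.mul_sum, Finset.sum_comm]
    refine Finset.sum_congr rfl fun y _ => ?_
    simp only [ite_mul, zero_mul]
    rw [Finset.sum_ite_eq', if_pos (Finset.mem_univ _)]
  have e5 : ∑ x : Fin d → ZMod L, ∑ y, (if x + z = y then n else 0) * G x y =
      n * ∑ x, G x (x + z) := by
    rw [Finset.mul_sum]
    refine Finset.sum_congr rfl fun x _ => ?_
    simp only [ite_mul, zero_mul]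
    rw [Finset.sum_ite_eq, if_pos (Finset.mem_univ _)]
  rw [e3, e4, e5, Finset.sum_sub_distrib, ← Finset.sum_div, Finset.sum_add_distrib]
  ring

/-- The pointwise bound at the neutral point. -/
theorem ptw_neutral {U J β : ℝ} (hL : Even L) (hU : 0 < U) (hJ : 0 < J) (hβ : 0 < β)
    (x y : Fin d → ZMod L) :
    (TI (rs (rotK β (U • (1 : Matrix (Fin d → ZMod L) (Fin d → ZMod L) ℝ)) (nnw J) 0) 0) id -
      TI (rs (rotK β (U • (1 : Matrix (Fin d → ZMod L) (Fin d → ZMod L) ℝ)) (nnw J) 0) 0)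
        (sh 0 x y)) * (Fintype.card (Fin d → ZMod L) : ℝ) ≤
    (∑ k ∈ (Finset.univ : Finset (Fin d → ZMod L)).erase 0,
      (8 / (β * J * lam k) + 2 * Real.sqrt (U / J) / Real.sqrt (lam k)) * oc k (x - y)) *
      TI (rs (rotK β (U • (1 : Matrix (Fin d → ZMod L) (Fin d → ZMod L) ℝ)) (nnw J) 0) 0) id := by
  set A := rotK β (U • (1 : Matrix (Fin d → ZMod L) (Fin d → ZMod L) ℝ)) (nnw J) 0 with hA
  have hpd : (U • (1 : Matrix (Fin d → ZMod L) (Fin d → ZMod L) ℝ)).PosDef :=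
    Matrix.PosDef.one.smul hU
  have hAdm : Adm A := rotK_adm hβ.le _ (nnw_nonneg hJ.le) 0
  have hB : Bdd A := rotK_bdd' hβ hpd (nnw_nonneg hJ.le) 0
  set Z := TI (rs A 0) id with hZd
  have hZ : 0 ≤ Z := (TS_nonneg (rs_adm hAdm 0) id ∅).trans
    (TS_le_TI (rs_adm hAdm 0) (rs_bdd hAdm hB 0) Function.injective_id _)
  set G : (Fin d → ZMod L) → (Fin d → ZMod L) → ℝ := fun x y => TI (rs A 0) (sh 0 x y) with hG
  set n : ℝ := (Fintype.card (Fin d → ZMod L) : ℝ) with hn
  have hn0 : 0 < n := by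
    rw [hn]
    exact_mod_cast Fintype.card_pos
  have hdiag : ∀ x, G x x = Z := by
    intro x
    have e : sh 0 x x = (id : Sec (Fin d → ZMod L) 0 → Sec (Fin d → ZMod L) 0) := by
      funext n
      apply Subtype.ext
      show n.1 + eta x x = n.1
      unfold eta
      simp
    rw [hG, hZd]
    simp only
    rw [e]
  set z := x - y with hz
  have htr : ∀ u : Fin d → ZMod L, G (u + z) u = G x y ∧ G u (u + z) = G x y := by
    intro u
    have h1 : G (u + z) u = G x y := by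
      have h := TI_trn (L := L) hβ hU hJ.le 0 (u - y) x y
      have e1 : x + (u - y) = u + z := by rw [hz]; abel
      have e2 : y + (u - y) = u := by abel
      rw [e1, e2] at h
      exact h
    refine ⟨h1, ?_⟩
    rw [← h1]
    exact TI_swap hβ hpd (nnw_nonneg hJ.le) 0 0 (u + z) u
  have hpl := planch_oc G z
  have hright : ∑ x', (G x' x' - (G (x' + z) x' + G x' (x' + z)) / 2) = n * (Z - G x y) := by
    have : ∀ x', G x' x' - (G (x' + z) x' + G x' (x' + z)) / 2 = Z - G x y := by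
      intro x'
      rw [hdiag, (htr x').1, (htr x').2]
      ring
    simp only [this]
    rw [Finset.sum_const, Finset.card_univ, nsmul_eq_mul]
  rw [hright] at hpl
  have hir : ∀ (l : ℝ) (f : (Fin d → ZMod L) → ℝ), 0 < l → (∀ x, lap f x = l * f x) →
      (∑ x, ∑ y, f x * f y * G x y) ≤
        (8 / (β * J * l) + 2 * Real.sqrt (U / J) / Real.sqrt l) * (∑ x, f x ^ 2) * Z := by
    intro l f hl hf
    have h1 := ir_sec' (U := U) hβ hU (nnw_self hL J) (nnw_nonneg hJ.le) (hrefl_nnw hL J β)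
      (f := f) (l := β * J * l) (by positivity) (by
        intro x
        rw [wg_lap, hf]; ring)
    have h3 : Real.sqrt (β * U / (β * J * l)) = Real.sqrt (U / J) / Real.sqrt l := by
      rw [← Real.sqrt_div' _ hl.le]
      congr 1
      field_simp
    rw [h3, ← mul_div_assoc] at h1
    exact h1
  have hk : ∀ k ∈ (Finset.univ : Finset (Fin d → ZMod L)).erase 0,
      (BB G (QR_FOU.cc k) + BB G (QR_FOU.ss k)) * oc k z ≤
      ((8 / (β * J * lam k) + 2 * Real.sqrt (U / J) / Real.sqrt (lam k)) * oc k z) * (n * Z) := by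
    intro k hk
    have hk0 := Finset.ne_of_mem_erase hk
    have h1 := hir (lam k) (QR_FOU.cc k) (lam_pos k hk0) (fun x => lap_cc k x)
    have h2 := hir (lam k) (QR_FOU.ss k) (lam_pos k hk0) (fun x => lap_ss k x)
    have h3 : (∑ x, QR_FOU.cc k x ^ 2) + ∑ x, QR_FOU.ss k x ^ 2 = n := by
      rw [← Finset.sum_add_distrib, Finset.sum_congr rfl fun x _ => cs_sq k x, hn]
      simp
    have h4 : BB G (QR_FOU.cc k) + BB G (QR_FOU.ss k) ≤
        (8 / (β * J * lam k) + 2 * Real.sqrt (U / J) / Real.sqrt (lam k)) * (n * Z) := by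
      unfold BB
      refine (add_le_add h1 h2).trans (le_of_eq ?_)
      rw [← h3]
      ring
    refine (mul_le_mul_of_nonneg_right h4 (oc_nonneg k z)).trans (le_of_eq ?_)
    ring
  have hsum := Finset.sum_le_sum hk
  rw [← Finset.sum_mul] at hsum
  rw [← Finset.add_sum_erase _ _ (Finset.mem_univ (0 : Fin d → ZMod L)), oc_zero, mul_zero,
    zero_add] at hpl
  rw [hpl] at hsum
  have h6 : n * ((Z - G x y) * n) ≤ n * ((∑ k ∈ (Finset.univ : Finset (Fin d → ZMod L)).erase 0,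
      (8 / (β * J * lam k) + 2 * Real.sqrt (U / J) / Real.sqrt (lam k)) * oc k z) * Z) := by
    refine le_trans (le_of_eq ?_) (hsum.trans (le_of_eq ?_))
    · ring
    · ring
  exact le_of_mul_le_mul_left h6 hn0

/-- The pointwise bound in general: arbitrary charge, offsets, interaction and hopping. -/
theorem ptw_bound {U J β : ℝ} {K : Matrix (Fin d → ZMod L) (Fin d → ZMod L) ℝ}
    {w : (Fin d → ZMod L) → (Fin d → ZMod L) → ℝ} (ν : (Fin d → ZMod L) → ℝ) (N : ℤ)
    (hL : Even L) (hU : 0 < U) (hJ : 0 < J) (hβ : 0 < β) (hK : K.PosDef)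
    (hUK : (U • (1 : Matrix (Fin d → ZMod L) (Fin d → ZMod L) ℝ) - K).PosSemidef)
    (hw : ∀ x y, 0 ≤ w x y) (hwJ : ∀ x i, J ≤ w x (x + ee i)) (x y : Fin d → ZMod L) (S : ℝ)
    (hS : ∑ k ∈ (Finset.univ : Finset (Fin d → ZMod L)).erase 0,
      (8 / (β * J * lam k) + 2 * Real.sqrt (U / J) / Real.sqrt (lam k)) * oc k (x - y) ≤
      S * (Fintype.card (Fin d → ZMod L) : ℝ)) :
    (1 - S) * TI (rs (rotK β K w ν) N) id ≤ TI (rs (rotK β K w ν) N) (sh N x y) := by
  have h1 := ptw_neutral (U := U) hL hU hJ hβ x y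
  set A₀ := rotK β (U • (1 : Matrix (Fin d → ZMod L) (Fin d → ZMod L) ℝ)) (nnw J) 0 with hA₀
  set A₁ := rotK β K w ν with hA₁
  have hpd : (U • (1 : Matrix (Fin d → ZMod L) (Fin d → ZMod L) ℝ)).PosDef :=
    Matrix.PosDef.one.smul hU
  have hAdm : Adm A₀ := rotK_adm hβ.le _ (nnw_nonneg hJ.le) 0
  have hB : Bdd A₀ := rotK_bdd' hβ hpd (nnw_nonneg hJ.le) 0
  have : Nonempty (Sec (Fin d → ZMod L) 0) := ⟨⟨0, by simp⟩⟩
  have hZ : 0 < TI (rs A₀ 0) id := TI_pos (rs_adm hAdm 0) (rs_bdd hAdm hB 0)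
  have hAdm₁ : Adm A₁ := rotK_adm hβ.le _ hw ν
  have hB₁ : Bdd A₁ := rotK_bdd' hβ hK hw ν
  have hZ₁ : 0 ≤ TI (rs A₁ N) id := (TS_nonneg (rs_adm hAdm₁ N) id ∅).trans
    (TS_le_TI (rs_adm hAdm₁ N) (rs_bdd hAdm₁ hB₁ N) Function.injective_id _)
  have hn0 : (0:ℝ) < (Fintype.card (Fin d → ZMod L) : ℝ) := by exact_mod_cast Fintype.card_pos
  have h2 : (TI (rs A₀ 0) id - TI (rs A₀ 0) (sh 0 x y)) ≤ S * TI (rs A₀ 0) id := by
    have h3 := h1.trans (mul_le_mul_of_nonneg_right hS hZ.le)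
    have h4 : (TI (rs A₀ 0) id - TI (rs A₀ 0) (sh 0 x y)) *
        (Fintype.card (Fin d → ZMod L) : ℝ) ≤
        (S * TI (rs A₀ 0) id) * (Fintype.card (Fin d → ZMod L) : ℝ) := by
      refine h3.trans (le_of_eq ?_)
      ring
    exact le_of_mul_le_mul_right h4 hn0
  have h3 : (1 - S) * TI (rs A₀ 0) id ≤ TI (rs A₀ 0) (sh 0 x y) := by linarith
  have h4 := cmp_sec hβ ν hUK hK hpd (nnw_nonneg hJ.le) (nnw_le hL hw hwJ) N x y
  have h5 := mul_le_mul_of_nonneg_left h3 hZ₁
  have h6 : (1 - S) * TI (rs A₁ N) id * TI (rs A₀ 0) id ≤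
      TI (rs A₁ N) (sh N x y) * TI (rs A₀ 0) id := by
    refine le_trans (le_of_eq ?_) (h5.trans h4)
    ring
  exact le_of_mul_le_mul_right h6 hZ

end Pool.Agent.H993.TR
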